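import Pool.Agent.H3NG.Cyc

/-!
# Module Local : three branches cannot all be inconsistent

* `last_unique`: the witness `k` is the least `k` with `σ (t - k) = σ' (t - k)`.
* `last_of_al`: write `τ = root (ch s) t`, `t = τ + i`, `i < up (ch s) τ`.  Both signals have exactly one change in the
  segment `[τ, τ + up)`, at `τ + p` and `τ + q`, and both have the value `s τ ≠ 0` at `τ`; so `σ (τ + j) = s τ` for
  `j ≤ p` and `= - s τ` for `p < j ≤ i`; same for `σ'` and `q`.  As `σ t ≠ σ' t`, `min p q < i ≤ max p q`; take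
  `k = i - min p q`.
* `three_branches`: suppose no branch is consistent.  For `i < j` the four blocks `(z_i,y_i), (y_i,x), (x,y_j), (y_j,z_j)` are
  aligned with `e = s4 z_i z_j (root t) ≠ 0`.  By antisymmetry and `last_of_al`: with
  `L_i q := Last (σ x y_i) (σ y_i z_i) t q` we get `L_i (-e_ij)` and `L_j (e_ij)`.  By uniqueness
  `-e_12 = -e_13`, `e_12 = -e_23`, `e_13 = e_23`: contradiction with `e_12 ≠ 0`.
-/

set_option autoImplicit false

open Finset

namespace Pool.Agent.H3NG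

variable {T : ℕ} [NeZero T]

theorem last_unique {σ σ' : ZMod T → SignType} {t : ZMod T} {q q' : SignType}
    (h : Last σ σ' t q) (h' : Last σ σ' t q') : q = q' := by
  obtain ⟨k, hk, h1, h2⟩ := h
  obtain ⟨k', hk', h1', h2'⟩ := h'
  rcases lt_trichotomy k k' with hlt | heq | hgt
  · exact absurd (h1.trans h2.symm) (hk' k hlt)
  · subst heq
    exact h1.symm.trans h1'
  · exact absurd (h1'.trans h2'.symm) (hk k' hgt)

private theorem sign_neg_of_ne {a b : SignType} (ha : a ≠ 0) (hb : b ≠ 0) (h : b ≠ a) : b = -a := by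
  revert a b; decide

private theorem val_of_al {σ s : ZMod T → SignType} (hne : (ch s).Nonempty)
    (hσ : ∀ t, σ t ≠ 0) {τ : ZMod T} (hτ : τ ∈ ch s) (h : al σ s τ) :
    ∃ p < up (ch s) τ, ∀ j < up (ch s) τ, σ (τ + (j : ZMod T)) = if j ≤ p then s τ else - s τ := by
  classical
  obtain ⟨h0, h1⟩ := h
  unfold cnt at h1
  obtain ⟨a, ha⟩ := Finset.card_eq_one.mp h1
  have hmem : ∀ t, (t ∈ ch σ ∧ root (ch s) t = τ) ↔ t = a := by
    intro t
    have := Finset.ext_iff.mp ha t
    simpa using this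
  obtain ⟨haσ, har⟩ := (hmem a).mpr rfl
  obtain ⟨p, hp, hap⟩ := exists_root_add (A := ch s) hne a
  rw [har] at hp hap
  refine ⟨p, hp, ?_⟩
  intro j
  induction j with
  | zero => intro _; simp [h0]
  | succ j ih =>
    intro hj
    have hj' : j < up (ch s) τ := by omega
    have ih' := ih hj'
    have hcast : τ + ((j + 1 : ℕ) : ZMod T) = (τ + (j : ZMod T)) + 1 := by push_cast; ring
    have hroot := root_add hτ hj'
    by_cases hc : τ + (j : ZMod T) ∈ ch σ
    · have hja : τ + (j : ZMod T) = a := (hmem _).mp ⟨hc, hroot⟩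
      have hjp : j = p := add_inj hne hj' hp (hja.trans hap)
      subst hjp
      have hne' : σ (τ + (j : ZMod T)) ≠ σ (τ + (j : ZMod T) + 1) := by
        simpa [ch] using hc
      rw [hcast, if_neg (by omega)]
      rw [if_pos le_rfl] at ih'
      apply sign_neg_of_ne
      · rw [← ih']; exact hσ _
      · exact hσ _
      · rw [← ih']; exact fun h => hne' h.symm
    · have heq : σ (τ + (j : ZMod T)) = σ (τ + (j : ZMod T) + 1) := by
        by_contra hcon
        exact hc (by simpa [ch] using hcon)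
      have hjp : j ≠ p := by
        rintro rfl
        exact hc (by rw [← hap]; exact haσ)
      rw [hcast, ← heq, ih']
      by_cases hle : j ≤ p
      · rw [if_pos hle, if_pos (by omega)]
      · rw [if_neg hle, if_neg (by omega)]

private theorem nz_of_al {σ s : ZMod T → SignType} (hs : Ph s)
    (hσ : (∀ t, σ t = 0) ∨ (∀ t, σ t ≠ 0)) {τ : ZMod T} (h : al σ s τ) : ∀ t, σ t ≠ 0 := by
  rcases hσ with h0 | h1
  · exfalso
    have := h.1
    rw [h0 τ] at this
    exact hs τ this.symm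
  · exact h1

theorem last_of_al {σ σ' s : ZMod T → SignType} (hs : Ph s) (hne : (ch s).Nonempty)
    (hσ : (∀ t, σ t = 0) ∨ (∀ t, σ t ≠ 0)) (hσ' : (∀ t, σ' t = 0) ∨ (∀ t, σ' t ≠ 0)) {t : ZMod T}
    (h1 : al σ s (root (ch s) t)) (h2 : al σ' s (root (ch s) t)) (h : σ t ≠ σ' t) :
    Last σ σ' t (s (root (ch s) t)) := by
  have hτ := root_mem hne t
  obtain ⟨i, hi, hti⟩ := exists_root_add hne t
  set τ := root (ch s) t with hτdef
  obtain ⟨p, hp, hpv⟩ := val_of_al hne (nz_of_al hs hσ h1) hτ h1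
  obtain ⟨q, hq, hqv⟩ := val_of_al hne (nz_of_al hs hσ' h2) hτ h2
  have hv1 := hpv i hi
  have hv2 := hqv i hi
  rw [← hti] at hv1 hv2
  have hneg : s τ ≠ - s τ := by
    have := hs τ
    revert this
    generalize s τ = e
    revert e; decide
  have hback : ∀ k ≤ i, t - (k : ZMod T) = τ + ((i - k : ℕ) : ZMod T) := by
    intro k hk
    rw [Nat.cast_sub hk, hti]
    ring
  -- exactly one of `i ≤ p`, `i ≤ q`
  have key : min p q < i ∧ i ≤ max p q := by
    by_cases hip : i ≤ p <;> by_cases hiq : i ≤ q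
    · exfalso; apply h; rw [hv1, hv2, if_pos hip, if_pos hiq]
    · constructor <;> omega
    · constructor <;> omega
    · exfalso; apply h; rw [hv1, hv2, if_neg hip, if_neg hiq]
  obtain ⟨hk1, hk2⟩ := key
  refine ⟨i - min p q, ?_, ?_, ?_⟩
  · intro j hj
    have hji : j ≤ i := by omega
    rw [hback j hji, hpv _ (by omega), hqv _ (by omega)]
    by_cases hpq : p ≤ q
    · rw [if_neg (by omega), if_pos (by omega)]
      exact fun h => hneg h.symm
    · rw [if_pos (by omega), if_neg (by omega)]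
      exact hneg
  · rw [hback _ (by omega), hpv _ (by omega), if_pos (by omega)]
  · rw [hback _ (by omega), hqv _ (by omega), if_pos (by omega)]

variable {V : Type}

private theorem last_neg {σ σ' ρ ρ' : ZMod T → SignType} {t : ZMod T} {q : SignType}
    (h : Last σ σ' t q) (h1 : ∀ t, σ t = - ρ' t) (h2 : ∀ t, σ' t = - ρ t) : Last ρ ρ' t (-q) := by
  obtain ⟨k, hk, ha, hb⟩ := h
  refine ⟨k, ?_, ?_, ?_⟩
  · intro i hi hcon
    apply hk i hi
    rw [h1, h2, hcon]
  · rw [← hb, h2, neg_neg]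
  · rw [← ha, h1, neg_neg]

private theorem pair_last {σ s4 : V → V → ZMod T → SignType} (hσ : Sig σ) (h4 : ∀ x y, Ph (s4 x y))
    (x y z y' z' : V) (t : ZMod T) (h : ¬ NAp σ s4 4 (p5 z y x y' z') t)
    (hc : ¬ Con σ t x y z) (hc' : ¬ Con σ t x y' z') :
    ∃ e : SignType, e ≠ 0 ∧ Last (σ x y) (σ y z) t (-e) ∧ Last (σ x y') (σ y' z') t e := by
  unfold NAp at h
  push Not at h
  obtain ⟨hne, hal⟩ := h
  have e0 : p5 z y x y' z' 0 = z := rfl
  have e1 : p5 z y x y' z' 1 = y := rfl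
  have e2 : p5 z y x y' z' 2 = x := rfl
  have e3 : p5 z y x y' z' 3 = y' := rfl
  have e4 : p5 z y x y' z' 4 = z' := rfl
  rw [e0, e4] at hne
  have a0 := hal 0 (by norm_num)
  have a1 := hal 1 (by norm_num)
  have a2 := hal 2 (by norm_num)
  have a3 := hal 3 (by norm_num)
  simp only [zero_add, e0, e1, e2, e3, e4, show (1 : ℕ) + 1 = 2 from rfl,
    show (2 : ℕ) + 1 = 3 from rfl, show (3 : ℕ) + 1 = 4 from rfl] at a0 a1 a2 a3
  have hs := h4 z z'
  have hne' : (ch (s4 z z')).Nonempty := hne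
  set τ := root (ch (s4 z z')) t with hτ
  refine ⟨s4 z z' τ, hs τ, ?_, ?_⟩
  · have n1 : ∀ t, σ y x t ≠ 0 := nz_of_al hs (hσ.zero_or y x) a1
    have hd : σ z y t ≠ σ y x t := by
      intro hcon
      apply hc
      constructor
      · rw [hσ.anti y x t, hσ.anti z y t, hcon]
      · rw [hσ.anti y x t]
        intro h0
        exact n1 t (by simpa using h0)
    have hl := last_of_al hs hne' (hσ.zero_or z y) (hσ.zero_or y x) a0 a1 hd
    exact last_neg hl (fun t => by rw [hσ.anti y z t]) (fun t => by rw [hσ.anti x y t])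
  · have n2 : ∀ t, σ x y' t ≠ 0 := nz_of_al hs (hσ.zero_or x y') a2
    have hd : σ x y' t ≠ σ y' z' t := by
      intro hcon
      exact hc' ⟨hcon, n2 t⟩
    exact last_of_al hs hne' (hσ.zero_or x y') (hσ.zero_or y' z') a2 a3 hd

theorem three_branches {σ s4 : V → V → ZMod T → SignType} (hσ : Sig σ) (h4 : ∀ x y, Ph (s4 x y))
    (x y₁ z₁ y₂ z₂ y₃ z₃ : V) (t : ZMod T)
    (h12 : ¬ NAp σ s4 4 (p5 z₁ y₁ x y₂ z₂) t) (h13 : ¬ NAp σ s4 4 (p5 z₁ y₁ x y₃ z₃) t)
    (h23 : ¬ NAp σ s4 4 (p5 z₂ y₂ x y₃ z₃) t) :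
    Con σ t x y₁ z₁ ∨ Con σ t x y₂ z₂ ∨ Con σ t x y₃ z₃ := by
  by_contra hcon
  push Not at hcon
  obtain ⟨c1, c2, c3⟩ := hcon
  obtain ⟨e, he, l1, l2⟩ := pair_last hσ h4 x y₁ z₁ y₂ z₂ t h12 c1 c2
  obtain ⟨f, hf, m1, m3⟩ := pair_last hσ h4 x y₁ z₁ y₃ z₃ t h13 c1 c3
  obtain ⟨g, hg, n2, n3⟩ := pair_last hσ h4 x y₂ z₂ y₃ z₃ t h23 c2 c3
  have u1 := last_unique l1 m1
  have u2 := last_unique l2 n2
  have u3 := last_unique m3 n3
  revert u1 u2 u3 he hf hg
  clear l1 l2 m1 m3 n2 n3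
  revert e f g
  decide

end Pool.Agent.H3NG
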