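import Pool.Agent.H3NG.Transfer
import Pool.Agent.H3NG.Local

/-!
# Module BadCount

For `τ ∈ ch s` whose segment meets `Bad x`, choose `t` in the segment with
`η ^ 2 < ∑ y z, P x y * P y z * ind (¬ Con σ t x y z)`.  The third power of the right-hand side is the sum over
`y₁ z₁ y₂ z₂ y₃ z₃` of the product of the weights and of the three indicators; by `three_branches` the product of
the three indicators is at most the sum over the pairs `12, 13, 23` of
`ind (NAp σ s4 4 (p5 z_i y_i x y_j z_j) t) ≤ ind (the segment of τ meets NAp ..)`.  Sum over `τ`: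
`η ^ 6 * nm s (Bad ..) ≤ ∑ weights * (nm s NAp_12 + nm s NAp_13 + nm s NAp_23)`, use `nm_NAp_le` for each pair and
`∑ y, ∑ z, P x y * P y z = 1`.
-/

set_option autoImplicit false

open Finset

namespace Pool.Agent.H3NG

section Aux

private theorem bc_ind_nonneg (p : Prop) : 0 ≤ ind p := by
  by_cases h : p <;> simp [ind, h]

private theorem bc_ind_le_one (p : Prop) : ind p ≤ 1 := by
  by_cases h : p <;> simp [ind, h]

private theorem bc_ind_true {p : Prop} (h : p) : ind p = 1 := by simp [ind, h]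

private theorem bc_ind_false {p : Prop} (h : ¬ p) : ind p = 0 := by simp [ind, h]

private theorem bc_ind_mono {p q : Prop} (h : p → q) : ind p ≤ ind q := by
  by_cases hp : p
  · rw [bc_ind_true hp, bc_ind_true (h hp)]
  · rw [bc_ind_false hp]
    exact bc_ind_nonneg q

private theorem bc_cube {ι : Type} [Fintype ι] (u : ι → ℝ) :
    (∑ a, u a) ^ 3 = ∑ a, ∑ b, ∑ c, u a * u b * u c := by
  have h1 : ∀ a b, ∑ c, u a * u b * u c = u a * u b * ∑ c, u c := fun a b =>
    (Finset.mul_sum _ _ _).symm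
  have h2 : ∀ a, ∑ b, u a * u b * ∑ c, u c = u a * ((∑ b, u b) * ∑ c, u c) := by
    intro a
    rw [← Finset.sum_mul, ← Finset.mul_sum, mul_assoc]
  simp only [h1, h2]
  rw [← Finset.sum_mul]
  ring

private theorem bc_tri {ι : Type} [Fintype ι] (W : ι → ℝ) (hW : ∑ a, W a = 1) (f : ι → ι → ℝ) :
    ∑ a, ∑ b, ∑ c, W a * W b * W c * (f a b + f a c + f b c) =
      3 * ∑ a, ∑ b, W a * W b * f a b := by
  have h1 : ∑ a, ∑ b, ∑ c, W a * W b * W c * f a b = ∑ a, ∑ b, W a * W b * f a b := by
    refine sum_congr rfl fun a _ => sum_congr rfl fun b _ => ?_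
    have : ∑ c, W a * W b * W c * f a b = (W a * W b * f a b) * ∑ c, W c := by
      rw [Finset.mul_sum]
      exact sum_congr rfl fun c _ => by ring
    rw [this, hW, mul_one]
  have h2 : ∑ a, ∑ b, ∑ c, W a * W b * W c * f a c = ∑ a, ∑ b, W a * W b * f a b := by
    refine sum_congr rfl fun a _ => ?_
    have : ∀ b, ∑ c, W a * W b * W c * f a c = W b * ∑ c, W a * W c * f a c := by
      intro b
      rw [Finset.mul_sum]
      exact sum_congr rfl fun c _ => by ring
    rw [sum_congr rfl fun b _ => this b, ← Finset.sum_mul, hW, one_mul]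
  have h3 : ∑ a, ∑ b, ∑ c, W a * W b * W c * f b c = ∑ a, ∑ b, W a * W b * f a b := by
    have : ∀ a, ∑ b, ∑ c, W a * W b * W c * f b c = W a * ∑ b, ∑ c, W b * W c * f b c := by
      intro a
      rw [Finset.mul_sum]
      refine sum_congr rfl fun b _ => ?_
      rw [Finset.mul_sum]
      exact sum_congr rfl fun c _ => by ring
    rw [sum_congr rfl fun a _ => this a, ← Finset.sum_mul, hW, one_mul]
  have h4 : ∑ a, ∑ b, ∑ c, W a * W b * W c * (f a b + f a c + f b c) =
      ∑ a, ∑ b, ∑ c, W a * W b * W c * f a b + ∑ a, ∑ b, ∑ c, W a * W b * W c * f a c +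
        ∑ a, ∑ b, ∑ c, W a * W b * W c * f b c := by
    simp only [← Finset.sum_add_distrib]
    exact sum_congr rfl fun a _ => sum_congr rfl fun b _ => sum_congr rfl fun c _ => by ring
  rw [h4, h1, h2, h3]
  ring

end Aux

variable {T : ℕ} [NeZero T] {V : Type} [Fintype V]

private theorem bc_nm (s : ZMod T → SignType) (U : ZMod T → Prop) :
    (nm s U : ℝ) = ∑ τ ∈ ch s, ind (∃ t, root (ch s) t = τ ∧ U t) := by
  classical
  unfold nm
  rw [Finset.card_filter]
  push_cast
  refine sum_congr rfl fun τ _ => ?_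
  by_cases h : ∃ t, root (ch s) t = τ ∧ U t
  · rw [bc_ind_true h, if_pos h]
  · rw [bc_ind_false h, if_neg h]

theorem bad_count {P : Matrix V V ℝ} (hP : SStoch P) {σ s2 s4 : V → V → ZMod T → SignType}
    (hσ : Sig σ) (h2 : ∀ x y, Ph (s2 x y)) (h4 : ∀ x y, Ph (s4 x y)) {η : ℝ} (hη : 0 ≤ η)
    (x x' : V) (s : ZMod T → SignType) :
    η ^ 6 * nm s (Bad P σ η x) ≤ 36 * A4 P σ s4 x + 9 * A2 P σ s2 x x' + 3 * mis (σ x x') s := by
  classical
  -- weights
  set W : V × V → ℝ := fun a => P x a.1 * P a.1 a.2 with hWdef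
  have hW0 : ∀ a, 0 ≤ W a := fun a => mul_nonneg (hP.nonneg _ _) (hP.nonneg _ _)
  have hW1 : ∑ a, W a = 1 := by
    rw [Fintype.sum_prod_type]
    have : ∀ y, ∑ z, W (y, z) = P x y := by
      intro y
      show ∑ z, P x y * P y z = P x y
      rw [← Finset.mul_sum, hP.sum_one, mul_one]
    rw [sum_congr rfl fun y _ => this y, hP.sum_one]
  -- counts for pairs of branches
  set N : V × V → V × V → ZMod T → Prop := fun a b => NAp σ s4 4 (p5 a.2 a.1 x b.1 b.2) with hN
  set J : V × V → V × V → ZMod T → ℝ := fun a b τ =>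
    ind (∃ t, root (ch s) t = τ ∧ N a b t) with hJ
  -- the pointwise inequality
  have hpt : ∀ τ ∈ ch s, η ^ 6 * ind (∃ t, root (ch s) t = τ ∧ Bad P σ η x t) ≤
      ∑ a, ∑ b, ∑ c, W a * W b * W c * (J a b τ + J a c τ + J b c τ) := by
    intro τ _
    by_cases hB : ∃ t, root (ch s) t = τ ∧ Bad P σ η x t
    · obtain ⟨t, ht, hb⟩ := hB
      rw [bc_ind_true ⟨t, ht, hb⟩, mul_one]
      set I : V × V → ℝ := fun a => ind (¬ Con σ t x a.1 a.2) with hI
      have hS : ∑ y, ∑ z, P x y * P y z * ind (¬ Con σ t x y z) = ∑ a, W a * I a := by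
        rw [Fintype.sum_prod_type]
      have hb' : η ^ 2 < ∑ a, W a * I a := by
        rw [← hS]
        exact hb
      have h6 : η ^ 6 ≤ (∑ a, W a * I a) ^ 3 := by
        have : η ^ 6 = (η ^ 2) ^ 3 := by ring
        rw [this]
        exact pow_le_pow_left₀ (sq_nonneg η) hb'.le 3
      refine h6.trans ?_
      rw [bc_cube]
      refine sum_le_sum fun a _ => sum_le_sum fun b _ => sum_le_sum fun c _ => ?_
      have hprod : I a * I b * I c ≤ J a b τ + J a c τ + J b c τ := by
        have j1 : ind (N a b t) ≤ J a b τ := bc_ind_mono fun h => ⟨t, ht, h⟩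
        have j2 : ind (N a c t) ≤ J a c τ := bc_ind_mono fun h => ⟨t, ht, h⟩
        have j3 : ind (N b c t) ≤ J b c τ := bc_ind_mono fun h => ⟨t, ht, h⟩
        have k1 := bc_ind_nonneg (N a b t)
        have k2 := bc_ind_nonneg (N a c t)
        have k3 := bc_ind_nonneg (N b c t)
        have ia := bc_ind_le_one (¬ Con σ t x a.1 a.2)
        have ib := bc_ind_le_one (¬ Con σ t x b.1 b.2)
        have ic := bc_ind_le_one (¬ Con σ t x c.1 c.2)
        have ia0 := bc_ind_nonneg (¬ Con σ t x a.1 a.2)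
        have ib0 := bc_ind_nonneg (¬ Con σ t x b.1 b.2)
        have ic0 := bc_ind_nonneg (¬ Con σ t x c.1 c.2)
        have hle1 : I a * I b * I c ≤ 1 := by
          have : I a * I b ≤ 1 := mul_le_one₀ ia ib0 ib
          exact mul_le_one₀ this ic0 ic
        by_cases n1 : N a b t
        · rw [bc_ind_true n1] at j1
          linarith
        by_cases n2 : N a c t
        · rw [bc_ind_true n2] at j2
          linarith
        by_cases n3 : N b c t
        · rw [bc_ind_true n3] at j3
          linarith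
        have hz : I a * I b * I c = 0 := by
          rcases three_branches hσ h4 x a.1 a.2 b.1 b.2 c.1 c.2 t n1 n2 n3 with h | h | h
          · have : I a = 0 := bc_ind_false (fun h' => h' h)
            rw [this, zero_mul, zero_mul]
          · have : I b = 0 := bc_ind_false (fun h' => h' h)
            rw [this, mul_zero, zero_mul]
          · have : I c = 0 := bc_ind_false (fun h' => h' h)
            rw [this, mul_zero]
        rw [hz]
        linarith
      have hw : 0 ≤ W a * W b * W c := mul_nonneg (mul_nonneg (hW0 a) (hW0 b)) (hW0 c)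
      calc W a * I a * (W b * I b) * (W c * I c) = W a * W b * W c * (I a * I b * I c) := by ring
        _ ≤ _ := mul_le_mul_of_nonneg_left hprod hw
    · rw [bc_ind_false hB, mul_zero]
      refine sum_nonneg fun a _ => sum_nonneg fun b _ => sum_nonneg fun c _ => ?_
      have hw : 0 ≤ W a * W b * W c := mul_nonneg (mul_nonneg (hW0 a) (hW0 b)) (hW0 c)
      refine mul_nonneg hw ?_
      have k1 := bc_ind_nonneg (∃ t, root (ch s) t = τ ∧ N a b t)
      have k2 := bc_ind_nonneg (∃ t, root (ch s) t = τ ∧ N a c t)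
      have k3 := bc_ind_nonneg (∃ t, root (ch s) t = τ ∧ N b c t)
      show 0 ≤ ind _ + ind _ + ind _
      linarith
  -- sum over the segments
  have hsum : η ^ 6 * nm s (Bad P σ η x) ≤
      ∑ a, ∑ b, ∑ c, W a * W b * W c * ((nm s (N a b) : ℝ) + nm s (N a c) + nm s (N b c)) := by
    rw [bc_nm, Finset.mul_sum]
    refine (sum_le_sum hpt).trans (le_of_eq ?_)
    rw [sum_comm]
    refine sum_congr rfl fun a _ => ?_
    rw [sum_comm]
    refine sum_congr rfl fun b _ => ?_
    rw [sum_comm]
    refine sum_congr rfl fun c _ => ?_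
    rw [← Finset.mul_sum, sum_add_distrib, sum_add_distrib, bc_nm, bc_nm, bc_nm]
  refine hsum.trans ?_
  rw [bc_tri W hW1 (fun a b => (nm s (N a b) : ℝ))]
  -- bound of the pair counts
  have hpair : ∑ a, ∑ b, W a * W b * (nm s (N a b) : ℝ) ≤
      ∑ a, ∑ b, W a * W b * (12 * apath σ s4 4 (p5 a.2 a.1 x b.1 b.2) +
        3 * apath σ s2 2 (p3 b.1 x x') + mis (σ x x') s) := by
    refine sum_le_sum fun a _ => sum_le_sum fun b _ => ?_
    exact mul_le_mul_of_nonneg_left (nm_NAp_le hσ h2 h4 s x x' a.1 a.2 b.1 b.2)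
      (mul_nonneg (hW0 a) (hW0 b))
  have hA4 : ∑ a : V × V, ∑ b : V × V, W a * W b * apath σ s4 4 (p5 a.2 a.1 x b.1 b.2) =
      A4 P σ s4 x := by
    unfold A4
    rw [Fintype.sum_prod_type]
    refine sum_congr rfl fun y₁ _ => sum_congr rfl fun z₁ _ => ?_
    rw [Fintype.sum_prod_type]
  have hA2 : ∑ a : V × V, ∑ b : V × V, W a * W b * apath σ s2 2 (p3 b.1 x x') =
      A2 P σ s2 x x' := by
    have e1 : ∑ b : V × V, W b * apath σ s2 2 (p3 b.1 x x') = A2 P σ s2 x x' := by
      unfold A2
      rw [Fintype.sum_prod_type]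
      refine sum_congr rfl fun y _ => ?_
      show ∑ z, P x y * P y z * apath σ s2 2 (p3 y x x') = _
      rw [← Finset.sum_mul, ← Finset.mul_sum, hP.sum_one, mul_one]
    have e2 : ∀ a : V × V, ∑ b : V × V, W a * W b * apath σ s2 2 (p3 b.1 x x') =
        W a * A2 P σ s2 x x' := by
      intro a
      rw [← e1, Finset.mul_sum]
      exact sum_congr rfl fun b _ => by ring
    rw [sum_congr rfl fun a _ => e2 a, ← Finset.sum_mul, hW1, one_mul]
  have hmis : ∑ a : V × V, ∑ b : V × V, W a * W b * (mis (σ x x') s : ℝ) = mis (σ x x') s := by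
    have e2 : ∀ a : V × V, ∑ b : V × V, W a * W b * (mis (σ x x') s : ℝ) =
        W a * mis (σ x x') s := by
      intro a
      have : ∑ b : V × V, W a * W b * (mis (σ x x') s : ℝ) =
          (W a * mis (σ x x') s) * ∑ b, W b := by
        rw [Finset.mul_sum]
        exact sum_congr rfl fun b _ => by ring
      rw [this, hW1, mul_one]
    rw [sum_congr rfl fun a _ => e2 a, ← Finset.sum_mul, hW1, one_mul]
  have hexp : ∑ a : V × V, ∑ b : V × V, W a * W b * (12 * apath σ s4 4 (p5 a.2 a.1 x b.1 b.2) +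
        3 * apath σ s2 2 (p3 b.1 x x') + mis (σ x x') s) =
      12 * A4 P σ s4 x + 3 * A2 P σ s2 x x' + mis (σ x x') s := by
    rw [← hA4, ← hA2]
    conv_rhs => rw [← hmis]
    simp only [Finset.mul_sum, ← Finset.sum_add_distrib]
    exact sum_congr rfl fun a _ => sum_congr rfl fun b _ => by ring
  rw [hexp] at hpair
  linarith

end Pool.Agent.H3NG
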