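import Pool.Agent.H3NG.PathA

/-!
# Module PathB : reversal and centred paths

* snoc recursion: `EP P (m+1) F = ∑ y, EP P m (fun z => P (z m) y * F (fun n => if n ≤ m then z n else y))` for
  `Dep (m+1) F` (induction on `m` for `Ex`), and cons recursion
  `EP P (m+1) F = ∑ x, EP P m (fun z => P x (z 0) * F (cns x z))`.
* `EP_rev`: induction on `m`; apply cons to `F ∘ rev_{m+1}`, the induction hypothesis to
  `z ↦ P x (z m) * F (snoc z x)` composed with `rev_m`, then snoc and the symmetry of `P`.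
* `EP_A4`: `EP_point` reduces to `(card V)⁻¹ * ∑ x, A4 x = EP P 4 (apath σ s 4)`; expand `EP P 4` by the definition
  (`apath σ s 4` depends only on the coordinates `0..4`), reorder the five sums, `P z₁ y₁ = P y₁ z₁`.
* `EP_A2`: reduce with `EP_step` to `EM P (A2 ..) = EP P 2 (apath σ s 2)`.
-/

set_option autoImplicit false

open Finset

namespace Pool.Agent.H3NG

variable {V : Type} [Fintype V]

namespace PathB

theorem Ex_congr (P : Matrix V V ℝ) (m : ℕ) (x : V) {F F' : (ℕ → V) → ℝ}
    (h : ∀ z : ℕ → V, z 0 = x → F z = F' z) : Ex P m x F = Ex P m x F' := by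
  induction m generalizing x F F' with
  | zero => exact h _ rfl
  | succ m ih =>
    simp only [Ex]
    refine sum_congr rfl fun y _ => ?_
    congr 1
    exact ih y fun z _ => h _ rfl

theorem Ex_sum {ι : Type} (P : Matrix V V ℝ) (m : ℕ) (x : V) (I : Finset ι)
    (F : ι → (ℕ → V) → ℝ) :
    Ex P m x (fun z => ∑ i ∈ I, F i z) = ∑ i ∈ I, Ex P m x (F i) := by
  induction m generalizing x F with
  | zero => rfl
  | succ m ih =>
    simp only [Ex]
    rw [sum_comm]
    refine sum_congr rfl fun y _ => ?_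
    rw [ih y (fun i z => F i (cns x z)), mul_sum]

theorem Ex_const_mul (P : Matrix V V ℝ) (m : ℕ) (x : V) (c : ℝ) (F : (ℕ → V) → ℝ) :
    Ex P m x (fun z => c * F z) = c * Ex P m x F := by
  induction m generalizing x F with
  | zero => rfl
  | succ m ih =>
    simp only [Ex]
    rw [mul_sum]
    refine sum_congr rfl fun y _ => ?_
    rw [ih y (fun z => F (cns x z))]
    ring

/-- recursion at the end of the path -/
theorem Ex_snoc (P : Matrix V V ℝ) (m : ℕ) (x : V) (F : (ℕ → V) → ℝ) :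
    Ex P (m + 1) x F =
      Ex P m x (fun z => ∑ y, P (z m) y * F (fun n => if n ≤ m then z n else y)) := by
  induction m generalizing x F with
  | zero =>
    simp only [Ex]
    refine sum_congr rfl fun y _ => ?_
    congr 2
    funext n
    cases n <;> simp [cns]
  | succ m ih =>
    rw [Ex]
    conv_rhs => rw [Ex]
    refine sum_congr rfl fun y _ => ?_
    rw [ih y]
    congr 2
    funext z
    refine sum_congr rfl fun y' _ => ?_
    congr 2
    funext n
    cases n <;> simp [cns]

/-- reversal, without normalisation -/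
theorem Su_rev {P : Matrix V V ℝ} (hP : SStoch P) (m : ℕ) (F : (ℕ → V) → ℝ) :
    ∑ x, Ex P m x (fun z => F (fun n => z (m - n))) = ∑ x, Ex P m x F := by
  induction m generalizing F with
  | zero => rfl
  | succ m ih =>
    have h1 : ∀ x : V, ∑ y, P x y * Ex P m y (fun z => F (fun n => cns x z (m + 1 - n))) =
        ∑ y, Ex P m y (fun z => (fun z' : ℕ → V => P x (z' m) *
          F (fun n => if n ≤ m then z' n else x)) (fun n => z (m - n))) := by
      intro x
      refine sum_congr rfl fun y _ => ?_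
      rw [← Ex_const_mul]
      refine Ex_congr P m y fun z hz => ?_
      simp only [Nat.sub_self, hz]
      congr 2
      funext n
      by_cases hn : n ≤ m
      · rw [if_pos hn, show m + 1 - n = (m - n) + 1 by omega]
        rfl
      · rw [if_neg hn, show m + 1 - n = 0 by omega]
        rfl
    calc ∑ x, Ex P (m + 1) x (fun z => F (fun n => z (m + 1 - n)))
        = ∑ x, ∑ y, Ex P m y (fun z => (fun z' : ℕ → V => P x (z' m) *
          F (fun n => if n ≤ m then z' n else x)) (fun n => z (m - n))) :=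
          sum_congr rfl fun x _ => h1 x
      _ = ∑ x, ∑ y, Ex P m y (fun z' : ℕ → V => P x (z' m) *
          F (fun n => if n ≤ m then z' n else x)) := sum_congr rfl fun x _ =>
            ih (fun z' : ℕ → V => P x (z' m) * F (fun n => if n ≤ m then z' n else x))
      _ = ∑ y, ∑ x, Ex P m y (fun z' : ℕ → V => P x (z' m) *
          F (fun n => if n ≤ m then z' n else x)) := sum_comm
      _ = ∑ y, Ex P (m + 1) y F := by
        refine sum_congr rfl fun y _ => ?_
        rw [Ex_snoc, ← Ex_sum]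
        refine Ex_congr P m y fun z _ => ?_
        refine sum_congr rfl fun x _ => ?_
        rw [hP.symm x (z m)]

omit [Fintype V] in
theorem cns4 (a b c d e : V) :
    cns a (cns b (cns c (cns d (fun _ => e)))) = p5 a b c d e := by
  funext n
  rcases n with _ | _ | _ | _ | n <;> rfl

omit [Fintype V] in
theorem cns2 (a b c : V) : cns a (cns b (fun _ => c)) = p3 a b c := by
  funext n
  rcases n with _ | _ | n <;> rfl

end PathB

theorem EP_rev {P : Matrix V V ℝ} (hP : SStoch P) (m : ℕ) {F : (ℕ → V) → ℝ} (hF : Dep m F) :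
    EP P m (fun z => F (fun n => z (m - n))) = EP P m F := by
  have _ := hF
  unfold EP
  rw [PathB.Su_rev hP m F]

variable {T : ℕ} [NeZero T]

theorem EP_A4 {P : Matrix V V ℝ} (hP : SStoch P) (σ s : V → V → ZMod T → SignType) {m j : ℕ}
    (hj : j ≤ m) : EP P m (fun z => A4 P σ s (z j)) = EP P 4 (apath σ s 4) := by
  rw [EP_point hP hj (A4 P σ s)]
  unfold EP A4
  congr 1
  simp only [Ex, PathB.cns4, mul_sum]
  -- left: x, y₁, z₁, y₂, z₂; right: z₁, y₁, x, y₂, z₂
  calc ∑ x, ∑ y₁, ∑ z₁, ∑ y₂, ∑ z₂, P x y₁ * P y₁ z₁ * (P x y₂ * P y₂ z₂) *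
        apath σ s 4 (p5 z₁ y₁ x y₂ z₂)
      = ∑ y₁, ∑ x, ∑ z₁, ∑ y₂, ∑ z₂, P x y₁ * P y₁ z₁ * (P x y₂ * P y₂ z₂) *
        apath σ s 4 (p5 z₁ y₁ x y₂ z₂) := sum_comm
    _ = ∑ y₁, ∑ z₁, ∑ x, ∑ y₂, ∑ z₂, P x y₁ * P y₁ z₁ * (P x y₂ * P y₂ z₂) *
        apath σ s 4 (p5 z₁ y₁ x y₂ z₂) := sum_congr rfl fun y₁ _ => sum_comm
    _ = ∑ z₁, ∑ y₁, ∑ x, ∑ y₂, ∑ z₂, P x y₁ * P y₁ z₁ * (P x y₂ * P y₂ z₂) *
        apath σ s 4 (p5 z₁ y₁ x y₂ z₂) := sum_comm
    _ = _ := by
      refine sum_congr rfl fun z₁ _ => sum_congr rfl fun y₁ _ => sum_congr rfl fun x _ =>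
        sum_congr rfl fun y₂ _ => sum_congr rfl fun z₂ _ => ?_
      rw [hP.symm x y₁, hP.symm y₁ z₁]
      ring

theorem EP_A2 {P : Matrix V V ℝ} (hP : SStoch P) (σ s : V → V → ZMod T → SignType) {m j : ℕ}
    (hj : j < m) : EP P m (fun z => A2 P σ s (z j) (z (j + 1))) = EP P 2 (apath σ s 2) := by
  rw [EP_step hP hj (A2 P σ s)]
  unfold EM EP A2
  congr 1
  simp only [Ex, PathB.cns2, mul_sum]
  calc ∑ x, ∑ x', ∑ y, P x x' * (P x y * apath σ s 2 (p3 y x x'))
      = ∑ x, ∑ y, ∑ x', P x x' * (P x y * apath σ s 2 (p3 y x x')) :=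
        sum_congr rfl fun x _ => sum_comm
    _ = ∑ y, ∑ x, ∑ x', P x x' * (P x y * apath σ s 2 (p3 y x x')) := sum_comm
    _ = _ := by
      refine sum_congr rfl fun y _ => sum_congr rfl fun x _ => sum_congr rfl fun x' _ => ?_
      rw [hP.symm x y]
      ring

end Pool.Agent.H3NG
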