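import Pool.Agent.H3NG.BadCount
import Pool.Agent.H3NG.PathB

/-!
# Module BadExp

`bad_count` with `x = z j`, `x' = z (j+1)`, `s = sb (z 0) (z (8a))`, summed over `j < 8a`; `EP_A4`, `EP_A2`, `Core.h4`,
`Core.h2`, and `∑ j, mis (σ (z j) (z (j+1))) (sb ..) ≤ apath σ sb (8a) z`, `Core.hb`:
`36 * 8a * 4 ε R + 9 * 8a * 2 ε R + 3 * 8a ε R = 165 * 8a * ε R`.
-/

set_option autoImplicit false

open Finset

namespace Pool.Agent.H3NG

variable {T : ℕ} [NeZero T] {V : Type} [Fintype V]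

theorem bad_exp {P : Matrix V V ℝ} (hP : SStoch P) {a : ℕ} {ns : (ℕ → V) → Prop} {ε R : ℝ}
    {σ s2 s4 sb : V → V → ZMod T → SignType} (hc : Core P a ns ε R σ s2 s4 sb) {η : ℝ} (hη : 0 ≤ η) :
    η ^ 6 * EP P (8 * a) (fun z => ∑ j ∈ range (8 * a),
      (nm (sb (z 0) (z (8 * a))) (Bad P σ η (z j)) : ℝ)) ≤ 165 * (8 * a : ℕ) * ε * R := by
  set m : ℕ := 8 * a with hm
  have h1 : ∀ z : ℕ → V, η ^ 6 * ∑ j ∈ range m,
      (nm (sb (z 0) (z m)) (Bad P σ η (z j)) : ℝ) ≤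
      36 * (∑ j ∈ range m, A4 P σ s4 (z j)) + (9 * (∑ j ∈ range m, A2 P σ s2 (z j) (z (j + 1))) +
        3 * apath σ sb m z) := by
    intro z
    have h2 : ∀ j ∈ range m, η ^ 6 * (nm (sb (z 0) (z m)) (Bad P σ η (z j)) : ℝ) ≤
        36 * A4 P σ s4 (z j) + (9 * A2 P σ s2 (z j) (z (j + 1)) +
          3 * aa (σ (z j) (z (j + 1))) (sb (z 0) (z m))) := by
      intro j _
      have h3 := bad_count hP hc.sig hc.ph2 hc.ph4 hη (z j) (z (j + 1)) (sb (z 0) (z m))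
      have h4 : (mis (σ (z j) (z (j + 1))) (sb (z 0) (z m)) : ℝ) ≤
          aa (σ (z j) (z (j + 1))) (sb (z 0) (z m)) := by
        unfold aa
        have : (0 : ℝ) ≤ (bt (σ (z j) (z (j + 1))) (sb (z 0) (z m)) : ℝ) := Nat.cast_nonneg _
        linarith
      linarith
    have h5 := Finset.sum_le_sum h2
    rw [← Finset.mul_sum] at h5
    refine h5.trans (le_of_eq ?_)
    rw [Finset.sum_add_distrib, Finset.sum_add_distrib, ← Finset.mul_sum, ← Finset.mul_sum,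
      ← Finset.mul_sum]
    rfl
  have h6 : η ^ 6 * EP P m (fun z => ∑ j ∈ range m,
      (nm (sb (z 0) (z m)) (Bad P σ η (z j)) : ℝ)) ≤
      36 * (∑ j ∈ range m, EP P m (fun z => A4 P σ s4 (z j))) +
        (9 * (∑ j ∈ range m, EP P m (fun z => A2 P σ s2 (z j) (z (j + 1)))) +
        3 * EP P m (apath σ sb m)) := by
    rw [← EP_const_mul]
    refine (EP_mono_supp hP m (fun z _ => h1 z)).trans (le_of_eq ?_)
    rw [EP_add, EP_add, EP_const_mul, EP_const_mul, EP_const_mul, EP_sum, EP_sum]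
  have h7 : ∀ j ∈ range m, EP P m (fun z => A4 P σ s4 (z j)) ≤ 4 * ε * R := by
    intro j hj
    rw [EP_A4 hP σ s4 (Finset.mem_range.1 hj).le]
    exact hc.h4
  have h8 : ∀ j ∈ range m, EP P m (fun z => A2 P σ s2 (z j) (z (j + 1))) ≤ 2 * ε * R := by
    intro j hj
    rw [EP_A2 hP σ s2 (Finset.mem_range.1 hj)]
    exact hc.h2
  have h9 := Finset.sum_le_sum h7
  have h10 := Finset.sum_le_sum h8
  rw [Finset.sum_const, Finset.card_range, nsmul_eq_mul] at h9 h10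
  have h11 := hc.hb
  rw [← hm] at h11
  have h12 : 165 * ((m : ℕ) : ℝ) * ε * R = 36 * ((m : ℝ) * (4 * ε * R)) +
      (9 * ((m : ℝ) * (2 * ε * R)) + 3 * ((m : ℝ) * ε * R)) := by ring
  rw [h12]
  linarith

end Pool.Agent.H3NG
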