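import Pool.Agent.H3NG.Cyc

/-!
# Module CircA : algebra of the penalised variation

`TV` is a supremum over a finite nonempty type (constant phase `1`): `le_ciSup (Set.finite_range _).bddAbove`,
`exists_eq_ciSup_of_finite`.  The constant phase has `ch = ∅` and `G = 0`.
* `G_eq_sum`: `∑ t, (s t - s (t+1)) * u t` has only the terms of `ch s`, where `s t - s (t+1) = 2 s t` for a phase; shift the
  second sum.
* `TV_add_le`: `G_add` and the optimal phase of `u + v`.
* `TV_neg`: `G lam (-u) s = G lam u (-s)`.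
* `TV_convex`: `2 G ((a+b)/2) u s = G a u s + G b u s`.
-/

set_option autoImplicit false

open Finset

namespace Pool.Agent.H3NG

variable {T : ℕ} [NeZero T]

omit [NeZero T] in
theorem CircA_nonempty : Nonempty {s : ZMod T → SignType // Ph s} :=
  ⟨⟨fun _ => 1, fun _ => one_ne_zero⟩⟩

theorem G_le_TV (lam : ℝ) (u : ZMod T → ℝ) {s : ZMod T → SignType} (hs : Ph s) :
    G lam u s ≤ TV lam u :=
  le_ciSup (f := fun s : {s : ZMod T → SignType // Ph s} => G lam u s.1)
    (Set.finite_range _).bddAbove ⟨s, hs⟩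

theorem exists_opt (lam : ℝ) (u : ZMod T → ℝ) : ∃ s, Ph s ∧ G lam u s = TV lam u := by
  have := CircA_nonempty (T := T)
  obtain ⟨s, hs⟩ := exists_eq_ciSup_of_finite
    (f := fun s : {s : ZMod T → SignType // Ph s} => G lam u s.1)
  exact ⟨s.1, s.2, hs⟩

theorem TV_le {lam : ℝ} {u : ZMod T → ℝ} {B : ℝ} (h : ∀ s, Ph s → G lam u s ≤ B) :
    TV lam u ≤ B := by
  have := CircA_nonempty (T := T)
  exact ciSup_le (fun s => h s.1 s.2)

theorem TV_nonneg (lam : ℝ) (u : ZMod T → ℝ) : 0 ≤ TV lam u := by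
  have h1 : Ph (fun _ : ZMod T => (1 : SignType)) := fun _ => one_ne_zero
  have h2 : G lam u (fun _ : ZMod T => (1 : SignType)) = 0 := by
    unfold G
    have : ch (fun _ : ZMod T => (1 : SignType)) = ∅ := by
      simp [ch]
    rw [this]; simp
  rw [← h2]
  exact G_le_TV lam u h1

theorem G_add (a b : ℝ) (u v : ZMod T → ℝ) (s : ZMod T → SignType) :
    G (a + b) (u + v) s = G a u s + G b v s := by
  unfold G
  rw [← Finset.sum_add_distrib]
  apply Finset.sum_congr rfl
  intro t _
  simp only [Pi.add_apply]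
  ring

theorem G_smul (c a : ℝ) (u : ZMod T → ℝ) (s : ZMod T → SignType) :
    G (c * a) (c • u) s = c * G a u s := by
  unfold G
  rw [Finset.mul_sum]
  apply Finset.sum_congr rfl
  intro t _
  simp only [Pi.smul_apply, smul_eq_mul]
  ring

/-- sum of the blocks of a path -/
theorem G_sum_blocks (m : ℕ) (lam : ℝ) (v : ℕ → ZMod T → ℝ) (s : ZMod T → SignType) :
    G ((m : ℝ) * lam) (v m - v 0) s = ∑ j ∈ range m, G lam (v (j + 1) - v j) s := by
  induction m with
  | zero => simp [G]
  | succ m ih =>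
    rw [Finset.sum_range_succ, ← ih, ← G_add]
    congr 1
    · push_cast; ring
    · funext t; simp

/-- dependence on the level -/
theorem G_level (a b : ℝ) (u : ZMod T → ℝ) (s : ZMod T → SignType) :
    G a u s = G b u s + (b - a) * (ch s).card := by
  unfold G
  have h : (b - a) * ((ch s).card : ℝ) = ∑ _t ∈ ch s, (b - a) := by
    rw [Finset.sum_const, nsmul_eq_mul]; ring
  rw [h, ← Finset.sum_add_distrib]
  apply Finset.sum_congr rfl
  intro t _
  ring

theorem CircA_two {a b : SignType} (ha : a ≠ 0) (hb : b ≠ 0) (hab : a ≠ b) :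
    (a : ℝ) - (b : ℝ) = 2 * (a : ℝ) := by
  cases a <;> cases b <;> simp_all <;> norm_num

/-- summation by parts -/
theorem G_eq_sum (lam : ℝ) (u : ZMod T → ℝ) (s : ZMod T → SignType)
    (hs : Ph s ∨ ∀ t, s t = 0) :
    G lam u s = ∑ t, ((s (t + 1) : ℝ)) * (u (t + 1) - u t) - lam * (ch s).card := by
  have hshift : ∑ t, ((s (t + 1) : ℝ)) * u (t + 1) = ∑ t, ((s t : ℝ)) * u t :=
    Fintype.sum_equiv (Equiv.addRight (1 : ZMod T)) _ _ (fun t => rfl)
  have h1 : ∑ t, ((s (t + 1) : ℝ)) * (u (t + 1) - u t)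
      = ∑ t, ((s t : ℝ) - (s (t + 1) : ℝ)) * u t := by
    have h2 : ∑ t, ((s (t + 1) : ℝ)) * (u (t + 1) - u t)
        = ∑ t, ((s (t + 1) : ℝ)) * u (t + 1) - ∑ t, ((s (t + 1) : ℝ)) * u t := by
      rw [← Finset.sum_sub_distrib]
      apply Finset.sum_congr rfl
      intro t _
      ring
    rw [h2, hshift, ← Finset.sum_sub_distrib]
    apply Finset.sum_congr rfl
    intro t _
    ring
  have h3 : ∑ t, ((s t : ℝ) - (s (t + 1) : ℝ)) * u t
      = ∑ t ∈ ch s, (2 * (s t : ℝ) * u t) := by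
    unfold ch
    rw [Finset.sum_filter]
    apply Finset.sum_congr rfl
    intro t _
    by_cases h : s t ≠ s (t + 1)
    · rw [if_pos h]
      rcases hs with hs | hs
      · rw [CircA_two (hs t) (hs (t + 1)) h]
      · exact absurd (by rw [hs t, hs (t + 1)]) h
    · rw [if_neg h]
      push Not at h
      rw [← h]; ring
  have h4 : lam * ((ch s).card : ℝ) = ∑ _t ∈ ch s, lam := by
    rw [Finset.sum_const, nsmul_eq_mul]; ring
  rw [h1, h3, h4, ← Finset.sum_sub_distrib]
  rfl

theorem TV_add_le (a b : ℝ) (u v : ZMod T → ℝ) : TV (a + b) (u + v) ≤ TV a u + TV b v := by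
  apply TV_le
  intro s hs
  rw [G_add]
  exact add_le_add (G_le_TV a u hs) (G_le_TV b v hs)

theorem TV_smul {c : ℝ} (hc : 0 ≤ c) (a : ℝ) (u : ZMod T → ℝ) :
    TV (c * a) (c • u) = c * TV a u := by
  apply le_antisymm
  · apply TV_le
    intro s hs
    rw [G_smul]
    exact mul_le_mul_of_nonneg_left (G_le_TV a u hs) hc
  · obtain ⟨s, hs, he⟩ := exists_opt a u
    rw [← he, ← G_smul]
    exact G_le_TV _ _ hs

theorem CircA_ch_neg (s : ZMod T → SignType) : ch (-s) = ch s := by
  unfold ch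
  apply Finset.filter_congr
  intro t _
  simp

theorem CircA_G_neg (a : ℝ) (u : ZMod T → ℝ) (s : ZMod T → SignType) :
    G a (-u) s = G a u (-s) := by
  unfold G
  rw [CircA_ch_neg]
  apply Finset.sum_congr rfl
  intro t _
  simp only [Pi.neg_apply, SignType.coe_neg]
  ring

omit [NeZero T] in
theorem CircA_Ph_neg {s : ZMod T → SignType} (hs : Ph s) : Ph (-s) := by
  intro t h
  exact hs t (by simpa using h)

theorem TV_neg (a : ℝ) (u : ZMod T → ℝ) : TV a (-u) = TV a u := by
  apply le_antisymm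
  · apply TV_le
    intro s hs
    rw [CircA_G_neg]
    exact G_le_TV a u (CircA_Ph_neg hs)
  · apply TV_le
    intro s hs
    have h := CircA_G_neg a (-u) s
    rw [neg_neg] at h
    rw [h]
    exact G_le_TV a (-u) (CircA_Ph_neg hs)

theorem TV_anti (u : ZMod T → ℝ) : Antitone (fun lam => TV lam u) := by
  intro a b hab
  apply TV_le
  intro s hs
  have h1 := G_level b a u s
  have h2 := G_le_TV a u hs
  have h3 : (0 : ℝ) ≤ ((ch s).card : ℝ) := Nat.cast_nonneg _
  have h4 : (a - b) * ((ch s).card : ℝ) ≤ 0 := mul_nonpos_of_nonpos_of_nonneg (by linarith) h3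
  linarith

theorem TV_convex (a b : ℝ) (u : ZMod T → ℝ) : 2 * TV ((a + b) / 2) u ≤ TV a u + TV b u := by
  obtain ⟨s, hs, he⟩ := exists_opt ((a + b) / 2) u
  have h1 := G_level ((a + b) / 2) a u s
  have h2 := G_level ((a + b) / 2) b u s
  have h3 := G_le_TV a u hs
  have h4 := G_le_TV b u hs
  rw [← he]
  have h5 : (a - (a + b) / 2) * ((ch s).card : ℝ) + (b - (a + b) / 2) * ((ch s).card : ℝ) = 0 := by
    ring
  linarith

end Pool.Agent.H3NG
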