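import Pool.Agent.H3NG.CircA

/-!
# Module CircB : analysis of the penalised variation

* `TV_eq_zero`: `∑ τ ∈ ch s, (2 s τ u τ - lam) = ∑ τ ∈ ch s, (s τ u τ + s (nxt τ) u (nxt τ) - lam)` (`sum_nxt`), and
  `s (nxt τ) = - s τ` (`ph_nxt`), so each term is `± (u τ - u (nxt τ)) - lam ≤ 0`.
* `TV_ge`: for `x ≠ y` the phase equal to `1` exactly on the arc `(y, x]` has changes `x` (value `1`) and `y` (value `-1`).
  For `x = y` use `TV_nonneg`.
* `TV_continuous`: maximum of finitely many affine functions of `lam` (or: `G_level` gives a Lipschitz bound with constant `T`).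
* `TV_integrable`: continuous, and zero for `c * lam ≥ max u - min u`.
* `TV_integral_scale`: `MeasureTheory.integral_comp_mul_left_Ioi`.
-/

set_option autoImplicit false

open Finset

namespace Pool.Agent.H3NG

variable {T : ℕ} [NeZero T]

theorem TV_eq_zero {lam : ℝ} {u : ZMod T → ℝ} (h : ∀ x y, u x - u y ≤ lam) : TV lam u = 0 := by
  apply le_antisymm _ (TV_nonneg lam u)
  apply TV_le
  intro s hs
  have hl : 0 ≤ lam := by
    have := h 0 0
    rwa [sub_self] at this
  rcases (ch s).eq_empty_or_nonempty with he | hne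
  · unfold G
    rw [he, sum_empty]
  · have h1 : G lam u s = ∑ τ ∈ ch s, ((s τ : ℝ) * u τ +
        (s (nxt (ch s) τ) : ℝ) * u (nxt (ch s) τ) - lam) := by
      unfold G
      rw [sum_sub_distrib, sum_sub_distrib, sum_add_distrib,
        sum_nxt hne (fun τ => (s τ : ℝ) * u τ), ← sum_add_distrib]
      congr 1
      exact sum_congr rfl fun τ _ => by ring
    rw [h1]
    refine sum_nonpos fun τ hτ => ?_
    rw [ph_nxt hs hτ]
    have h2 := h τ (nxt (ch s) τ)
    have h3 := h (nxt (ch s) τ) τ
    have h4 := hs τ
    have h5 : s τ = 1 ∨ s τ = -1 := by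
      revert h4
      generalize s τ = a
      revert a
      decide
    rcases h5 with h5 | h5
    · rw [h5]
      simp only [SignType.coe_neg, SignType.coe_one]
      linarith
    · rw [h5]
      simp only [SignType.coe_neg, SignType.coe_one, neg_neg]
      linarith

theorem TV_ge {lam : ℝ} (hl : 0 ≤ lam) (u : ZMod T → ℝ) (x y : ZMod T) :
    2 * (u x - u y) - 2 * lam ≤ TV lam u := by
  classical
  by_cases hxy : x = y
  · subst hxy
    have := TV_nonneg lam u
    linarith
  set s : ZMod T → SignType := fun t => if (t - y - 1).val < (x - y).val then 1 else -1 with hs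
  have hph : Ph s := by
    intro t
    simp only [hs]
    split_ifs <;> decide
  have hm : 0 < (x - y).val := by
    rw [Nat.pos_iff_ne_zero]
    intro h0
    rw [ZMod.val_eq_zero, sub_eq_zero] at h0
    exact hxy h0
  have hpred : ∀ a : ZMod T, a ≠ 0 → (a - 1).val + 1 = a.val := by
    intro a ha
    have h1 : 0 < a.val := by
      rw [Nat.pos_iff_ne_zero, Ne, ZMod.val_eq_zero]
      exact ha
    have h2 : a - 1 = ((a.val - 1 : ℕ) : ZMod T) := by
      rw [Nat.cast_sub h1, ZMod.natCast_zmod_val, Nat.cast_one]
    rw [h2, ZMod.val_natCast, Nat.mod_eq_of_lt]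
    · omega
    · have := ZMod.val_lt a
      omega
  have hlast : (y - y - 1).val + 1 = T := by
    have h1 : (y - y - 1 : ZMod T) = ((T - 1 : ℕ) : ZMod T) := by
      rw [Nat.cast_sub (Nat.pos_of_ne_zero (NeZero.ne T)), ZMod.natCast_self]
      ring
    have hT := Nat.pos_of_ne_zero (NeZero.ne T)
    rw [h1, ZMod.val_natCast, Nat.mod_eq_of_lt (by omega)]
    omega
  have hchs : ch s = {x, y} := by
    ext t
    unfold ch
    rw [mem_filter, mem_insert, mem_singleton]
    constructor
    · rintro ⟨-, ht⟩
      by_contra hcon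
      push Not at hcon
      apply ht
      have h1 := hpred (t - y) (sub_ne_zero.2 hcon.2)
      have h2 : t + 1 - y - 1 = t - y := by ring
      have h3 : (t - y).val ≠ (x - y).val := by
        intro h
        have := ZMod.val_injective T h
        exact hcon.1 (sub_left_injective this)
      simp only [hs, h2]
      by_cases h4 : (t - y).val < (x - y).val
      · rw [if_pos h4, if_pos (by omega)]
      · rw [if_neg h4, if_neg (by omega)]
    · rintro (rfl | rfl)
      · refine ⟨mem_univ _, ?_⟩
        have h1 := hpred (t - y) (sub_ne_zero.2 hxy)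
        have h2 : t + 1 - y - 1 = t - y := by ring
        simp only [hs, h2]
        rw [if_pos (by omega), if_neg (lt_irrefl _)]
        decide
      · refine ⟨mem_univ _, ?_⟩
        have h2 : t + 1 - t - 1 = 0 := by ring
        have h3 := ZMod.val_lt (x - t)
        simp only [hs, h2, ZMod.val_zero]
        rw [if_neg (by omega), if_pos hm]
        decide
  have hsx : s x = 1 := by
    have h1 := hpred (x - y) (sub_ne_zero.2 hxy)
    simp only [hs]
    rw [if_pos (by omega)]
  have hsy : s y = -1 := by
    have h3 := ZMod.val_lt (x - y)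
    simp only [hs]
    rw [if_neg (by omega)]
  have hG : G lam u s = 2 * (u x - u y) - 2 * lam := by
    unfold G
    rw [hchs, sum_pair hxy, hsx, hsy]
    simp only [SignType.coe_one, SignType.coe_neg]
    ring
  rw [← hG]
  exact G_le_TV lam u hph

private theorem circB_lip (u : ZMod T → ℝ) (a b : ℝ) : TV a u ≤ TV b u + T * |a - b| := by
  apply TV_le
  intro s hs
  rw [G_level a b u s]
  have h1 := G_le_TV b u hs
  have h2 : ((ch s).card : ℝ) ≤ T := by
    have : (ch s).card ≤ Fintype.card (ZMod T) := card_le_univ _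
    rw [ZMod.card] at this
    exact_mod_cast this
  have h3 : b - a ≤ |a - b| := by
    rw [abs_sub_comm]
    exact le_abs_self _
  have h4 : (b - a) * ((ch s).card : ℝ) ≤ |a - b| * ((ch s).card : ℝ) :=
    mul_le_mul_of_nonneg_right h3 (Nat.cast_nonneg _)
  have h5 : |a - b| * ((ch s).card : ℝ) ≤ |a - b| * T :=
    mul_le_mul_of_nonneg_left h2 (abs_nonneg _)
  linarith

theorem TV_continuous (u : ZMod T → ℝ) : Continuous (fun lam => TV lam u) := by
  have h : LipschitzWith (T : NNReal) (fun lam => TV lam u) := by
    apply LipschitzWith.of_dist_le_mul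
    intro a b
    rw [Real.dist_eq, Real.dist_eq, abs_le]
    have h1 := circB_lip u a b
    have h2 := circB_lip u b a
    rw [abs_sub_comm] at h2
    constructor
    · simp only [NNReal.coe_natCast]
      linarith
    · simp only [NNReal.coe_natCast]
      linarith
  exact h.continuous

theorem TV_integrable {c : ℝ} (hc : 0 < c) (u : ZMod T → ℝ) :
    MeasureTheory.IntegrableOn (fun lam => TV (c * lam) u) (Set.Ioi 0) := by
  obtain ⟨M, hM⟩ : ∃ M : ℝ, ∀ x y, u x - u y ≤ M := by
    obtain ⟨a, ha⟩ := (Set.finite_range u).bddAbove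
    obtain ⟨b, hb⟩ := (Set.finite_range u).bddBelow
    refine ⟨a - b, fun x y => ?_⟩
    have h1 := ha (Set.mem_range_self x)
    have h2 := hb (Set.mem_range_self y)
    linarith
  set K := max (M / c) 0 with hK
  have hcont : Continuous (fun lam => TV (c * lam) u) :=
    (TV_continuous u).comp (continuous_const.mul continuous_id)
  have h1 : MeasureTheory.IntegrableOn (fun lam => TV (c * lam) u) (Set.Ioc 0 K) :=
    hcont.integrableOn_Ioc
  have h2 : MeasureTheory.IntegrableOn (fun lam => TV (c * lam) u) (Set.Ioi K) := by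
    have h0 : MeasureTheory.IntegrableOn (fun _ : ℝ => (0 : ℝ)) (Set.Ioi K) :=
      MeasureTheory.integrableOn_zero
    refine h0.congr_fun ?_ measurableSet_Ioi
    intro lam hlam
    have h3 : M / c ≤ lam := (le_max_left _ _).trans (le_of_lt hlam)
    rw [div_le_iff₀ hc] at h3
    show (0 : ℝ) = TV (c * lam) u
    rw [TV_eq_zero]
    intro x y
    have := hM x y
    linarith
  rw [← Set.Ioc_union_Ioi_eq_Ioi (le_max_right (M / c) 0)]
  exact h1.union h2

theorem TV_integral_scale {c : ℝ} (hc : 0 < c) (u : ZMod T → ℝ) :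
    ∫ lam in Set.Ioi (0 : ℝ), TV (c * lam) u = c⁻¹ * en u := by
  have h := MeasureTheory.integral_comp_mul_left_Ioi (fun lam => TV lam u) 0 hc
  rw [mul_zero] at h
  rw [h, smul_eq_mul]
  rfl

end Pool.Agent.H3NG
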