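import Pool.Agent.H3NG.MassA

/-!
# Module MassB : mean mass

For `P x y > 0` and `t ∈ ch (σ x y)`: `w ≤ P x y ≤ om P σ pc (pc x) t`; `lam2_mass`.  With
`Ω i = ∑ t, om P σ pc i t = ∑ x' with pc x' = i, ∑ y, P x' y * card (ch (σ x' y))` we have
`∑ x y, P x y * Ω (pc x) = ∑ x, Ω (pc x) = ∑ i, ncard {x | pc x = i} * Ω i ≤ K * ∑ i, Ω i = K * ∑ x' y, P x' y * card ..`.
-/

set_option autoImplicit false

open Finset

namespace Pool.Agent.H3NG

variable {T : ℕ} [NeZero T] {V : Type} [Fintype V] [Nonempty V]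

private theorem ind_nn (p : Prop) : 0 ≤ ind p := by
  unfold ind; split_ifs <;> norm_num

private theorem ind_t {p : Prop} (h : p) : ind p = 1 := by
  unfold ind; rw [if_pos h]

private theorem ind_f {p : Prop} (h : ¬ p) : ind p = 0 := by
  unfold ind; rw [if_neg h]

theorem om_nonneg {P : Matrix V V ℝ} (hP : SStoch P) (σ : V → V → ZMod T → SignType) (pc : V → V)
    (i : V) (t : ZMod T) : 0 ≤ om P σ pc i t := by
  unfold om
  exact Finset.sum_nonneg fun x _ => Finset.sum_nonneg fun y _ =>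
    mul_nonneg (mul_nonneg (ind_nn _) (hP.nonneg x y)) (ind_nn _)

theorem le_om {P : Matrix V V ℝ} (hP : SStoch P) (σ : V → V → ZMod T → SignType) (pc : V → V)
    {x y : V} {t : ZMod T} (ht : t ∈ ch (σ x y)) : P x y ≤ om P σ pc (pc x) t := by
  unfold om
  have h0 : ∀ a b : V, 0 ≤ ind (pc a = pc x) * P a b * ind (t ∈ ch (σ a b)) := fun a b =>
    mul_nonneg (mul_nonneg (ind_nn _) (hP.nonneg a b)) (ind_nn _)
  calc P x y = ind (pc x = pc x) * P x y * ind (t ∈ ch (σ x y)) := by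
        rw [ind_t rfl, ind_t ht]; ring
    _ ≤ ∑ b, ind (pc x = pc x) * P x b * ind (t ∈ ch (σ x b)) :=
        Finset.single_le_sum (f := fun b => ind (pc x = pc x) * P x b * ind (t ∈ ch (σ x b)))
          (fun b _ => h0 x b) (mem_univ y)
    _ ≤ ∑ a, ∑ b, ind (pc a = pc x) * P a b * ind (t ∈ ch (σ a b)) :=
        Finset.single_le_sum
          (f := fun a => ∑ b, ind (pc a = pc x) * P a b * ind (t ∈ ch (σ a b)))
          (fun a _ => Finset.sum_nonneg fun b _ => h0 a b) (mem_univ x)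

/-- total tick mass of a piece -/
private theorem om_total (P : Matrix V V ℝ) (σ : V → V → ZMod T → SignType) (pc : V → V) (i : V) :
    ∑ t, om P σ pc i t = ∑ x, ind (pc x = i) * ∑ y, P x y * ((ch (σ x y)).card : ℝ) := by
  unfold om
  rw [Finset.sum_comm]
  refine Finset.sum_congr rfl fun x _ => ?_
  rw [Finset.sum_comm, Finset.mul_sum]
  refine Finset.sum_congr rfl fun y _ => ?_
  rw [← Finset.mul_sum]
  have hc : ∑ t, ind (t ∈ ch (σ x y)) = ((ch (σ x y)).card : ℝ) := by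
    classical
    have h1 : ∀ t, ind (t ∈ ch (σ x y)) = if t ∈ ch (σ x y) then (1 : ℝ) else 0 := by
      intro t
      by_cases h : t ∈ ch (σ x y)
      · rw [ind_t h, if_pos h]
      · rw [ind_f h, if_neg h]
    rw [Finset.sum_congr rfl fun t _ => h1 t, Finset.sum_ite_mem, Finset.univ_inter]
    simp
  rw [hc]; ring

/-- sum over the pieces -/
private theorem om_total_sum (P : Matrix V V ℝ) (σ : V → V → ZMod T → SignType) (pc : V → V) :
    ∑ i, ∑ t, om P σ pc i t = ∑ x, ∑ y, P x y * ((ch (σ x y)).card : ℝ) := by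
  classical
  rw [Finset.sum_congr rfl fun i _ => om_total P σ pc i, Finset.sum_comm]
  refine Finset.sum_congr rfl fun x _ => ?_
  rw [← Finset.sum_mul]
  have h : ∑ i, ind (pc x = i) = 1 := by
    rw [Finset.sum_eq_single (pc x)]
    · exact ind_t rfl
    · intro b _ hb
      exact ind_f fun h => hb h.symm
    · intro h
      exact absurd (mem_univ _) h
  rw [h, one_mul]

/-- `∑ x, Ω (pc x) ≤ K * ∑ i, Ω i` -/
private theorem sum_pc_le {pc : V → V} {K : ℝ} {Ω : V → ℝ} (hΩ : ∀ i, 0 ≤ Ω i)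
    (hpc : ∀ i, (({x | pc x = i} : Set V).ncard : ℝ) ≤ K) : ∑ x, Ω (pc x) ≤ K * ∑ i, Ω i := by
  classical
  have h1 : ∑ x, Ω (pc x) = ∑ i, ∑ x ∈ univ.filter (fun x => pc x = i), Ω (pc x) :=
    (Finset.sum_fiberwise (s := univ) (g := pc) (f := fun x => Ω (pc x))).symm
  rw [h1, Finset.mul_sum]
  refine Finset.sum_le_sum fun i _ => ?_
  have h2 : ∑ x ∈ univ.filter (fun x => pc x = i), Ω (pc x) =
      ((univ.filter (fun x => pc x = i)).card : ℝ) * Ω i := by
    rw [Finset.sum_congr rfl (g := fun _ => Ω i)]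
    · rw [Finset.sum_const, nsmul_eq_mul]
    · intro x hx
      rw [(Finset.mem_filter.mp hx).2]
  rw [h2]
  have h3 : ((univ.filter (fun x => pc x = i)).card : ℝ) ≤ K := by
    have := hpc i
    rwa [Set.ncard_eq_toFinset_card', Set.toFinset_setOf] at this
  exact mul_le_mul_of_nonneg_right h3 (hΩ i)

theorem mass_bound {P : Matrix V V ℝ} (hP : SStoch P) (σ : V → V → ZMod T → SignType) (pc : V → V)
    {w K : ℝ} (hw : 0 < w) (hwP : ∀ x y, 0 < P x y → w ≤ P x y) (hK : 0 < K)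
    (hpc : ∀ i, (({x | pc x = i} : Set V).ncard : ℝ) ≤ K) :
    EM P (fun x y => ∑ t, lam2 (om P σ pc (pc x)) (ch (σ x y)) t) ≤
      2 * (1 + Real.log (2 * K / w)) * EM P (fun x y => ((ch (σ x y)).card : ℝ)) := by
  set L : ℝ := Real.log (2 * K / w) with hL
  have hpt : ∀ x y, P x y * ∑ t, lam2 (om P σ pc (pc x)) (ch (σ x y)) t ≤
      P x y * (2 * (((ch (σ x y)).card : ℝ) * L + (∑ t, om P σ pc (pc x) t) / K)) := by
    intro x y
    rcases (hP.nonneg x y).eq_or_lt with h | h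
    · rw [← h]; simp
    · exact mul_le_mul_of_nonneg_left
        (lam2_mass (om_nonneg hP σ pc (pc x)) hw
          (fun t ht => (hwP x y h).trans (le_om hP σ pc ht)) hK) h.le
  have hsum : ∑ x, ∑ y, P x y * ∑ t, lam2 (om P σ pc (pc x)) (ch (σ x y)) t ≤
      2 * (1 + L) * ∑ x, ∑ y, P x y * ((ch (σ x y)).card : ℝ) := by
    have e1 : ∑ x, ∑ y, P x y * (2 * (((ch (σ x y)).card : ℝ) * L +
        (∑ t, om P σ pc (pc x) t) / K)) =
        2 * L * ∑ x, ∑ y, P x y * ((ch (σ x y)).card : ℝ) +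
          2 / K * ∑ x, ∑ t, om P σ pc (pc x) t := by
      rw [Finset.mul_sum, Finset.mul_sum, ← Finset.sum_add_distrib]
      refine Finset.sum_congr rfl fun x _ => ?_
      have e2 : ∑ y, P x y * (2 * (((ch (σ x y)).card : ℝ) * L +
          (∑ t, om P σ pc (pc x) t) / K)) =
          ∑ y, (2 * L * (P x y * ((ch (σ x y)).card : ℝ)) +
            P x y * (2 / K * ∑ t, om P σ pc (pc x) t)) :=
        Finset.sum_congr rfl fun y _ => by ring
      rw [e2, Finset.sum_add_distrib, ← Finset.mul_sum, ← Finset.sum_mul, hP.sum_one x, one_mul]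
    have e3 : ∑ x, ∑ t, om P σ pc (pc x) t ≤
        K * ∑ x, ∑ y, P x y * ((ch (σ x y)).card : ℝ) := by
      rw [← om_total_sum P σ pc]
      exact sum_pc_le (fun i => Finset.sum_nonneg fun t _ => om_nonneg hP σ pc i t) hpc
    calc ∑ x, ∑ y, P x y * ∑ t, lam2 (om P σ pc (pc x)) (ch (σ x y)) t
        ≤ ∑ x, ∑ y, P x y * (2 * (((ch (σ x y)).card : ℝ) * L +
            (∑ t, om P σ pc (pc x) t) / K)) :=
          Finset.sum_le_sum fun x _ => Finset.sum_le_sum fun y _ => hpt x y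
      _ = _ := e1
      _ ≤ 2 * L * ∑ x, ∑ y, P x y * ((ch (σ x y)).card : ℝ) +
          2 / K * (K * ∑ x, ∑ y, P x y * ((ch (σ x y)).card : ℝ)) := by
          have h2K : 0 ≤ 2 / K := by positivity
          linarith [mul_le_mul_of_nonneg_left e3 h2K]
      _ = 2 * (1 + L) * ∑ x, ∑ y, P x y * ((ch (σ x y)).card : ℝ) := by
          field_simp; ring
  unfold EM
  have hc : (0 : ℝ) ≤ (Fintype.card V : ℝ)⁻¹ := by positivity
  calc (Fintype.card V : ℝ)⁻¹ * ∑ x, ∑ y, P x y * ∑ t, lam2 (om P σ pc (pc x)) (ch (σ x y)) t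
      ≤ (Fintype.card V : ℝ)⁻¹ * (2 * (1 + L) * ∑ x, ∑ y, P x y * ((ch (σ x y)).card : ℝ)) :=
        mul_le_mul_of_nonneg_left hsum hc
    _ = _ := by ring

end Pool.Agent.H3NG
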