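import Pool.Agent.H3NG.PathA

/-!
# Module MassA : mass of the log-uniform weights

`∑ t, lamF ω A t = ∑ τ ∈ A, ∑ i < T, ind (fwc A τ i ≤ 1) * ω (τ + i) / wsum ω τ i` (substitute `τ = t - i`).
For fixed `τ ∈ A` the set `{i < T : fwc A τ i ≤ 1}` is an initial segment `range n` of `range T` (`n ≥ 1`), and with
`W i = wsum ω τ i` (`W 0 = ω τ ≥ w > 0`, `W` increasing) `∑ i < n, (W i - W (i-1)) / W i ≤ 1 + log (W (n-1) / W 0)`
(as `1 - x ≤ - log x`), `W (n-1) = F τ := ∑ i < T, ind (fwc A τ i ≤ 1) * ω (τ + i)`.  Then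
`log (F / ω τ) ≤ log (F / w) = log (2K / w) + log (F / (2K)) ≤ log (2K / w) + F / (2K) - 1`.  Finally
`∑ τ ∈ A, F τ ≤ 2 ∑ t, ω t`: for a given `t` at most two `i < T` satisfy `t - i ∈ A` and `fwc A (t - i) i ≤ 1`
(`fwc A (t - i) i` = number of `j < i` with `t - j ∈ A`; list the `i` with `t - i ∈ A` in increasing order).
`lam2_mass`: `lamB` is `lamF` after the reversal of time `t ↦ -t` (`Fintype.sum_equiv (Equiv.neg _)`).
-/

set_option autoImplicit false
set_option linter.unusedSectionVars false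

open Finset

namespace Pool.Agent.H3NG

variable {T : ℕ} [NeZero T]

private theorem wsum_nonneg' {ω : ZMod T → ℝ} (hω : ∀ t, 0 ≤ ω t) (t : ZMod T) (i : ℕ) :
    0 ≤ wsum ω t i := Finset.sum_nonneg fun _ _ => hω _

theorem lamF_nonneg {ω : ZMod T → ℝ} (hω : ∀ t, 0 ≤ ω t) (A : Finset (ZMod T)) (t : ZMod T) :
    0 ≤ lamF ω A t := by
  unfold lamF
  refine Finset.sum_nonneg fun i _ => mul_nonneg (ind_nonneg _) (div_nonneg (hω t) ?_)
  exact wsum_nonneg' hω _ _

theorem lam2_nonneg {ω : ZMod T → ℝ} (hω : ∀ t, 0 ≤ ω t) (A : Finset (ZMod T)) (t : ZMod T) :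
    0 ≤ lam2 ω A t := by
  unfold lam2 lamB
  exact add_nonneg (lamF_nonneg hω A t) (lamF_nonneg (fun _ => hω _) _ _)

private theorem fwc_mono (A : Finset (ZMod T)) (τ : ZMod T) {i j : ℕ} (h : i ≤ j) :
    fwc A τ i ≤ fwc A τ j := by
  classical
  unfold fwc
  refine Finset.card_le_card ?_
  intro k hk
  simp only [Finset.mem_filter, Finset.mem_Icc] at hk ⊢
  exact ⟨⟨hk.1.1, hk.1.2.trans h⟩, hk.2⟩

private theorem fwc_zero (A : Finset (ZMod T)) (τ : ZMod T) : fwc A τ 0 = 0 := by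
  classical
  unfold fwc
  simp

/-- the logarithmic sum over an initial segment -/
private theorem log_sum {ω : ZMod T → ℝ} (hω : ∀ t, 0 ≤ ω t) {τ : ZMod T} (h0 : 0 < ω τ)
    {p : ℕ → Prop} (hp0 : p 0) (hp : ∀ i, p (i + 1) → p i) (N : ℕ) :
    ω τ ≤ ∑ i ∈ range (N + 1), ind (p i) * ω (τ + (i : ZMod T)) ∧
    (p N → ∑ i ∈ range (N + 1), ind (p i) * ω (τ + (i : ZMod T)) = wsum ω τ N) ∧
    ∑ i ∈ range (N + 1), ind (p i) * (ω (τ + (i : ZMod T)) / wsum ω τ i) ≤
      1 + Real.log ((∑ i ∈ range (N + 1), ind (p i) * ω (τ + (i : ZMod T))) / ω τ) := by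
  induction N with
  | zero =>
    have hw : wsum ω τ 0 = ω τ := by simp [wsum]
    refine ⟨?_, ?_, ?_⟩
    · simp [ind_true hp0]
    · intro _
      simp [ind_true hp0, hw]
    · simp [ind_true hp0, hw, div_self h0.ne']
  | succ N ih =>
    obtain ⟨h1, h2, h3⟩ := ih
    by_cases hN : p (N + 1)
    · have hpN := hp N hN
      have hF := h2 hpN
      have hWs : wsum ω τ (N + 1) = wsum ω τ N + ω (τ + ((N + 1 : ℕ) : ZMod T)) := by
        unfold wsum
        rw [Finset.sum_range_succ]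
      have hWpos : 0 < wsum ω τ N := by rw [← hF]; linarith
      have hW1pos : 0 < wsum ω τ (N + 1) := by
        rw [hWs]; have := hω (τ + ((N + 1 : ℕ) : ZMod T)); linarith
      refine ⟨?_, ?_, ?_⟩
      · rw [Finset.sum_range_succ, ind_true hN, one_mul]
        have := hω (τ + ((N + 1 : ℕ) : ZMod T)); linarith
      · intro _
        rw [Finset.sum_range_succ, ind_true hN, one_mul, hF, hWs]
      · rw [Finset.sum_range_succ, ind_true hN, one_mul,
          Finset.sum_range_succ (fun i => ind (p i) * ω (τ + (i : ZMod T))), ind_true hN, one_mul,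
          hF, ← hWs]
        rw [hF] at h3
        have h4 : ω (τ + ((N + 1 : ℕ) : ZMod T)) / wsum ω τ (N + 1)
            = 1 - wsum ω τ N / wsum ω τ (N + 1) := by
          field_simp
          linarith
        have h5 : 1 - wsum ω τ N / wsum ω τ (N + 1) ≤
            - Real.log (wsum ω τ N / wsum ω τ (N + 1)) := by
          have := Real.log_le_sub_one_of_pos (div_pos hWpos hW1pos)
          linarith
        have h6 : Real.log (wsum ω τ (N + 1) / ω τ) =
            Real.log (wsum ω τ N / ω τ) - Real.log (wsum ω τ N / wsum ω τ (N + 1)) := by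
          rw [Real.log_div hW1pos.ne' h0.ne', Real.log_div hWpos.ne' h0.ne',
            Real.log_div hWpos.ne' hW1pos.ne']
          ring
        rw [h6, h4]
        linarith
    · refine ⟨?_, ?_, ?_⟩
      · rw [Finset.sum_range_succ, ind_false hN, zero_mul, add_zero]; exact h1
      · intro h; exact absurd h hN
      · rw [Finset.sum_range_succ, ind_false hN, zero_mul, add_zero,
          Finset.sum_range_succ (fun i => ind (p i) * ω (τ + (i : ZMod T))), ind_false hN, zero_mul,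
          add_zero]
        exact h3

/-- substitution `τ = t - i` -/
private theorem subst_sum (A : Finset (ZMod T)) (q : ZMod T → ℕ → Prop)
    (f : ZMod T → ZMod T → ℕ → ℝ) :
    ∑ t, ∑ i ∈ range T, ind (t - (i : ZMod T) ∈ A ∧ q (t - (i : ZMod T)) i) *
      f t (t - (i : ZMod T)) i =
    ∑ τ ∈ A, ∑ i ∈ range T, ind (q τ i) * f (τ + (i : ZMod T)) τ i := by
  classical
  rw [Finset.sum_comm]
  rw [Finset.sum_comm (s := A)]
  refine Finset.sum_congr rfl fun i _ => ?_
  have h1 : ∑ t, ind (t - (i : ZMod T) ∈ A ∧ q (t - (i : ZMod T)) i) *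
      f t (t - (i : ZMod T)) i =
      ∑ τ, ind (τ ∈ A ∧ q τ i) * f (τ + (i : ZMod T)) τ i := by
    refine Fintype.sum_equiv (Equiv.subRight (i : ZMod T)) _ _ fun t => ?_
    simp [Equiv.subRight]
  rw [h1, ← Finset.sum_filter_add_sum_filter_not univ (fun τ => τ ∈ A)]
  have h2 : ∑ τ ∈ univ.filter (fun τ => ¬ τ ∈ A),
      ind (τ ∈ A ∧ q τ i) * f (τ + (i : ZMod T)) τ i = 0 := by
    refine Finset.sum_eq_zero fun τ hτ => ?_
    rw [Finset.mem_filter] at hτ
    rw [ind_false (fun h => hτ.2 h.1), zero_mul]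
  rw [h2, add_zero]
  have h3 : univ.filter (fun τ => τ ∈ A) = A := by ext; simp
  rw [h3]
  refine Finset.sum_congr rfl fun τ hτ => ?_
  have : (τ ∈ A ∧ q τ i) ↔ q τ i := ⟨fun h => h.2, fun h => ⟨hτ, h⟩⟩
  rw [this]

/-- at most two starting points reach a given time -/
private theorem card_le_two (A : Finset (ZMod T)) (t : ZMod T) :
    ∑ i ∈ range T, ind (t - (i : ZMod T) ∈ A ∧ fwc A (t - (i : ZMod T)) i ≤ 1) ≤ 2 := by
  classical
  set S : Finset ℕ := (range T).filter
    (fun i => t - (i : ZMod T) ∈ A ∧ fwc A (t - (i : ZMod T)) i ≤ 1) with hS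
  have h1 : ∑ i ∈ range T, ind (t - (i : ZMod T) ∈ A ∧ fwc A (t - (i : ZMod T)) i ≤ 1)
      = (S.card : ℝ) := by
    rw [hS, Finset.card_filter]
    push_cast
    refine Finset.sum_congr rfl fun i _ => ?_
    unfold ind
    split_ifs <;> rfl
  rw [h1]
  have h2 : S.card ≤ 2 := by
    rcases S.eq_empty_or_nonempty with he | hne
    · rw [he]; simp
    · set m := S.max' hne with hm
      have hmS : m ∈ S := S.max'_mem hne
      have hm' := (Finset.mem_filter.mp hmS).2
      have h3 : (S.erase m).card ≤ fwc A (t - (m : ZMod T)) m := by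
        unfold fwc
        refine Finset.card_le_card_of_injOn (fun k => m - k) ?_ ?_
        · intro k hk
          have hk' := Finset.mem_erase.mp (Finset.mem_coe.mp hk)
          have hlt : k < m := lt_of_le_of_ne (S.le_max' k hk'.2) hk'.1
          have hkA := (Finset.mem_filter.mp hk'.2).2.1
          simp only [Finset.coe_filter, Finset.mem_Icc, Set.mem_ofPred_eq]
          refine ⟨⟨by omega, by omega⟩, ?_⟩
          have : t - (m : ZMod T) + ((m - k : ℕ) : ZMod T) = t - (k : ZMod T) := by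
            rw [Nat.cast_sub hlt.le]; ring
          rw [this]; exact hkA
        · intro k hk k' hk' hkk
          have h4 := Finset.mem_erase.mp (Finset.mem_coe.mp hk)
          have h5 := Finset.mem_erase.mp (Finset.mem_coe.mp hk')
          have h6 : k < m := lt_of_le_of_ne (S.le_max' k h4.2) h4.1
          have h7 : k' < m := lt_of_le_of_ne (S.le_max' k' h5.2) h5.1
          simp only at hkk
          omega
      have h8 := Finset.card_erase_of_mem hmS
      omega
  exact_mod_cast h2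

theorem lamF_mass {ω : ZMod T → ℝ} (hω : ∀ t, 0 ≤ ω t) {A : Finset (ZMod T)} {w K : ℝ} (hw : 0 < w)
    (hA : ∀ t ∈ A, w ≤ ω t) (hK : 0 < K) :
    ∑ t, lamF ω A t ≤ A.card * Real.log (2 * K / w) + (∑ t, ω t) / K := by
  classical
  have hTpos : 0 < T := Nat.pos_of_ne_zero (NeZero.ne T)
  obtain ⟨N, hN⟩ : ∃ N, T = N + 1 := ⟨T - 1, by omega⟩
  set F : ZMod T → ℝ := fun τ => ∑ i ∈ range T, ind (fwc A τ i ≤ 1) * ω (τ + (i : ZMod T)) with hF
  have hsub : ∑ t, lamF ω A t =
      ∑ τ ∈ A, ∑ i ∈ range T, ind (fwc A τ i ≤ 1) * (ω (τ + (i : ZMod T)) / wsum ω τ i) := by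
    have := subst_sum A (fun τ i => fwc A τ i ≤ 1) (fun t τ i => ω t / wsum ω τ i)
    exact this
  have hFsum : ∑ τ ∈ A, F τ ≤ 2 * ∑ t, ω t := by
    have h1 := subst_sum A (fun τ i => fwc A τ i ≤ 1) (fun t _ _ => ω t)
    have h2 : ∑ τ ∈ A, F τ = ∑ t, (∑ i ∈ range T,
        ind (t - (i : ZMod T) ∈ A ∧ fwc A (t - (i : ZMod T)) i ≤ 1)) * ω t := by
      rw [hF]
      refine h1.symm.trans ?_
      refine Finset.sum_congr rfl fun t _ => ?_
      rw [Finset.sum_mul]
    rw [h2, Finset.mul_sum]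
    refine Finset.sum_le_sum fun t _ => ?_
    exact mul_le_mul_of_nonneg_right (card_le_two A t) (hω t)
  have hone : ∀ τ ∈ A, ∑ i ∈ range T, ind (fwc A τ i ≤ 1) *
      (ω (τ + (i : ZMod T)) / wsum ω τ i) ≤ Real.log (2 * K / w) + F τ / (2 * K) := by
    intro τ hτ
    have h0 : 0 < ω τ := lt_of_lt_of_le hw (hA τ hτ)
    have hls := log_sum hω h0 (p := fun i => fwc A τ i ≤ 1) (by simp [fwc_zero])
      (fun i hi => (fwc_mono A τ (Nat.le_succ i)).trans hi) N
    rw [← hN] at hls
    obtain ⟨h1, -, h3⟩ := hls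
    have hFτ : 0 < F τ := lt_of_lt_of_le h0 h1
    have h4 : Real.log (F τ / ω τ) ≤ Real.log (F τ / w) := by
      refine Real.log_le_log (div_pos hFτ h0) ?_
      exact div_le_div_of_nonneg_left hFτ.le hw (hA τ hτ)
    have h5 : Real.log (F τ / w) = Real.log (2 * K / w) + Real.log (F τ / (2 * K)) := by
      have h2K : 0 < 2 * K := by positivity
      rw [Real.log_div hFτ.ne' hw.ne', Real.log_div h2K.ne' hw.ne', Real.log_div hFτ.ne' h2K.ne']
      ring
    have h6 : Real.log (F τ / (2 * K)) ≤ F τ / (2 * K) - 1 :=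
      Real.log_le_sub_one_of_pos (div_pos hFτ (by positivity))
    have h7 : Real.log ((∑ i ∈ range T, ind (fwc A τ i ≤ 1) * ω (τ + (i : ZMod T))) / ω τ)
        = Real.log (F τ / ω τ) := rfl
    rw [h7] at h3
    linarith
  rw [hsub]
  calc ∑ τ ∈ A, ∑ i ∈ range T, ind (fwc A τ i ≤ 1) * (ω (τ + (i : ZMod T)) / wsum ω τ i)
      ≤ ∑ τ ∈ A, (Real.log (2 * K / w) + F τ / (2 * K)) := Finset.sum_le_sum hone
    _ = A.card * Real.log (2 * K / w) + (∑ τ ∈ A, F τ) / (2 * K) := by
        rw [Finset.sum_add_distrib, Finset.sum_const, nsmul_eq_mul, Finset.sum_div]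
    _ ≤ A.card * Real.log (2 * K / w) + (2 * ∑ t, ω t) / (2 * K) := by
        gcongr
    _ = A.card * Real.log (2 * K / w) + (∑ t, ω t) / K := by
        congr 1
        rw [mul_div_mul_left _ _ (two_ne_zero)]

theorem lam2_mass {ω : ZMod T → ℝ} (hω : ∀ t, 0 ≤ ω t) {A : Finset (ZMod T)} {w K : ℝ} (hw : 0 < w)
    (hA : ∀ t ∈ A, w ≤ ω t) (hK : 0 < K) :
    ∑ t, lam2 ω A t ≤ 2 * (A.card * Real.log (2 * K / w) + (∑ t, ω t) / K) := by
  classical
  have h1 := lamF_mass hω hw hA hK
  have h2 : ∑ t, lamB ω A t ≤ A.card * Real.log (2 * K / w) + (∑ t, ω t) / K := by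
    have h3 : ∑ t, lamB ω A t =
        ∑ t, lamF (fun t' => ω (-t')) (A.image (fun t' => -t')) t := by
      refine Fintype.sum_equiv (Equiv.neg _) _ _ fun t => ?_
      unfold lamB
      simp only [Equiv.neg_apply]
    have h4 : (A.image (fun t' => -t')).card = A.card :=
      Finset.card_image_of_injective _ neg_injective
    have h5 : ∑ t, (fun t' => ω (-t')) t = ∑ t, ω t :=
      Fintype.sum_equiv (Equiv.neg _) _ _ fun t => by simp
    have h6 := lamF_mass (ω := fun t' => ω (-t')) (fun t => hω _) (A := A.image (fun t' => -t')) hw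
      (by
        intro t ht
        obtain ⟨t', ht', rfl⟩ := Finset.mem_image.mp ht
        simpa using hA t' ht') hK
    rw [h3]
    rw [h4, h5] at h6
    exact h6
  have h7 : ∑ t, lam2 ω A t = ∑ t, lamF ω A t + ∑ t, lamB ω A t := by
    unfold lam2
    rw [Finset.sum_add_distrib]
  rw [h7]
  linarith

end Pool.Agent.H3NG
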