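import Pool.Agent.H3NG.Cyc
import Pool.Agent.H3NG.MassA

/-!
# Module OverLow : lower bound for the overlap

Let `A = ch s`, `g τ = ∑ i < up A τ, ω (τ + i)` (mass of the segment).  Let `τ ∈ A`, `τ' = nxt A τ` (`τ' ≠ τ`), both not in `N`.
Forward: `σ` has exactly one change `θ` in the segment of `τ` and exactly one in the segment of `τ'`; for `t` in the segment
of `τ'` write `t = θ + i` with `i < T` (`up_add_up_le`); `(θ, t]` contains at most one change of `σ`, so
`lamF ω (ch σ) t ≥ ω t / wsum ω θ i ≥ ω t / (g τ + g τ')`; same for `σ'`.  (`g τ > 0` because `ω θ > 0`.)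
Backward: for `t` in the segment of `τ`, `lamB ω (ch σ) t ≥ ω t / (g τ + g τ')`, using the tick in the segment of `τ'`.
As `min (a + b) (a' + b') ≥ min a a' + min b b'`, grouping `∑ t` by segments, the pair `(τ, τ')` contributes
`g τ' / (g τ + g τ') + g τ / (g τ + g τ') = 1`.  The number of `τ ∈ ch s` with `τ, nxt τ ∉ N` is at least
`card (ch s) - 2 card N` (`nxt_injOn`).  If `ch s = ∅` the right-hand side is nonnegative.
Suggestion: prove the forward statement once, and the backward one by reversing time, or directly.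
-/

set_option autoImplicit false

open Finset

namespace Pool.Agent.H3NG

variable {T : ℕ} [NeZero T]

/-- forward weight bound inside a window of length `L ≤ T` starting at `τ` -/
private theorem lamF_ge {ω : ZMod T → ℝ} (hω : ∀ t, 0 ≤ ω t) (A : Finset (ZMod T)) (τ : ZMod T)
    {L a b c : ℕ} (hL : L ≤ T) (hab : a ≤ b) (hb : b < L) (ha : τ + (a : ZMod T) ∈ A)
    (hpos : 0 < ω (τ + (a : ZMod T)))
    (hc : ∀ m, a < m → m ≤ b → τ + (m : ZMod T) ∈ A → m = c) :
    ω (τ + (b : ZMod T)) / (∑ m ∈ range L, ω (τ + (m : ZMod T))) ≤ lamF ω A (τ + (b : ZMod T)) := by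
  have e1 : τ + (b : ZMod T) - ((b - a : ℕ) : ZMod T) = τ + (a : ZMod T) := by
    rw [Nat.cast_sub hab]; ring
  have hterm : ∀ i ∈ range T, 0 ≤ ind (τ + (b : ZMod T) - (i : ZMod T) ∈ A ∧
      fwc A (τ + (b : ZMod T) - (i : ZMod T)) i ≤ 1) *
      (ω (τ + (b : ZMod T)) / wsum ω (τ + (b : ZMod T) - (i : ZMod T)) i) := by
    intro i _
    refine mul_nonneg (ind_nonneg _) (div_nonneg (hω _) ?_)
    exact Finset.sum_nonneg (fun j _ => hω _)
  have hmem : b - a ∈ range T := by
    rw [mem_range]; omega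
  have hfw : fwc A (τ + (a : ZMod T)) (b - a) ≤ 1 := by
    classical
    unfold fwc
    rw [Finset.card_le_one]
    intro x hx y hy
    rw [Finset.mem_filter, Finset.mem_Icc] at hx hy
    have hx' : a + x = c := by
      apply hc (a + x) (by omega) (by omega)
      have := hx.2
      push_cast
      rwa [← add_assoc]
    have hy' : a + y = c := by
      apply hc (a + y) (by omega) (by omega)
      have := hy.2
      push_cast
      rwa [← add_assoc]
    omega
  have hw : wsum ω (τ + (a : ZMod T)) (b - a) ≤ ∑ m ∈ range L, ω (τ + (m : ZMod T)) := by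
    unfold wsum
    have : ∑ j ∈ range (b - a + 1), ω (τ + (a : ZMod T) + (j : ZMod T))
        = ∑ m ∈ (range (b - a + 1)).image (fun j => a + j), ω (τ + (m : ZMod T)) := by
      rw [Finset.sum_image (by intro x _ y _ hxy; simpa using hxy)]
      refine Finset.sum_congr rfl (fun j _ => ?_)
      push_cast
      rw [add_assoc]
    rw [this]
    refine Finset.sum_le_sum_of_subset_of_nonneg ?_ (fun _ _ _ => hω _)
    intro x hx
    rw [Finset.mem_image] at hx
    obtain ⟨j, hj, rfl⟩ := hx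
    rw [mem_range] at hj ⊢
    omega
  have hwp : 0 < wsum ω (τ + (a : ZMod T)) (b - a) := by
    unfold wsum
    have h0 : ω (τ + (a : ZMod T) + ((0 : ℕ) : ZMod T)) ≤
        ∑ j ∈ range (b - a + 1), ω (τ + (a : ZMod T) + (j : ZMod T)) :=
      Finset.single_le_sum (f := fun j : ℕ => ω (τ + (a : ZMod T) + (j : ZMod T)))
        (fun _ _ => hω _) (mem_range.2 (by omega))
    have : ω (τ + (a : ZMod T) + ((0 : ℕ) : ZMod T)) = ω (τ + (a : ZMod T)) := by simp
    rw [this] at h0
    linarith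
  calc ω (τ + (b : ZMod T)) / (∑ m ∈ range L, ω (τ + (m : ZMod T)))
      ≤ ω (τ + (b : ZMod T)) / wsum ω (τ + (a : ZMod T)) (b - a) :=
        div_le_div_of_nonneg_left (hω _) hwp hw
    _ = ind (τ + (b : ZMod T) - ((b - a : ℕ) : ZMod T) ∈ A ∧
      fwc A (τ + (b : ZMod T) - ((b - a : ℕ) : ZMod T)) (b - a) ≤ 1) *
      (ω (τ + (b : ZMod T)) / wsum ω (τ + (b : ZMod T) - ((b - a : ℕ) : ZMod T)) (b - a)) := by
        rw [e1, ind_true ⟨ha, hfw⟩, one_mul]
    _ ≤ lamF ω A (τ + (b : ZMod T)) := by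
        unfold lamF
        exact Finset.single_le_sum (f := fun i : ℕ => ind (τ + (b : ZMod T) - (i : ZMod T) ∈ A ∧
          fwc A (τ + (b : ZMod T) - (i : ZMod T)) i ≤ 1) *
          (ω (τ + (b : ZMod T)) / wsum ω (τ + (b : ZMod T) - (i : ZMod T)) i)) hterm hmem

/-- backward weight bound inside a window of length `L ≤ T` starting at `τ` -/
private theorem lamB_ge {ω : ZMod T → ℝ} (hω : ∀ t, 0 ≤ ω t) (A : Finset (ZMod T)) (τ : ZMod T)
    {L a b c : ℕ} (hL : L ≤ T) (hab : a ≤ b) (hb : b < L) (hbA : τ + (b : ZMod T) ∈ A)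
    (hpos : 0 < ω (τ + (b : ZMod T)))
    (hc : ∀ m, a ≤ m → m < b → τ + (m : ZMod T) ∈ A → m = c) :
    ω (τ + (a : ZMod T)) / (∑ m ∈ range L, ω (τ + (m : ZMod T))) ≤ lamB ω A (τ + (a : ZMod T)) := by
  have key : ∀ m, m < L → -(τ + ((L - 1 : ℕ) : ZMod T)) + ((L - 1 - m : ℕ) : ZMod T)
      = -(τ + (m : ZMod T)) := by
    intro m hm
    rw [Nat.cast_sub (show m ≤ L - 1 by omega)]
    ring
  have h1 := lamF_ge (ω := fun t' => ω (-t')) (fun t => hω _) (A.image (fun t' => -t'))
    (-(τ + ((L - 1 : ℕ) : ZMod T))) (L := L) (a := L - 1 - b) (b := L - 1 - a) (c := L - 1 - c)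
    hL (by omega) (by omega)
    (by rw [key b hb]; exact Finset.mem_image_of_mem _ hbA)
    (by rw [key b hb]; simpa using hpos)
    (by
      intro m h1 h2 h3
      have hm : m = L - 1 - (L - 1 - m) := by omega
      rw [hm, key (L - 1 - m) (by omega)] at h3
      rw [Finset.mem_image] at h3
      obtain ⟨x, hx, hx'⟩ := h3
      have hx'' : x = τ + ((L - 1 - m : ℕ) : ZMod T) := neg_injective hx'
      rw [hx''] at hx
      have := hc (L - 1 - m) (by omega) (by omega) hx
      omega)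
  have h2 : ∑ m ∈ range L, ω (-(-(τ + ((L - 1 : ℕ) : ZMod T)) + (m : ZMod T)))
      = ∑ m ∈ range L, ω (τ + (m : ZMod T)) := by
    rw [← Finset.sum_range_reflect]
    refine Finset.sum_congr rfl (fun m hm => ?_)
    rw [mem_range] at hm
    rw [key m hm, neg_neg]
  unfold lamB
  rw [key a (by omega)] at h1
  simp only [neg_neg] at h1 h2
  rw [h2] at h1
  exact h1

private theorem cnt_one {s σ : ZMod T → SignType} {τ : ZMod T} (hτ : τ ∈ ch s)
    (h1 : cnt σ s τ = 1) :
    ∃ p < up (ch s) τ, τ + (p : ZMod T) ∈ ch σ ∧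
      ∀ m < up (ch s) τ, τ + (m : ZMod T) ∈ ch σ → m = p := by
  classical
  unfold cnt at h1
  rw [Finset.card_eq_one] at h1
  obtain ⟨θ, hθ⟩ := h1
  have hne : (ch s).Nonempty := ⟨τ, hτ⟩
  have hmem : θ ∈ (ch σ).filter (fun t => root (ch s) t = τ) := by
    rw [hθ]; exact Finset.mem_singleton_self θ
  rw [Finset.mem_filter] at hmem
  obtain ⟨i, hi, hi'⟩ := exists_root_add hne θ
  rw [hmem.2] at hi hi'
  refine ⟨i, hi, by rw [← hi']; exact hmem.1, ?_⟩
  intro m hm hm'
  have : τ + (m : ZMod T) ∈ (ch σ).filter (fun t => root (ch s) t = τ) := by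
    rw [Finset.mem_filter]
    exact ⟨hm', root_add hτ hm⟩
  rw [hθ, Finset.mem_singleton, hi'] at this
  exact add_inj hne hm hi this

/-- the two segments starting at `τ` and `nxt τ` as a window -/
private theorem window_sum (ω : ZMod T → ℝ) (s : ZMod T → SignType) (τ : ZMod T) :
    ∑ m ∈ range (up (ch s) τ + up (ch s) (nxt (ch s) τ)), ω (τ + (m : ZMod T)) =
      ∑ i ∈ range (up (ch s) τ), ω (τ + (i : ZMod T)) +
      ∑ i ∈ range (up (ch s) (nxt (ch s) τ)), ω (nxt (ch s) τ + (i : ZMod T)) := by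
  rw [Finset.sum_range_add]
  congr 1
  refine Finset.sum_congr rfl (fun i _ => ?_)
  unfold nxt
  push_cast
  rw [add_assoc]

private theorem two_seg {ω : ZMod T → ℝ} (hω : ∀ t, 0 ≤ ω t) {s σ : ZMod T → SignType} (hs : Ph s)
    (h : ∀ t ∈ ch σ, 0 < ω t) {τ : ZMod T} (hτ : τ ∈ ch s) (h1 : cnt σ s τ = 1)
    (h2 : cnt σ s (nxt (ch s) τ) = 1) :
    0 < ∑ i ∈ range (up (ch s) τ), ω (τ + (i : ZMod T)) ∧
    (∀ q < up (ch s) (nxt (ch s) τ), ω (nxt (ch s) τ + (q : ZMod T)) /
      (∑ i ∈ range (up (ch s) τ), ω (τ + (i : ZMod T)) +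
      ∑ i ∈ range (up (ch s) (nxt (ch s) τ)), ω (nxt (ch s) τ + (i : ZMod T))) ≤
      lamF ω (ch σ) (nxt (ch s) τ + (q : ZMod T))) ∧
    (∀ q < up (ch s) τ, ω (τ + (q : ZMod T)) /
      (∑ i ∈ range (up (ch s) τ), ω (τ + (i : ZMod T)) +
      ∑ i ∈ range (up (ch s) (nxt (ch s) τ)), ω (nxt (ch s) τ + (i : ZMod T))) ≤
      lamB ω (ch σ) (τ + (q : ZMod T))) := by
  have hne : (ch s).Nonempty := ⟨τ, hτ⟩
  have hτ' : nxt (ch s) τ ∈ ch s := nxt_mem hne τ
  obtain ⟨p, hp, hpA, hpu⟩ := cnt_one hτ h1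
  obtain ⟨p', hp', hpA', hpu'⟩ := cnt_one hτ' h2
  have hL := up_add_up_le hs hτ
  have hpos : ∀ j : ℕ, τ + ((up (ch s) τ + j : ℕ) : ZMod T) = nxt (ch s) τ + (j : ZMod T) := by
    intro j
    unfold nxt
    push_cast
    rw [add_assoc]
  -- ticks of σ in the window
  have htick : ∀ m, m < up (ch s) τ + up (ch s) (nxt (ch s) τ) → τ + (m : ZMod T) ∈ ch σ →
      m = p ∨ m = up (ch s) τ + p' := by
    intro m hm hm'
    by_cases hmu : m < up (ch s) τ
    · exact Or.inl (hpu m hmu hm')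
    · right
      have e : m = up (ch s) τ + (m - up (ch s) τ) := by omega
      rw [e, hpos] at hm'
      have := hpu' (m - up (ch s) τ) (by omega) hm'
      omega
  refine ⟨?_, ?_, ?_⟩
  · have h0 : ω (τ + (p : ZMod T)) ≤ ∑ i ∈ range (up (ch s) τ), ω (τ + (i : ZMod T)) :=
      Finset.single_le_sum (f := fun i : ℕ => ω (τ + (i : ZMod T))) (fun _ _ => hω _)
        (mem_range.2 hp)
    have := h _ hpA
    linarith
  · intro q hq
    rw [← window_sum, ← hpos q]
    refine lamF_ge hω (ch σ) τ (a := p) (c := up (ch s) τ + p') hL (by omega) (by omega) hpA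
      (h _ hpA) ?_
    intro m hm1 hm2 hm3
    rcases htick m (by omega) hm3 with h4 | h4
    · omega
    · exact h4
  · intro q hq
    rw [← window_sum]
    refine lamB_ge hω (ch σ) τ (b := up (ch s) τ + p') (c := p) hL (by omega) (by omega)
      (by rw [hpos]; exact hpA') (by rw [hpos]; exact h _ hpA') ?_
    intro m hm1 hm2 hm3
    rcases htick m (by omega) hm3 with h4 | h4
    · exact h4
    · omega

theorem overlap_lower {ω : ZMod T → ℝ} (hω : ∀ t, 0 ≤ ω t) {s σ σ' : ZMod T → SignType} (hs : Ph s)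
    (h : ∀ t ∈ ch σ, 0 < ω t) (h' : ∀ t ∈ ch σ', 0 < ω t) (Good : ZMod T → Prop)
    (N : Finset (ZMod T)) (hN : N ⊆ ch s)
    (hN' : ∀ τ ∈ ch s, τ ∉ N → cnt σ s τ = 1 ∧ cnt σ' s τ = 1 ∧ ∀ t, root (ch s) t = τ → Good t) :
    ((ch s).card : ℝ) - 2 * N.card ≤
      ∑ t, ind (Good t) * min (lam2 ω (ch σ) t) (lam2 ω (ch σ') t) := by
  classical
  have hBnn : ∀ (A : Finset (ZMod T)) (t : ZMod T), 0 ≤ lamB ω A t := by
    intro A t
    unfold lamB
    exact lamF_nonneg (fun _ => hω _) _ _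
  rcases (ch s).eq_empty_or_nonempty with he | hne
  · have hN0 : N = ∅ := by
      rw [he] at hN
      exact Finset.subset_empty.1 hN
    rw [he, hN0]
    simp only [Finset.card_empty, Nat.cast_zero, mul_zero, sub_zero]
    refine Finset.sum_nonneg (fun t _ => mul_nonneg (ind_nonneg _) ?_)
    exact le_min (lam2_nonneg hω _ _) (lam2_nonneg hω _ _)
  · set A := ch s with hA
    let FF : ZMod T → ℝ := fun t => ind (Good t) * min (lamF ω (ch σ) t) (lamF ω (ch σ') t)
    let FB : ZMod T → ℝ := fun t => ind (Good t) * min (lamB ω (ch σ) t) (lamB ω (ch σ') t)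
    have hFF : ∀ t, 0 ≤ FF t := fun t => mul_nonneg (ind_nonneg _)
      (le_min (lamF_nonneg hω _ _) (lamF_nonneg hω _ _))
    have hFB : ∀ t, 0 ≤ FB t := fun t => mul_nonneg (ind_nonneg _)
      (le_min (hBnn _ _) (hBnn _ _))
    have hstep1 : ∑ t, (FF t + FB t) ≤
        ∑ t, ind (Good t) * min (lam2 ω (ch σ) t) (lam2 ω (ch σ') t) := by
      refine Finset.sum_le_sum (fun t _ => ?_)
      show ind (Good t) * _ + ind (Good t) * _ ≤ _
      rw [← mul_add]
      refine mul_le_mul_of_nonneg_left ?_ (ind_nonneg _)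
      unfold lam2
      refine le_min ?_ ?_
      · exact add_le_add (min_le_left _ _) (min_le_left _ _)
      · exact add_le_add (min_le_right _ _) (min_le_right _ _)
    let c1 : ZMod T → ℝ := fun τ => ∑ i ∈ range (up A τ), FF (τ + (i : ZMod T))
    let c2 : ZMod T → ℝ := fun τ => ∑ i ∈ range (up A τ), FB (τ + (i : ZMod T))
    have hc1 : ∀ τ, 0 ≤ c1 τ := fun τ => Finset.sum_nonneg (fun _ _ => hFF _)
    have hc2 : ∀ τ, 0 ≤ c2 τ := fun τ => Finset.sum_nonneg (fun _ _ => hFB _)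
    have hstep2 : ∑ t, (FF t + FB t) = ∑ τ ∈ A, (c1 (nxt A τ) + c2 τ) := by
      rw [Finset.sum_add_distrib, Finset.sum_add_distrib, sum_segments hne FF,
        sum_segments hne FB, sum_nxt hne c1]
    have hkey : ∀ τ ∈ A, 1 - ind (τ ∈ N) - ind (nxt A τ ∈ N) ≤ c1 (nxt A τ) + c2 τ := by
      intro τ hτ
      by_cases hn1 : τ ∈ N
      · rw [ind_true hn1]
        have := ind_nonneg (nxt A τ ∈ N)
        have := hc1 (nxt A τ)
        have := hc2 τ
        linarith
      by_cases hn2 : nxt A τ ∈ N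
      · rw [ind_true hn2]
        have := ind_nonneg (τ ∈ N)
        have := hc1 (nxt A τ)
        have := hc2 τ
        linarith
      rw [ind_false hn1, ind_false hn2]
      have hτ' : nxt A τ ∈ A := nxt_mem hne τ
      obtain ⟨a1, a2, a3⟩ := hN' τ hτ hn1
      obtain ⟨b1, b2, b3⟩ := hN' _ hτ' hn2
      obtain ⟨g0, gF, gB⟩ := two_seg hω hs h hτ a1 b1
      obtain ⟨_, gF', gB'⟩ := two_seg hω hs h' hτ a2 b2
      rw [← hA] at g0 gF gB gF' gB'
      set g := ∑ i ∈ range (up A τ), ω (τ + (i : ZMod T)) with hg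
      set g' := ∑ i ∈ range (up A (nxt A τ)), ω (nxt A τ + (i : ZMod T)) with hg'
      have hg'0 : 0 ≤ g' := Finset.sum_nonneg (fun _ _ => hω _)
      have e1 : g' / (g + g') ≤ c1 (nxt A τ) := by
        rw [hg', Finset.sum_div]
        refine Finset.sum_le_sum (fun i hi => ?_)
        rw [mem_range] at hi
        have hG : Good (nxt A τ + (i : ZMod T)) := b3 _ (root_add hτ' hi)
        show _ ≤ ind (Good (nxt A τ + (i : ZMod T))) * _
        rw [ind_true hG, one_mul]
        exact le_min (gF i hi) (gF' i hi)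
      have e2 : g / (g + g') ≤ c2 τ := by
        rw [hg, Finset.sum_div]
        refine Finset.sum_le_sum (fun i hi => ?_)
        rw [mem_range] at hi
        have hG : Good (τ + (i : ZMod T)) := a3 _ (root_add hτ hi)
        show _ ≤ ind (Good (τ + (i : ZMod T))) * _
        rw [ind_true hG, one_mul]
        exact le_min (gB i hi) (gB' i hi)
      have e3 : g' / (g + g') + g / (g + g') = 1 := by
        rw [← add_div, add_comm g' g, div_self (by linarith)]
      linarith
    have hstep3 : (A.card : ℝ) - 2 * N.card ≤ ∑ τ ∈ A, (1 - ind (τ ∈ N) - ind (nxt A τ ∈ N)) := by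
      rw [Finset.sum_sub_distrib, Finset.sum_sub_distrib,
        sum_nxt hne (fun τ => ind (τ ∈ N))]
      have hcard : ∑ τ ∈ A, ind (τ ∈ N) ≤ N.card := by
        have : ∑ τ ∈ A, ind (τ ∈ N) = ∑ τ ∈ A, if τ ∈ N then (1 : ℝ) else 0 := by
          refine Finset.sum_congr rfl (fun τ _ => ?_)
          by_cases hn : τ ∈ N
          · rw [ind_true hn, if_pos hn]
          · rw [ind_false hn, if_neg hn]
        rw [this, ← Finset.sum_filter, Finset.sum_const, nsmul_eq_mul, mul_one]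
        have : A.filter (fun τ => τ ∈ N) ⊆ N := by
          intro x hx
          exact (Finset.mem_filter.1 hx).2
        exact_mod_cast Finset.card_le_card this
      rw [Finset.sum_const, nsmul_eq_mul, mul_one]
      linarith
    calc (A.card : ℝ) - 2 * N.card ≤ ∑ τ ∈ A, (1 - ind (τ ∈ N) - ind (nxt A τ ∈ N)) := hstep3
      _ ≤ ∑ τ ∈ A, (c1 (nxt A τ) + c2 τ) := Finset.sum_le_sum hkey
      _ = ∑ t, (FF t + FB t) := hstep2.symm
      _ ≤ _ := hstep1

end Pool.Agent.H3NG
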