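import Pool.Agent.H3NG.PathA

/-!
# Module PathC : expectation of products along a path

Claim 1: `Ex P (2n) x (fun z => ∏ i ∈ range n, (1 + ρ * ind (E (z (2i)) (z (2i+1)) (z (2i+2))))) ≤ (1 + ρ p) ^ n` for all
`x`: induction on `n`, two steps at once: the first factor depends on `x, y, z`, the rest is the product for the chain
started at `z`; `∑ y z, P x y P y z (1 + ρ ind E) ≤ 1 + ρ p`.
Claim 2 (Markov property): a prefix: induction on `c` (and `j0`); the factor `φ (z j0) (z (j0+1))` is read before the product starts,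
because `j0 + 1 ≤ c`.  The vertices after `c + 2n` are dropped (row sums are one).
-/

set_option autoImplicit false

open Finset

namespace Pool.Agent.H3NG

variable {V : Type} [Fintype V]

private theorem pathC_mono {P : Matrix V V ℝ} (hP : SStoch P) (m : ℕ) :
    ∀ (x : V) (F F' : (ℕ → V) → ℝ), (∀ w : ℕ → V, w 0 = x → F w ≤ F' w) →
      Ex P m x F ≤ Ex P m x F' := by
  induction m with
  | zero => intro x F F' h; exact h _ rfl
  | succ m ih =>
    intro x F F' h
    show ∑ y, P x y * Ex P m y (fun z => F (cns x z)) ≤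
      ∑ y, P x y * Ex P m y (fun z => F' (cns x z))
    refine Finset.sum_le_sum (fun y _ => mul_le_mul_of_nonneg_left ?_ (hP.nonneg x y))
    exact ih y _ _ (fun w _ => h (cns x w) rfl)

private theorem pathC_cmul {P : Matrix V V ℝ} (m : ℕ) (c : ℝ) :
    ∀ (x : V) (F : (ℕ → V) → ℝ), Ex P m x (fun z => c * F z) = c * Ex P m x F := by
  induction m with
  | zero => intro x F; rfl
  | succ m ih =>
    intro x F
    show ∑ y, P x y * Ex P m y (fun z => c * F (cns x z)) =
      c * ∑ y, P x y * Ex P m y (fun z => F (cns x z))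
    rw [Finset.mul_sum]
    refine Finset.sum_congr rfl (fun y _ => ?_)
    rw [ih y (fun z => F (cns x z))]
    ring

private theorem pathC_one {P : Matrix V V ℝ} (hP : SStoch P) (m : ℕ) :
    ∀ x : V, Ex P m x (fun _ => (1 : ℝ)) = 1 := by
  induction m with
  | zero => intro x; rfl
  | succ m ih =>
    intro x
    show ∑ y, P x y * Ex P m y (fun _ => (1 : ℝ)) = 1
    have h : ∑ y, P x y * Ex P m y (fun _ => (1 : ℝ)) = ∑ y, P x y :=
      Finset.sum_congr rfl (fun y _ => by rw [ih y, mul_one])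
    rw [h, hP.sum_one x]

/-- the product -/
private noncomputable def pathC_pr (E : V → V → V → Prop) (ρ : ℝ) (n c : ℕ) (z : ℕ → V) : ℝ :=
  ∏ i ∈ range n, (1 + ρ * ind (E (z (c + 2 * i)) (z (c + 2 * i + 1)) (z (c + 2 * i + 2))))

private theorem pathC_base {P : Matrix V V ℝ} (hP : SStoch P) (E : V → V → V → Prop) (p ρ : ℝ)
    (hp : ∀ x, ∑ y, ∑ z, P x y * P y z * ind (E x y z) ≤ p) (hρ : 0 ≤ ρ) (hp0 : 0 ≤ p) (n : ℕ) :
    ∀ (m : ℕ) (x : V), 2 * n ≤ m → Ex P m x (pathC_pr E ρ n 0) ≤ (1 + ρ * p) ^ n := by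
  induction n with
  | zero =>
    intro m x _
    have h : pathC_pr E ρ 0 0 = fun _ : ℕ → V => (1 : ℝ) := by
      funext z; simp [pathC_pr]
    rw [h, pathC_one hP, pow_zero]
  | succ n ih =>
    intro m x hm
    obtain ⟨m', rfl⟩ : ∃ m', m = m' + 2 := ⟨m - 2, by omega⟩
    have hK : 0 ≤ (1 + ρ * p) ^ n := pow_nonneg (by positivity) n
    have h1 : Ex P (m' + 2) x (pathC_pr E ρ (n + 1) 0) =
        ∑ y, P x y * ∑ z, P y z *
          Ex P m' z (fun w => pathC_pr E ρ (n + 1) 0 (cns x (cns y w))) := rfl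
    have h2 : ∀ y z, Ex P m' z (fun w => pathC_pr E ρ (n + 1) 0 (cns x (cns y w))) ≤
        (1 + ρ * ind (E x y z)) * (1 + ρ * p) ^ n := by
      intro y z
      have h3 : Ex P m' z (fun w => pathC_pr E ρ (n + 1) 0 (cns x (cns y w))) ≤
          Ex P m' z (fun w => (1 + ρ * ind (E x y z)) * pathC_pr E ρ n 0 w) := by
        refine pathC_mono hP m' z _ _ (fun w hw => le_of_eq ?_)
        unfold pathC_pr
        rw [Finset.prod_range_succ', mul_comm]
        congr 1
        · have : cns x (cns y w) (0 + 2 * 0 + 2) = z := hw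
          rw [this]
          rfl
      refine h3.trans ?_
      rw [pathC_cmul]
      have hnn : 0 ≤ 1 + ρ * ind (E x y z) := by
        have := mul_nonneg hρ (ind_nonneg (E x y z))
        linarith
      exact mul_le_mul_of_nonneg_left (ih m' z (by omega)) hnn
    rw [h1]
    calc ∑ y, P x y * ∑ z, P y z *
          Ex P m' z (fun w => pathC_pr E ρ (n + 1) 0 (cns x (cns y w)))
        ≤ ∑ y, P x y * ∑ z, P y z * ((1 + ρ * ind (E x y z)) * (1 + ρ * p) ^ n) := by
          refine Finset.sum_le_sum (fun y _ => mul_le_mul_of_nonneg_left ?_ (hP.nonneg x y))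
          exact Finset.sum_le_sum (fun z _ => mul_le_mul_of_nonneg_left (h2 y z) (hP.nonneg y z))
      _ = (∑ y, ∑ z, P x y * P y z * (1 + ρ * ind (E x y z))) * (1 + ρ * p) ^ n := by
          rw [Finset.sum_mul]
          refine Finset.sum_congr rfl (fun y _ => ?_)
          rw [Finset.mul_sum, Finset.sum_mul]
          refine Finset.sum_congr rfl (fun z _ => ?_)
          ring
      _ ≤ (1 + ρ * p) * (1 + ρ * p) ^ n := by
          refine mul_le_mul_of_nonneg_right ?_ hK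
          have h4 : ∑ y, ∑ z, P x y * P y z * (1 + ρ * ind (E x y z)) =
              (∑ y, ∑ z, P x y * P y z) + ρ * ∑ y, ∑ z, P x y * P y z * ind (E x y z) := by
            rw [Finset.mul_sum, ← Finset.sum_add_distrib]
            refine Finset.sum_congr rfl (fun y _ => ?_)
            rw [Finset.mul_sum, ← Finset.sum_add_distrib]
            refine Finset.sum_congr rfl (fun z _ => ?_)
            ring
          have h5 : ∑ y, ∑ z, P x y * P y z = 1 := by
            rw [← hP.sum_one x]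
            refine Finset.sum_congr rfl (fun y _ => ?_)
            rw [← Finset.mul_sum, hP.sum_one y, mul_one]
          rw [h4, h5]
          have := mul_le_mul_of_nonneg_left (hp x) hρ
          linarith
      _ = (1 + ρ * p) ^ (n + 1) := by rw [pow_succ]; ring

omit [Fintype V] in
private theorem pathC_pr_cns (E : V → V → V → Prop) (ρ : ℝ) (n c : ℕ) (x : V) (w : ℕ → V) :
    pathC_pr E ρ n (c + 1) (cns x w) = pathC_pr E ρ n c w := by
  unfold pathC_pr
  refine Finset.prod_congr rfl (fun i _ => ?_)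
  have e1 : c + 1 + 2 * i = (c + 2 * i) + 1 := by ring
  rw [e1]
  rfl

private theorem pathC_pref {P : Matrix V V ℝ} (hP : SStoch P) (E : V → V → V → Prop) (p ρ : ℝ)
    (hp : ∀ x, ∑ y, ∑ z, P x y * P y z * ind (E x y z) ≤ p) (hρ : 0 ≤ ρ) (hp0 : 0 ≤ p) (n : ℕ)
    (c : ℕ) :
    ∀ (m : ℕ) (x : V), c + 2 * n ≤ m → Ex P m x (pathC_pr E ρ n c) ≤ (1 + ρ * p) ^ n := by
  induction c with
  | zero => intro m x hm; exact pathC_base hP E p ρ hp hρ hp0 n m x (by omega)
  | succ c ih =>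
    intro m x hm
    obtain ⟨m', rfl⟩ : ∃ m', m = m' + 1 := ⟨m - 1, by omega⟩
    have h1 : Ex P (m' + 1) x (pathC_pr E ρ n (c + 1)) =
        ∑ y, P x y * Ex P m' y (fun w => pathC_pr E ρ n (c + 1) (cns x w)) := rfl
    rw [h1]
    calc ∑ y, P x y * Ex P m' y (fun w => pathC_pr E ρ n (c + 1) (cns x w))
        ≤ ∑ y, P x y * (1 + ρ * p) ^ n := by
          refine Finset.sum_le_sum (fun y _ => mul_le_mul_of_nonneg_left ?_ (hP.nonneg x y))
          simp only [pathC_pr_cns]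
          exact ih m' y (by omega)
      _ = (1 + ρ * p) ^ n := by rw [← Finset.sum_mul, hP.sum_one, one_mul]

private theorem pathC_main {P : Matrix V V ℝ} (hP : SStoch P) (E : V → V → V → Prop) (p ρ : ℝ)
    (hp : ∀ x, ∑ y, ∑ z, P x y * P y z * ind (E x y z) ≤ p) (hρ : 0 ≤ ρ) (hp0 : 0 ≤ p) (n : ℕ)
    (φ : V → V → ℝ) (hφ : ∀ x y, 0 ≤ φ x y) (j0 : ℕ) :
    ∀ (c m : ℕ) (x : V), j0 + 1 ≤ c → c + 2 * n ≤ m →
      Ex P m x (fun z => φ (z j0) (z (j0 + 1)) * pathC_pr E ρ n c z) ≤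
        (1 + ρ * p) ^ n * Ex P m x (fun z => φ (z j0) (z (j0 + 1))) := by
  induction j0 with
  | zero =>
    intro c m x hc hm
    obtain ⟨c', rfl⟩ : ∃ c', c = c' + 1 := ⟨c - 1, by omega⟩
    obtain ⟨m', rfl⟩ : ∃ m', m = m' + 1 := ⟨m - 1, by omega⟩
    have h1 : Ex P (m' + 1) x (fun z => φ (z 0) (z (0 + 1)) * pathC_pr E ρ n (c' + 1) z) =
        ∑ y, P x y * Ex P m' y (fun w => φ x (w 0) * pathC_pr E ρ n (c' + 1) (cns x w)) := rfl
    have h2 : Ex P (m' + 1) x (fun z => φ (z 0) (z (0 + 1))) =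
        ∑ y, P x y * Ex P m' y (fun w => φ x (w 0)) := rfl
    rw [h1, h2, Finset.mul_sum]
    refine Finset.sum_le_sum (fun y _ => ?_)
    have h3 : Ex P m' y (fun w => φ x (w 0) * pathC_pr E ρ n (c' + 1) (cns x w)) ≤
        Ex P m' y (fun w => φ x y * pathC_pr E ρ n c' w) := by
      refine pathC_mono hP m' y _ _ (fun w hw => le_of_eq ?_)
      rw [pathC_pr_cns, hw]
    rw [pathC_cmul] at h3
    have h4 : φ x y * Ex P m' y (fun _ => (1 : ℝ)) ≤ Ex P m' y (fun w => φ x (w 0)) := by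
      rw [← pathC_cmul]
      refine pathC_mono hP m' y _ _ (fun w hw => le_of_eq ?_)
      rw [hw, mul_one]
    rw [pathC_one hP, mul_one] at h4
    have h5 := pathC_pref hP E p ρ hp hρ hp0 n c' m' y (by omega)
    have h6 : φ x y * Ex P m' y (pathC_pr E ρ n c') ≤ φ x y * (1 + ρ * p) ^ n :=
      mul_le_mul_of_nonneg_left h5 (hφ x y)
    have hK : 0 ≤ (1 + ρ * p) ^ n := pow_nonneg (by positivity) n
    have h7 : φ x y * (1 + ρ * p) ^ n ≤ (1 + ρ * p) ^ n * Ex P m' y (fun w => φ x (w 0)) := by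
      rw [mul_comm]
      exact mul_le_mul_of_nonneg_left h4 hK
    have h8 := mul_le_mul_of_nonneg_left ((h3.trans h6).trans h7) (hP.nonneg x y)
    refine h8.trans (le_of_eq (by ring))
  | succ j ih =>
    intro c m x hc hm
    obtain ⟨c', rfl⟩ : ∃ c', c = c' + 1 := ⟨c - 1, by omega⟩
    obtain ⟨m', rfl⟩ : ∃ m', m = m' + 1 := ⟨m - 1, by omega⟩
    have h1 : Ex P (m' + 1) x (fun z => φ (z (j + 1)) (z (j + 1 + 1)) *
          pathC_pr E ρ n (c' + 1) z) =
        ∑ y, P x y * Ex P m' y (fun w => φ (w j) (w (j + 1)) *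
          pathC_pr E ρ n (c' + 1) (cns x w)) := rfl
    have h2 : Ex P (m' + 1) x (fun z => φ (z (j + 1)) (z (j + 1 + 1))) =
        ∑ y, P x y * Ex P m' y (fun w => φ (w j) (w (j + 1))) := rfl
    rw [h1, h2, Finset.mul_sum]
    refine Finset.sum_le_sum (fun y _ => ?_)
    simp only [pathC_pr_cns]
    have h3 := mul_le_mul_of_nonneg_left (ih c' m' y (by omega) (by omega)) (hP.nonneg x y)
    refine h3.trans (le_of_eq (by ring))

theorem EP_prod {P : Matrix V V ℝ} (hP : SStoch P) (E : V → V → V → Prop) (p ρ : ℝ)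
    (hp : ∀ x, ∑ y, ∑ z, P x y * P y z * ind (E x y z) ≤ p) (hρ : 0 ≤ ρ) (hp0 : 0 ≤ p)
    (φ : V → V → ℝ) (hφ : ∀ x y, 0 ≤ φ x y) {m n c j0 : ℕ} (hc : j0 + 1 ≤ c) (hm : c + 2 * n ≤ m) :
    EP P m (fun z => φ (z j0) (z (j0 + 1)) * ∏ i ∈ range n,
      (1 + ρ * ind (E (z (c + 2 * i)) (z (c + 2 * i + 1)) (z (c + 2 * i + 2))))) ≤
      (1 + ρ * p) ^ n * EM P φ := by
  rw [← EP_step hP (m := m) (j := j0) (by omega) φ]
  unfold EP
  have hcard : 0 ≤ (Fintype.card V : ℝ)⁻¹ := by positivity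
  have h1 : ∑ x, Ex P m x (fun z => φ (z j0) (z (j0 + 1)) * ∏ i ∈ range n,
      (1 + ρ * ind (E (z (c + 2 * i)) (z (c + 2 * i + 1)) (z (c + 2 * i + 2))))) ≤
      (1 + ρ * p) ^ n * ∑ x, Ex P m x (fun z => φ (z j0) (z (j0 + 1))) := by
    rw [Finset.mul_sum]
    exact Finset.sum_le_sum (fun x _ => pathC_main hP E p ρ hp hρ hp0 n φ hφ j0 c m x hc hm)
  refine (mul_le_mul_of_nonneg_left h1 hcard).trans (le_of_eq (by ring))

end Pool.Agent.H3NG
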