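import Pool.Agent.H3NG.PathB
import Pool.Agent.H3NG.PathC

/-!
# Module OverUp : upper bound for the overlap

* `Ef_or_Ef`: if both fail then `q := σ x y t = σ y z t ≠ 0`, `∑ z', P y z' ind (σ y z' t = q) ≥ 1 - η`, and for the
  reversed triple the in-state is `σ z y t = - q`, so `∑ z', P y z' ind (σ y z' t = -q) ≥ 1 - η`; the two events are
  disjoint, `2 - 2 η ≤ 1`, contradiction.
* `Ef_prob`: if `x` is bad the left-hand side is zero.  Otherwise `∑ y z, P P ind (¬ Con) ≤ η ^ 2`, so by Markov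
  `∑ y, P x y ind (∑ z, P y z ind (¬ Con σ t x y z) > η) ≤ η`; if `y` is not in this exceptional set then
  `∑ z', P y z' ind (σ y z' t = σ x y t) ≥ 1 - η`.  Total `≤ η ^ 2 + η ≤ 2 η`.
* `overlap_upper`: fix `t` (sum over `t` at the end).  Let `F_i` = (¬ Bad (z (a+2i)) t and `Ef` at the triple
  `z (a+2i), z (a+2i+1), z (a+2i+2)`), `B_i` = (¬ Bad (z (a+2i+2)) t and `Ef` at the reversed triple).  If `Few` holds then
  by `Ef_or_Ef` `3 * ∑ (ind F_i + ind B_i) ≥ 3 * 2a - 2a = 4a`, so `3 * ∑ ind F_i ≥ 2a` or `3 * ∑ ind B_i ≥ 2a`.  In the first case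
  `1 ≤ (1/16)^a * ∏ (1 + 63 * ind F_i)` (as `64 ^ k ≥ 16 ^ a` if `3 k ≥ 2 a`), `min ≤ φ (z j0) (z (j0+1)) t`, and `EP_prod`
  with `p = 1/64`, `ρ = 63`, `n = 2a`, `c = a` gives `(1/16)^a * 2^(2a) * EM P φ = (1/4)^a * EM P φ`.  In the second case reverse the path
  (`EP_rev`, `8a`): `c = 3a`, start `8a - 1 - j1`, the triple number `i` becomes the number `2a - 1 - i`, and use `EM_swap`.
-/

set_option autoImplicit false

open Finset

namespace Pool.Agent.H3NG

variable {T : ℕ} [NeZero T] {V : Type} [Fintype V]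

private theorem ou_signtype {q r : SignType} (hq : q ≠ 0) : ind (r = q) + ind (r = -q) ≤ 1 := by
  by_cases h1 : r = q
  · have h2 : ¬ r = -q := by
      intro h
      apply hq
      rw [h1] at h
      revert h
      cases q <;> decide
    rw [ind_true h1, ind_false h2]; norm_num
  · rw [ind_false h1]
    have := ind_le_one (r = -q)
    linarith

theorem Ef_or_Ef {P : Matrix V V ℝ} (hP : SStoch P) {σ : V → V → ZMod T → SignType} (hσ : Sig σ)
    {η : ℝ} (hη : η < 1 / 2) (t : ZMod T) (x y z : V) :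
    Ef P σ η t x y z ∨ Ef P σ η t z y x := by
  by_contra hcon
  rw [not_or] at hcon
  obtain ⟨h1, h2⟩ := hcon
  unfold Ef at h1 h2
  rw [not_not] at h1 h2
  obtain ⟨⟨ha, hb⟩, hc⟩ := h1
  obtain ⟨⟨_, _⟩, hd⟩ := h2
  have hzy : σ z y t = - σ x y t := by
    rw [hσ.anti y z t, ha]
  rw [hzy] at hd
  have hsum : ∑ z', P y z' * ind (σ y z' t = σ x y t) + ∑ z', P y z' * ind (σ y z' t = - σ x y t) ≤ 1 := by
    rw [← Finset.sum_add_distrib, ← hP.sum_one y]
    apply Finset.sum_le_sum
    intro z' _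
    have := ou_signtype (q := σ x y t) (r := σ y z' t) hb
    have hp := hP.nonneg y z'
    nlinarith
  linarith

theorem Ef_prob {P : Matrix V V ℝ} (hP : SStoch P) {σ : V → V → ZMod T → SignType}
    {η : ℝ} (h0 : 0 < η) (h1 : η ≤ 1) (t : ZMod T) (x : V) :
    ∑ y, ∑ z, P x y * P y z * ind (¬ Bad P σ η x t ∧ Ef P σ η t x y z) ≤ 2 * η := by
  by_cases hb : Bad P σ η x t
  · have : ∑ y, ∑ z, P x y * P y z * ind (¬ Bad P σ η x t ∧ Ef P σ η t x y z) = 0 := by
      apply Finset.sum_eq_zero
      intro y _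
      apply Finset.sum_eq_zero
      intro z _
      rw [ind_false (by tauto), mul_zero]
    rw [this]; linarith
  · have hnb : ∑ y, ∑ z, P x y * P y z * ind (¬ Con σ t x y z) ≤ η ^ 2 := by
      unfold Bad at hb
      exact not_lt.mp hb
    have key : ∀ y, ∑ z, P x y * P y z * ind (¬ Bad P σ η x t ∧ Ef P σ η t x y z) ≤
        ∑ z, P x y * P y z * ind (¬ Con σ t x y z) +
        (∑ z, P x y * P y z * ind (¬ Con σ t x y z)) / η := by
      intro y
      have hf0 : 0 ≤ ∑ z, P y z * ind (¬ Con σ t x y z) :=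
        Finset.sum_nonneg (fun z _ => mul_nonneg (hP.nonneg y z) (ind_nonneg _))
      have hfac : ∀ Q : V → Prop, ∑ z, P x y * P y z * ind (Q z) = P x y * ∑ z, P y z * ind (Q z) := by
        intro Q
        rw [Finset.mul_sum]
        apply Finset.sum_congr rfl
        intro z _
        ring
      by_cases hs : 1 - η ≤ ∑ z', P y z' * ind (σ y z' t = σ x y t)
      · have h3 : ∑ z, P x y * P y z * ind (¬ Bad P σ η x t ∧ Ef P σ η t x y z) ≤
            ∑ z, P x y * P y z * ind (¬ Con σ t x y z) := by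
          apply Finset.sum_le_sum
          intro z _
          apply mul_le_mul_of_nonneg_left _ (mul_nonneg (hP.nonneg x y) (hP.nonneg y z))
          apply ind_mono
          rintro ⟨_, he⟩ hc
          exact he ⟨hc, hs⟩
        have h4 : 0 ≤ (∑ z, P x y * P y z * ind (¬ Con σ t x y z)) / η := by
          apply div_nonneg _ h0.le
          rw [hfac]
          exact mul_nonneg (hP.nonneg x y) hf0
        linarith
      · rw [not_le] at hs
        have h5 : η ≤ ∑ z, P y z * ind (¬ Con σ t x y z) := by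
          have h6 : ∑ z', P y z' * ind (σ y z' t = σ x y t) + ∑ z, P y z * ind (¬ Con σ t x y z) ≥ 1 := by
            rw [← Finset.sum_add_distrib, ge_iff_le]
            conv_lhs => rw [← hP.sum_one y]
            apply Finset.sum_le_sum
            intro z _
            have hp := hP.nonneg y z
            by_cases hq : σ y z t = σ x y t
            · rw [ind_true hq]
              have := ind_nonneg (¬ Con σ t x y z)
              nlinarith
            · have hnc : ¬ Con σ t x y z := fun hc => hq hc.1.symm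
              rw [ind_false hq, ind_true hnc]
              linarith
          linarith
        have h7 : P x y ≤ (∑ z, P x y * P y z * ind (¬ Con σ t x y z)) / η := by
          rw [hfac, le_div_iff₀ h0]
          exact mul_le_mul_of_nonneg_left h5 (hP.nonneg x y)
        have h8 : ∑ z, P x y * P y z * ind (¬ Bad P σ η x t ∧ Ef P σ η t x y z) ≤ P x y := by
          rw [hfac]
          have : ∑ z, P y z * ind (¬ Bad P σ η x t ∧ Ef P σ η t x y z) ≤ 1 := by
            rw [← hP.sum_one y]
            apply Finset.sum_le_sum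
            intro z _
            have := ind_le_one (¬ Bad P σ η x t ∧ Ef P σ η t x y z)
            have hp := hP.nonneg y z
            nlinarith
          have hp := hP.nonneg x y
          nlinarith
        have h9 : 0 ≤ ∑ z, P x y * P y z * ind (¬ Con σ t x y z) := by
          rw [hfac]
          exact mul_nonneg (hP.nonneg x y) hf0
        linarith
    calc ∑ y, ∑ z, P x y * P y z * ind (¬ Bad P σ η x t ∧ Ef P σ η t x y z)
        ≤ ∑ y, (∑ z, P x y * P y z * ind (¬ Con σ t x y z) +
          (∑ z, P x y * P y z * ind (¬ Con σ t x y z)) / η) := Finset.sum_le_sum (fun y _ => key y)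
      _ = ∑ y, ∑ z, P x y * P y z * ind (¬ Con σ t x y z) +
          (∑ y, ∑ z, P x y * P y z * ind (¬ Con σ t x y z)) / η := by
          rw [Finset.sum_add_distrib, Finset.sum_div]
      _ ≤ η ^ 2 + η ^ 2 / η := by
          gcongr
      _ = η ^ 2 + η := by field_simp
      _ ≤ 2 * η := by nlinarith

/-- product lower bound: if `3 * ∑ x_i ≥ 2 a` with `x_i ∈ {0,1}` then `1 ≤ (1/16)^a ∏ (1+63 x_i)` -/
private theorem ou_prod (a : ℕ) (E : ℕ → Prop) (h : (2 * a : ℝ) ≤ 3 * ∑ i ∈ range (2 * a), ind (E i)) :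
    1 ≤ (1 / 16 : ℝ) ^ a * ∏ i ∈ range (2 * a), (1 + 63 * ind (E i)) := by
  classical
  have h1 : ∀ i, (1 + 63 * ind (E i) : ℝ) = if E i then 64 else 1 := by
    intro i
    by_cases hE : E i
    · rw [ind_true hE, if_pos hE]; norm_num
    · rw [ind_false hE, if_neg hE]; norm_num
  have h2 : ∏ i ∈ range (2 * a), (1 + 63 * ind (E i) : ℝ) = 64 ^ ((range (2 * a)).filter E).card := by
    rw [Finset.prod_congr rfl (fun i _ => h1 i), ← Finset.prod_filter, Finset.prod_const]
  have h3 : ∑ i ∈ range (2 * a), ind (E i) = (((range (2 * a)).filter E).card : ℝ) := by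
    rw [Finset.card_filter, Nat.cast_sum]
    apply Finset.sum_congr rfl
    intro i _
    by_cases hE : E i
    · rw [ind_true hE, if_pos hE]; norm_num
    · rw [ind_false hE, if_neg hE]; norm_num
  rw [h2]
  rw [h3] at h
  set k := ((range (2 * a)).filter E).card
  have h4 : 2 * a ≤ 3 * k := by exact_mod_cast h
  have h5 : (16 : ℝ) ^ a ≤ 64 ^ k := by
    have e1 : (16 : ℝ) ^ a = 4 ^ (2 * a) := by rw [pow_mul]; norm_num
    have e2 : (64 : ℝ) ^ k = 4 ^ (3 * k) := by rw [pow_mul]; norm_num
    rw [e1, e2]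
    exact pow_le_pow_right₀ (by norm_num) h4
  rw [one_div, inv_pow, inv_mul_eq_div, le_div_iff₀ (by positivity), one_mul]
  exact h5

private theorem ou_nonneg_prod (a : ℕ) (E : ℕ → Prop) : 0 ≤ ∏ i ∈ range (2 * a), (1 + 63 * ind (E i)) := by
  apply Finset.prod_nonneg
  intro i _
  have := ind_nonneg (E i)
  linarith

theorem overlap_upper {P : Matrix V V ℝ} (hP : SStoch P) {σ : V → V → ZMod T → SignType}
    (hσ : Sig σ) {a j0 j1 : ℕ} (h0 : j0 < a) (h1 : 7 * a ≤ j1) (h1' : j1 < 8 * a)
    (φ : V → V → ZMod T → ℝ) (hφ : ∀ x y t, 0 ≤ φ x y t) :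
    EP P (8 * a) (fun z => ∑ t, ind (Few P σ a z t) *
      min (φ (z j0) (z (j0 + 1)) t) (φ (z j1) (z (j1 + 1)) t)) ≤
      2 * (1 / 4) ^ a * EM P (fun x y => ∑ t, φ x y t) := by
  classical
  -- events
  let F : ZMod T → (ℕ → V) → ℕ → Prop := fun t z i =>
    ¬ Bad P σ (1 / 128) (z (a + 2 * i)) t ∧
      Ef P σ (1 / 128) t (z (a + 2 * i)) (z (a + 2 * i + 1)) (z (a + 2 * i + 2))
  let B : ZMod T → (ℕ → V) → ℕ → Prop := fun t z i =>
    ¬ Bad P σ (1 / 128) (z (a + 2 * i + 2)) t ∧
      Ef P σ (1 / 128) t (z (a + 2 * i + 2)) (z (a + 2 * i + 1)) (z (a + 2 * i))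
  -- pointwise bound
  have hpt : ∀ (z : ℕ → V) (t : ZMod T), ind (Few P σ a z t) *
      min (φ (z j0) (z (j0 + 1)) t) (φ (z j1) (z (j1 + 1)) t) ≤
      (1 / 16 : ℝ) ^ a * (φ (z j0) (z (j0 + 1)) t * ∏ i ∈ range (2 * a), (1 + 63 * ind (F t z i))) +
      (1 / 16 : ℝ) ^ a * (φ (z j1) (z (j1 + 1)) t * ∏ i ∈ range (2 * a), (1 + 63 * ind (B t z i))) := by
    intro z t
    have n1 : 0 ≤ (1 / 16 : ℝ) ^ a * (φ (z j0) (z (j0 + 1)) t *
        ∏ i ∈ range (2 * a), (1 + 63 * ind (F t z i))) :=
      mul_nonneg (by positivity) (mul_nonneg (hφ _ _ _) (ou_nonneg_prod _ _))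
    have n2 : 0 ≤ (1 / 16 : ℝ) ^ a * (φ (z j1) (z (j1 + 1)) t *
        ∏ i ∈ range (2 * a), (1 + 63 * ind (B t z i))) :=
      mul_nonneg (by positivity) (mul_nonneg (hφ _ _ _) (ou_nonneg_prod _ _))
    by_cases hf : Few P σ a z t
    · rw [ind_true hf, one_mul]
      have hsum : (2 * a : ℝ) ≤ 3 * ∑ i ∈ range (2 * a), ind (F t z i) ∨
          (2 * a : ℝ) ≤ 3 * ∑ i ∈ range (2 * a), ind (B t z i) := by
        by_contra hcon
        rw [not_or, not_le, not_le] at hcon
        have hf' := hf
        unfold Few at hf'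
        have hle : ∀ i ∈ range (2 * a), (1 : ℝ) ≤ ind (F t z i) + ind (B t z i) +
            ind (Bad P σ (1 / 128) (z (a + 2 * i)) t ∨ Bad P σ (1 / 128) (z (a + 2 * i + 2)) t) := by
          intro i _
          by_cases hb : Bad P σ (1 / 128) (z (a + 2 * i)) t ∨ Bad P σ (1 / 128) (z (a + 2 * i + 2)) t
          · rw [ind_true hb]
            have := ind_nonneg (F t z i)
            have := ind_nonneg (B t z i)
            linarith
          · rw [ind_false hb]
            rw [not_or] at hb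
            rcases Ef_or_Ef hP hσ (η := 1 / 128) (by norm_num) t (z (a + 2 * i)) (z (a + 2 * i + 1))
              (z (a + 2 * i + 2)) with he | he
            · have hF : F t z i := ⟨hb.1, he⟩
              rw [ind_true hF]
              have := ind_nonneg (B t z i)
              linarith
            · have hB : B t z i := ⟨hb.2, he⟩
              rw [ind_true hB]
              have := ind_nonneg (F t z i)
              linarith
        have hs := Finset.sum_le_sum hle
        rw [Finset.sum_add_distrib, Finset.sum_add_distrib] at hs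
        simp only [Finset.sum_const, Finset.card_range, nsmul_eq_mul, mul_one] at hs
        push_cast at hs
        have hcast : ((2 * a : ℕ) : ℝ) = 2 * (a : ℝ) := by push_cast; ring
        linarith [hcon.1, hcon.2]
      rcases hsum with hs | hs
      · have hp := ou_prod a (F t z) hs
        have : min (φ (z j0) (z (j0 + 1)) t) (φ (z j1) (z (j1 + 1)) t) ≤
            (1 / 16 : ℝ) ^ a * (φ (z j0) (z (j0 + 1)) t * ∏ i ∈ range (2 * a), (1 + 63 * ind (F t z i))) := by
          calc min (φ (z j0) (z (j0 + 1)) t) (φ (z j1) (z (j1 + 1)) t)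
              ≤ φ (z j0) (z (j0 + 1)) t := min_le_left _ _
            _ = φ (z j0) (z (j0 + 1)) t * 1 := (mul_one _).symm
            _ ≤ φ (z j0) (z (j0 + 1)) t * ((1 / 16 : ℝ) ^ a *
                ∏ i ∈ range (2 * a), (1 + 63 * ind (F t z i))) :=
                mul_le_mul_of_nonneg_left hp (hφ _ _ _)
            _ = _ := by ring
        linarith
      · have hp := ou_prod a (B t z) hs
        have : min (φ (z j0) (z (j0 + 1)) t) (φ (z j1) (z (j1 + 1)) t) ≤
            (1 / 16 : ℝ) ^ a * (φ (z j1) (z (j1 + 1)) t * ∏ i ∈ range (2 * a), (1 + 63 * ind (B t z i))) := by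
          calc min (φ (z j0) (z (j0 + 1)) t) (φ (z j1) (z (j1 + 1)) t)
              ≤ φ (z j1) (z (j1 + 1)) t := min_le_right _ _
            _ = φ (z j1) (z (j1 + 1)) t * 1 := (mul_one _).symm
            _ ≤ φ (z j1) (z (j1 + 1)) t * ((1 / 16 : ℝ) ^ a *
                ∏ i ∈ range (2 * a), (1 + 63 * ind (B t z i))) :=
                mul_le_mul_of_nonneg_left hp (hφ _ _ _)
            _ = _ := by ring
        linarith
    · rw [ind_false hf, zero_mul]
      linarith
  -- the two expectations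
  have hpE : ∀ (t : ZMod T) (x : V), ∑ y, ∑ w, P x y * P y w *
      ind (¬ Bad P σ (1 / 128) x t ∧ Ef P σ (1 / 128) t x y w) ≤ 1 / 64 := by
    intro t x
    have := Ef_prob hP (σ := σ) (η := 1 / 128) (by norm_num) (by norm_num) t x
    linarith
  have hpow : (1 + 63 * (1 / 64) : ℝ) ^ (2 * a) ≤ 4 ^ a := by
    rw [pow_mul]
    apply pow_le_pow_left₀ (by norm_num)
    norm_num
  have hEM0 : ∀ t : ZMod T, 0 ≤ EM P (fun x y => φ x y t) := by
    intro t
    unfold EM
    apply mul_nonneg (by positivity)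
    exact Finset.sum_nonneg (fun x _ => Finset.sum_nonneg (fun y _ =>
      mul_nonneg (hP.nonneg x y) (hφ x y t)))
  have hF1 : ∀ t : ZMod T, EP P (8 * a) (fun z => φ (z j0) (z (j0 + 1)) t *
      ∏ i ∈ range (2 * a), (1 + 63 * ind (F t z i))) ≤ 4 ^ a * EM P (fun x y => φ x y t) := by
    intro t
    have h := EP_prod hP (fun x y w => ¬ Bad P σ (1 / 128) x t ∧ Ef P σ (1 / 128) t x y w) (1 / 64) 63
      (hpE t) (by norm_num) (by norm_num) (fun x y => φ x y t) (fun x y => hφ x y t)
      (m := 8 * a) (n := 2 * a) (c := a) (j0 := j0) (by omega) (by omega)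
    refine le_trans h ?_
    exact mul_le_mul_of_nonneg_right hpow (hEM0 t)
  have hB1 : ∀ t : ZMod T, EP P (8 * a) (fun z => φ (z j1) (z (j1 + 1)) t *
      ∏ i ∈ range (2 * a), (1 + 63 * ind (B t z i))) ≤ 4 ^ a * EM P (fun x y => φ x y t) := by
    intro t
    have h := EP_prod hP (fun x y w => ¬ Bad P σ (1 / 128) x t ∧ Ef P σ (1 / 128) t x y w) (1 / 64) 63
      (hpE t) (by norm_num) (by norm_num) (fun x y => φ y x t) (fun x y => hφ y x t)
      (m := 8 * a) (n := 2 * a) (c := 3 * a) (j0 := 8 * a - 1 - j1) (by omega) (by omega)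
    rw [EM_swap hP (fun x y => φ x y t)] at h
    have hrev := EP_rev hP (8 * a) (F := fun z => φ (z (8 * a - 1 - j1 + 1)) (z (8 * a - 1 - j1)) t *
      ∏ i ∈ range (2 * a), (1 + 63 * ind (¬ Bad P σ (1 / 128) (z (3 * a + 2 * i)) t ∧
        Ef P σ (1 / 128) t (z (3 * a + 2 * i)) (z (3 * a + 2 * i + 1)) (z (3 * a + 2 * i + 2))))) (by
        intro z z' hz
        have e1 : z (8 * a - 1 - j1 + 1) = z' (8 * a - 1 - j1 + 1) := hz _ (by omega)
        have e2 : z (8 * a - 1 - j1) = z' (8 * a - 1 - j1) := hz _ (by omega)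
        simp only [e1, e2]
        congr 1
        apply Finset.prod_congr rfl
        intro i hi
        rw [Finset.mem_range] at hi
        rw [hz (3 * a + 2 * i) (by omega), hz (3 * a + 2 * i + 1) (by omega),
          hz (3 * a + 2 * i + 2) (by omega)])
    rw [← hrev] at h
    refine le_trans (le_of_eq ?_) (le_trans h (mul_le_mul_of_nonneg_right hpow (hEM0 t)))
    congr 1
    funext z
    have i1 : 8 * a - (8 * a - 1 - j1 + 1) = j1 := by omega
    have i2 : 8 * a - (8 * a - 1 - j1) = j1 + 1 := by omega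
    simp only [i1, i2]
    congr 1
    rw [← Finset.prod_range_reflect]
    apply Finset.prod_congr rfl
    intro i hi
    rw [Finset.mem_range] at hi
    have j1' : a + 2 * (2 * a - 1 - i) + 2 = 8 * a - (3 * a + 2 * i) := by omega
    have j2' : a + 2 * (2 * a - 1 - i) + 1 = 8 * a - (3 * a + 2 * i + 1) := by omega
    have j3' : a + 2 * (2 * a - 1 - i) = 8 * a - (3 * a + 2 * i + 2) := by omega
    simp only [B]
    rw [j1', j2', j3']
  calc EP P (8 * a) (fun z => ∑ t, ind (Few P σ a z t) *
        min (φ (z j0) (z (j0 + 1)) t) (φ (z j1) (z (j1 + 1)) t))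
      ≤ EP P (8 * a) (fun z => ∑ t, ((1 / 16 : ℝ) ^ a * (φ (z j0) (z (j0 + 1)) t *
          ∏ i ∈ range (2 * a), (1 + 63 * ind (F t z i))) +
        (1 / 16 : ℝ) ^ a * (φ (z j1) (z (j1 + 1)) t *
          ∏ i ∈ range (2 * a), (1 + 63 * ind (B t z i))))) := by
        apply EP_mono_supp hP
        intro z _
        exact Finset.sum_le_sum (fun t _ => hpt z t)
    _ = ∑ t, ((1 / 16 : ℝ) ^ a * EP P (8 * a) (fun z => φ (z j0) (z (j0 + 1)) t *
          ∏ i ∈ range (2 * a), (1 + 63 * ind (F t z i))) +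
        (1 / 16 : ℝ) ^ a * EP P (8 * a) (fun z => φ (z j1) (z (j1 + 1)) t *
          ∏ i ∈ range (2 * a), (1 + 63 * ind (B t z i)))) := by
        rw [EP_sum]
        apply Finset.sum_congr rfl
        intro t _
        rw [EP_add, EP_const_mul, EP_const_mul]
    _ ≤ ∑ t, ((1 / 16 : ℝ) ^ a * (4 ^ a * EM P (fun x y => φ x y t)) +
        (1 / 16 : ℝ) ^ a * (4 ^ a * EM P (fun x y => φ x y t))) := by
        apply Finset.sum_le_sum
        intro t _
        have p0 : (0 : ℝ) ≤ (1 / 16 : ℝ) ^ a := by positivity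
        exact add_le_add (mul_le_mul_of_nonneg_left (hF1 t) p0)
          (mul_le_mul_of_nonneg_left (hB1 t) p0)
    _ = 2 * (1 / 4) ^ a * EM P (fun x y => ∑ t, φ x y t) := by
        have e1 : ((1 / 16 : ℝ)) ^ a * 4 ^ a = (1 / 4) ^ a := by
          rw [← mul_pow]; norm_num
        have e2 : EM P (fun x y => ∑ t, φ x y t) = ∑ t, EM P (fun x y => φ x y t) := by
          unfold EM
          rw [← Finset.mul_sum]
          congr 1
          have e3 : ∀ x : V, ∑ y, P x y * ∑ t, φ x y t = ∑ t, ∑ y, P x y * φ x y t := by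
            intro x
            rw [Finset.sum_comm]
            apply Finset.sum_congr rfl
            intro y _
            rw [Finset.mul_sum]
          calc ∑ x, ∑ y, P x y * ∑ t, φ x y t = ∑ x, ∑ t, ∑ y, P x y * φ x y t :=
                Finset.sum_congr rfl (fun x _ => e3 x)
            _ = ∑ t, ∑ x, ∑ y, P x y * φ x y t := Finset.sum_comm
        rw [e2, Finset.mul_sum]
        apply Finset.sum_congr rfl
        intro t _
        rw [← mul_assoc, e1]
        ring

end Pool.Agent.H3NG
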