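import Pool.Agent.H3NG.BadExp
import Pool.Agent.H3NG.OverUp
import Pool.Agent.H3NG.MassB
import Pool.Agent.H3NG.OverLow

/-!
# Module CoreBd : the combinatorial core (assembly)

`ε = 10^-18`, `η = 1/128`.  By `Core.hb` and pigeonhole there are `j0 < a` and `7a ≤ j1 < 8a` with
`EP (mis (σ (z j) (z (j+1))) (sb ..)) ≤ 8 ε R` for `j = j0, j1`.  `φ x y t = lam2 (om P σ pc (pc x)) (ch (σ x y)) t`.
On a path `z` with positive weights and all pieces equal, `overlap_lower` with `ω = om P σ pc (pc (z 0))`, `s = sb (z 0) (z (8a))`,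
`σ, σ'` = the blocks `j0, j1`, `Good = Few P σ a z`, `N` = the `τ ∈ ch s` with `cnt σ s τ ≠ 1` or `cnt σ' s τ ≠ 1` or not `Good`
somewhere in the segment:
`card (ch s) - 2 card N ≤ ∑ t, ind (Few ..) * min ..`, and
`card N ≤ mis_{j0} + mis_{j1} + (3 / (2a)) * ∑ i < 2a, (nm s (Bad (z (a+2i))) + nm s (Bad (z (a+2i+2))))
        ≤ mis_{j0} + mis_{j1} + (3 / a) * ∑ j < 8a, nm s (Bad (z j))`.
[if `Few` fails at `t` in the segment of `τ` then more than `2a/3` of the `i < 2a` have the segment of `τ` meeting `Bad (z (a+2i))` or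
`Bad (z (a+2i+2))`.]  Taking expectations, with `EP (ind ¬ns * card) ≥ (1 - 2ε) R`:
`(1 - 2ε) R ≤ 2 (1/4)^a * 2 (1 + log (2K/w)) * (1 + ε) R + 2 (16 ε R + (3/a) * 128^6 * 165 * 8a * ε R)`.
Numerically `2 (16 ε + 24 * 165 * 128^6 ε) ≤ 1/20`.  So `4^a ≤ 9 (1 + log (2K/w))`.
-/

set_option autoImplicit false

open Finset

namespace Pool.Agent.H3NG

variable {T : ℕ} [NeZero T]

/-- the segments without exactly one tick are counted by `mis` -/
theorem card_cnt_ne_one (σ s : ZMod T → SignType) (D : Finset (ZMod T)) (hD : D ⊆ ch s)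
    (h : ∀ τ ∈ D, cnt σ s τ ≠ 1) : D.card ≤ mis σ s := by
  classical
  unfold mis
  split_ifs with h0
  · rw [h0, Finset.subset_empty] at hD
    rw [hD]; simp
  · calc D.card = ∑ _τ ∈ D, 1 := by simp
      _ ≤ ∑ τ ∈ D, Int.natAbs ((cnt σ s τ : ℤ) - 1) := by
          refine Finset.sum_le_sum fun τ hτ => ?_
          have := h τ hτ
          omega
      _ ≤ ∑ τ ∈ ch s, Int.natAbs ((cnt σ s τ : ℤ) - 1) :=
          Finset.sum_le_sum_of_subset hD

/-- `nm` as a sum of indicators over the changes of `s` -/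
theorem nm_eq_sum (s : ZMod T → SignType) (U : ZMod T → Prop) :
    (nm s U : ℝ) = ∑ τ ∈ ch s, ind (∃ t, root (ch s) t = τ ∧ U t) := by
  classical
  unfold nm
  rw [Finset.card_filter]
  push_cast
  refine Finset.sum_congr rfl fun τ _ => ?_
  by_cases h : ∃ t, root (ch s) t = τ ∧ U t
  · rw [ind_true h, if_pos h]
  · rw [ind_false h, if_neg h]

variable {V : Type} [Fintype V]

/-- the segments in which `Few` fails somewhere -/
theorem card_not_few (P : Matrix V V ℝ) (σ : V → V → ZMod T → SignType) {a : ℕ} (ha : 1 ≤ a)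
    (z : ℕ → V) (s : ZMod T → SignType) (D : Finset (ZMod T)) (hD : D ⊆ ch s)
    (h : ∀ τ ∈ D, ∃ t, root (ch s) t = τ ∧ ¬ Few P σ a z t) :
    (D.card : ℝ) ≤ 3 / a * ∑ j ∈ range (8 * a), (nm s (Bad P σ (1 / 128) (z j)) : ℝ) := by
  classical
  set S : ℝ := ∑ j ∈ range (8 * a), (nm s (Bad P σ (1 / 128) (z j)) : ℝ) with hS
  have ha' : (0 : ℝ) < a := by exact_mod_cast ha
  -- the membership indicators
  set B : ℕ → ZMod T → ℝ := fun j τ =>
    ind (∃ t, root (ch s) t = τ ∧ Bad P σ (1 / 128) (z j) t) with hB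
  have hB0 : ∀ j τ, 0 ≤ B j τ := fun j τ => ind_nonneg _
  have hBn : ∀ j, ∑ τ ∈ ch s, B j τ = (nm s (Bad P σ (1 / 128) (z j)) : ℝ) := fun j =>
    (nm_eq_sum s _).symm
  have key : ∀ τ ∈ D, 2 * (a : ℝ) ≤
      3 * ∑ i ∈ range (2 * a), (B (a + 2 * i) τ + B (a + 2 * i + 2) τ) := by
    intro τ hτ
    obtain ⟨t, ht, hf⟩ := h τ hτ
    unfold Few at hf
    push Not at hf
    refine hf.le.trans ?_
    refine mul_le_mul_of_nonneg_left (Finset.sum_le_sum fun i _ => ?_) (by norm_num)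
    by_cases h1 : Bad P σ (1 / 128) (z (a + 2 * i)) t
    · have : B (a + 2 * i) τ = 1 := ind_true ⟨t, ht, h1⟩
      rw [this]
      have := hB0 (a + 2 * i + 2) τ
      have h2 := ind_le_one (Bad P σ (1 / 128) (z (a + 2 * i)) t ∨
        Bad P σ (1 / 128) (z (a + 2 * i + 2)) t)
      linarith
    · by_cases h2 : Bad P σ (1 / 128) (z (a + 2 * i + 2)) t
      · have : B (a + 2 * i + 2) τ = 1 := ind_true ⟨t, ht, h2⟩
        rw [this]
        have := hB0 (a + 2 * i) τ
        have h2 := ind_le_one (Bad P σ (1 / 128) (z (a + 2 * i)) t ∨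
          Bad P σ (1 / 128) (z (a + 2 * i + 2)) t)
        linarith
      · rw [ind_false (by tauto)]
        exact add_nonneg (hB0 _ _) (hB0 _ _)
  have hsub : ∀ c : ℕ, c + 2 * (2 * a - 1) < 8 * a → ∑ i ∈ range (2 * a),
      (nm s (Bad P σ (1 / 128) (z (c + 2 * i))) : ℝ) ≤ S := by
    intro c hc
    rw [hS]
    have hinj : Set.InjOn (fun i => c + 2 * i) (range (2 * a) : Set ℕ) := by
      intro i _ j _ hij
      simp only at hij
      omega
    rw [← Finset.sum_image (f := fun j => (nm s (Bad P σ (1 / 128) (z j)) : ℝ)) hinj]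
    refine Finset.sum_le_sum_of_subset_of_nonneg ?_ fun _ _ _ => Nat.cast_nonneg _
    intro j hj
    rw [Finset.mem_image] at hj
    obtain ⟨i, hi, rfl⟩ := hj
    rw [Finset.mem_range] at hi ⊢
    omega
  have h1 : (D.card : ℝ) * (2 * a) ≤ 3 * (S + S) := by
    calc (D.card : ℝ) * (2 * a) = ∑ _τ ∈ D, 2 * (a : ℝ) := by
          rw [Finset.sum_const, nsmul_eq_mul]
      _ ≤ ∑ τ ∈ D, 3 * ∑ i ∈ range (2 * a), (B (a + 2 * i) τ + B (a + 2 * i + 2) τ) :=
          Finset.sum_le_sum key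
      _ ≤ ∑ τ ∈ ch s, 3 * ∑ i ∈ range (2 * a), (B (a + 2 * i) τ + B (a + 2 * i + 2) τ) :=
          Finset.sum_le_sum_of_subset_of_nonneg hD fun τ _ _ =>
            mul_nonneg (by norm_num) (Finset.sum_nonneg fun i _ => add_nonneg (hB0 _ _) (hB0 _ _))
      _ = 3 * (∑ i ∈ range (2 * a), (nm s (Bad P σ (1 / 128) (z (a + 2 * i))) : ℝ) +
            ∑ i ∈ range (2 * a), (nm s (Bad P σ (1 / 128) (z (a + 2 + 2 * i))) : ℝ)) := by
          rw [← Finset.mul_sum, Finset.sum_comm, ← Finset.sum_add_distrib]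
          congr 1
          refine Finset.sum_congr rfl fun i _ => ?_
          rw [Finset.sum_add_distrib, hBn, hBn, show a + 2 + 2 * i = a + 2 * i + 2 by ring]
      _ ≤ 3 * (S + S) := by
          refine mul_le_mul_of_nonneg_left (add_le_add (hsub a (by omega)) (hsub (a + 2) (by omega)))
            (by norm_num)
  rw [div_mul_eq_mul_div, le_div_iff₀ ha']
  nlinarith

variable [Nonempty V]

theorem core_bound {P : Matrix V V ℝ} (hP : SStoch P) {a : ℕ} (ha : 1 ≤ a) {R : ℝ}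
    {σ s2 s4 sb : V → V → ZMod T → SignType} (pc : V → V)
    (hc : Core P a (fun z => ∃ j ≤ 8 * a, pc (z j) ≠ pc (z 0)) (1 / 10 ^ 18) R σ s2 s4 sb)
    {w K : ℝ} (hw : 0 < w) (hwP : ∀ x y, 0 < P x y → w ≤ P x y) (hK : 0 < K)
    (hpc : ∀ i, (({x | pc x = i} : Set V).ncard : ℝ) ≤ K) :
    (4 : ℝ) ^ a ≤ 9 * (1 + Real.log (2 * K / w)) := by
  classical
  have ha' : (0 : ℝ) < a := by exact_mod_cast ha
  have hR := hc.Rpos
  set ε : ℝ := 1 / 10 ^ 18 with hε
  have hε0 : 0 < ε := by rw [hε]; positivity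
  -- mean number of misses of block `j`
  set M : ℕ → ℝ := fun j => EP P (8 * a) (fun z =>
    (mis (σ (z j) (z (j + 1))) (sb (z 0) (z (8 * a))) : ℝ)) with hM
  have hM0 : ∀ j, 0 ≤ M j := fun j => EP_nonneg hP _ fun z => Nat.cast_nonneg _
  have hMsum : ∑ j ∈ range (8 * a), M j ≤ (8 * a : ℕ) * ε * R := by
    rw [hM, ← EP_sum]
    refine (EP_mono_supp hP _ fun z _ => ?_).trans hc.hb
    unfold apath
    refine Finset.sum_le_sum fun j _ => ?_
    unfold aa
    have : (0 : ℝ) ≤ bt (σ (z j) (z (j + 1))) (sb (z 0) (z (8 * a))) := Nat.cast_nonneg _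
    linarith
  have hpig : ∀ c : ℕ, c + a ≤ 8 * a → ∃ j, c ≤ j ∧ j < c + a ∧ M j ≤ 8 * ε * R := by
    intro c hca
    by_contra hcon
    push Not at hcon
    have h1 : ∑ j ∈ Ico c (c + a), 8 * ε * R < ∑ j ∈ Ico c (c + a), M j := by
      refine Finset.sum_lt_sum_of_nonempty (Finset.nonempty_Ico.2 (by omega)) fun j hj => ?_
      rw [Finset.mem_Ico] at hj
      exact hcon j hj.1 hj.2
    have h2 : ∑ j ∈ Ico c (c + a), M j ≤ ∑ j ∈ range (8 * a), M j := by
      refine Finset.sum_le_sum_of_subset_of_nonneg ?_ fun j _ _ => hM0 j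
      intro j hj
      rw [Finset.mem_Ico] at hj
      rw [Finset.mem_range]
      omega
    rw [Finset.sum_const, Nat.card_Ico, nsmul_eq_mul] at h1
    push_cast at h1 hMsum
    have h3 : ((c + a - c : ℕ) : ℝ) = a := by
      rw [Nat.add_sub_cancel_left]
    rw [h3] at h1
    nlinarith
  obtain ⟨j0, -, hj0, hM0'⟩ := hpig 0 (by omega)
  obtain ⟨j1, hj1, hj1', hM1'⟩ := hpig (7 * a) (by omega)
  rw [zero_add] at hj0
  have hj1'' : j1 < 8 * a := by omega
  -- the weights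
  set φ : V → V → ZMod T → ℝ := fun x y t => lam2 (om P σ pc (pc x)) (ch (σ x y)) t with hφ
  have hφ0 : ∀ x y t, 0 ≤ φ x y t := fun x y t =>
    lam2_nonneg (fun t => om_nonneg hP σ pc _ t) _ _
  set Ov : (ℕ → V) → ℝ := fun z => ∑ t, ind (Few P σ a z t) *
    min (φ (z j0) (z (j0 + 1)) t) (φ (z j1) (z (j1 + 1)) t) with hOv
  have hOv0 : ∀ z, 0 ≤ Ov z := fun z => Finset.sum_nonneg fun t _ =>
    mul_nonneg (ind_nonneg _) (le_min (hφ0 _ _ _) (hφ0 _ _ _))
  -- pointwise inequality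
  have hpt : ∀ z : ℕ → V, (∀ i < 8 * a, 0 < P (z i) (z (i + 1))) →
      ((ch (sb (z 0) (z (8 * a)))).card : ℝ) - ind (∃ j ≤ 8 * a, pc (z j) ≠ pc (z 0)) *
          ((ch (sb (z 0) (z (8 * a)))).card : ℝ) ≤
        Ov z + 2 * ((mis (σ (z j0) (z (j0 + 1))) (sb (z 0) (z (8 * a))) : ℝ) +
          (mis (σ (z j1) (z (j1 + 1))) (sb (z 0) (z (8 * a))) : ℝ) +
          3 / a * ∑ j ∈ range (8 * a),
            (nm (sb (z 0) (z (8 * a))) (Bad P σ (1 / 128) (z j)) : ℝ)) := by
    intro z hz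
    set s := sb (z 0) (z (8 * a)) with hs
    have hnn : 0 ≤ 3 / (a : ℝ) * ∑ j ∈ range (8 * a),
        (nm s (Bad P σ (1 / 128) (z j)) : ℝ) :=
      mul_nonneg (by positivity) (Finset.sum_nonneg fun j _ => Nat.cast_nonneg _)
    by_cases hns : ∃ j ≤ 8 * a, pc (z j) ≠ pc (z 0)
    · rw [ind_true hns]
      have h1 := hOv0 z
      have h2 : (0 : ℝ) ≤ mis (σ (z j0) (z (j0 + 1))) s := Nat.cast_nonneg _
      have h3 : (0 : ℝ) ≤ mis (σ (z j1) (z (j1 + 1))) s := Nat.cast_nonneg _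
      linarith
    · rw [ind_false hns]
      push Not at hns
      set ω := om P σ pc (pc (z 0)) with hω
      have e0 : ∀ t, φ (z j0) (z (j0 + 1)) t = lam2 ω (ch (σ (z j0) (z (j0 + 1)))) t := by
        intro t
        rw [hφ, hω]
        simp only [hns j0 (by omega)]
      have e1 : ∀ t, φ (z j1) (z (j1 + 1)) t = lam2 ω (ch (σ (z j1) (z (j1 + 1)))) t := by
        intro t
        rw [hφ, hω]
        simp only [hns j1 (by omega)]
      have p0 : ∀ t ∈ ch (σ (z j0) (z (j0 + 1))), 0 < ω t := by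
        intro t ht
        have h1 := le_om hP σ pc ht
        rw [hns j0 (by omega)] at h1
        exact (hz j0 (by omega)).trans_le h1
      have p1 : ∀ t ∈ ch (σ (z j1) (z (j1 + 1))), 0 < ω t := by
        intro t ht
        have h1 := le_om hP σ pc ht
        rw [hns j1 (by omega)] at h1
        exact (hz j1 (by omega)).trans_le h1
      set N0 := (ch s).filter (fun τ => cnt (σ (z j0) (z (j0 + 1))) s τ ≠ 1) with hN0
      set N1 := (ch s).filter (fun τ => cnt (σ (z j1) (z (j1 + 1))) s τ ≠ 1) with hN1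
      set N2 := (ch s).filter (fun τ => ∃ t, root (ch s) t = τ ∧ ¬ Few P σ a z t) with hN2
      have hlow := overlap_lower (fun t => om_nonneg hP σ pc _ t) (hc.phb (z 0) (z (8 * a))) p0 p1
        (Few P σ a z) (N0 ∪ N1 ∪ N2)
        (by
          refine Finset.union_subset (Finset.union_subset ?_ ?_) ?_ <;> exact Finset.filter_subset _ _)
        (by
          intro τ hτ hn
          simp only [Finset.mem_union, hN0, hN1, hN2, Finset.mem_filter, not_or, not_and] at hn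
          obtain ⟨⟨h1, h2⟩, h3⟩ := hn
          refine ⟨by_contra (h1 hτ), by_contra (h2 hτ), fun t ht => ?_⟩
          by_contra hf
          exact h3 hτ ⟨t, ht, hf⟩)
      have hcard : ((N0 ∪ N1 ∪ N2).card : ℝ) ≤
          (mis (σ (z j0) (z (j0 + 1))) s : ℝ) + (mis (σ (z j1) (z (j1 + 1))) s : ℝ) +
          3 / a * ∑ j ∈ range (8 * a), (nm s (Bad P σ (1 / 128) (z j)) : ℝ) := by
        have c0 : (N0.card : ℝ) ≤ mis (σ (z j0) (z (j0 + 1))) s := by
          exact_mod_cast card_cnt_ne_one _ _ _ (Finset.filter_subset _ _)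
            (fun τ hτ => (Finset.mem_filter.1 hτ).2)
        have c1 : (N1.card : ℝ) ≤ mis (σ (z j1) (z (j1 + 1))) s := by
          exact_mod_cast card_cnt_ne_one _ _ _ (Finset.filter_subset _ _)
            (fun τ hτ => (Finset.mem_filter.1 hτ).2)
        have c2 : (N2.card : ℝ) ≤ 3 / a * ∑ j ∈ range (8 * a),
            (nm s (Bad P σ (1 / 128) (z j)) : ℝ) :=
          card_not_few P σ ha z s N2 (Finset.filter_subset _ _)
            (fun τ hτ => (Finset.mem_filter.1 hτ).2)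
        have c3 : ((N0 ∪ N1 ∪ N2).card : ℝ) ≤ N0.card + N1.card + N2.card := by
          have := (Finset.card_union_le (N0 ∪ N1) N2).trans
            (Nat.add_le_add_right (Finset.card_union_le N0 N1) _)
          exact_mod_cast this
        linarith
      have hOvz : Ov z = ∑ t, ind (Few P σ a z t) * min (lam2 ω (ch (σ (z j0) (z (j0 + 1)))) t)
          (lam2 ω (ch (σ (z j1) (z (j1 + 1)))) t) := by
        rw [hOv]
        refine Finset.sum_congr rfl fun t _ => ?_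
        rw [e0 t, e1 t]
      rw [hOvz]
      linarith
  -- expectations
  have hE := EP_mono_supp hP (8 * a) hpt
  rw [EP_sub, EP_add, EP_const_mul, EP_add, EP_add, EP_const_mul] at hE
  have hbad := bad_exp hP hc (η := 1 / 128) (by norm_num)
  set NB := EP P (8 * a) (fun z => ∑ j ∈ range (8 * a),
      (nm (sb (z 0) (z (8 * a))) (Bad P σ (1 / 128) (z j)) : ℝ)) with hNB
  have hup := overlap_upper hP hc.sig hj0 hj1 hj1'' φ hφ0
  have hmass := mass_bound hP σ pc hw hwP hK hpc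
  have hEM : EM P (fun x y => ((ch (σ x y)).card : ℝ)) ≤ (1 + ε) * R := by
    have := hc.ht
    rw [EP_step hP (m := 1) (j := 0) (by norm_num) (fun x y => ((ch (σ x y)).card : ℝ))] at this
    exact this
  have hEM0 : 0 ≤ EM P (fun x y => ((ch (σ x y)).card : ℝ)) := by
    have := EP_nonneg hP 1 (F := fun z => ((ch (σ (z 0) (z 1))).card : ℝ))
      (fun z => Nat.cast_nonneg _)
    rw [EP_step hP (m := 1) (j := 0) (by norm_num) (fun x y => ((ch (σ x y)).card : ℝ))] at this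
    exact this
  set E1 := EM P (fun x y => ((ch (σ x y)).card : ℝ)) with hE1
  set L := 1 + Real.log (2 * K / w) with hL
  have hr := hc.hr
  have hns : EP P (8 * a) (fun z => ind (∃ j ≤ 8 * a, pc (z j) ≠ pc (z 0)) *
      ((ch (sb (z 0) (z (8 * a)))).card : ℝ)) ≤ ε * R := hc.hns
  have hM0'' : EP P (8 * a) (fun z =>
      (mis (σ (z j0) (z (j0 + 1))) (sb (z 0) (z (8 * a))) : ℝ)) ≤ 8 * ε * R := hM0'
  have hM1'' : EP P (8 * a) (fun z =>
      (mis (σ (z j1) (z (j1 + 1))) (sb (z 0) (z (8 * a))) : ℝ)) ≤ 8 * ε * R := hM1'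
  have h4 : (0 : ℝ) < (1 / 4) ^ a := by positivity
  have hOvE : EP P (8 * a) Ov ≤ 2 * (1 / 4) ^ a * (2 * L * E1) := by
    refine hup.trans ?_
    exact mul_le_mul_of_nonneg_left hmass (by positivity)
  have hNBle : 3 / (a : ℝ) * NB ≤ 24 * 165 * 128 ^ 6 * ε * R := by
    have h1 : NB ≤ 128 ^ 6 * (165 * (8 * a : ℕ) * ε * R) := by
      have h2 : ((1 : ℝ) / 128) ^ 6 * NB * 128 ^ 6 = NB := by
        rw [div_pow]; ring
      have h3 := mul_le_mul_of_nonneg_right hbad (show (0 : ℝ) ≤ 128 ^ 6 by positivity)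
      rw [h2] at h3
      rw [mul_comm (128 ^ 6 : ℝ)]
      exact h3
    calc 3 / (a : ℝ) * NB ≤ 3 / (a : ℝ) * (128 ^ 6 * (165 * (8 * a : ℕ) * ε * R)) :=
          mul_le_mul_of_nonneg_left h1 (by positivity)
      _ = 24 * 165 * 128 ^ 6 * ε * R := by
          push_cast
          field_simp
          ring
  have hmain : (1 - ε) * R - ε * R ≤ 2 * (1 / 4) ^ a * (2 * L * E1) +
      2 * (8 * ε * R + 8 * ε * R + 24 * 165 * 128 ^ 6 * ε * R) := by
    generalize (EP P (8 * a) fun z => ((ch (sb (z 0) (z (8 * a)))).card : ℝ)) = q1 at hE hr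
    generalize (EP P (8 * a) fun z => ind (∃ j ≤ 8 * a, pc (z j) ≠ pc (z 0)) *
      ((ch (sb (z 0) (z (8 * a)))).card : ℝ)) = q2 at hE hns
    generalize (EP P (8 * a) fun z =>
      (mis (σ (z j0) (z (j0 + 1))) (sb (z 0) (z (8 * a))) : ℝ)) = q3 at hE hM0''
    generalize (EP P (8 * a) fun z =>
      (mis (σ (z j1) (z (j1 + 1))) (sb (z 0) (z (8 * a))) : ℝ)) = q4 at hE hM1''
    generalize EP P (8 * a) Ov = q5 at hE hOvE
    clear_value NB L E1 ε
    linarith
  have hnum : 19 / 20 * R ≤ 4 * (1 / 4) ^ a * (L * E1) := by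
    have h5 : 2 * ε + 2 * (16 * ε + 24 * 165 * 128 ^ 6 * ε) ≤ 1 / 20 := by
      rw [hε]; norm_num
    have h5' := mul_le_mul_of_nonneg_right h5 hR.le
    linarith
  have hLpos : 0 < L := by
    by_contra hneg
    push Not at hneg
    have : L * E1 ≤ 0 := mul_nonpos_of_nonpos_of_nonneg hneg hEM0
    nlinarith [mul_nonneg h4.le (neg_nonneg.2 this)]
  have hfin : 19 / 20 * R ≤ 4 * (1 / 4) ^ a * (L * ((1 + ε) * R)) := by
    refine hnum.trans ?_
    refine mul_le_mul_of_nonneg_left ?_ (by positivity)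
    exact mul_le_mul_of_nonneg_left hEM hLpos.le
  have h6 : 19 / 20 ≤ 4 * (1 / 4) ^ a * (L * (1 + ε)) := by
    have : 19 / 20 * R ≤ 4 * (1 / 4) ^ a * (L * (1 + ε)) * R := by
      calc 19 / 20 * R ≤ 4 * (1 / 4) ^ a * (L * ((1 + ε) * R)) := hfin
        _ = _ := by ring
    exact le_of_mul_le_mul_right this hR
  have h7 : (4 : ℝ) ^ a * (1 / 4) ^ a = 1 := by
    rw [← mul_pow]; norm_num
  have h8 : (4 : ℝ) ^ a * (19 / 20) ≤ 4 * (L * (1 + ε)) := by
    calc (4 : ℝ) ^ a * (19 / 20) ≤ 4 ^ a * (4 * (1 / 4) ^ a * (L * (1 + ε))) :=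
          mul_le_mul_of_nonneg_left h6 (by positivity)
      _ = 4 * (L * (1 + ε)) * (4 ^ a * (1 / 4) ^ a) := by ring
      _ = 4 * (L * (1 + ε)) := by rw [h7, mul_one]
  have h9 : ε ≤ 1 := by rw [hε]; norm_num
  nlinarith [mul_le_mul_of_nonneg_left h9 hLpos.le]

end Pool.Agent.H3NG
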