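import Pool.Agent.H3NG.Defs

/-!
# Module Cyc : segments on the circle

`A` is a finite set of times.  `root A t = t - dn A t` is the last element of `A` at or before `t`,
`nxt A t = t + up A t` is the first element strictly after `t` (`1 ≤ up A t ≤ T` if `A` is nonempty).
The segment of `τ ∈ A` is `{τ + i : i < up A τ}`; the segments partition `ZMod T`.

Sketches.  Both infima are over nonempty sets of naturals when `A` is nonempty (take `k = (t - a).val`,
and `k = (a - t - 1).val + 1 ≤ T`).  `Nat.sInf_mem`, `Nat.notMem_of_lt_sInf`.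
* `root_add`: `dn A (τ + i) = i`, because for `k < i` the element `τ + (i - k)` is not in `A`.
* `sum_segments`: `Finset.sum_sigma` / fiberwise over `root A`; bijection `(τ, i) ↦ τ + i`.
* `nxt_injOn`: if `nxt τ = nxt τ'` then `up τ = up τ'` (else, say `up τ < up τ'`, then
  `τ = τ' + (up τ' - up τ)` would be an element of `A` strictly between `τ'` and `nxt τ'`).
* `ph_nxt`: `s (nxt τ) = s (τ + 1) ≠ s τ`, both nonzero.
* `up_add_up_le`: `nxt τ ≠ τ` by `ph_nxt`, so `up τ < T`, and `τ = nxt τ + (T - up τ)`.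
-/

set_option autoImplicit false

open Finset

namespace Pool.Agent.H3NG

variable {T : ℕ} [NeZero T] {A : Finset (ZMod T)}

private theorem cyc_dn_mem (hA : A.Nonempty) (t : ZMod T) : t - ((dn A t : ℕ) : ZMod T) ∈ A := by
  obtain ⟨a, ha⟩ := hA
  have hne : {k : ℕ | t - (k : ZMod T) ∈ A}.Nonempty := by
    refine ⟨(t - a).val, ?_⟩
    show t - (((t - a).val : ℕ) : ZMod T) ∈ A
    rw [ZMod.natCast_zmod_val, sub_sub_cancel]
    exact ha
  exact Nat.sInf_mem hne

private theorem cyc_up_ne (hA : A.Nonempty) (t : ZMod T) :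
    ∃ k : ℕ, k ≤ T ∧ k ∈ {k : ℕ | 0 < k ∧ t + (k : ZMod T) ∈ A} := by
  obtain ⟨a, ha⟩ := hA
  refine ⟨(a - t - 1).val + 1, ZMod.val_lt _, Nat.succ_pos _, ?_⟩
  push_cast
  rw [ZMod.natCast_zmod_val]
  have : t + (a - t - 1 + 1) = a := by ring
  rw [this]
  exact ha

private theorem cyc_up_mem (hA : A.Nonempty) (t : ZMod T) :
    0 < up A t ∧ t + ((up A t : ℕ) : ZMod T) ∈ A := by
  obtain ⟨k, -, hk⟩ := cyc_up_ne hA t
  exact Nat.sInf_mem ⟨k, hk⟩

theorem root_mem (hA : A.Nonempty) (t : ZMod T) : root A t ∈ A := cyc_dn_mem hA t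

theorem up_pos (hA : A.Nonempty) (t : ZMod T) : 0 < up A t := (cyc_up_mem hA t).1

theorem up_le (hA : A.Nonempty) (t : ZMod T) : up A t ≤ T := by
  obtain ⟨k, hkT, hk⟩ := cyc_up_ne hA t
  exact (Nat.sInf_le hk).trans hkT

theorem nxt_mem (hA : A.Nonempty) (t : ZMod T) : nxt A t ∈ A := (cyc_up_mem hA t).2

theorem not_mem_of_lt_up {t : ZMod T} {i : ℕ} (h0 : 0 < i) (h : i < up A t) :
    t + (i : ZMod T) ∉ A := by
  intro hi
  have : up A t ≤ i := Nat.sInf_le (⟨h0, hi⟩ : 0 < i ∧ t + (i : ZMod T) ∈ A)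
  omega

private theorem cyc_dn_add {τ : ZMod T} (hτ : τ ∈ A) {i : ℕ}
    (hi : ∀ j : ℕ, 0 < j → j ≤ i → τ + (j : ZMod T) ∉ A) :
    dn A (τ + (i : ZMod T)) = i := by
  have hmem : i ∈ {k : ℕ | τ + (i : ZMod T) - (k : ZMod T) ∈ A} := by
    show τ + (i : ZMod T) - (i : ZMod T) ∈ A
    rw [add_sub_cancel_right]
    exact hτ
  have h1 : dn A (τ + (i : ZMod T)) ≤ i := Nat.sInf_le hmem
  have h2 : τ + (i : ZMod T) - ((dn A (τ + (i : ZMod T)) : ℕ) : ZMod T) ∈ A :=
    Nat.sInf_mem ⟨i, hmem⟩
  by_contra hne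
  have hlt : dn A (τ + (i : ZMod T)) < i := lt_of_le_of_ne h1 hne
  have h3 : τ + (i : ZMod T) - ((dn A (τ + (i : ZMod T)) : ℕ) : ZMod T) =
      τ + ((i - dn A (τ + (i : ZMod T)) : ℕ) : ZMod T) := by
    rw [Nat.cast_sub h1]; ring
  rw [h3] at h2
  exact hi _ (by omega) (by omega) h2

theorem root_self {τ : ZMod T} (hτ : τ ∈ A) : root A τ = τ := by
  have h := cyc_dn_add (A := A) hτ (i := 0) (fun j h0 h1 => absurd h0 (by omega))
  simp only [Nat.cast_zero, add_zero] at h
  unfold root
  rw [h, Nat.cast_zero, sub_zero]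

theorem root_add {τ : ZMod T} (hτ : τ ∈ A) {i : ℕ} (hi : i < up A τ) :
    root A (τ + (i : ZMod T)) = τ := by
  unfold root
  rw [cyc_dn_add hτ (fun j h0 h1 => not_mem_of_lt_up h0 (by omega)), add_sub_cancel_right]

theorem exists_root_add (hA : A.Nonempty) (t : ZMod T) :
    ∃ i < up A (root A t), t = root A t + (i : ZMod T) := by
  refine ⟨dn A t, ?_, ?_⟩
  · by_contra hcon
    have hle : up A (root A t) ≤ dn A t := not_lt.1 hcon
    have hpos := up_pos hA (root A t)
    have hmem : root A t + ((up A (root A t) : ℕ) : ZMod T) ∈ A := nxt_mem hA (root A t)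
    have h3 : root A t + ((up A (root A t) : ℕ) : ZMod T) =
        t - ((dn A t - up A (root A t) : ℕ) : ZMod T) := by
      rw [Nat.cast_sub hle]
      conv_lhs => arg 1; unfold root
      ring
    rw [h3] at hmem
    have h4 : dn A t ≤ dn A t - up A (root A t) := Nat.sInf_le hmem
    omega
  · unfold root
    rw [sub_add_cancel]

/-- the map `i ↦ τ + i` is injective on a segment -/
theorem add_inj {τ : ZMod T} (hA : A.Nonempty) {i j : ℕ} (hi : i < up A τ) (hj : j < up A τ)
    (h : τ + (i : ZMod T) = τ + (j : ZMod T)) : i = j := by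
  have hT := up_le hA τ
  have h1 : (i : ZMod T) = (j : ZMod T) := add_left_cancel h
  rw [ZMod.natCast_eq_natCast_iff', Nat.mod_eq_of_lt (by omega), Nat.mod_eq_of_lt (by omega)] at h1
  exact h1

/-- summation over the segments -/
theorem sum_segments (hA : A.Nonempty) (f : ZMod T → ℝ) :
    ∑ t, f t = ∑ τ ∈ A, ∑ i ∈ range (up A τ), f (τ + (i : ZMod T)) := by
  classical
  rw [← Finset.sum_fiberwise_of_maps_to (s := univ) (t := A) (g := root A)
    (fun t _ => root_mem hA t)]
  refine Finset.sum_congr rfl (fun τ hτ => ?_)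
  symm
  refine Finset.sum_bij (fun i _ => τ + (i : ZMod T)) ?_ ?_ ?_ ?_
  · intro i hi
    rw [mem_filter]
    exact ⟨mem_univ _, root_add hτ (mem_range.1 hi)⟩
  · intro i hi j hj h
    exact add_inj hA (mem_range.1 hi) (mem_range.1 hj) h
  · intro t ht
    rw [mem_filter] at ht
    obtain ⟨i, hi, hti⟩ := exists_root_add hA t
    rw [ht.2] at hi hti
    exact ⟨i, mem_range.2 hi, hti.symm⟩
  · intro i _
    rfl

private theorem cyc_up_not_lt (hA : A.Nonempty) {τ τ' : ZMod T} (hτ : τ ∈ A)
    (h : nxt A τ = nxt A τ') : ¬ up A τ < up A τ' := by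
  intro hlt
  have h1 : τ = τ' + ((up A τ' - up A τ : ℕ) : ZMod T) := by
    rw [Nat.cast_sub hlt.le]
    unfold nxt at h
    linear_combination h
  have hpos := up_pos hA τ
  have h2 := not_mem_of_lt_up (A := A) (t := τ') (i := up A τ' - up A τ) (by omega) (by omega)
  rw [← h1] at h2
  exact h2 hτ

theorem nxt_injOn (hA : A.Nonempty) : Set.InjOn (nxt A) (A : Set (ZMod T)) := by
  intro τ hτ τ' hτ' h
  have h1 := cyc_up_not_lt hA (mem_coe.1 hτ) h
  have h2 := cyc_up_not_lt hA (mem_coe.1 hτ') h.symm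
  have h3 : up A τ = up A τ' := by omega
  unfold nxt at h
  rw [h3] at h
  exact add_right_cancel h

/-- summation over the elements and over their successors -/
theorem sum_nxt (hA : A.Nonempty) (f : ZMod T → ℝ) : ∑ τ ∈ A, f (nxt A τ) = ∑ τ ∈ A, f τ := by
  classical
  have himg : A.image (nxt A) = A := by
    apply Finset.eq_of_subset_of_card_le
    · intro x hx
      rw [mem_image] at hx
      obtain ⟨y, _, rfl⟩ := hx
      exact nxt_mem hA y
    · rw [Finset.card_image_of_injOn (nxt_injOn hA)]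
  have h := Finset.sum_image (f := f) (nxt_injOn hA)
  rw [himg] at h
  exact h.symm

/-- a signal is constant between its changes -/
theorem const_between (s : ZMod T → SignType) (τ : ZMod T) {i : ℕ} (h0 : 0 < i)
    (hi : i ≤ up (ch s) τ) : s (τ + (i : ZMod T)) = s (τ + 1) := by
  induction i with
  | zero => exact absurd h0 (lt_irrefl _)
  | succ i ih =>
    rcases Nat.eq_zero_or_pos i with rfl | hpos
    · simp
    · have h1 := ih hpos (by omega)
      have h2 := not_mem_of_lt_up (A := ch s) (t := τ) hpos (by omega)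
      unfold ch at h2
      rw [mem_filter, not_and, not_not] at h2
      have h3 := h2 (mem_univ _)
      rw [← h1, h3]
      push_cast
      rw [add_assoc]

/-- at consecutive changes of a phase the values are opposite -/
theorem ph_nxt {s : ZMod T → SignType} (hs : Ph s) {τ : ZMod T} (hτ : τ ∈ ch s) :
    s (nxt (ch s) τ) = - s τ := by
  have hA : (ch s).Nonempty := ⟨τ, hτ⟩
  have h1 : s (nxt (ch s) τ) = s (τ + 1) := const_between s τ (up_pos hA τ) le_rfl
  have h2 : s τ ≠ s (τ + 1) := by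
    unfold ch at hτ
    exact (mem_filter.1 hτ).2
  rw [h1]
  have h3 := hs τ
  have h4 := hs (τ + 1)
  generalize s τ = a at h2 h3 ⊢
  generalize s (τ + 1) = b at h2 h4 ⊢
  revert a b
  decide

/-- the segment starting at `τ` and the next one have together at most `T` points -/
theorem up_add_up_le {s : ZMod T → SignType} (hs : Ph s) {τ : ZMod T} (hτ : τ ∈ ch s) :
    up (ch s) τ + up (ch s) (nxt (ch s) τ) ≤ T := by
  have hA : (ch s).Nonempty := ⟨τ, hτ⟩
  have hle := up_le hA τ
  have hne : nxt (ch s) τ ≠ τ := by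
    intro h
    have h1 := ph_nxt hs hτ
    rw [h] at h1
    have h3 := hs τ
    generalize s τ = a at h1 h3
    revert a
    decide
  have hlt : up (ch s) τ < T := by
    refine lt_of_le_of_ne hle (fun h => hne ?_)
    unfold nxt
    rw [h, ZMod.natCast_self, add_zero]
  have h5 : nxt (ch s) τ + ((T - up (ch s) τ : ℕ) : ZMod T) = τ := by
    rw [Nat.cast_sub hle, ZMod.natCast_self]
    unfold nxt
    ring
  have h6 : up (ch s) (nxt (ch s) τ) ≤ T - up (ch s) τ := by
    apply Nat.sInf_le
    refine ⟨by omega, ?_⟩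
    rw [h5]
    exact hτ
  omega

end Pool.Agent.H3NG
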