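import Pool.Agent.H3NG.Cyc

/-!
# Module Defect : counting ticks in segments

* `sum_cnt`: the fibres of `root (ch s)` over `ch s` partition `ch σ`.
* `mis_bound`: if `ch s = ∅` then `mis = card (ch σ)`.  Otherwise `|n - 1| ≤ (n - 1) + 2 * [n = 0]`, and the
  number of `τ ∈ ch s` with `cnt σ s τ = 0` is at most `2 * bt σ s`: then `σ` has no change in the segment, so
  `σ (nxt τ) = σ τ`, while `s (nxt τ) = - s τ ≠ s τ` (`ph_nxt`): so `σ` is wrong at `τ` or at `nxt τ`, and `nxt` is
  injective on `ch s`.
* `nonaligned_card`: for each `j` the number of `τ ∈ ch s` with `¬ al (α j) s τ` is at most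
  `mis (α j) s + bt (α j) s` (either the state at `τ` is wrong or the number of ticks is not one).
-/

set_option autoImplicit false

open Finset

namespace Pool.Agent.H3NG

variable {T : ℕ} [NeZero T]

theorem ch_neg (σ : ZMod T → SignType) : ch (fun t => - σ t) = ch σ := by
  unfold ch
  ext t
  simp only [mem_filter, mem_univ, true_and, ne_eq, neg_inj]

theorem cnt_neg (σ s : ZMod T → SignType) (τ : ZMod T) : cnt (fun t => - σ t) s τ = cnt σ s τ := by
  unfold cnt
  rw [ch_neg]

theorem mis_neg (σ s : ZMod T → SignType) : mis (fun t => - σ t) s = mis σ s := by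
  unfold mis
  simp only [ch_neg, cnt_neg]

theorem sum_cnt (σ : ZMod T → SignType) {s : ZMod T → SignType} (h : (ch s).Nonempty) :
    ∑ τ ∈ ch s, cnt σ s τ = (ch σ).card := by
  classical
  rw [Finset.card_eq_sum_card_fiberwise (s := ch σ) (t := ch s) (f := root (ch s))
    (fun t _ => mem_coe.2 (root_mem h t))]
  refine Finset.sum_congr rfl (fun τ _ => ?_)
  unfold cnt
  congr

private theorem defect_const {σ s : ZMod T → SignType} {τ : ZMod T} (hτ : τ ∈ ch s)
    (h0 : cnt σ s τ = 0) : σ (nxt (ch s) τ) = σ τ := by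
  classical
  have key : ∀ i : ℕ, i ≤ up (ch s) τ → σ (τ + (i : ZMod T)) = σ τ := by
    intro i
    induction i with
    | zero => intro _; simp
    | succ i ih =>
      intro hi
      have h1 := ih (by omega)
      have hroot : root (ch s) (τ + (i : ZMod T)) = τ := root_add hτ (by omega)
      have h2 : τ + (i : ZMod T) ∉ ch σ := by
        intro hmem
        unfold cnt at h0
        rw [Finset.card_eq_zero] at h0
        have : τ + (i : ZMod T) ∈ (ch σ).filter (fun t => root (ch s) t = τ) :=
          mem_filter.2 ⟨hmem, hroot⟩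
        have h3 : τ + (i : ZMod T) ∈ (∅ : Finset (ZMod T)) := by
          rw [← h0]; convert this
        exact absurd h3 (Finset.notMem_empty _)
      unfold ch at h2
      rw [mem_filter, not_and, not_not] at h2
      have h3 := h2 (mem_univ _)
      rw [← h1, h3]
      push_cast
      rw [add_assoc]
  exact key _ le_rfl

private theorem defect_zero_card {σ s : ZMod T → SignType} (hs : Ph s) :
    ((ch s).filter (fun τ => cnt σ s τ = 0)).card ≤ 2 * bt σ s := by
  classical
  by_cases hne : (ch s).Nonempty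
  · set B := (ch s).filter (fun t => σ t ≠ s t) with hB
    have hbt : bt σ s = B.card := rfl
    have hsub : (ch s).filter (fun τ => cnt σ s τ = 0) ⊆
        B ∪ (ch s).filter (fun τ => nxt (ch s) τ ∈ B) := by
      intro τ hτ
      rw [mem_filter] at hτ
      by_cases h1 : σ τ = s τ
      · refine mem_union_right _ (mem_filter.2 ⟨hτ.1, ?_⟩)
        rw [hB, mem_filter]
        refine ⟨nxt_mem hne τ, ?_⟩
        rw [defect_const hτ.1 hτ.2, ph_nxt hs hτ.1, h1]
        have h3 := hs τ
        generalize s τ = a at h3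
        revert a
        decide
      · exact mem_union_left _ (mem_filter.2 ⟨hτ.1, h1⟩)
    have h2 : ((ch s).filter (fun τ => nxt (ch s) τ ∈ B)).card ≤ B.card := by
      refine Finset.card_le_card_of_injOn (nxt (ch s)) ?_ ?_
      · intro τ hτ
        exact (mem_filter.1 (mem_coe.1 hτ)).2
      · intro τ hτ τ' hτ' h
        exact nxt_injOn hne (mem_coe.2 (mem_filter.1 (mem_coe.1 hτ)).1)
          (mem_coe.2 (mem_filter.1 (mem_coe.1 hτ')).1) h
    have h3 := Finset.card_le_card hsub
    have h4 := Finset.card_union_le B ((ch s).filter (fun τ => nxt (ch s) τ ∈ B))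
    omega
  · rw [Finset.not_nonempty_iff_eq_empty] at hne
    rw [hne]
    simp

theorem mis_bound {σ s : ZMod T → SignType} (_hσ : (∀ t, σ t = 0) ∨ (∀ t, σ t ≠ 0)) (hs : Ph s) :
    (mis σ s : ℝ) + (ch s).card ≤ (ch σ).card + 4 * bt σ s := by
  classical
  have key : mis σ s + (ch s).card ≤ (ch σ).card + 4 * bt σ s := by
    by_cases hne : ch s = ∅
    · unfold mis
      rw [if_pos hne, hne, Finset.card_empty]
      omega
    · have hne' : (ch s).Nonempty := Finset.nonempty_iff_ne_empty.2 hne
      have h1 : mis σ s + (ch s).card = ∑ τ ∈ ch s, (Int.natAbs ((cnt σ s τ : ℤ) - 1) + 1) := by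
        unfold mis
        rw [if_neg hne, Finset.sum_add_distrib, Finset.card_eq_sum_ones]
      have h2 : ∑ τ ∈ ch s, (Int.natAbs ((cnt σ s τ : ℤ) - 1) + 1) ≤
          ∑ τ ∈ ch s, (cnt σ s τ + 2 * (if cnt σ s τ = 0 then 1 else 0)) := by
        refine Finset.sum_le_sum (fun τ _ => ?_)
        split_ifs with h
        · rw [h]; simp
        · omega
      have h3 : ∑ τ ∈ ch s, (cnt σ s τ + 2 * (if cnt σ s τ = 0 then 1 else 0)) =
          (ch σ).card + 2 * ((ch s).filter (fun τ => cnt σ s τ = 0)).card := by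
        rw [Finset.sum_add_distrib, sum_cnt σ hne', ← Finset.mul_sum, Finset.card_filter]
      have h4 := defect_zero_card (σ := σ) hs
      omega
  exact_mod_cast key

private theorem defect_na (σ s : ZMod T → SignType) :
    ((ch s).filter (fun τ => ¬ (σ τ = s τ ∧ cnt σ s τ = 1))).card ≤ mis σ s + bt σ s := by
  classical
  by_cases hne : ch s = ∅
  · rw [hne]; simp
  · have hsub : (ch s).filter (fun τ => ¬ (σ τ = s τ ∧ cnt σ s τ = 1)) ⊆
        (ch s).filter (fun τ => cnt σ s τ ≠ 1) ∪ (ch s).filter (fun t => σ t ≠ s t) := by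
      intro τ hτ
      rw [mem_filter] at hτ
      rw [mem_union, mem_filter, mem_filter]
      by_cases h1 : σ τ = s τ
      · left
        exact ⟨hτ.1, fun h => hτ.2 ⟨h1, h⟩⟩
      · right
        exact ⟨hτ.1, h1⟩
    have h1 : ((ch s).filter (fun τ => cnt σ s τ ≠ 1)).card ≤ mis σ s := by
      unfold mis
      rw [if_neg hne, Finset.card_filter]
      refine Finset.sum_le_sum (fun τ _ => ?_)
      split_ifs with h
      · omega
      · exact Nat.zero_le _
    have h2 := Finset.card_le_card hsub
    have h3 := Finset.card_union_le ((ch s).filter (fun τ => cnt σ s τ ≠ 1))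
      ((ch s).filter (fun t => σ t ≠ s t))
    have h4 : bt σ s = ((ch s).filter (fun t => σ t ≠ s t)).card := rfl
    omega

theorem nonaligned_card (m : ℕ) (α : ℕ → ZMod T → SignType) (s : ZMod T → SignType)
    (D : Finset (ZMod T)) (hD : D ⊆ ch s) (h : ∀ τ ∈ D, ∃ j < m, ¬ al (α j) s τ) :
    (D.card : ℝ) ≤ ∑ j ∈ range m, aa (α j) s := by
  classical
  have hsub : D ⊆ (range m).biUnion
      (fun j => (ch s).filter (fun τ => ¬ (α j τ = s τ ∧ cnt (α j) s τ = 1))) := by
    intro τ hτ
    obtain ⟨j, hj, hna⟩ := h τ hτ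
    rw [mem_biUnion]
    exact ⟨j, mem_range.2 hj, mem_filter.2 ⟨hD hτ, hna⟩⟩
  have h1 : D.card ≤ ∑ j ∈ range m, (mis (α j) s + bt (α j) s) :=
    (Finset.card_le_card hsub).trans (Finset.card_biUnion_le.trans
      (Finset.sum_le_sum (fun j _ => defect_na (α j) s)))
  have h2 : ((D.card : ℕ) : ℝ) ≤ ((∑ j ∈ range m, (mis (α j) s + bt (α j) s) : ℕ) : ℝ) := by
    exact_mod_cast h1
  refine h2.trans (le_of_eq ?_)
  push_cast
  rfl

end Pool.Agent.H3NG
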