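import Mathlib

/-!
# Definitions for the negation of MP_02726b_an (S03684)

Time is the circle `ZMod T`.  Signals are functions `ZMod T → SignType`; a phase is a signal without zeros.
See `PAPER.md` and `BLUEPRINT.md` in this folder.
-/

set_option autoImplicit false

open Finset

namespace Pool.Agent.H3NG

/-- indicator of a proposition, as a real number -/
noncomputable def ind (p : Prop) : ℝ := by
  classical exact if p then 1 else 0

/-! ## Signals, the functional `G` and the penalised variation `TV` -/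

section Signals
variable {T : ℕ} [NeZero T]

/-- change times of a signal -/
def ch (s : ZMod T → SignType) : Finset (ZMod T) := univ.filter (fun t => s t ≠ s (t + 1))

/-- a phase: a signal without zeros -/
def Ph (s : ZMod T → SignType) : Prop := ∀ t, s t ≠ 0

/-- penalised variation of `u` along the phase `s` -/
noncomputable def G (lam : ℝ) (u : ZMod T → ℝ) (s : ZMod T → SignType) : ℝ :=
  ∑ t ∈ ch s, (2 * (s t : ℝ) * u t - lam)

/-- penalised variation -/
noncomputable def TV (lam : ℝ) (u : ZMod T → ℝ) : ℝ :=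
  ⨆ s : {s : ZMod T → SignType // Ph s}, G lam u s.1

/-- the lazy dual process at level `lam`: `g = u - w/2` moves only when it is pushed by the band -/
structure Lazy (lam : ℝ) (u w : ZMod T → ℝ) : Prop where
  bd : ∀ t, |w t| ≤ lam
  upw : ∀ t, u t - w t / 2 < u (t + 1) - w (t + 1) / 2 → w (t + 1) = lam
  dnw : ∀ t, u (t + 1) - w (t + 1) / 2 < u t - w t / 2 → w (t + 1) = -lam

/-- number of steps from `t` to the next time `≥ t` at which `θ ≤ |w|` -/
noncomputable def mk (θ : ℝ) (w : ZMod T → ℝ) (t : ZMod T) : ℕ := sInf {k : ℕ | θ ≤ |w (t + k)|}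

/-- state signal of `w`: sign of `w` at the next marked time `≥ t`; zero if there is no marked time -/
noncomputable def st (θ : ℝ) (w : ZMod T → ℝ) (t : ZMod T) : SignType := by
  classical exact if ∃ t', θ ≤ |w t'| then SignType.sign (w (t + mk θ w t)) else 0

/-! ## Segments -/

/-- distance back from `t` to the last element of `A` at or before `t` -/
noncomputable def dn (A : Finset (ZMod T)) (t : ZMod T) : ℕ := sInf {k : ℕ | t - k ∈ A}

/-- last element of `A` at or before `t`; the start of the segment containing `t` -/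
noncomputable def root (A : Finset (ZMod T)) (t : ZMod T) : ZMod T := t - dn A t

/-- distance from `t` to the next element of `A` strictly after `t` -/
noncomputable def up (A : Finset (ZMod T)) (t : ZMod T) : ℕ := sInf {k : ℕ | 0 < k ∧ t + k ∈ A}

/-- next element of `A` strictly after `t` -/
noncomputable def nxt (A : Finset (ZMod T)) (t : ZMod T) : ZMod T := t + up A t

/-- number of ticks (changes) of `σ` in the segment of `s` starting at `τ` -/
noncomputable def cnt (σ s : ZMod T → SignType) (τ : ZMod T) : ℕ := by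
  classical exact ((ch σ).filter (fun t => root (ch s) t = τ)).card

/-- total tick defect of `σ` with respect to the segments of `s` -/
noncomputable def mis (σ s : ZMod T → SignType) : ℕ := by
  classical exact if ch s = ∅ then (ch σ).card
    else ∑ τ ∈ ch s, Int.natAbs ((cnt σ s τ : ℤ) - 1)

/-- number of changes of `s` at which the state `σ` is wrong -/
def bt (σ s : ZMod T → SignType) : ℕ := ((ch s).filter (fun t => σ t ≠ s t)).card

/-- total defect -/
noncomputable def aa (σ s : ZMod T → SignType) : ℝ := (mis σ s : ℝ) + bt σ s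

/-- `σ` is aligned with the segment of `s` starting at `τ` -/
def al (σ s : ZMod T → SignType) (τ : ZMod T) : Prop := σ τ = s τ ∧ cnt σ s τ = 1

/-- number of segments of `s` that meet `U` -/
noncomputable def nm (s : ZMod T → SignType) (U : ZMod T → Prop) : ℕ := by
  classical exact ((ch s).filter (fun τ => ∃ t, root (ch s) t = τ ∧ U t)).card

/-- `σ` and `σ'` were last equal with common value `q` -/
def Last (σ σ' : ZMod T → SignType) (t : ZMod T) (q : SignType) : Prop :=
  ∃ k : ℕ, (∀ i < k, σ (t - i) ≠ σ' (t - i)) ∧ σ (t - k) = q ∧ σ' (t - k) = q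

/-! ## Weights -/

/-- `ω(t) + ... + ω(t+i)` -/
noncomputable def wsum (ω : ZMod T → ℝ) (t : ZMod T) (i : ℕ) : ℝ :=
  ∑ j ∈ range (i + 1), ω (t + (j : ZMod T))

/-- number of elements of `A` in `(t, t+i]` (with multiplicity if `i ≥ T`) -/
noncomputable def fwc (A : Finset (ZMod T)) (t : ZMod T) (i : ℕ) : ℕ := by
  classical exact ((Icc 1 i).filter (fun j : ℕ => t + (j : ZMod T) ∈ A)).card

/-- forward log-uniform weight -/
noncomputable def lamF (ω : ZMod T → ℝ) (A : Finset (ZMod T)) (t : ZMod T) : ℝ :=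
  ∑ i ∈ range T, ind (t - (i : ZMod T) ∈ A ∧ fwc A (t - (i : ZMod T)) i ≤ 1) *
    (ω t / wsum ω (t - (i : ZMod T)) i)

/-- backward log-uniform weight -/
noncomputable def lamB (ω : ZMod T → ℝ) (A : Finset (ZMod T)) (t : ZMod T) : ℝ :=
  lamF (fun t' => ω (-t')) (A.image (fun t' => -t')) (-t)

/-- two-sided log-uniform weight -/
noncomputable def lam2 (ω : ZMod T → ℝ) (A : Finset (ZMod T)) (t : ZMod T) : ℝ :=
  lamF ω A t + lamB ω A t

/-- energy of `u`: the square of its norm -/
noncomputable def en (u : ZMod T → ℝ) : ℝ := ∫ lam in Set.Ioi (0 : ℝ), TV lam u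

end Signals

/-! ## Paths -/

section Paths
variable {V : Type} [Fintype V]

/-- prepend a vertex -/
def cns (x : V) (z : ℕ → V) : ℕ → V
  | 0 => x
  | n + 1 => z n

/-- expectation over the paths of length `m` of the chain started at `x`; the path is continued as a constant -/
noncomputable def Ex (P : Matrix V V ℝ) : ℕ → V → ((ℕ → V) → ℝ) → ℝ
  | 0, x, F => F (fun _ => x)
  | m + 1, x, F => ∑ y, P x y * Ex P m y (fun z => F (cns x z))

/-- expectation over the stationary paths of length `m` -/
noncomputable def EP (P : Matrix V V ℝ) (m : ℕ) (F : (ℕ → V) → ℝ) : ℝ :=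
  (Fintype.card V : ℝ)⁻¹ * ∑ x, Ex P m x F

/-- `F` depends only on the coordinates `0, ..., m` -/
def Dep (m : ℕ) (F : (ℕ → V) → ℝ) : Prop := ∀ z z' : ℕ → V, (∀ i ≤ m, z i = z' i) → F z = F z'

/-- symmetric stochastic matrix -/
structure SStoch (P : Matrix V V ℝ) : Prop where
  nonneg : ∀ x y, 0 ≤ P x y
  symm : ∀ x y, P x y = P y x
  sum_one : ∀ x, ∑ y, P x y = 1

/-- average of `φ` over the pairs `(X_0, X_1)` of the chain -/
noncomputable def EM (P : Matrix V V ℝ) (φ : V → V → ℝ) : ℝ :=
  (Fintype.card V : ℝ)⁻¹ * ∑ x, ∑ y, P x y * φ x y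

/-- probability that a step leaves its piece -/
noncomputable def cut (P : Matrix V V ℝ) (pc : V → V) : ℝ := EM P (fun x y => ind (pc x ≠ pc y))

/-- path with three vertices -/
def p3 (a b c : V) : ℕ → V
  | 0 => a
  | 1 => b
  | _ => c

/-- path with five vertices -/
def p5 (a b c d e : V) : ℕ → V
  | 0 => a
  | 1 => b
  | 2 => c
  | 3 => d
  | _ => e

end Paths

/-! ## Systems of signals on a chain -/

section Systems
variable {V : Type} [Fintype V] {T : ℕ} [NeZero T]

/-- antisymmetric signals of the pairs, each without zeros or identically zero -/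
structure Sig (σ : V → V → ZMod T → SignType) : Prop where
  anti : ∀ x y t, σ y x t = - σ x y t
  zero_or : ∀ x y, (∀ t, σ x y t = 0) ∨ (∀ t, σ x y t ≠ 0)

/-- total defect of the blocks of a path of length `m` -/
noncomputable def apath (σ s : V → V → ZMod T → SignType) (m : ℕ) (z : ℕ → V) : ℝ :=
  ∑ j ∈ range m, aa (σ (z j) (z (j + 1))) (s (z 0) (z m))

/-- `t` is in no segment of the phase of the path in which all blocks are aligned -/
def NAp (σ s : V → V → ZMod T → SignType) (m : ℕ) (z : ℕ → V) (t : ZMod T) : Prop :=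
  ch (s (z 0) (z m)) = ∅ ∨
    ∃ j < m, ¬ al (σ (z j) (z (j + 1))) (s (z 0) (z m)) (root (ch (s (z 0) (z m))) t)

/-- the two steps `x, y, z` have the same nonzero sign at time `t` -/
def Con (σ : V → V → ZMod T → SignType) (t : ZMod T) (x y z : V) : Prop :=
  σ x y t = σ y z t ∧ σ x y t ≠ 0

/-- `x` is bad at time `t` -/
def Bad (P : Matrix V V ℝ) (σ : V → V → ZMod T → SignType) (η : ℝ) (x : V) (t : ZMod T) : Prop :=
  η ^ 2 < ∑ y, ∑ z, P x y * P y z * ind (¬ Con σ t x y z)

/-- centred average of the defect of the paths of length four around `x` -/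
noncomputable def A4 (P : Matrix V V ℝ) (σ s : V → V → ZMod T → SignType) (x : V) : ℝ :=
  ∑ y₁, ∑ z₁, ∑ y₂, ∑ z₂, P x y₁ * P y₁ z₁ * (P x y₂ * P y₂ z₂) * apath σ s 4 (p5 z₁ y₁ x y₂ z₂)

/-- average of the defect of the paths of length two with last step `(x, x')` -/
noncomputable def A2 (P : Matrix V V ℝ) (σ s : V → V → ZMod T → SignType) (x x' : V) : ℝ :=
  ∑ y, P x y * apath σ s 2 (p3 y x x')

/-- tick measure of the piece `i` -/
noncomputable def om (P : Matrix V V ℝ) (σ : V → V → ZMod T → SignType) (pc : V → V) (i : V)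
    (t : ZMod T) : ℝ :=
  ∑ x, ∑ y, ind (pc x = i) * P x y * ind (t ∈ ch (σ x y))

/-- the forward event at the vertex `y` of the path `x, y, z` -/
def Ef (P : Matrix V V ℝ) (σ : V → V → ZMod T → SignType) (η : ℝ) (t : ZMod T) (x y z : V) : Prop :=
  ¬ (Con σ t x y z ∧ 1 - η ≤ ∑ z', P y z' * ind (σ y z' t = σ x y t))

/-- at time `t` at most a third of the checkpoints of the path are bad -/
def Few (P : Matrix V V ℝ) (σ : V → V → ZMod T → SignType) (a : ℕ) (z : ℕ → V) (t : ZMod T) : Prop :=
  3 * ∑ i ∈ range (2 * a), ind (Bad P σ (1 / 128) (z (a + 2 * i)) t ∨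
    Bad P σ (1 / 128) (z (a + 2 * i + 2)) t) ≤ 2 * a

/-- output of the choice of the level, input of the combinatorial core -/
structure Core (P : Matrix V V ℝ) (a : ℕ) (ns : (ℕ → V) → Prop) (ε R : ℝ)
    (σ s2 s4 sb : V → V → ZMod T → SignType) : Prop where
  sig : Sig σ
  ph2 : ∀ x y, Ph (s2 x y)
  ph4 : ∀ x y, Ph (s4 x y)
  phb : ∀ x y, Ph (sb x y)
  Rpos : 0 < R
  h2 : EP P 2 (apath σ s2 2) ≤ 2 * ε * R
  h4 : EP P 4 (apath σ s4 4) ≤ 4 * ε * R
  hb : EP P (8 * a) (apath σ sb (8 * a)) ≤ (8 * a : ℕ) * ε * R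
  hr : (1 - ε) * R ≤ EP P (8 * a) (fun z => ((ch (sb (z 0) (z (8 * a)))).card : ℝ))
  ht : EP P 1 (fun z => ((ch (σ (z 0) (z 1))).card : ℝ)) ≤ (1 + ε) * R
  hns : EP P (8 * a) (fun z => ind (ns z) * ((ch (sb (z 0) (z (8 * a)))).card : ℝ)) ≤ ε * R

end Systems

/-! ## The model: a normed space with coordinates -/

/-- `co` are the coordinates of the space: the square of the norm is the sum of the energies -/
def Model (X : Type) [NormedAddCommGroup X] [NormedSpace ℝ X]
    (co : ∀ n : ℕ, X →ₗ[ℝ] (ZMod (n + 1) → ℝ)) : Prop :=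
  ∀ F : X, HasSum (fun n => en (co n F)) (‖F‖ ^ 2)

/-- mean square displacement after `m` steps, square root -/
noncomputable def Sn {V : Type} [Fintype V] [DecidableEq V] {X : Type} [NormedAddCommGroup X]
    (P : Matrix V V ℝ) (f : V → X) (m : ℕ) : ℝ :=
  Real.sqrt (EM (P ^ m) (fun x y => ‖f x - f y‖ ^ 2))

/-- the constant of the main inequality -/
noncomputable def cMI : ℝ := (1 / 10 ^ 18 / 9) ^ 3 / 256

/-- averaged kernel -/
noncomputable def nu {V : Type} [Fintype V] [DecidableEq V] (Q : Matrix V V ℝ) (l : ℕ) (x v : V) : ℝ :=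
  (l : ℝ)⁻¹ * ∑ i ∈ Icc 1 l, (Q ^ i) x v

/-- mean entropy after `l` steps -/
noncomputable def Hn {V : Type} [Fintype V] [DecidableEq V] (Q : Matrix V V ℝ) (l : ℕ) : ℝ :=
  (Fintype.card V : ℝ)⁻¹ * ∑ x, ∑ y, Real.negMulLog ((Q ^ l) x y)

/-- the space contains James sequences of every finite length -/
def James (X : Type) [NormedAddCommGroup X] [NormedSpace ℝ X] : Prop :=
  ∀ n : ℕ, ∃ (x : Fin n → X) (φ : Fin n → (X →L[ℝ] ℝ)), (∀ j, ‖x j‖ ≤ 1) ∧ (∀ i, ‖φ i‖ ≤ 1) ∧
    ∀ i j, φ i (x j) = if i ≤ j then 1 else 0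

/-- transition matrix of the simple random walk on a `k`-regular graph -/
noncomputable def srw {V : Type} (k : ℕ) (Gr : SimpleGraph V) : Matrix V V ℝ :=
  fun x y => ind (Gr.Adj x y) / k

end Pool.Agent.H3NG
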