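import Pool.Agent.H3NG.Defs

/-!
# Module EntA : a weak Pinsker inequality

`∑ p log (p/q) = ∑ p * 2 * (-log (√(q/p))) ≥ 2 ∑ p (1 - √(q/p)) = 2 - 2 ∑ √(p q) ≥ ∑ (√p - √q)^2`  (terms with `p = 0` are zero; `∑ q ≤ 1`), and
`(∑ |p - q|)^2 = (∑ |√p - √q| (√p + √q))^2 ≤ ∑ (√p - √q)^2 * ∑ (√p + √q)^2 ≤ 4 ∑ (√p - √q)^2` (Cauchy-Schwarz).
`gibbs`: `p log (q / p) ≤ q - p`.
-/

set_option autoImplicit false

open Finset

namespace Pool.Agent.H3NG

variable {V : Type} [Fintype V]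

private theorem term_lower (p q : ℝ) (hp : 0 ≤ p) (hq : 0 ≤ q) (hpq : 0 < p → 0 < q) :
    2 * p - 2 * (Real.sqrt p * Real.sqrt q) ≤ p * Real.log (p / q) := by
  rcases hp.eq_or_lt with h0 | h0
  · rw [← h0]; simp
  · have hq0 := hpq h0
    have hsp : 0 < Real.sqrt p := Real.sqrt_pos.mpr h0
    have hsq : 0 < Real.sqrt q := Real.sqrt_pos.mpr hq0
    have hp2 : Real.sqrt p * Real.sqrt p = p := Real.mul_self_sqrt hp
    have hq2 : Real.sqrt q * Real.sqrt q = q := Real.mul_self_sqrt hq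
    have hr : 0 < Real.sqrt q / Real.sqrt p := div_pos hsq hsp
    have hlog : Real.log (Real.sqrt q / Real.sqrt p) ≤ Real.sqrt q / Real.sqrt p - 1 :=
      Real.log_le_sub_one_of_pos hr
    have h1 : Real.log (p / q) = -(2 * Real.log (Real.sqrt q / Real.sqrt p)) := by
      rw [Real.log_div hsq.ne' hsp.ne', Real.log_sqrt hq, Real.log_sqrt hp,
        Real.log_div h0.ne' hq0.ne']
      ring
    rw [h1]
    have h2 : p * (Real.sqrt q / Real.sqrt p) = Real.sqrt p * Real.sqrt q := by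
      rw [← mul_div_assoc, div_eq_iff hsp.ne']
      calc p * Real.sqrt q = (Real.sqrt p * Real.sqrt p) * Real.sqrt q := by rw [hp2]
        _ = Real.sqrt p * Real.sqrt q * Real.sqrt p := by ring
    nlinarith [mul_le_mul_of_nonneg_left hlog h0.le]

theorem pinsker (p q : V → ℝ) (hp : ∀ v, 0 ≤ p v) (hq : ∀ v, 0 ≤ q v) (hp1 : ∑ v, p v = 1)
    (hq1 : ∑ v, q v = 1) (hpq : ∀ v, 0 < p v → 0 < q v) :
    (∑ v, |p v - q v|) ^ 2 ≤ 4 * ∑ v, p v * Real.log (p v / q v) := by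
  have hA : ∑ v, (Real.sqrt (p v) - Real.sqrt (q v)) ^ 2 ≤ ∑ v, p v * Real.log (p v / q v) := by
    have h1 : ∑ v, (2 * p v - 2 * (Real.sqrt (p v) * Real.sqrt (q v))) ≤
        ∑ v, p v * Real.log (p v / q v) :=
      Finset.sum_le_sum (fun v _ => term_lower (p v) (q v) (hp v) (hq v) (hpq v))
    have h2 : ∑ v, (Real.sqrt (p v) - Real.sqrt (q v)) ^ 2 =
        ∑ v, (2 * p v - 2 * (Real.sqrt (p v) * Real.sqrt (q v))) := by
      have e1 : ∀ v, (Real.sqrt (p v) - Real.sqrt (q v)) ^ 2 =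
          (2 * p v - 2 * (Real.sqrt (p v) * Real.sqrt (q v))) + (q v - p v) := by
        intro v
        have a1 := Real.mul_self_sqrt (hp v)
        have a2 := Real.mul_self_sqrt (hq v)
        nlinarith
      have e2 : ∑ v, (q v - p v) = 0 := by
        rw [Finset.sum_sub_distrib, hp1, hq1]; ring
      rw [Finset.sum_congr rfl (fun v _ => e1 v), Finset.sum_add_distrib, e2, add_zero]
    rw [h2]; exact h1
  have hB : ∑ v, |p v - q v| =
      ∑ v, |Real.sqrt (p v) - Real.sqrt (q v)| * (Real.sqrt (p v) + Real.sqrt (q v)) := by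
    refine Finset.sum_congr rfl (fun v _ => ?_)
    have a0 : 0 ≤ Real.sqrt (p v) + Real.sqrt (q v) := by positivity
    have e3 : |Real.sqrt (p v) - Real.sqrt (q v)| * (Real.sqrt (p v) + Real.sqrt (q v)) =
        |(Real.sqrt (p v) - Real.sqrt (q v)) * (Real.sqrt (p v) + Real.sqrt (q v))| := by
      rw [abs_mul, abs_of_nonneg a0]
    rw [e3]
    congr 1
    have a1 := Real.mul_self_sqrt (hp v)
    have a2 := Real.mul_self_sqrt (hq v)
    nlinarith
  have hC : ∑ v, (Real.sqrt (p v) + Real.sqrt (q v)) ^ 2 ≤ 4 := by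
    have : ∑ v, (Real.sqrt (p v) + Real.sqrt (q v)) ^ 2 ≤ ∑ v, 2 * (p v + q v) := by
      refine Finset.sum_le_sum (fun v _ => ?_)
      have a1 := Real.mul_self_sqrt (hp v)
      have a2 := Real.mul_self_sqrt (hq v)
      nlinarith [sq_nonneg (Real.sqrt (p v) - Real.sqrt (q v))]
    rw [← Finset.mul_sum, Finset.sum_add_distrib, hp1, hq1] at this
    linarith
  rw [hB]
  have hD := Finset.sum_mul_sq_le_sq_mul_sq (Finset.univ : Finset V)
    (fun v => |Real.sqrt (p v) - Real.sqrt (q v)|) (fun v => Real.sqrt (p v) + Real.sqrt (q v))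
  simp only [sq_abs] at hD
  have hE : 0 ≤ ∑ v, (Real.sqrt (p v) - Real.sqrt (q v)) ^ 2 :=
    Finset.sum_nonneg (fun v _ => sq_nonneg _)
  calc _ ≤ (∑ v, (Real.sqrt (p v) - Real.sqrt (q v)) ^ 2) *
        ∑ v, (Real.sqrt (p v) + Real.sqrt (q v)) ^ 2 := hD
    _ ≤ (∑ v, (Real.sqrt (p v) - Real.sqrt (q v)) ^ 2) * 4 := by
        exact mul_le_mul_of_nonneg_left hC hE
    _ ≤ 4 * ∑ v, p v * Real.log (p v / q v) := by linarith

theorem gibbs (p q : V → ℝ) (hp : ∀ v, 0 ≤ p v) (hq : ∀ v, 0 ≤ q v) (hp1 : ∑ v, p v = 1)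
    (hq1 : ∑ v, q v ≤ 1) (hpq : ∀ v, 0 < p v → 0 < q v) :
    ∑ v, Real.negMulLog (p v) ≤ ∑ v, p v * (- Real.log (q v)) := by
  have h1 : ∀ v, Real.negMulLog (p v) - p v * (- Real.log (q v)) ≤ q v - p v := by
    intro v
    rcases (hp v).eq_or_lt with h0 | h0
    · rw [← h0]; simp [hq v]
    · have hq0 := hpq v h0
      have hlog : Real.log (q v / p v) ≤ q v / p v - 1 :=
        Real.log_le_sub_one_of_pos (div_pos hq0 h0)
      rw [Real.log_div hq0.ne' h0.ne'] at hlog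
      have h2 := mul_le_mul_of_nonneg_left hlog h0.le
      have h3 : p v * (q v / p v - 1) = q v - p v := by
        field_simp
      rw [h3] at h2
      unfold Real.negMulLog
      linarith
  have h2 : ∑ v, (Real.negMulLog (p v) - p v * (- Real.log (q v))) ≤ ∑ v, (q v - p v) :=
    Finset.sum_le_sum (fun v _ => h1 v)
  rw [Finset.sum_sub_distrib, Finset.sum_sub_distrib, hp1] at h2
  linarith

end Pool.Agent.H3NG
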