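import Pool.Agent.H3NG.Defs

/-!
# Module PathA : basic facts on path expectations

Everything by induction on the length with the recursion of `Ex`.
* `Ex_mono_supp`: in the induction step the paths are `cns x z` with `0 < P x (z 0)`; note that
  `Ex P m y F` only uses `z` with `z 0 = y`.
* `EP_shift`: first `Ex P (m+1) x F = Ex P m x F` if `Dep m F` (drop the last vertex), then
  `EP P (m+1) (fun z => F (fun n => z (n+1))) = EP P m F` (drop the first vertex, column sums are one by symmetry).
* `EP_ends`: `Ex P m x (fun z => φ x (z m)) = ∑ y, (P ^ m) x y * φ x y` by induction, `pow_succ'`.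
* `cut_pow_le`: `cut (P ^ (n+1)) ≤ cut (P ^ n) + cut P` from `ind (pc x ≠ pc y) ≤ ind (pc x ≠ pc z) + ind (pc z ≠ pc y)`.
* `ns_prob`: union bound over the steps, `EP_step`.
-/

set_option autoImplicit false

open Finset

namespace Pool.Agent.H3NG

theorem ind_nonneg (p : Prop) : 0 ≤ ind p := by
  unfold ind; split_ifs <;> norm_num

theorem ind_le_one (p : Prop) : ind p ≤ 1 := by
  unfold ind; split_ifs <;> norm_num

theorem ind_true {p : Prop} (h : p) : ind p = 1 := by
  unfold ind; rw [if_pos h]

theorem ind_false {p : Prop} (h : ¬ p) : ind p = 0 := by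
  unfold ind; rw [if_neg h]

theorem ind_mono {p q : Prop} (h : p → q) : ind p ≤ ind q := by
  by_cases hp : p
  · rw [ind_true hp, ind_true (h hp)]
  · rw [ind_false hp]; exact ind_nonneg q

variable {V : Type} [Fintype V]

private theorem Ex_add (P : Matrix V V ℝ) (m : ℕ) : ∀ (x : V) (F F' : (ℕ → V) → ℝ),
    Ex P m x (fun z => F z + F' z) = Ex P m x F + Ex P m x F' := by
  induction m with
  | zero => intro x F F'; rfl
  | succ m ih =>
    intro x F F'
    simp only [Ex, ih, mul_add, Finset.sum_add_distrib]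

private theorem Ex_const_mul (P : Matrix V V ℝ) (m : ℕ) (c : ℝ) : ∀ (x : V) (F : (ℕ → V) → ℝ),
    Ex P m x (fun z => c * F z) = c * Ex P m x F := by
  induction m with
  | zero => intro x F; rfl
  | succ m ih =>
    intro x F
    simp only [Ex, ih, Finset.mul_sum]
    refine Finset.sum_congr rfl fun y _ => ?_
    ring

private theorem Ex_mono_supp {P : Matrix V V ℝ} (hP : SStoch P) (m : ℕ) :
    ∀ (x : V) (F F' : (ℕ → V) → ℝ),
    (∀ z : ℕ → V, z 0 = x → (∀ i < m, 0 < P (z i) (z (i + 1))) → F z ≤ F' z) →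
    Ex P m x F ≤ Ex P m x F' := by
  induction m with
  | zero =>
    intro x F F' h
    exact h _ rfl (fun i hi => absurd hi (Nat.not_lt_zero i))
  | succ m ih =>
    intro x F F' h
    simp only [Ex]
    refine Finset.sum_le_sum fun y _ => ?_
    rcases (hP.nonneg x y).lt_or_eq with hpos | hzero
    · refine mul_le_mul_of_nonneg_left ?_ hpos.le
      refine ih y _ _ fun z hz0 hz => h (cns x z) rfl ?_
      intro i hi
      cases i with
      | zero => show 0 < P x (z 0); rw [hz0]; exact hpos
      | succ i => exact hz i (by omega)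
    · rw [← hzero]; simp

private theorem Ex_congr0 (P : Matrix V V ℝ) (m : ℕ) :
    ∀ (x : V) (F F' : (ℕ → V) → ℝ), (∀ z : ℕ → V, z 0 = x → F z = F' z) →
    Ex P m x F = Ex P m x F' := by
  induction m with
  | zero => intro x F F' h; exact h _ rfl
  | succ m ih =>
    intro x F F' h
    simp only [Ex]
    refine Finset.sum_congr rfl fun y _ => ?_
    rw [ih y (fun z => F (cns x z)) (fun z => F' (cns x z)) (fun z _ => h _ rfl)]

private theorem Ex_const {P : Matrix V V ℝ} (hP : SStoch P) (m : ℕ) (c : ℝ) :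
    ∀ x : V, Ex P m x (fun _ => c) = c := by
  induction m with
  | zero => intro x; rfl
  | succ m ih =>
    intro x
    simp only [Ex, ih]
    rw [← Finset.sum_mul, hP.sum_one, one_mul]

private theorem Ex_drop_last {P : Matrix V V ℝ} (hP : SStoch P) (m : ℕ) :
    ∀ (x : V) (F : (ℕ → V) → ℝ), Dep m F → Ex P (m + 1) x F = Ex P m x F := by
  induction m with
  | zero =>
    intro x F hF
    simp only [Ex]
    have h1 : ∀ y : V, F (cns x (fun _ => y)) = F (fun _ => x) := by
      intro y
      refine hF _ _ ?_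
      intro i hi
      have hi0 : i = 0 := by omega
      subst hi0
      rfl
    simp only [h1]
    rw [← Finset.sum_mul, hP.sum_one, one_mul]
  | succ m ih =>
    intro x F hF
    rw [show Ex P (m + 1 + 1) x F
      = ∑ y, P x y * Ex P (m + 1) y (fun z => F (cns x z)) from rfl]
    rw [show Ex P (m + 1) x F
      = ∑ y, P x y * Ex P m y (fun z => F (cns x z)) from rfl]
    refine Finset.sum_congr rfl fun y _ => ?_
    rw [ih y (fun z => F (cns x z))]
    intro z z' hz
    refine hF _ _ ?_
    intro i hi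
    cases i with
    | zero => rfl
    | succ i => exact hz i (by omega)

private theorem SStoch.col_one {P : Matrix V V ℝ} (hP : SStoch P) (y : V) : ∑ x, P x y = 1 := by
  rw [← hP.sum_one y]
  exact Finset.sum_congr rfl fun x _ => hP.symm x y

private theorem EP_drop_first {P : Matrix V V ℝ} (hP : SStoch P) (m : ℕ) (F : (ℕ → V) → ℝ) :
    EP P (m + 1) (fun z => F (fun n => z (n + 1))) = EP P m F := by
  unfold EP
  congr 1
  simp only [Ex]
  have h1 : ∀ x y : V, Ex P m y (fun z => F (fun n => cns x z (n + 1))) = Ex P m y F :=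
    fun x y => rfl
  simp only [h1]
  rw [Finset.sum_comm]
  refine Finset.sum_congr rfl fun y _ => ?_
  rw [← Finset.sum_mul, hP.col_one, one_mul]

private theorem EP_drop_firsts {P : Matrix V V ℝ} (hP : SStoch P) (k i : ℕ) :
    ∀ F : (ℕ → V) → ℝ, EP P (i + k) (fun z => F (fun n => z (i + n))) = EP P k F := by
  induction i with
  | zero =>
    intro F
    simp only [Nat.zero_add]
  | succ i ih =>
    intro F
    have h1 := EP_drop_first hP (i + k) (fun z => F (fun n => z (i + n)))
    rw [ih F] at h1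
    rw [← h1]
    rw [show i + 1 + k = i + k + 1 by omega]
    congr 1
    funext z
    congr 1
    funext n
    congr 1
    omega

private theorem EP_drop_lasts {P : Matrix V V ℝ} (hP : SStoch P) (m k : ℕ)
    {F : (ℕ → V) → ℝ} (hF : Dep m F) : EP P (m + k) F = EP P m F := by
  induction k with
  | zero => rfl
  | succ k ih =>
    rw [← ih]
    unfold EP
    congr 1
    refine Finset.sum_congr rfl fun x _ => ?_
    refine Ex_drop_last hP (m + k) x F ?_
    intro z z' hz
    exact hF z z' (fun i hi => hz i (by omega))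

theorem EP_add (P : Matrix V V ℝ) (m : ℕ) (F F' : (ℕ → V) → ℝ) :
    EP P m (fun z => F z + F' z) = EP P m F + EP P m F' := by
  simp only [EP, Ex_add, Finset.sum_add_distrib, mul_add]

theorem EP_const_mul (P : Matrix V V ℝ) (m : ℕ) (c : ℝ) (F : (ℕ → V) → ℝ) :
    EP P m (fun z => c * F z) = c * EP P m F := by
  simp only [EP, Ex_const_mul, ← Finset.mul_sum]
  ring

theorem EP_sub (P : Matrix V V ℝ) (m : ℕ) (F F' : (ℕ → V) → ℝ) :
    EP P m (fun z => F z - F' z) = EP P m F - EP P m F' := by
  have h1 : (fun z => F z - F' z) = (fun z => F z + (-1) * F' z) := by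
    funext z; ring
  rw [h1, EP_add P m F (fun z => (-1) * F' z), EP_const_mul]
  ring

theorem EP_sum {ι : Type} (P : Matrix V V ℝ) (m : ℕ) (I : Finset ι) (F : ι → (ℕ → V) → ℝ) :
    EP P m (fun z => ∑ i ∈ I, F i z) = ∑ i ∈ I, EP P m (F i) := by
  classical
  induction I using Finset.induction_on with
  | empty =>
    have h := EP_const_mul P m 0 (fun _ => (0 : ℝ))
    simp only [Finset.sum_empty]
    simpa using h
  | insert a s ha ih =>
    simp only [Finset.sum_insert ha]
    rw [EP_add P m (F a) (fun z => ∑ i ∈ s, F i z), ih]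

theorem EP_mono_supp {P : Matrix V V ℝ} (hP : SStoch P) (m : ℕ) {F F' : (ℕ → V) → ℝ}
    (h : ∀ z : ℕ → V, (∀ i < m, 0 < P (z i) (z (i + 1))) → F z ≤ F' z) :
    EP P m F ≤ EP P m F' := by
  unfold EP
  refine mul_le_mul_of_nonneg_left ?_ (by positivity)
  exact Finset.sum_le_sum fun x _ => Ex_mono_supp hP m x F F' (fun z _ hz => h z hz)

theorem EP_nonneg {P : Matrix V V ℝ} (hP : SStoch P) (m : ℕ) {F : (ℕ → V) → ℝ}
    (h : ∀ z : ℕ → V, 0 ≤ F z) : 0 ≤ EP P m F := by
  have h0 : EP P m (fun _ => (0 : ℝ)) = 0 := by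
    have h := EP_const_mul P m 0 (fun _ => (0 : ℝ))
    simpa using h
  rw [← h0]
  exact EP_mono_supp hP m (fun z _ => h z)

theorem EP_const [Nonempty V] {P : Matrix V V ℝ} (hP : SStoch P) (m : ℕ) (c : ℝ) :
    EP P m (fun _ => c) = c := by
  unfold EP
  simp only [Ex_const hP, Finset.sum_const, Finset.card_univ, nsmul_eq_mul]
  have h : (Fintype.card V : ℝ) ≠ 0 := by
    exact_mod_cast Fintype.card_ne_zero
  field_simp

/-- stationarity: functionals of the coordinates `i, ..., i + m'` -/
theorem EP_shift {P : Matrix V V ℝ} (hP : SStoch P) {m m' i : ℕ} (h : i + m' ≤ m)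
    {F : (ℕ → V) → ℝ} (hF : Dep m' F) :
    EP P m (fun z => F (fun n => z (i + n))) = EP P m' F := by
  obtain ⟨k, rfl⟩ := Nat.exists_eq_add_of_le h
  rw [show i + m' + k = i + (m' + k) by omega, EP_drop_firsts hP (m' + k) i F,
    EP_drop_lasts hP m' k hF]

private theorem Ex_end [DecidableEq V] (P : Matrix V V ℝ) (m : ℕ) :
    ∀ (x : V) (h : V → ℝ), Ex P m x (fun z => h (z m)) = ∑ y, (P ^ m) x y * h y := by
  induction m with
  | zero =>
    intro x h
    simp [Ex, Matrix.one_apply]
  | succ m ih =>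
    intro x h
    have h1 : Ex P (m + 1) x (fun z => h (z (m + 1)))
        = ∑ y, P x y * Ex P m y (fun z => h (z m)) := rfl
    rw [h1]
    simp only [ih, pow_succ', Matrix.mul_apply, Finset.sum_mul, Finset.mul_sum]
    rw [Finset.sum_comm]
    refine Finset.sum_congr rfl fun w _ => Finset.sum_congr rfl fun y _ => ?_
    ring

theorem EP_ends [DecidableEq V] {P : Matrix V V ℝ} (m : ℕ) (φ : V → V → ℝ) :
    EP P m (fun z => φ (z 0) (z m)) = EM (P ^ m) φ := by
  unfold EP EM
  congr 1
  refine Finset.sum_congr rfl fun x _ => ?_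
  rw [← Ex_end P m x (fun y => φ x y)]
  refine Ex_congr0 P m x _ _ ?_
  intro z hz
  rw [hz]

theorem EP_step {P : Matrix V V ℝ} (hP : SStoch P) {m j : ℕ} (hj : j < m) (φ : V → V → ℝ) :
    EP P m (fun z => φ (z j) (z (j + 1))) = EM P φ := by
  have hF : Dep 1 (fun z : ℕ → V => φ (z 0) (z 1)) := by
    intro z z' hz
    show φ (z 0) (z 1) = φ (z' 0) (z' 1)
    rw [hz 0 (by omega), hz 1 (by omega)]
  have h1 := EP_shift hP (m := m) (m' := 1) (i := j) (by omega) hF
  have h2 : EP P m (fun z => φ (z j) (z (j + 1))) = EP P 1 (fun z : ℕ → V => φ (z 0) (z 1)) := h1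
  rw [h2]
  rfl

theorem EP_point {P : Matrix V V ℝ} (hP : SStoch P) {m j : ℕ} (hj : j ≤ m) (h : V → ℝ) :
    EP P m (fun z => h (z j)) = (Fintype.card V : ℝ)⁻¹ * ∑ x, h x := by
  have hF : Dep 0 (fun z : ℕ → V => h (z 0)) := by
    intro z z' hz
    show h (z 0) = h (z' 0)
    rw [hz 0 (by omega)]
  have h1 := EP_shift hP (m := m) (m' := 0) (i := j) (by omega) hF
  have h2 : EP P m (fun z => h (z j)) = EP P 0 (fun z : ℕ → V => h (z 0)) := h1
  rw [h2]
  rfl

theorem EM_mono {P : Matrix V V ℝ} (hP : SStoch P) {φ ψ : V → V → ℝ}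
    (h : ∀ x y, 0 < P x y → φ x y ≤ ψ x y) : EM P φ ≤ EM P ψ := by
  unfold EM
  refine mul_le_mul_of_nonneg_left ?_ (by positivity)
  refine Finset.sum_le_sum fun x _ => Finset.sum_le_sum fun y _ => ?_
  rcases (hP.nonneg x y).lt_or_eq with hpos | hzero
  · exact mul_le_mul_of_nonneg_left (h x y hpos) hpos.le
  · rw [← hzero]; simp

theorem EM_const_mul (P : Matrix V V ℝ) (c : ℝ) (φ : V → V → ℝ) :
    EM P (fun x y => c * φ x y) = c * EM P φ := by
  unfold EM
  have h1 : ∑ x, ∑ y, P x y * (c * φ x y) = c * ∑ x, ∑ y, P x y * φ x y := by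
    simp only [Finset.mul_sum]
    refine Finset.sum_congr rfl fun x _ => Finset.sum_congr rfl fun y _ => ?_
    ring
  rw [h1]
  ring

theorem EM_add (P : Matrix V V ℝ) (φ ψ : V → V → ℝ) :
    EM P (fun x y => φ x y + ψ x y) = EM P φ + EM P ψ := by
  unfold EM
  simp only [mul_add, Finset.sum_add_distrib]

theorem EM_swap {P : Matrix V V ℝ} (hP : SStoch P) (φ : V → V → ℝ) :
    EM P (fun x y => φ y x) = EM P φ := by
  unfold EM
  congr 1
  rw [Finset.sum_comm]
  refine Finset.sum_congr rfl fun x _ => Finset.sum_congr rfl fun y _ => ?_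
  rw [hP.symm y x]

theorem SStoch_pow [DecidableEq V] {P : Matrix V V ℝ} (hP : SStoch P) (n : ℕ) :
    SStoch (P ^ n) := by
  induction n with
  | zero =>
    refine ⟨fun x y => ?_, fun x y => ?_, fun x => ?_⟩
    · rw [pow_zero, Matrix.one_apply]; split_ifs <;> norm_num
    · rw [pow_zero, Matrix.one_apply, Matrix.one_apply]
      by_cases h : x = y
      · rw [if_pos h, if_pos h.symm]
      · rw [if_neg h, if_neg (fun h' => h h'.symm)]
    · simp [Matrix.one_apply]
  | succ n ih =>
    refine ⟨fun x y => ?_, fun x y => ?_, fun x => ?_⟩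
    · rw [pow_succ, Matrix.mul_apply]
      exact Finset.sum_nonneg fun z _ => mul_nonneg (ih.nonneg x z) (hP.nonneg z y)
    · rw [show (P ^ (n + 1)) x y = ∑ z, (P ^ n) x z * P z y by rw [pow_succ, Matrix.mul_apply]]
      rw [show (P ^ (n + 1)) y x = ∑ z, P y z * (P ^ n) z x by rw [pow_succ', Matrix.mul_apply]]
      refine Finset.sum_congr rfl fun z _ => ?_
      rw [ih.symm x z, hP.symm z y]
      ring
    · simp only [pow_succ, Matrix.mul_apply]
      rw [Finset.sum_comm]
      rw [← ih.sum_one x]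
      refine Finset.sum_congr rfl fun z _ => ?_
      rw [← Finset.mul_sum, hP.sum_one, mul_one]

/-- composition of two time steps, for a subadditive function of pairs -/
theorem EM_pow_add [DecidableEq V] {P : Matrix V V ℝ} (hP : SStoch P) (m n : ℕ)
    {φ ψ χ : V → V → ℝ} (h : ∀ x z y, φ x y ≤ ψ x z + χ z y) :
    EM (P ^ (m + n)) φ ≤ EM (P ^ m) ψ + EM (P ^ n) χ := by
  have hm := SStoch_pow hP m
  have hn := SStoch_pow hP n
  unfold EM
  rw [← mul_add]
  refine mul_le_mul_of_nonneg_left ?_ (by positivity)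
  have e1 : ∑ x, ∑ y, (P ^ (m + n)) x y * φ x y
      = ∑ x, ∑ z, ∑ y, (P ^ m) x z * (P ^ n) z y * φ x y := by
    refine Finset.sum_congr rfl fun x _ => ?_
    rw [Finset.sum_comm]
    refine Finset.sum_congr rfl fun y _ => ?_
    rw [pow_add, Matrix.mul_apply, Finset.sum_mul]
  have e2 : ∑ x, ∑ z, (P ^ m) x z * ψ x z
      = ∑ x, ∑ z, ∑ y, (P ^ m) x z * (P ^ n) z y * ψ x z := by
    refine Finset.sum_congr rfl fun x _ => Finset.sum_congr rfl fun z _ => ?_
    rw [← Finset.sum_mul, ← Finset.mul_sum, hn.sum_one, mul_one]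
  have e3 : ∑ z, ∑ y, (P ^ n) z y * χ z y
      = ∑ x, ∑ z, ∑ y, (P ^ m) x z * (P ^ n) z y * χ z y := by
    rw [Finset.sum_comm (f := fun x z => ∑ y, (P ^ m) x z * (P ^ n) z y * χ z y)]
    refine Finset.sum_congr rfl fun z _ => ?_
    rw [Finset.sum_comm]
    refine Finset.sum_congr rfl fun y _ => ?_
    have h3 : ∀ x : V, (P ^ m) x z * (P ^ n) z y * χ z y
        = (P ^ m) x z * ((P ^ n) z y * χ z y) := fun x => by ring
    simp only [h3]
    rw [← Finset.sum_mul, hm.col_one, one_mul]
  rw [e1, e2, e3, ← Finset.sum_add_distrib]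
  refine Finset.sum_le_sum fun x _ => ?_
  rw [← Finset.sum_add_distrib]
  refine Finset.sum_le_sum fun z _ => ?_
  rw [← Finset.sum_add_distrib]
  refine Finset.sum_le_sum fun y _ => ?_
  rw [← mul_add]
  exact mul_le_mul_of_nonneg_left (h x z y) (mul_nonneg (hm.nonneg x z) (hn.nonneg z y))

theorem cut_pow_le [DecidableEq V] {P : Matrix V V ℝ} (hP : SStoch P) (pc : V → V) (n : ℕ) :
    cut (P ^ n) pc ≤ n * cut P pc := by
  induction n with
  | zero =>
    rw [pow_zero]
    unfold cut EM
    have h1 : ∑ x : V, ∑ y : V, (1 : Matrix V V ℝ) x y * ind (pc x ≠ pc y) = 0 := by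
      refine Finset.sum_eq_zero fun x _ => Finset.sum_eq_zero fun y _ => ?_
      rw [Matrix.one_apply]
      by_cases h : x = y
      · subst h
        rw [ind_false (by simp), mul_zero]
      · rw [if_neg h, zero_mul]
    rw [h1]
    simp
  | succ n ih =>
    have h1 : EM (P ^ (n + 1)) (fun x y => ind (pc x ≠ pc y))
        ≤ EM (P ^ n) (fun x y => ind (pc x ≠ pc y)) + EM (P ^ 1) (fun x y => ind (pc x ≠ pc y)) := by
      refine EM_pow_add hP n 1 ?_
      intro x z y
      by_cases h : pc x ≠ pc y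
      · by_cases h2 : pc x ≠ pc z
        · rw [ind_true h2]
          have := ind_le_one (pc x ≠ pc y)
          have := ind_nonneg (pc z ≠ pc y)
          linarith
        · have h3 : pc z ≠ pc y := by
            intro h4
            exact h (not_not.mp h2 |>.trans h4)
          rw [ind_true h3]
          have := ind_le_one (pc x ≠ pc y)
          have := ind_nonneg (pc x ≠ pc z)
          linarith
      · rw [ind_false h]
        have := ind_nonneg (pc x ≠ pc z)
        have := ind_nonneg (pc z ≠ pc y)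
        linarith
    rw [pow_one] at h1
    have h2 : cut (P ^ (n + 1)) pc ≤ cut (P ^ n) pc + cut P pc := h1
    push_cast
    linarith

theorem ns_prob {P : Matrix V V ℝ} (hP : SStoch P) (pc : V → V) (m : ℕ) :
    EP P m (fun z => ind (∃ j ≤ m, pc (z j) ≠ pc (z 0))) ≤ m * cut P pc := by
  have h1 : EP P m (fun z => ind (∃ j ≤ m, pc (z j) ≠ pc (z 0)))
      ≤ EP P m (fun z => ∑ j ∈ range m, ind (pc (z j) ≠ pc (z (j + 1)))) := by
    refine EP_mono_supp hP m ?_
    intro z _
    by_cases h : ∃ j ≤ m, pc (z j) ≠ pc (z 0)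
    · rw [ind_true h]
      have h2 : ∃ i ∈ range m, pc (z i) ≠ pc (z (i + 1)) := by
        by_contra hcon
        push Not at hcon
        obtain ⟨j, hj, hne⟩ := h
        apply hne
        have h3 : ∀ i ≤ m, pc (z i) = pc (z 0) := by
          intro i
          induction i with
          | zero => intro _; rfl
          | succ i ih =>
            intro hi
            rw [← hcon i (Finset.mem_range.mpr (by omega))]
            exact ih (by omega)
        exact h3 j hj
      obtain ⟨i, hi, hne⟩ := h2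
      calc (1 : ℝ) = ind (pc (z i) ≠ pc (z (i + 1))) := (ind_true hne).symm
        _ ≤ ∑ j ∈ range m, ind (pc (z j) ≠ pc (z (j + 1))) :=
            Finset.single_le_sum (f := fun j => ind (pc (z j) ≠ pc (z (j + 1))))
              (fun j _ => ind_nonneg _) hi
    · rw [ind_false h]
      exact Finset.sum_nonneg fun j _ => ind_nonneg _
  refine h1.trans ?_
  rw [EP_sum P m (range m) (fun j z => ind (pc (z j) ≠ pc (z (j + 1))))]
  have h2 : ∀ j ∈ range m, EP P m (fun z => ind (pc (z j) ≠ pc (z (j + 1)))) = cut P pc := by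
    intro j hj
    exact EP_step hP (Finset.mem_range.mp hj) (fun x y => ind (pc x ≠ pc y))
  rw [Finset.sum_congr rfl h2]
  simp

end Pool.Agent.H3NG
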