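import Pool.Agent.H3NG.EntA
import Pool.Agent.H3NG.PathA

/-!
# Module EntB : averaged kernels of neighbours are close

* `kl_identity`: for `p = (Q ^ i) y ·`, `q = (Q ^ (i+1)) x ·`:
  `∑ x y, Q x y ∑ v, p log (p/q) = ∑ x y, Q x y (- H(p) - ∑ v, p log q)`; `∑ y, Q x y (Q ^ i) y v = (Q ^ (i+1)) x v`, so the second part is
  `∑ x, H((Q^(i+1)) x ·)`, and by symmetry of `Q` the first part is `- ∑ y, H((Q ^ i) y ·)`.
* `l1_bound`: `|nu x - nu y| ≤ (1/l) ∑_{i=1..l} |Q^i x - Q^(i-1) y| + 2/l` (`nu y` and `(1/l) ∑_{i=0..l-1} Q^i y` differ by at most `2/l` in `ℓ¹`);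
  `EM (‖Q^i x - Q^(i-1) y‖₁) ≤ √(EM (‖·‖₁²)) ≤ 2 √(H_i - H_(i-1))` (`pinsker`, Jensen / Cauchy-Schwarz), and
  `(1/l) ∑ √(H_i - H_(i-1)) ≤ √(H_l / l)` (Cauchy-Schwarz, telescoping, `H_0 = 0`).
-/

set_option autoImplicit false

open Finset

namespace Pool.Agent.H3NG

variable {V : Type} [Fintype V] [DecidableEq V]

private theorem pow_pos_step {Q : Matrix V V ℝ} (hQ : SStoch Q) (i : ℕ) {x y v : V}
    (hxy : 0 < Q x y) (hv : 0 < (Q ^ i) y v) : 0 < (Q ^ (i + 1)) x v := by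
  rw [pow_succ', Matrix.mul_apply]
  have h1 : Q x y * (Q ^ i) y v ≤ ∑ z, Q x z * (Q ^ i) z v :=
    Finset.single_le_sum (f := fun z => Q x z * (Q ^ i) z v)
      (fun z _ => mul_nonneg (hQ.nonneg _ _) ((SStoch_pow hQ i).nonneg _ _)) (Finset.mem_univ y)
  exact lt_of_lt_of_le (mul_pos hxy hv) h1

omit [DecidableEq V] in
private theorem col_sum {Q : Matrix V V ℝ} (hQ : SStoch Q) (y : V) : ∑ x, Q x y = 1 := by
  rw [← hQ.sum_one y]
  exact Finset.sum_congr rfl (fun x _ => hQ.symm x y)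

theorem kl_identity {Q : Matrix V V ℝ} (hQ : SStoch Q) (i : ℕ) :
    EM Q (fun x y => ∑ v, (Q ^ i) y v * Real.log ((Q ^ i) y v / (Q ^ (i + 1)) x v)) =
      Hn Q (i + 1) - Hn Q i := by
  unfold EM Hn
  rw [← mul_sub]
  congr 1
  have hterm : ∀ x y, Q x y * ∑ v, (Q ^ i) y v * Real.log ((Q ^ i) y v / (Q ^ (i + 1)) x v) =
      -(Q x y * ∑ v, Real.negMulLog ((Q ^ i) y v)) -
        ∑ v, (Q x y * (Q ^ i) y v) * Real.log ((Q ^ (i + 1)) x v) := by
    intro x y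
    rcases (hQ.nonneg x y).eq_or_lt with h0 | h0
    · rw [← h0]; simp
    · have e1 : ∀ v, (Q ^ i) y v * Real.log ((Q ^ i) y v / (Q ^ (i + 1)) x v) =
          -Real.negMulLog ((Q ^ i) y v) - (Q ^ i) y v * Real.log ((Q ^ (i + 1)) x v) := by
        intro v
        rcases ((SStoch_pow hQ i).nonneg y v).eq_or_lt with h1 | h1
        · rw [← h1]; simp
        · rw [Real.log_div h1.ne' (pow_pos_step hQ i h0 h1).ne']
          unfold Real.negMulLog
          ring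
      rw [Finset.sum_congr rfl (fun v _ => e1 v), Finset.sum_sub_distrib, Finset.sum_neg_distrib,
        mul_sub, mul_neg, Finset.mul_sum (s := Finset.univ) (a := Q x y)
          (f := fun v => (Q ^ i) y v * Real.log ((Q ^ (i + 1)) x v))]
      congr 1
      exact Finset.sum_congr rfl (fun v _ => by ring)
  have hA : ∑ x, ∑ y, Q x y * ∑ v, Real.negMulLog ((Q ^ i) y v) =
      ∑ y, ∑ v, Real.negMulLog ((Q ^ i) y v) := by
    rw [Finset.sum_comm]
    refine Finset.sum_congr rfl (fun y _ => ?_)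
    rw [← Finset.sum_mul, col_sum hQ, one_mul]
  have hB : ∑ x, ∑ y, ∑ v, (Q x y * (Q ^ i) y v) * Real.log ((Q ^ (i + 1)) x v) =
      -∑ x, ∑ v, Real.negMulLog ((Q ^ (i + 1)) x v) := by
    rw [← Finset.sum_neg_distrib]
    refine Finset.sum_congr rfl (fun x _ => ?_)
    rw [Finset.sum_comm, ← Finset.sum_neg_distrib]
    refine Finset.sum_congr rfl (fun v _ => ?_)
    rw [← Finset.sum_mul]
    have : ∑ y, Q x y * (Q ^ i) y v = (Q ^ (i + 1)) x v := by
      rw [pow_succ', Matrix.mul_apply]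
    rw [this]
    unfold Real.negMulLog
    ring
  calc ∑ x, ∑ y, Q x y * ∑ v, (Q ^ i) y v * Real.log ((Q ^ i) y v / (Q ^ (i + 1)) x v)
      = ∑ x, ∑ y, (-(Q x y * ∑ v, Real.negMulLog ((Q ^ i) y v)) -
        ∑ v, (Q x y * (Q ^ i) y v) * Real.log ((Q ^ (i + 1)) x v)) :=
        Finset.sum_congr rfl (fun x _ => Finset.sum_congr rfl (fun y _ => hterm x y))
    _ = -(∑ x, ∑ y, Q x y * ∑ v, Real.negMulLog ((Q ^ i) y v)) -
        ∑ x, ∑ y, ∑ v, (Q x y * (Q ^ i) y v) * Real.log ((Q ^ (i + 1)) x v) := by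
        simp only [Finset.sum_sub_distrib, Finset.sum_neg_distrib]
    _ = _ := by rw [hA, hB]; ring

omit [DecidableEq V] in
private theorem EM_sum' {ι : Type} (Q : Matrix V V ℝ) (I : Finset ι) (F : ι → V → V → ℝ) :
    EM Q (fun x y => ∑ i ∈ I, F i x y) = ∑ i ∈ I, EM Q (F i) := by
  unfold EM
  rw [← Finset.mul_sum]
  congr 1
  simp only [Finset.mul_sum]
  symm
  rw [Finset.sum_comm]
  refine Finset.sum_congr rfl (fun x _ => ?_)
  rw [Finset.sum_comm]

omit [DecidableEq V] in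
private theorem EM_const' [Nonempty V] {Q : Matrix V V ℝ} (hQ : SStoch Q) (c : ℝ) :
    EM Q (fun _ _ => c) = c := by
  unfold EM
  have h1 : ∀ x, ∑ y, Q x y * c = c := by
    intro x
    rw [← Finset.sum_mul, hQ.sum_one, one_mul]
  rw [Finset.sum_congr rfl (fun x _ => h1 x), Finset.sum_const, Finset.card_univ, nsmul_eq_mul,
    ← mul_assoc, inv_mul_cancel₀ (by exact_mod_cast Fintype.card_ne_zero), one_mul]

omit [DecidableEq V] in
private theorem EM_nonneg' {Q : Matrix V V ℝ} (hQ : SStoch Q) {φ : V → V → ℝ}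
    (h : ∀ x y, 0 ≤ φ x y) : 0 ≤ EM Q φ := by
  unfold EM
  exact mul_nonneg (by positivity)
    (Finset.sum_nonneg (fun x _ => Finset.sum_nonneg (fun y _ => mul_nonneg (hQ.nonneg _ _) (h x y))))

omit [DecidableEq V] in
/-- Jensen for the square -/
private theorem EM_sq_le [Nonempty V] {Q : Matrix V V ℝ} (hQ : SStoch Q) (φ : V → V → ℝ) :
    (EM Q φ) ^ 2 ≤ EM Q (fun x y => φ x y ^ 2) := by
  set c := EM Q φ with hc
  have h1 : 0 ≤ EM Q (fun x y => (φ x y - c) ^ 2) := EM_nonneg' hQ (fun x y => sq_nonneg _)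
  have h2 : EM Q (fun x y => (φ x y - c) ^ 2) =
      EM Q (fun x y => φ x y ^ 2) + ((-(2 * c)) * EM Q φ + c ^ 2) := by
    have e1 : (fun x y => (φ x y - c) ^ 2) =
        fun x y => φ x y ^ 2 + ((-(2 * c)) * φ x y + c ^ 2) := by
      funext x y; ring
    rw [e1, EM_add Q (fun x y => φ x y ^ 2) (fun x y => (-(2 * c)) * φ x y + c ^ 2),
      EM_add Q (fun x y => (-(2 * c)) * φ x y) (fun _ _ => c ^ 2), EM_const_mul, EM_const' hQ]
  rw [h2, ← hc] at h1
  nlinarith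

private theorem Hn_zero (Q : Matrix V V ℝ) : Hn Q 0 = 0 := by
  unfold Hn
  have : ∀ x, ∑ y, Real.negMulLog ((Q ^ 0) x y) = 0 := by
    intro x
    refine Finset.sum_eq_zero (fun y _ => ?_)
    rw [pow_zero, Matrix.one_apply]
    split_ifs
    · exact Real.negMulLog_one
    · exact Real.negMulLog_zero
  rw [Finset.sum_congr rfl (fun x _ => this x)]
  simp

theorem l1_bound [Nonempty V] {Q : Matrix V V ℝ} (hQ : SStoch Q) {l : ℕ} (hl : 1 ≤ l) :
    EM Q (fun x y => ∑ v, |nu Q l x v - nu Q l y v|) ≤ 2 * Real.sqrt (Hn Q l / l) + 2 / l := by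
  have hl0 : (0 : ℝ) < l := by exact_mod_cast hl
  set φ : ℕ → V → V → ℝ := fun i x y => ∑ v, |(Q ^ i) y v - (Q ^ (i + 1)) x v| with hφ
  -- the pointwise bound
  have hnu : ∀ x v, nu Q l x v = (l : ℝ)⁻¹ * ∑ i ∈ range l, (Q ^ (i + 1)) x v := by
    intro x v
    unfold nu
    congr 1
    rw [Finset.range_eq_Ico, Finset.sum_Ico_add' (fun i => (Q ^ i) x v) 0 l 1]
    rfl
  have hpt : ∀ x y, ∑ v, |nu Q l x v - nu Q l y v| ≤
      (l : ℝ)⁻¹ * (∑ i ∈ range l, φ i x y) + 2 / l := by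
    intro x y
    have h1 : ∀ v, |nu Q l x v - nu Q l y v| ≤
        (l : ℝ)⁻¹ * (∑ i ∈ range l, |(Q ^ i) y v - (Q ^ (i + 1)) x v|) +
          (l : ℝ)⁻¹ * ((Q ^ 0) y v + (Q ^ l) y v) := by
      intro v
      have htel : ∑ i ∈ range l, (Q ^ (i + 1)) y v = ∑ i ∈ range l, (Q ^ i) y v +
          (Q ^ l) y v - (Q ^ 0) y v := by
        have := Finset.sum_range_succ (fun i => (Q ^ i) y v) l
        have h' := Finset.sum_range_succ' (fun i => (Q ^ i) y v) l
        rw [this] at h'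
        linarith
      have hdiff : nu Q l x v - nu Q l y v =
          -((l : ℝ)⁻¹ * ∑ i ∈ range l, ((Q ^ i) y v - (Q ^ (i + 1)) x v)) +
            (l : ℝ)⁻¹ * ((Q ^ 0) y v - (Q ^ l) y v) := by
        rw [hnu, hnu, htel, Finset.sum_sub_distrib]
        ring
      rw [hdiff]
      refine (abs_add_le _ _).trans ?_
      rw [abs_neg, abs_mul, abs_mul, abs_of_nonneg (inv_nonneg.mpr hl0.le)]
      refine add_le_add ?_ ?_
      · exact mul_le_mul_of_nonneg_left (Finset.abs_sum_le_sum_abs _ _) (inv_nonneg.mpr hl0.le)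
      · refine mul_le_mul_of_nonneg_left ?_ (inv_nonneg.mpr hl0.le)
        have a0 := (SStoch_pow hQ 0).nonneg y v
        have a1 := (SStoch_pow hQ l).nonneg y v
        rw [abs_le]
        constructor <;> linarith
    refine (Finset.sum_le_sum (fun v _ => h1 v)).trans ?_
    rw [Finset.sum_add_distrib, ← Finset.mul_sum, ← Finset.mul_sum, Finset.sum_comm,
      Finset.sum_add_distrib, (SStoch_pow hQ 0).sum_one, (SStoch_pow hQ l).sum_one]
    refine le_of_eq ?_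
    rw [hφ]
    ring
  have hEM : EM Q (fun x y => ∑ v, |nu Q l x v - nu Q l y v|) ≤
      (l : ℝ)⁻¹ * (∑ i ∈ range l, EM Q (φ i)) + 2 / l := by
    refine (EM_mono hQ (fun x y _ => hpt x y)).trans (le_of_eq ?_)
    rw [EM_add Q (fun x y => (l : ℝ)⁻¹ * (∑ i ∈ range l, φ i x y)) (fun _ _ => 2 / (l : ℝ)),
      EM_const' hQ, EM_const_mul, EM_sum' Q (range l) φ]
  -- each term
  have hi : ∀ i, (EM Q (φ i)) ^ 2 ≤ 4 * (Hn Q (i + 1) - Hn Q i) := by
    intro i
    refine (EM_sq_le hQ (φ i)).trans ?_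
    rw [← kl_identity hQ i, ← EM_const_mul]
    refine EM_mono hQ (fun x y hxy => ?_)
    exact pinsker (fun v => (Q ^ i) y v) (fun v => (Q ^ (i + 1)) x v)
      (fun v => (SStoch_pow hQ i).nonneg y v) (fun v => (SStoch_pow hQ (i + 1)).nonneg x v)
      ((SStoch_pow hQ i).sum_one y) ((SStoch_pow hQ (i + 1)).sum_one x)
      (fun v hv => pow_pos_step hQ i hxy hv)
  have hsum : (∑ i ∈ range l, EM Q (φ i)) ^ 2 ≤ l * (4 * Hn Q l) := by
    have h1 : (∑ i ∈ range l, EM Q (φ i)) ^ 2 ≤ (range l).card * ∑ i ∈ range l, (EM Q (φ i)) ^ 2 :=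
      sq_sum_le_card_mul_sum_sq
    rw [Finset.card_range] at h1
    refine h1.trans (mul_le_mul_of_nonneg_left ?_ hl0.le)
    calc ∑ i ∈ range l, (EM Q (φ i)) ^ 2 ≤ ∑ i ∈ range l, 4 * (Hn Q (i + 1) - Hn Q i) :=
          Finset.sum_le_sum (fun i _ => hi i)
      _ = 4 * (Hn Q l - Hn Q 0) := by
          rw [← Finset.mul_sum, Finset.sum_range_sub (fun i => Hn Q i)]
      _ = 4 * Hn Q l := by rw [Hn_zero, sub_zero]
  have hsum' : (l : ℝ)⁻¹ * (∑ i ∈ range l, EM Q (φ i)) ≤ 2 * Real.sqrt (Hn Q l / l) := by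
    have hnn : 0 ≤ ∑ i ∈ range l, EM Q (φ i) :=
      Finset.sum_nonneg (fun i _ => EM_nonneg' hQ
        (fun x y => Finset.sum_nonneg (fun v _ => abs_nonneg _)))
    have h2 : ((l : ℝ)⁻¹ * (∑ i ∈ range l, EM Q (φ i))) ^ 2 ≤ 4 * (Hn Q l / l) := by
      rw [mul_pow]
      calc ((l : ℝ)⁻¹) ^ 2 * (∑ i ∈ range l, EM Q (φ i)) ^ 2
          ≤ ((l : ℝ)⁻¹) ^ 2 * (l * (4 * Hn Q l)) :=
            mul_le_mul_of_nonneg_left hsum (sq_nonneg _)
        _ = 4 * (Hn Q l / l) := by field_simp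
    have h3 : (l : ℝ)⁻¹ * (∑ i ∈ range l, EM Q (φ i)) ≤ Real.sqrt (4 * (Hn Q l / l)) :=
      Real.le_sqrt_of_sq_le h2
    have h4 : Real.sqrt (4 * (Hn Q l / l)) = 2 * Real.sqrt (Hn Q l / l) := by
      rw [Real.sqrt_mul (by norm_num)]
      congr 1
      rw [show (4 : ℝ) = 2 ^ 2 by norm_num]
      exact Real.sqrt_sq (by norm_num)
    rw [h4] at h3
    exact h3
  linarith

end Pool.Agent.H3NG
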