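import Mathlib

/-!
# H3NG/LowDeg: graphs of degree at most two

Connected `k`-regular graphs with `k ≤ 2` are points, edges and cycles: they embed into the
plane `ℂ` with distortion at most `2`.
-/

set_option autoImplicit false

namespace Pool.Agent.H3NG

open SimpleGraph

/-- A walk of a graph moves at most one step at a time: the distance between two of its vertices
is at most the difference of their positions. -/
lemma dist_getVert_le {V : Type} {G : SimpleGraph V} {u v : V} (p : G.Walk u v)
    (i j : ℕ) (hij : i ≤ j) : G.dist (p.getVert i) (p.getVert j) ≤ j - i := by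
  have h := ((p.drop i).take (j - i))
  have h1 : ((p.drop i).take (j - i)).length ≤ j - i := by
    rw [Walk.take_length]; exact min_le_left _ _
  have h2 : (p.drop i).getVert (j - i) = p.getVert j := by
    rw [Walk.drop_getVert, Nat.add_sub_cancel' hij]
  have h3 := dist_le (((p.drop i).take (j - i)).copy rfl h2)
  rw [Walk.length_copy] at h3
  exact h3.trans h1

/-- A map whose norm oscillation along every edge is at most `C` is `C`-Lipschitz for the graph
distance of a connected graph. -/
lemma lipschitz_of_adj {V : Type} {G : SimpleGraph V} (hG : G.Connected) {E : Type}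
    [NormedAddCommGroup E] (f : V → E) (C : ℝ)
    (hf : ∀ u v, G.Adj u v → ‖f u - f v‖ ≤ C) (u v : V) :
    ‖f u - f v‖ ≤ C * G.dist u v := by
  obtain ⟨p, hp⟩ := hG.exists_walk_length_eq_dist u v
  rw [← hp]
  clear hp
  induction p with
  | nil => simp
  | @cons a b c h q ih =>
    have h1 := hf _ _ h
    rw [Walk.length_cons]
    push_cast
    have h2 : ‖f a - f c‖ ≤ ‖f a - f b‖ + ‖f b - f c‖ := by
      have : f a - f c = (f a - f b) + (f b - f c) := by abel
      rw [this]; exact norm_add_le _ _
    linarith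

/-- The chord length on a circle. -/
lemma norm_exp_sub_exp (x y : ℝ) :
    ‖Complex.exp (Complex.I * x) - Complex.exp (Complex.I * y)‖ = 2 * |Real.sin ((x - y) / 2)| := by
  have h : Complex.exp (Complex.I * x) - Complex.exp (Complex.I * y)
      = Complex.exp (Complex.I * y) * (Complex.exp (Complex.I * ((x - y : ℝ) : ℂ)) - 1) := by
    rw [mul_sub, ← Complex.exp_add, mul_one]
    congr 2
    push_cast; ring
  rw [h, norm_mul, Complex.norm_exp_I_mul_ofReal_sub_one]
  have : ‖Complex.exp (Complex.I * (y : ℂ))‖ = 1 := by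
    rw [mul_comm]; exact Complex.norm_exp_ofReal_mul_I y
  rw [this, one_mul, Real.norm_eq_abs, abs_mul, abs_two]

/-- Chords are not shorter than `2/π` times the arcs: with `n` points at equal distance on a
circle of length `π n / 2`, points at cyclic distance `d` have distance at least `d`. -/
lemma sin_lower (n i j : ℕ) (hn : 0 < n) (hi : i ≤ j) (hj : j < n) :
    (min (j - i) (n - (j - i)) : ℕ) ≤
      (n / 4 : ℝ) * (2 * |Real.sin ((2 * Real.pi * (j : ℝ) / n - 2 * Real.pi * (i : ℝ) / n) / 2)|) := by
  have hn' : (0 : ℝ) < n := by exact_mod_cast hn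
  set d := j - i with hd
  have hjd : (j : ℝ) = i + d := by rw [hd]; push_cast [Nat.cast_sub hi]; ring
  have hdn : d ≤ n := by omega
  have e1 : (2 * Real.pi * (j : ℝ) / n - 2 * Real.pi * (i : ℝ) / n) / 2 = Real.pi * d / n := by
    rw [hjd]; field_simp; ring
  rw [e1]
  have hpi := Real.pi_pos
  have key : ∀ m : ℕ, 2 * m ≤ n → (m : ℝ) ≤ (n / 4 : ℝ) * (2 * Real.sin (Real.pi * m / n)) := by
    intro m hm
    have hm' : (2 : ℝ) * m ≤ n := by exact_mod_cast hm
    have h0 : 0 ≤ Real.pi * m / n := by positivity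
    have h1 : Real.pi * m / n ≤ Real.pi / 2 := by
      rw [div_le_div_iff₀ hn' (by norm_num)]
      nlinarith
    have h2 := Real.mul_le_sin h0 h1
    have h3 : 2 / Real.pi * (Real.pi * m / n) = 2 * m / n := by field_simp
    rw [h3] at h2
    have h4 : (m : ℝ) = (n / 4 : ℝ) * (2 * (2 * m / n)) := by field_simp; ring
    calc (m : ℝ) = (n / 4 : ℝ) * (2 * (2 * m / n)) := h4
      _ ≤ _ := by gcongr
  by_cases hc : 2 * d ≤ n
  · have h := key d hc
    have h' : (n / 4 : ℝ) * (2 * Real.sin (Real.pi * d / n))
        ≤ (n / 4 : ℝ) * (2 * |Real.sin (Real.pi * d / n)|) := by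
      gcongr; exact le_abs_self _
    have h'' : ((min d (n - d) : ℕ) : ℝ) ≤ d := by exact_mod_cast min_le_left _ _
    linarith
  · have hc' : 2 * (n - d) ≤ n := by omega
    have h := key (n - d) hc'
    have e2 : Real.pi * ((n - d : ℕ) : ℝ) / n = Real.pi - Real.pi * d / n := by
      rw [Nat.cast_sub hdn]; field_simp
    rw [e2, Real.sin_pi_sub] at h
    have h' : (n / 4 : ℝ) * (2 * Real.sin (Real.pi * d / n))
        ≤ (n / 4 : ℝ) * (2 * |Real.sin (Real.pi * d / n)|) := by
      gcongr; exact le_abs_self _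
    have h'' : ((min d (n - d) : ℕ) : ℝ) ≤ ((n - d : ℕ) : ℝ) := by exact_mod_cast min_le_right _ _
    linarith

/-- A connected graph on `Fin N` in which all degrees are `2` (a cycle) embeds into the plane. -/
theorem cycle_embed (N : ℕ) (G : SimpleGraph (Fin N)) (hG : G.Connected)
    (hdeg : ∀ v, (G.neighborSet v).ncard = 2) :
    ∃ f : Fin N → ℂ, ∀ u v,
      ((G.dist u v : ℕ) : ℝ) ≤ ‖f u - f v‖ ∧ ‖f u - f v‖ ≤ 2 * ((G.dist u v : ℕ) : ℝ) := by
  classical
  have hcyc : G.IsCycles := fun v _ => hdeg v
  obtain ⟨v0⟩ := hG.nonempty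
  have hne : (G.neighborSet v0).Nonempty := by
    apply Set.nonempty_of_ncard_ne_zero; rw [hdeg]; norm_num
  obtain ⟨p, hp, hpv⟩ := hcyc.exists_cycle_toSubgraph_verts_eq_connectedComponentSupp
    (c := G.connectedComponentMk v0) (v := v0) rfl hne
  have hall : ∀ v, v ∈ p.support := by
    intro v
    rw [← Walk.mem_verts_toSubgraph, hpv]
    rw [ConnectedComponent.mem_supp_iff, ConnectedComponent.eq]
    exact hG.preconnected v v0
  set n := p.length with hn
  have hn3 : 3 ≤ n := hp.three_le_length
  have hn0 : 0 < n := by omega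
  have hidx : ∀ v, ∃ i, i < n ∧ p.getVert i = v := by
    intro v
    obtain ⟨i, hi, hil⟩ := (Walk.mem_support_iff_exists_getVert).1 (hall v)
    by_cases h : i < n
    · exact ⟨i, h, hi⟩
    · have hi2 : i = p.length := by omega
      refine ⟨0, hn0, ?_⟩
      rw [← hi, hi2, Walk.getVert_zero, Walk.getVert_length]
  choose idx hidxlt hidx using hidx
  have hinj : ∀ i j, i < n → j < n → p.getVert i = p.getVert j → i = j := by
    intro i j hi hj h
    exact hp.getVert_injOn' (by simp only [Set.mem_ofPred_eq]; omega)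
      (by simp only [Set.mem_ofPred_eq]; omega) h
  have hidx' : ∀ i, i < n → idx (p.getVert i) = i := by
    intro i hi
    exact hinj _ _ (hidxlt _) hi (hidx _)
  refine ⟨fun v => ((n / 4 : ℝ) : ℂ) * Complex.exp (Complex.I * ((2 * Real.pi * (idx v : ℝ) / n : ℝ) : ℂ)),
    ?_⟩
  have hnorm : ∀ u v, ‖((n / 4 : ℝ) : ℂ) * Complex.exp (Complex.I * ((2 * Real.pi * (idx u : ℝ) / n : ℝ) : ℂ))
      - ((n / 4 : ℝ) : ℂ) * Complex.exp (Complex.I * ((2 * Real.pi * (idx v : ℝ) / n : ℝ) : ℂ))‖
      = (n / 4 : ℝ) * (2 * |Real.sin ((2 * Real.pi * (idx u : ℝ) / n - 2 * Real.pi * (idx v : ℝ) / n) / 2)|) := by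
    intro u v
    rw [← mul_sub, norm_mul, norm_exp_sub_exp]
    congr 1
    rw [Complex.norm_real, Real.norm_eq_abs, abs_of_nonneg (by positivity)]
  have hn' : (0 : ℝ) < n := by exact_mod_cast hn0
  intro u v
  constructor
  · have hlow : ∀ u v, idx v ≤ idx u → ((G.dist u v : ℕ) : ℝ) ≤
        (n / 4 : ℝ) * (2 * |Real.sin ((2 * Real.pi * (idx u : ℝ) / n - 2 * Real.pi * (idx v : ℝ) / n) / 2)|) := by
      intro u v huv
      have h := sin_lower n (idx v) (idx u) hn0 huv (hidxlt u)
      refine le_trans ?_ h
      have h1 : G.dist u v ≤ idx u - idx v := by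
        have := dist_getVert_le p (idx v) (idx u) huv
        rw [hidx, hidx] at this
        rw [dist_comm]; exact this
      have h2 : G.dist u v ≤ n - (idx u - idx v) := by
        have e1 := dist_getVert_le p 0 (idx v) (Nat.zero_le _)
        have e2 := dist_getVert_le p (idx u) n (hidxlt u).le
        rw [Walk.getVert_zero, hidx] at e1
        rw [hidx, hn, Walk.getVert_length] at e2
        have e3 := hG.dist_triangle (u := u) (v := v0) (w := v)
        have := hidxlt u
        omega
      exact_mod_cast le_min h1 h2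
    rw [hnorm]
    rcases le_total (idx v) (idx u) with h | h
    · exact hlow u v h
    · have h1 := hlow v u h
      rw [dist_comm]
      refine h1.trans (le_of_eq ?_)
      congr 2
      rw [← abs_neg, ← Real.sin_neg]
      congr 2
      ring
  · refine lipschitz_of_adj hG (fun v => ((n / 4 : ℝ) : ℂ) *
      Complex.exp (Complex.I * ((2 * Real.pi * (idx v : ℝ) / n : ℝ) : ℂ))) 2 ?_ u v
    clear u v
    intro u v huv
    refine (hnorm u v).trans_le ?_
    have hadj := (hp.adj_toSubgraph_iff_of_isCycles hcyc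
      ((Walk.mem_verts_toSubgraph p).2 (hall u)) v).2 huv
    rw [Walk.toSubgraph_adj_iff] at hadj
    obtain ⟨i, hi, hin⟩ := hadj
    have hstep : ∀ x : ℝ, |x| ≤ 2 * Real.pi / n → (n / 4 : ℝ) * (2 * |Real.sin (x / 2)|) ≤ 2 := by
      intro x hx
      have h1 : |Real.sin (x / 2)| ≤ |x / 2| := Real.abs_sin_le_abs
      rw [abs_div, abs_two] at h1
      have h2 : |Real.sin (x / 2)| ≤ Real.pi / n := by
        calc _ ≤ |x| / 2 := h1
          _ ≤ (2 * Real.pi / n) / 2 := by gcongr
          _ = _ := by ring
      calc (n / 4 : ℝ) * (2 * |Real.sin (x / 2)|) ≤ (n / 4 : ℝ) * (2 * (Real.pi / n)) := by gcongr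
        _ = Real.pi / 2 := by field_simp; ring
        _ ≤ 2 := by linarith [Real.pi_le_four]
    -- the general step estimate for the pair of positions
    have hpair : ∀ a b : Fin N, p.getVert i = a → p.getVert (i + 1) = b →
        (n / 4 : ℝ) * (2 * |Real.sin ((2 * Real.pi * (idx a : ℝ) / n
          - 2 * Real.pi * (idx b : ℝ) / n) / 2)|) ≤ 2 := by
      intro a b ha hb
      by_cases hlast : i + 1 < n
      · have ea : idx a = i := by rw [← ha]; exact hidx' i (by omega)
        have eb : idx b = i + 1 := by rw [← hb]; exact hidx' (i + 1) hlast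
        rw [ea, eb]
        apply hstep
        push_cast
        have : 2 * Real.pi * (i : ℝ) / n - 2 * Real.pi * ((i : ℝ) + 1) / n = - (2 * Real.pi / n) := by
          field_simp; ring
        rw [this, abs_neg, abs_of_nonneg (by positivity)]
      · have hi1 : i + 1 = n := by omega
        have ea : idx a = i := by rw [← ha]; exact hidx' i (by omega)
        have eb : idx b = 0 := by
          rw [← hb, hi1, hn, Walk.getVert_length]
          have := hidx' 0 hn0
          rwa [Walk.getVert_zero] at this
        rw [ea, eb]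
        have e3 : (2 * Real.pi * (i : ℝ) / n - 2 * Real.pi * ((0 : ℕ) : ℝ) / n) / 2
            = Real.pi - (2 * Real.pi / n) / 2 := by
          have : (i : ℝ) = n - 1 := by
            have : ((i + 1 : ℕ) : ℝ) = n := by rw [hi1]
            push_cast at this; linarith
          rw [this]; push_cast; field_simp; ring
        rw [e3, Real.sin_pi_sub]
        apply hstep
        rw [abs_of_nonneg (by positivity)]
    rw [Sym2.eq_iff] at hi
    rcases hi with ⟨ha, hb⟩ | ⟨ha, hb⟩
    · exact hpair u v ha hb
    · have h1 := hpair v u ha hb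
      refine le_trans (le_of_eq ?_) h1
      congr 2
      rw [← abs_neg, ← Real.sin_neg]
      congr 2
      ring

/-- In a connected graph whose degrees are at most one, all distances are at most one. -/
lemma dist_le_one_of_deg_le_one (N : ℕ) (G : SimpleGraph (Fin N)) (hG : G.Connected)
    (hdeg : ∀ v, (G.neighborSet v).ncard ≤ 1) (u v : Fin N) : G.dist u v ≤ 1 := by
  by_contra hcon
  push Not at hcon
  obtain ⟨p, hp⟩ := hG.exists_walk_length_eq_dist u v
  have hl : 2 ≤ p.length := by omega
  have h1 : G.Adj (p.getVert 0) (p.getVert 1) := p.adj_getVert_succ (by omega)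
  have h2 : G.Adj (p.getVert 1) (p.getVert 2) := p.adj_getVert_succ (by omega)
  have hne : p.getVert 0 ≠ p.getVert 2 := by
    intro h
    have h3 := dist_getVert_le p 2 p.length hl
    rw [← h, Walk.getVert_zero, Walk.getVert_length] at h3
    omega
  have hle := hdeg (p.getVert 1)
  rw [Set.ncard_le_one (Set.toFinite _)] at hle
  exact hne (hle _ h1.symm _ h2)

/-- A connected graph in which all degrees are at most `1` embeds into the plane. -/
theorem small_embed (N : ℕ) (G : SimpleGraph (Fin N)) (hG : G.Connected)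
    (hdeg : ∀ v, (G.neighborSet v).ncard ≤ 1) :
    ∃ f : Fin N → ℂ, ∀ u v,
      ((G.dist u v : ℕ) : ℝ) ≤ ‖f u - f v‖ ∧ ‖f u - f v‖ ≤ 2 * ((G.dist u v : ℕ) : ℝ) := by
  classical
  obtain ⟨v0⟩ := hG.nonempty
  have h1 := dist_le_one_of_deg_le_one N G hG hdeg
  -- two vertices different from `v0` agree
  have h2 : ∀ u v, u ≠ v0 → v ≠ v0 → u = v := by
    intro u v hu hv
    have hu1 : G.Adj v0 u := by
      rw [← dist_eq_one_iff_adj]
      have := hG.pos_dist_of_ne (Ne.symm hu)
      have := h1 v0 u
      omega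
    have hv1 : G.Adj v0 v := by
      rw [← dist_eq_one_iff_adj]
      have := hG.pos_dist_of_ne (Ne.symm hv)
      have := h1 v0 v
      omega
    have hle := hdeg v0
    rw [Set.ncard_le_one (Set.toFinite _)] at hle
    exact hle _ hu1 _ hv1
  refine ⟨fun v => if v = v0 then 0 else 1, ?_⟩
  intro u v
  by_cases huv : u = v
  · subst huv; simp
  have hd : G.dist u v = 1 := by
    have := hG.pos_dist_of_ne huv
    have := h1 u v
    omega
  rw [hd]
  by_cases hu : u = v0
  · have hv : v ≠ v0 := fun h => huv (hu.trans h.symm)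
    simp [hu, hv]
  · have hv : v = v0 := by
      by_contra hv
      exact huv (h2 u v hu hv)
    simp [hu, hv]

/-- **Degrees at most two.**  Every connected `k`-regular graph with `k ≤ 2` embeds into the
plane `ℂ` with distortion at most `2`. -/
theorem lowdeg_embed (k : ℕ) (hk : k ≤ 2) (N : ℕ) (G : SimpleGraph (Fin N)) (hG : G.Connected)
    (hdeg : ∀ v, (G.neighborSet v).ncard = k) :
    ∃ f : Fin N → ℂ, ∀ u v,
      ((G.dist u v : ℕ) : ℝ) ≤ ‖f u - f v‖ ∧ ‖f u - f v‖ ≤ 2 * ((G.dist u v : ℕ) : ℝ) := by
  by_cases h2 : k = 2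
  · exact cycle_embed N G hG (fun v => by rw [hdeg, h2])
  · exact small_embed N G hG (fun v => by rw [hdeg]; omega)

end Pool.Agent.H3NG
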