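import Pool.Agent.H3NG.TVB

/-!
# H3NG/SpaceW: the Banach space `W` of the negation of MP_02726b_an

`E n` is the space of functions on `ZMod (n + 1)` vanishing at `0`, with norm `√(en u)`, and `W` is
the `ℓ²`-sum of all `E n`.
-/

set_option autoImplicit false

open Finset

namespace Pool.Agent.H3NG.Sp

/-- functions on the circle of length `n + 1` vanishing at `0` -/
def EE (n : ℕ) : Type :=
  ↥(LinearMap.ker (LinearMap.proj (R := ℝ) (φ := fun _ : ZMod (n + 1) => ℝ) 0))

instance instACG (n : ℕ) : AddCommGroup (EE n) :=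
  inferInstanceAs (AddCommGroup
    ↥(LinearMap.ker (LinearMap.proj (R := ℝ) (φ := fun _ : ZMod (n + 1) => ℝ) 0)))

instance instMod (n : ℕ) : Module ℝ (EE n) :=
  inferInstanceAs (Module ℝ
    ↥(LinearMap.ker (LinearMap.proj (R := ℝ) (φ := fun _ : ZMod (n + 1) => ℝ) 0)))

/-- the inclusion into all functions -/
def inc (n : ℕ) : EE n →ₗ[ℝ] (ZMod (n + 1) → ℝ) :=
  (LinearMap.ker (LinearMap.proj (R := ℝ) (φ := fun _ : ZMod (n + 1) => ℝ) 0)).subtype

lemma inc_injective (n : ℕ) : Function.Injective (inc n) :=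
  Submodule.subtype_injective _

lemma inc_zero_apply (n : ℕ) (u : EE n) : inc n u 0 = 0 := by
  have := u.2
  rw [LinearMap.mem_ker] at this
  exact this

/-- constructor -/
def mkE (n : ℕ) (u : ZMod (n + 1) → ℝ) (h : u 0 = 0) : EE n :=
  ⟨u, by rw [LinearMap.mem_ker]; exact h⟩

lemma inc_mkE (n : ℕ) (u : ZMod (n + 1) → ℝ) (h : u 0 = 0) : inc n (mkE n u h) = u := rfl

instance instFD (n : ℕ) : FiniteDimensional ℝ (EE n) :=
  FiniteDimensional.of_injective (inc n) (inc_injective n)

/-- the norm on `EE n` -/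
noncomputable def nE (n : ℕ) (u : EE n) : ℝ := Real.sqrt (en (inc n u))

noncomputable instance instNACG (n : ℕ) : NormedAddCommGroup (EE n) :=
  AddGroupNorm.toNormedAddCommGroup
    { toFun := nE n
      map_zero' := by
        unfold nE
        rw [map_zero, en_zero, Real.sqrt_zero]
      add_le' := by
        intro u v
        unfold nE
        rw [map_add]
        exact sqrt_en_add_le _ _
      neg' := by
        intro u
        unfold nE
        rw [map_neg, en_neg]
      eq_zero_of_map_eq_zero' := by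
        intro u h
        have h1 : en (inc n u) = 0 := by
          have h2 : Real.sqrt (en (inc n u)) = 0 := h
          rwa [Real.sqrt_eq_zero (en_nonneg _)] at h2
        apply inc_injective n
        rw [map_zero]
        ext t
        have h3 := sq_le_en (inc n u) t 0
        rw [h1, inc_zero_apply, sub_zero] at h3
        have h4 : (inc n u t) ^ 2 = 0 := le_antisymm h3 (sq_nonneg _)
        simpa using h4 }

lemma norm_E (n : ℕ) (u : EE n) : ‖u‖ = Real.sqrt (en (inc n u)) := rfl

lemma norm_E_sq (n : ℕ) (u : EE n) : ‖u‖ ^ 2 = en (inc n u) := by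
  rw [norm_E, Real.sq_sqrt (en_nonneg _)]

noncomputable instance instNS (n : ℕ) : NormedSpace ℝ (EE n) where
  norm_smul_le := by
    intro c u
    rw [norm_E, norm_E, map_smul, en_smul, Real.sqrt_mul (sq_nonneg c), Real.sqrt_sq_eq_abs,
      Real.norm_eq_abs]

instance instCS (n : ℕ) : CompleteSpace (EE n) := FiniteDimensional.complete ℝ (EE n)

instance instFact12 : Fact ((1 : ENNReal) ≤ 2) := ⟨by norm_num⟩

/-- the space `W` -/
abbrev WW : Type := lp (fun n : ℕ => EE n) 2

/-- the coordinates -/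
noncomputable def coW (n : ℕ) : WW →ₗ[ℝ] (ZMod (n + 1) → ℝ) where
  toFun F := inc n (F n)
  map_add' F H := by
    rw [lp.coeFn_add, Pi.add_apply, map_add]
  map_smul' c F := by
    rw [lp.coeFn_smul, Pi.smul_apply, map_smul]; rfl

lemma coW_apply (n : ℕ) (F : WW) : coW n F = inc n (F n) := rfl

lemma model_W : Model WW coW := by
  intro F
  have h := lp.hasSum_norm (p := 2) (by norm_num) F
  have e : (2 : ENNReal).toReal = 2 := by norm_num
  rw [e] at h
  have h2 : ∀ x : ℝ, x ^ (2 : ℝ) = x ^ 2 := fun x => Real.rpow_two x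
  rw [h2] at h
  refine h.congr_fun ?_
  intro n
  rw [h2, norm_E_sq, coW_apply]

/-- the indicator of the arc `1, …, j+1` -/
noncomputable def arcU (n j : ℕ) (t : ZMod (n + 1)) : ℝ :=
  if 1 ≤ t.val ∧ t.val ≤ j + 1 then 1 else 0

lemma arcU_zero (n j : ℕ) : arcU n j 0 = 0 := by
  unfold arcU; rw [ZMod.val_zero, if_neg (by omega)]

lemma arcU_mem (n j : ℕ) (t : ZMod (n + 1)) : 0 ≤ arcU n j t ∧ arcU n j t ≤ 1 := by
  unfold arcU; split_ifs <;> norm_num

lemma tvar_arcU (n j : ℕ) (hjn : j < n) : ∑ t, |arcU n j (t + 1) - arcU n j t| ≤ 2 := by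
  -- only the two steps at `0` and at `j + 1` contribute
  have hsub : ∀ t : ZMod (n + 1), t ∉ ({0, ((j + 1 : ℕ) : ZMod (n + 1))} : Finset (ZMod (n + 1))) →
      |arcU n j (t + 1) - arcU n j t| = 0 := by
    intro t ht
    simp only [mem_insert, mem_singleton, not_or] at ht
    obtain ⟨h0, hj⟩ := ht
    have hv0 : t.val ≠ 0 := by rwa [Ne, ZMod.val_eq_zero]
    have hvj : t.val ≠ j + 1 := by
      intro h
      apply hj
      rw [← h, ZMod.natCast_zmod_val]
    have hlt := ZMod.val_lt t
    have key : arcU n j (t + 1) = arcU n j t := by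
      by_cases hlast : t.val = n
      · have hz : t + 1 = 0 := by
          have h5 : ((t.val : ℕ) : ZMod (n + 1)) = t := ZMod.natCast_zmod_val t
          rw [← h5, hlast]
          have : ((n : ZMod (n + 1)) + 1) = ((n + 1 : ℕ) : ZMod (n + 1)) := by push_cast; ring
          rw [this, ZMod.natCast_self]
        rw [hz, arcU_zero]
        unfold arcU
        rw [if_neg]
        omega
      · have hv : (t + 1).val = t.val + 1 := by
          have : Fact (1 < n + 1) := ⟨by omega⟩
          rw [ZMod.val_add_of_lt]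
          · rw [ZMod.val_one]
          · rw [ZMod.val_one]; omega
        unfold arcU
        rw [hv]
        have hiff : (1 ≤ t.val + 1 ∧ t.val + 1 ≤ j + 1) ↔ (1 ≤ t.val ∧ t.val ≤ j + 1) := by omega
        simp only [hiff]
    rw [key, sub_self, abs_zero]
  rw [← sum_subset (subset_univ ({0, ((j + 1 : ℕ) : ZMod (n + 1))} : Finset (ZMod (n + 1))))
    (fun t _ ht => hsub t ht)]
  have h1 : ∀ t ∈ ({0, ((j + 1 : ℕ) : ZMod (n + 1))} : Finset (ZMod (n + 1))),
      |arcU n j (t + 1) - arcU n j t| ≤ 1 := by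
    intro t _
    have h1 := arcU_mem n j t
    have h2 := arcU_mem n j (t + 1)
    rw [abs_le]; constructor <;> linarith [h1.1, h1.2, h2.1, h2.2]
  refine (sum_le_card_nsmul _ _ 1 h1).trans ?_
  have h2 : ({0, ((j + 1 : ℕ) : ZMod (n + 1))} : Finset (ZMod (n + 1))).card ≤ 2 := card_le_two
  rw [nsmul_eq_mul, mul_one]
  exact_mod_cast h2

lemma TV_arcU (n j : ℕ) (hjn : j < n) (lam : ℝ) (hl : 0 ≤ lam) :
    TV lam (arcU n j) ≤ max 0 (2 - 2 * lam) := by
  apply TV_le
  intro s hs
  by_cases h : ch s = ∅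
  · unfold G; rw [h, sum_empty]; exact le_max_left _ _
  · refine le_trans ?_ (le_max_right _ _)
    rw [G_parts _ _ hs]
    have h2 : (2 : ℝ) ≤ (ch s).card := by exact_mod_cast two_le_card_ch hs h
    have h3 : ∑ t, (s (t + 1) : ℝ) * (arcU n j (t + 1) - arcU n j t) ≤ 2 := by
      refine le_trans ?_ (tvar_arcU n j hjn)
      apply sum_le_sum
      intro t _
      have : |(s (t + 1) : ℝ)| ≤ 1 := by
        generalize s (t + 1) = x
        cases x <;> simp
      calc (s (t + 1) : ℝ) * (arcU n j (t + 1) - arcU n j t)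
          ≤ |(s (t + 1) : ℝ) * (arcU n j (t + 1) - arcU n j t)| := le_abs_self _
        _ = |(s (t + 1) : ℝ)| * |arcU n j (t + 1) - arcU n j t| := abs_mul _ _
        _ ≤ 1 * |arcU n j (t + 1) - arcU n j t| := by gcongr
        _ = _ := one_mul _
    nlinarith

open MeasureTheory in
lemma en_arcU (n j : ℕ) (hjn : j < n) : en (arcU n j) ≤ 1 := by
  have hint : IntegrableOn (fun lam : ℝ => max 0 (2 - 2 * lam)) (Set.Ioi 0) := by
    have h1 : IntegrableOn (fun lam : ℝ => max 0 (2 - 2 * lam)) (Set.Ioc 0 1) :=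
      (Continuous.integrableOn_Icc (by fun_prop)).mono_set Set.Ioc_subset_Icc_self
    have h2 : IntegrableOn (fun lam : ℝ => max 0 (2 - 2 * lam)) (Set.Ioi 1) := by
      rw [integrableOn_congr_fun (g := fun _ => (0 : ℝ)) _ measurableSet_Ioi]
      · exact integrableOn_zero
      · intro x hx
        have : (1 : ℝ) < x := hx
        simp only
        rw [max_eq_left (by linarith)]
    rw [← Set.Ioc_union_Ioi_eq_Ioi (zero_le_one (α := ℝ))]
    exact h1.union h2
  have h1 : en (arcU n j) ≤ ∫ lam in Set.Ioi (0 : ℝ), max 0 (2 - 2 * lam) := by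
    unfold en
    apply setIntegral_mono_on (integrableOn_TV _) hint measurableSet_Ioi
    intro lam hlam
    exact TV_arcU n j hjn lam (le_of_lt hlam)
  refine h1.trans ?_
  have h2 : ∫ lam in Set.Ioi (0 : ℝ), max 0 (2 - 2 * lam)
      = ∫ lam in Set.Ioc (0 : ℝ) 1, (2 - 2 * lam) := by
    rw [← Set.Ioc_union_Ioi_eq_Ioi (zero_le_one (α := ℝ)),
      setIntegral_union (Set.Ioc_disjoint_Ioi le_rfl) measurableSet_Ioi
        (hint.mono_set Set.Ioc_subset_Ioi_self)
        (hint.mono_set (Set.Ioi_subset_Ioi zero_le_one))]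
    have e1 : ∫ lam in Set.Ioi (1 : ℝ), max 0 (2 - 2 * lam) = 0 := by
      apply setIntegral_eq_zero_of_forall_eq_zero
      intro x hx
      have : (1 : ℝ) < x := hx
      rw [max_eq_left (by linarith)]
    rw [e1, add_zero]
    apply setIntegral_congr_fun measurableSet_Ioc
    intro x hx
    simp only
    rw [max_eq_right (by linarith [hx.2])]
  rw [h2, ← intervalIntegral.integral_of_le zero_le_one,
    intervalIntegral.integral_sub (by simp) (by apply Continuous.intervalIntegrable; fun_prop),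
    intervalIntegral.integral_const, intervalIntegral.integral_const_mul, integral_id]
  norm_num

/-- coordinate functionals of `W` -/
noncomputable def phiW (n : ℕ) (t : ZMod (n + 1)) : WW →L[ℝ] ℝ :=
  LinearMap.mkContinuous ((LinearMap.proj t).comp (coW n)) 1 (by
    intro F
    rw [one_mul]
    have h1 : (inc n (F n) t - inc n (F n) 0) ^ 2 ≤ en (inc n (F n)) := sq_le_en _ _ _
    rw [inc_zero_apply, sub_zero, ← norm_E_sq] at h1
    have h2 : ‖F n‖ ≤ ‖F‖ := lp.norm_apply_le_norm (by norm_num) F n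
    have h3 : |inc n (F n) t| ≤ ‖F n‖ := abs_le_of_sq_le_sq h1 (norm_nonneg _)
    exact h3.trans h2)

lemma phiW_apply (n : ℕ) (t : ZMod (n + 1)) (F : WW) : phiW n t F = coW n F t := rfl

lemma james_W : James WW := by
  classical
  intro n
  refine ⟨fun j => lp.single 2 n (mkE n (arcU n j) (arcU_zero n j)),
    fun i => phiW n ((i.val + 1 : ℕ) : ZMod (n + 1)), ?_, ?_, ?_⟩
  · intro j
    rw [lp.norm_single (by norm_num), norm_E, inc_mkE]
    rw [Real.sqrt_le_one]
    exact en_arcU n j j.2
  · intro i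
    exact LinearMap.mkContinuous_norm_le _ zero_le_one _
  · intro i j
    rw [phiW_apply, coW_apply, lp.single_apply_self, inc_mkE]
    unfold arcU
    have hv : (((i.val + 1 : ℕ) : ZMod (n + 1))).val = i.val + 1 := by
      rw [ZMod.val_natCast, Nat.mod_eq_of_lt]
      have := i.2; omega
    rw [hv]
    have : (1 ≤ i.val + 1 ∧ i.val + 1 ≤ j.val + 1) ↔ i ≤ j := by
      rw [Fin.le_def]; omega
    simp only [this]

end Pool.Agent.H3NG.Sp

namespace Pool.Agent.H3NG

/-- **The space.** -/
theorem exists_space : ∃ (W : Type) (_ : NormedAddCommGroup W) (_ : NormedSpace ℝ W)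
    (_ : CompleteSpace W) (co : ∀ n : ℕ, W →ₗ[ℝ] (ZMod (n + 1) → ℝ)), Model W co ∧ James W :=
  ⟨Sp.WW, inferInstance, inferInstance, inferInstance, Sp.coW, Sp.model_W, Sp.james_W⟩

end Pool.Agent.H3NG
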