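import Mathlib

/-!
# H3NG/NonUC: a James type criterion for not being uniformly convexifiable
-/

set_option autoImplicit false

namespace Pool.Agent.H3NG

/-- If a normed space contains, for every `n`, vectors `x 0, x 1, …` of norm at most one such that
the averages of any two consecutive blocks of equal length (inside `[0, n)`) have distance at least
`θ > 0`, then it is not isomorphic to a uniformly convex space. -/
theorem not_uniformlyConvexifiable {X : Type} [NormedAddCommGroup X] [NormedSpace ℝ X]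
    (θ : ℝ) (hθ : 0 < θ)
    (hJ : ∀ n : ℕ, ∃ x : ℕ → X, (∀ i, ‖x i‖ ≤ 1) ∧ ∀ a m : ℕ, 1 ≤ m → a + 2 * m ≤ n →
      θ * m ≤ ‖∑ i ∈ Finset.range m, x (a + i) - ∑ i ∈ Finset.range m, x (a + m + i)‖) :
    ¬ ∃ (Y : Type) (_ : NormedAddCommGroup Y) (_ : NormedSpace ℝ Y)
        (_ : UniformConvexSpace Y), Nonempty (X ≃L[ℝ] Y) := by
  rintro ⟨Y, _, _, _, ⟨T⟩⟩
  set R : ℝ := ‖(T : X →L[ℝ] Y)‖ + 1 with hR
  set K : ℝ := ‖(T.symm : Y →L[ℝ] X)‖ + 1 with hK
  have hR0 : 0 < R := by have := norm_nonneg (T : X →L[ℝ] Y); linarith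
  have hK0 : 0 < K := by have := norm_nonneg (T.symm : Y →L[ℝ] X); linarith
  have hTle : ∀ z, ‖T z‖ ≤ R * ‖z‖ := by
    intro z
    have h1 := (T : X →L[ℝ] Y).le_opNorm z
    have h2 : ‖(T : X →L[ℝ] Y)‖ * ‖z‖ ≤ R * ‖z‖ := by
      apply mul_le_mul_of_nonneg_right _ (norm_nonneg _); linarith
    exact h1.trans h2
  have hTge : ∀ z, ‖z‖ / K ≤ ‖T z‖ := by
    intro z
    rw [div_le_iff₀ hK0]
    have h1 := (T.symm : Y →L[ℝ] X).le_opNorm (T z)
    have h0 : (T.symm : Y →L[ℝ] X) (T z) = z := T.symm_apply_apply z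
    rw [h0] at h1
    have h2 : ‖(T.symm : Y →L[ℝ] X)‖ * ‖T z‖ ≤ K * ‖T z‖ := by
      apply mul_le_mul_of_nonneg_right _ (norm_nonneg _); linarith
    linarith [mul_comm K ‖T z‖]
  obtain ⟨δ₀, hδ₀, hUC₀⟩ := exists_forall_closed_ball_dist_add_le_two_sub Y
    (ε := θ / K / R) (by positivity)
  set δ : ℝ := min δ₀ 1 with hδ
  have hδpos : 0 < δ := lt_min hδ₀ one_pos
  have hδ1 : δ ≤ 1 := min_le_right _ _
  set q : ℝ := 1 - δ / 2 with hq
  have hq0 : 0 < q := by rw [hq]; linarith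
  have hq1 : q < 1 := by rw [hq]; linarith
  -- the decay of the norms of the block sums
  have key : ∀ (n : ℕ) (x : ℕ → X), (∀ i, ‖x i‖ ≤ 1) →
      (∀ a m : ℕ, 1 ≤ m → a + 2 * m ≤ n →
        θ * m ≤ ‖∑ i ∈ Finset.range m, x (a + i) - ∑ i ∈ Finset.range m, x (a + m + i)‖) →
      ∀ l a : ℕ, a + 2 ^ l ≤ n →
        ‖∑ i ∈ Finset.range (2 ^ l), T (x (a + i))‖ ≤ 2 ^ l * R * q ^ l := by
    intro n x hx hsep l
    induction l with
    | zero =>
      intro a _
      simp only [pow_zero, Finset.range_one, Finset.sum_singleton, add_zero, one_mul, mul_one]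
      calc ‖T (x a)‖ ≤ R * ‖x a‖ := hTle _
        _ ≤ R * 1 := by gcongr; exact hx a
        _ = R := mul_one R
    | succ l ih =>
      intro a ha
      have hp : 2 ^ (l + 1) = 2 ^ l + 2 ^ l := by ring
      have hl1 : 1 ≤ 2 ^ l := Nat.one_le_two_pow
      rw [hp] at ha
      have h1 := ih a (by omega)
      have h2 := ih (a + 2 ^ l) (by omega)
      have h3 := hsep a (2 ^ l) (Nat.one_le_two_pow) (by omega)
      rw [hp, Finset.sum_range_add]
      set u := ∑ i ∈ Finset.range (2 ^ l), T (x (a + i)) with hu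
      have hv : ∑ i ∈ Finset.range (2 ^ l), T (x (a + (2 ^ l + i)))
          = ∑ i ∈ Finset.range (2 ^ l), T (x (a + 2 ^ l + i)) := by
        apply Finset.sum_congr rfl; intro i _; rw [add_assoc]
      rw [hv]
      set v := ∑ i ∈ Finset.range (2 ^ l), T (x (a + 2 ^ l + i)) with hv'
      have huv : ‖u - v‖ ≥ θ * 2 ^ l / K := by
        have e : u - v = T (∑ i ∈ Finset.range (2 ^ l), x (a + i)
            - ∑ i ∈ Finset.range (2 ^ l), x (a + 2 ^ l + i)) := by
          rw [map_sub, map_sum, map_sum]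
        rw [e]
        refine le_trans ?_ (hTge _)
        push_cast at h3
        gcongr
      set r : ℝ := 2 ^ l * R * q ^ l with hr
      have hr0 : 0 < r := by positivity
      have hnx : ∀ z : Y, ‖z‖ ≤ r → ‖r⁻¹ • z‖ ≤ 1 := by
        intro z hz
        rw [norm_smul, norm_inv, Real.norm_eq_abs, abs_of_pos hr0, inv_mul_le_iff₀ hr0]
        linarith
      have hsep' : θ / K / R ≤ ‖r⁻¹ • u - r⁻¹ • v‖ := by
        rw [← smul_sub, norm_smul, norm_inv, Real.norm_eq_abs, abs_of_pos hr0, inv_mul_eq_div,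
          le_div_iff₀ hr0]
        have hql : q ^ l ≤ 1 := pow_le_one₀ hq0.le hq1.le
        calc θ / K / R * r = (θ * 2 ^ l / K) * q ^ l := by rw [hr]; field_simp
          _ ≤ (θ * 2 ^ l / K) * 1 := by gcongr
          _ ≤ ‖u - v‖ := by rw [mul_one]; exact huv
      have hfin := hUC₀ (hnx u h1) (hnx v h2) hsep'
      rw [← smul_add, norm_smul, norm_inv, Real.norm_eq_abs, abs_of_pos hr0,
        inv_mul_le_iff₀ hr0] at hfin
      have hδδ : δ ≤ δ₀ := min_le_left _ _
      have e4 : (2 : ℝ) ^ (2 ^ l + 2 ^ l - 2 ^ l - 2 ^ l) = 1 := by simp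
      calc ‖u + v‖ ≤ r * (2 - δ₀) := hfin
        _ ≤ r * (2 * q) := by
            apply mul_le_mul_of_nonneg_left _ hr0.le
            rw [hq]; linarith
        _ = 2 ^ (l + 1) * R * q ^ (l + 1) := by rw [hr]; ring
  -- contradiction for large `m`
  have hbound : ∀ m : ℕ, θ / K ≤ 2 * R * q ^ m := by
    intro m
    obtain ⟨x, hx, hsep⟩ := hJ (2 ^ (m + 1))
    have hp : 2 ^ (m + 1) = 2 ^ m + 2 ^ m := by ring
    have hm1 : 1 ≤ 2 ^ m := Nat.one_le_two_pow
    have h1 := key _ x hx hsep m 0 (by omega)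
    have h2 := key _ x hx hsep m (0 + 2 ^ m) (by omega)
    have h3 := hsep 0 (2 ^ m) (Nat.one_le_two_pow) (by omega)
    set u := ∑ i ∈ Finset.range (2 ^ m), T (x (0 + i)) with hu
    set v := ∑ i ∈ Finset.range (2 ^ m), T (x (0 + 2 ^ m + i)) with hv'
    have huv : θ * 2 ^ m / K ≤ ‖u - v‖ := by
      have e : u - v = T (∑ i ∈ Finset.range (2 ^ m), x (0 + i)
          - ∑ i ∈ Finset.range (2 ^ m), x (0 + 2 ^ m + i)) := by
        rw [map_sub, map_sum, map_sum]
      rw [e]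
      refine le_trans ?_ (hTge _)
      push_cast at h3
      gcongr
    have h4 : ‖u - v‖ ≤ ‖u‖ + ‖v‖ := norm_sub_le _ _
    have h5 : θ * 2 ^ m / K ≤ 2 ^ m * (2 * R * q ^ m) := by
      calc θ * 2 ^ m / K ≤ ‖u‖ + ‖v‖ := huv.trans h4
        _ ≤ 2 ^ m * R * q ^ m + 2 ^ m * R * q ^ m := add_le_add h1 h2
        _ = _ := by ring
    have h6 : θ * 2 ^ m / K = 2 ^ m * (θ / K) := by ring
    rw [h6] at h5
    exact le_of_mul_le_mul_left h5 (by positivity)
  have hlim : Filter.Tendsto (fun m : ℕ => 2 * R * q ^ m) Filter.atTop (nhds (2 * R * 0)) :=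
    (tendsto_pow_atTop_nhds_zero_of_lt_one hq0.le hq1).const_mul _
  have := ge_of_tendsto' hlim hbound
  rw [mul_zero] at this
  have h0 : 0 < θ / K := by positivity
  linarith

end Pool.Agent.H3NG
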