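import Pool.Agent.H3NG.Defs
import Pool.Agent.H3NG.NonUC

/-!
# Module UC : James sequences exclude a uniformly convex renorming

Let `A : X ≃L[ℝ] Y`, `Y` uniformly convex, `M = ‖A‖ + 1`, `M' = ‖A⁻¹‖ + 1`.  For `n = 2^q` take `x, φ` and `y j = A (x j)`, `ψ i = φ i ∘ A⁻¹` (`‖ψ i‖ ≤ M'`).
For a dyadic block of length `2^p` let `B` be the average of the `y j`.  Claim: `‖B‖ ≤ M (1-δ)^p` with `δ = δ(M, M') > 0`: for the two halves
`B', B''` of a block of length `2^(p+1)` and `i` = the start of the right half: `ψ i B' = 0`, `ψ i B'' = 1`, so `‖B' - B''‖ ≥ 1/M'`; both have norm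
`≤ R := M (1-δ)^p ≤ M`; uniform convexity (`exists_forall_closed_ball_dist_add_le_two_sub`, scaled by `R`) gives `‖(B'+B'')/2‖ ≤ (1-δ) R`.
But `ψ 0 B = 1` gives `‖B‖ ≥ 1/M'`: contradiction for large `p`.  (Index arithmetic: state the claim for blocks `j ∈ [i, i + 2^p)` of `ℕ`,
for the sequences extended by zero, any start `i` with `i + 2^p ≤ n`.)
-/

set_option autoImplicit false

open Finset

namespace Pool.Agent.H3NG

theorem not_uc {X : Type} [NormedAddCommGroup X] [NormedSpace ℝ X] (h : James X) :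
    ¬ ∃ (Y : Type) (_ : NormedAddCommGroup Y) (_ : NormedSpace ℝ Y) (_ : UniformConvexSpace Y),
      Nonempty (X ≃L[ℝ] Y) := by
  apply not_uniformlyConvexifiable (X := X) 1 one_pos
  intro n
  obtain ⟨x, φ, hx, hφ, hxφ⟩ := h n
  refine ⟨fun i => if hi : i < n then x ⟨i, hi⟩ else 0, ?_, ?_⟩
  · intro i
    by_cases hi : i < n
    · simpa [hi] using hx ⟨i, hi⟩
    · simp [hi]
  · intro a m hm ham
    have hi : a + m < n := by omega
    have h1 : φ ⟨a + m, hi⟩ (∑ i ∈ range m, (if hi : a + i < n then x ⟨a + i, hi⟩ else 0)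
        - ∑ i ∈ range m, (if hi : a + m + i < n then x ⟨a + m + i, hi⟩ else 0)) = -(m : ℝ) := by
      rw [map_sub, map_sum, map_sum]
      have e1 : ∀ i ∈ range m,
          φ ⟨a + m, hi⟩ (if hi : a + i < n then x ⟨a + i, hi⟩ else 0) = 0 := by
        intro i him
        rw [mem_range] at him
        have : a + i < n := by omega
        rw [dif_pos this, hxφ, if_neg]
        simp only [Fin.mk_le_mk]
        omega
      have e2 : ∀ i ∈ range m,
          φ ⟨a + m, hi⟩ (if hi : a + m + i < n then x ⟨a + m + i, hi⟩ else 0) = 1 := by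
        intro i him
        rw [mem_range] at him
        have : a + m + i < n := by omega
        rw [dif_pos this, hxφ, if_pos]
        simp only [Fin.mk_le_mk]
        omega
      rw [sum_congr rfl e1, sum_congr rfl e2]
      simp
    have h2 := (φ ⟨a + m, hi⟩).le_opNorm
      (∑ i ∈ range m, (if hi : a + i < n then x ⟨a + i, hi⟩ else 0)
        - ∑ i ∈ range m, (if hi : a + m + i < n then x ⟨a + m + i, hi⟩ else 0))
    rw [h1, norm_neg, Real.norm_natCast] at h2
    rw [one_mul]
    refine h2.trans ?_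
    calc _ ≤ 1 * _ := mul_le_mul_of_nonneg_right (hφ _) (norm_nonneg _)
      _ = _ := one_mul _

end Pool.Agent.H3NG
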