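import Pool.Agent.H3NG.RecC
import Pool.Agent.H3NG.UC
import Pool.Agent.H3NG.SpaceW
import Pool.Agent.H3NG.LowDeg

/-!
# Module Fin : the negation
-/

set_option autoImplicit false

namespace Pool.Agent.H3NG

theorem negation :
    ¬ (∃ k : ℕ, ∃ N : ℕ → ℕ, ∃ G : ∀ n, SimpleGraph (Fin (N n)),
      (∀ n, (G n).Connected) ∧
      (∀ n, ∀ v, ((G n).neighborSet v).ncard = k) ∧
      (∀ M : ℕ, ∃ n, (M : ℕ∞) < (G n).egirth) ∧
      ∀ (X : Type) [NormedAddCommGroup X] [NormedSpace ℝ X] [CompleteSpace X],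
        ((¬ ∃ (Y : Type) (_ : NormedAddCommGroup Y) (_ : NormedSpace ℝ Y)
              (_ : UniformConvexSpace Y), Nonempty (X ≃L[ℝ] Y)) ↔
          ∃ C : ℝ, ∀ n, ∃ f : Fin (N n) → X, ∀ u v,
            (((G n).dist u v : ℕ) : ℝ) ≤ ‖f u - f v‖ ∧
              ‖f u - f v‖ ≤ C * (((G n).dist u v : ℕ) : ℝ))) := by
  rintro ⟨k, N, Gr, hconn, hreg, hg, hX⟩
  rcases Nat.lt_or_ge k 3 with hk | hk
  · -- degree at most two: the complex numbers
    have h := hX ℂ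
    refine h.mpr ⟨2, fun n => lowdeg_embed k (by omega) (N n) (Gr n) (hconn n) (hreg n)⟩ ?_
    exact ⟨ℂ, inferInstance, inferInstance, inferInstance, ⟨ContinuousLinearEquiv.refl ℝ ℂ⟩⟩
  · obtain ⟨W, i1, i2, i3, co, hco, hJ⟩ := exists_space
    obtain ⟨C, hC⟩ := (hX W).mp (not_uc hJ)
    obtain ⟨g, hg'⟩ := no_embedding (D := max C 1) hco (le_max_right _ _) hk
    obtain ⟨n, hn⟩ := hg g
    refine hg' (N n) (Gr n) (hconn n) (hreg n) hn ?_
    obtain ⟨f, hf⟩ := hC n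
    refine ⟨f, fun u v => ⟨(hf u v).1, (hf u v).2.trans ?_⟩⟩
    exact mul_le_mul_of_nonneg_right (le_max_left _ _) (Nat.cast_nonneg _)

end Pool.Agent.H3NG
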