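import Pool.Agent.H3NG.Defs

/-!
# Module GrowthA : two neighbours that are not farther give a short cycle

Take shortest walks `p : x → y` and `p' : x → y'` (lengths `≤ dist x v`), extended by the edges `y v` and `y' v`, made into paths `x → v` (they
differ because their last edges differ; if a walk passes through `v` before, then `dist x v < dist x v`, so they are already paths).
The subgraph `H ≤ Gr` spanned by the edges of both has at most `2 dist x v + 2` edges and is not acyclic
(`SimpleGraph.isAcyclic_iff_path_unique` or `IsAcyclic.path_unique`), so it contains a cycle, whose length is at most the number of edges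
of `H` (`IsCycle` gives `edges.Nodup`); map it to `Gr` (`Walk.mapLe`).  `egirth ≤ length` (`egirth_le_length`).
-/

set_option autoImplicit false

open Finset

namespace Pool.Agent.H3NG

/-- a shortest walk to a neighbour of `v` that is not farther than `v`, extended to `v`, is a path -/
theorem GrowthA_path {V : Type} {Gr : SimpleGraph V} {x v y : V} (hy : Gr.Adj v y)
    (h : Gr.dist x y ≤ Gr.dist x v) (p : Gr.Walk x y) (hp : p.length = Gr.dist x y) :
    (p.concat hy.symm).IsPath := by
  classical
  rw [SimpleGraph.Walk.concat_isPath_iff]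
  refine ⟨p.isPath_of_length_eq_dist hp, fun hv => ?_⟩
  have h1 := congrArg SimpleGraph.Walk.length (p.take_spec hv)
  rw [SimpleGraph.Walk.length_append] at h1
  have h2 := SimpleGraph.dist_le (p.takeUntil v hv)
  have h3 : (p.dropUntil v hv).length ≠ 0 := by
    intro h0
    exact hy.ne (SimpleGraph.Walk.eq_of_length_eq_zero h0)
  omega

theorem two_neighbors {V : Type} [Finite V] {Gr : SimpleGraph V} (hconn : Gr.Connected)
    {x v y y' : V} (hy : Gr.Adj v y) (hy' : Gr.Adj v y')
    (hne : y ≠ y') (h : Gr.dist x y ≤ Gr.dist x v) (h' : Gr.dist x y' ≤ Gr.dist x v) :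
    Gr.egirth ≤ ((2 * Gr.dist x v + 2 : ℕ) : ℕ∞) := by
  classical
  obtain ⟨p, hp⟩ := hconn.exists_walk_length_eq_dist x y
  obtain ⟨p', hp'⟩ := hconn.exists_walk_length_eq_dist x y'
  have hq := GrowthA_path hy h p hp
  have hq' := GrowthA_path hy' h' p' hp'
  set q := p.concat hy.symm with hqdef
  set q' := p'.concat hy'.symm with hqdef'
  let E : Finset (Sym2 V) := q.edges.toFinset ∪ q'.edges.toFinset
  let H : SimpleGraph V := SimpleGraph.fromEdgeSet (E : Set (Sym2 V))
  have hEG : ∀ e ∈ E, e ∈ Gr.edgeSet := by
    intro e he
    rcases Finset.mem_union.1 he with he | he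
    · exact q.edges_subset_edgeSet (List.mem_toFinset.1 he)
    · exact q'.edges_subset_edgeSet (List.mem_toFinset.1 he)
  have hHE : H.edgeSet = (E : Set (Sym2 V)) := by
    rw [SimpleGraph.edgeSet_fromEdgeSet]
    ext e
    constructor
    · exact fun he => he.1
    · intro he
      exact ⟨he, fun hd => Gr.not_isDiag_of_mem_edgeSet (hEG e he) hd⟩
  have hHG : H ≤ Gr := by
    rw [← SimpleGraph.edgeSet_subset_edgeSet, hHE]
    intro e he
    exact hEG e he
  have hqH : ∀ e ∈ q.edges, e ∈ H.edgeSet := by
    intro e he
    rw [hHE]
    exact Finset.mem_union_left _ (List.mem_toFinset.2 he)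
  have hqH' : ∀ e ∈ q'.edges, e ∈ H.edgeSet := by
    intro e he
    rw [hHE]
    exact Finset.mem_union_right _ (List.mem_toFinset.2 he)
  have hnot : ¬ H.IsAcyclic := by
    intro hac
    rw [SimpleGraph.isAcyclic_iff_subsingleton_path] at hac
    have heq : (⟨q.transfer H hqH, hq.transfer hqH⟩ : H.Path x v) =
        ⟨q'.transfer H hqH', hq'.transfer hqH'⟩ := (hac x v).elim _ _
    have h1 : (q.transfer H hqH).edges = (q'.transfer H hqH').edges :=
      congrArg (fun r : H.Path x v => (r : H.Walk x v).edges) heq
    rw [SimpleGraph.Walk.edges_transfer, SimpleGraph.Walk.edges_transfer, hqdef, hqdef',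
      SimpleGraph.Walk.edges_concat, SimpleGraph.Walk.edges_concat,
      List.concat_eq_append, List.concat_eq_append] at h1
    have h2 := (List.append_inj' h1 rfl).2
    have h3 : s(y, v) = s(y', v) := by simpa using h2
    rw [Sym2.eq_iff] at h3
    rcases h3 with ⟨h4, _⟩ | ⟨h4, h5⟩
    · exact hne h4
    · exact hne (h4.trans h5)
  unfold SimpleGraph.IsAcyclic at hnot
  push Not at hnot
  obtain ⟨w, c, hc⟩ := hnot
  have hcG := hc.mapLe hHG
  refine (SimpleGraph.egirth_le_length hcG).trans ?_
  rw [Nat.cast_le]
  have hlen : (SimpleGraph.Walk.mapLe hHG c).length = c.length := by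
    simp [SimpleGraph.Walk.mapLe]
  rw [hlen]
  have hnd : c.edges.Nodup := hc.isTrail.edges_nodup
  have h1 : c.length = c.edges.toFinset.card := by
    rw [List.toFinset_card_of_nodup hnd, SimpleGraph.Walk.length_edges]
  have h2 : c.edges.toFinset ⊆ E := by
    intro e he
    have := c.edges_subset_edgeSet (List.mem_toFinset.1 he)
    rw [hHE] at this
    exact this
  have h3 : E.card ≤ q.length + q'.length := by
    refine (Finset.card_union_le _ _).trans ?_
    refine Nat.add_le_add ?_ ?_
    · exact (List.toFinset_card_le _).trans (SimpleGraph.Walk.length_edges q).le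
    · exact (List.toFinset_card_le _).trans (SimpleGraph.Walk.length_edges q').le
  have h4 : q.length = p.length + 1 := SimpleGraph.Walk.length_concat _ _
  have h5 : q'.length = p'.length + 1 := SimpleGraph.Walk.length_concat _ _
  have h6 := Finset.card_le_card h2
  omega

end Pool.Agent.H3NG
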