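import Pool.Agent.H3NG.PathA

/-!
# Module Walk : simple random walk on a regular graph

* `srw_dist`: induction on `n`: `(Q ^ (n+1)) x y > 0` gives `z` with `(Q ^ n) x z > 0` and `Q z y > 0`; `dist x y ≤ dist x z + 1`.
* `srw_int`: `k^n (Q^n) x y` = number of walks; induction: `k • Q` has entries in `{0, 1}`.
* `srw_low`: a positive natural number is at least one.
* `sphere_card`: induction on `d`: every `y` with `dist x y = d + 1` has a neighbour at distance `d`; `ball_card`: `∑_{d ≤ l} k^d ≤ (k+1)^l`.
-/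

set_option autoImplicit false

open Finset

namespace Pool.Agent.H3NG

variable {V : Type} [Fintype V] [DecidableEq V] {k : ℕ} {Gr : SimpleGraph V}

omit [DecidableEq V] in
theorem walk_sum (hreg : ∀ v, (Gr.neighborSet v).ncard = k) (x : V) :
    ∑ y, ind (Gr.Adj x y) = k := by
  classical
  have h1 : ∑ y, ind (Gr.Adj x y) = ((univ.filter (fun y => Gr.Adj x y)).card : ℝ) := by
    rw [Finset.card_filter]
    push_cast
    refine Finset.sum_congr rfl fun y _ => ?_
    by_cases h : Gr.Adj x y
    · rw [ind_true h, if_pos h]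
    · rw [ind_false h, if_neg h]
  rw [h1, ← hreg x, Set.ncard_eq_toFinset_card']
  congr 2
  ext y
  simp

omit [DecidableEq V] [Fintype V] in
theorem walk_nonneg (x y : V) : 0 ≤ srw k Gr x y :=
  div_nonneg (ind_nonneg _) (Nat.cast_nonneg _)

theorem walk_pow_nonneg (n : ℕ) (x y : V) : 0 ≤ ((srw k Gr) ^ n) x y := by
  induction n generalizing y with
  | zero =>
    rw [pow_zero, Matrix.one_apply]
    split_ifs <;> norm_num
  | succ n ih =>
    rw [pow_succ, Matrix.mul_apply]
    exact Finset.sum_nonneg fun z _ => mul_nonneg (ih z) (walk_nonneg z y)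

theorem srw_stoch (hk : 1 ≤ k) (hreg : ∀ v, (Gr.neighborSet v).ncard = k) : SStoch (srw k Gr) := by
  have hk0 : (k : ℝ) ≠ 0 := by
    have : k ≠ 0 := by omega
    exact_mod_cast this
  refine ⟨fun x y => walk_nonneg x y, fun x y => ?_, fun x => ?_⟩
  · unfold srw
    rw [Gr.adj_comm]
  · unfold srw
    rw [← Finset.sum_div, walk_sum hreg x]
    exact div_self hk0

theorem srw_dist (hconn : Gr.Connected) {n : ℕ} {x y : V}
    (h : 0 < ((srw k Gr) ^ n) x y) : Gr.dist x y ≤ n := by
  induction n generalizing y with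
  | zero =>
    rw [pow_zero, Matrix.one_apply] at h
    by_cases hxy : x = y
    · subst hxy
      simp
    · rw [if_neg hxy] at h
      exact absurd h (lt_irrefl _)
  | succ n ih =>
    rw [pow_succ, Matrix.mul_apply] at h
    obtain ⟨z, _, hz⟩ := Finset.exists_lt_of_sum_lt (s := univ) (f := fun _ : V => (0 : ℝ))
      (g := fun z => ((srw k Gr) ^ n) x z * srw k Gr z y) (by simpa using h)
    have h1 : 0 < ((srw k Gr) ^ n) x z := by
      rcases (walk_pow_nonneg (k := k) (Gr := Gr) n x z).lt_or_eq with h1 | h1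
      · exact h1
      · rw [← h1, zero_mul] at hz
        exact absurd hz (lt_irrefl _)
    have h2 : Gr.Adj z y := by
      by_contra hc
      have : srw k Gr z y = 0 := by
        unfold srw
        rw [ind_false hc, zero_div]
      rw [this, mul_zero] at hz
      exact absurd hz (lt_irrefl _)
    have h3 := ih h1
    have h4 := hconn.dist_triangle (u := x) (v := z) (w := y)
    have h5 : Gr.dist z y = 1 := SimpleGraph.dist_eq_one_iff_adj.2 h2
    omega

theorem srw_int (hk : 1 ≤ k) (Gr : SimpleGraph V) (n : ℕ) :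
    ∃ m : V → V → ℕ, ∀ x y, (m x y : ℝ) = ((srw k Gr) ^ n) x y * (k : ℝ) ^ n := by
  classical
  have hk0 : (k : ℝ) ≠ 0 := by
    have : k ≠ 0 := by omega
    exact_mod_cast this
  induction n with
  | zero =>
    refine ⟨fun x y => if x = y then 1 else 0, fun x y => ?_⟩
    rw [pow_zero, pow_zero, mul_one, Matrix.one_apply]
    by_cases h : x = y
    · rw [if_pos h]; simp [h]
    · rw [if_neg h]; simp [h]
  | succ n ih =>
    obtain ⟨m, hm⟩ := ih
    refine ⟨fun x y => ∑ z, m x z * (if Gr.Adj z y then 1 else 0), fun x y => ?_⟩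
    rw [pow_succ, Matrix.mul_apply, Finset.sum_mul]
    push_cast
    refine Finset.sum_congr rfl fun z _ => ?_
    rw [hm x z, pow_succ]
    unfold srw
    by_cases h : Gr.Adj z y
    · rw [if_pos h, ind_true h]
      field_simp
    · rw [if_neg h, ind_false h]
      simp

theorem srw_low (hk : 1 ≤ k) {n : ℕ} {x y : V} (h : 0 < ((srw k Gr) ^ n) x y) :
    1 / (k : ℝ) ^ n ≤ ((srw k Gr) ^ n) x y := by
  obtain ⟨m, hm⟩ := srw_int hk Gr n
  have hk0 : (0 : ℝ) < (k : ℝ) ^ n := by
    have : (0 : ℝ) < k := by exact_mod_cast hk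
    positivity
  rw [div_le_iff₀ hk0, ← hm x y]
  have h1 : (0 : ℝ) < m x y := by
    rw [hm x y]
    exact mul_pos h hk0
  have h2 : 0 < m x y := by exact_mod_cast h1
  exact_mod_cast h2

theorem sphere_card (hreg : ∀ v, (Gr.neighborSet v).ncard = k) (hconn : Gr.Connected) (x : V)
    (d : ℕ) : ({y | Gr.dist x y = d} : Set V).ncard ≤ k ^ d := by
  classical
  induction d with
  | zero =>
    have h : ({y | Gr.dist x y = 0} : Set V) = {x} := by
      ext y
      rw [Set.mem_ofPred_eq, Set.mem_singleton_iff, hconn.dist_eq_zero_iff]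
      exact eq_comm
    rw [h, Set.ncard_singleton, pow_zero]
  | succ d ih =>
    have hsub : ({y | Gr.dist x y = d + 1} : Set V) ⊆
        ⋃ z ∈ (univ.filter (fun z => Gr.dist x z = d)), Gr.neighborSet z := by
      intro y hy
      rw [Set.mem_ofPred_eq] at hy
      obtain ⟨p, hp⟩ := hconn.exists_walk_length_eq_dist y x
      rw [SimpleGraph.dist_comm, hy] at hp
      cases p with
      | nil => simp at hp
      | cons h q =>
        rename_i z
        rw [SimpleGraph.Walk.length_cons] at hp
        have h1 : Gr.dist z x ≤ d := by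
          have := SimpleGraph.dist_le q
          omega
        have h2 : Gr.dist y x ≤ Gr.dist y z + Gr.dist z x := hconn.dist_triangle
        have h3 : Gr.dist y z = 1 := SimpleGraph.dist_eq_one_iff_adj.2 h
        have h4 : Gr.dist y x = d + 1 := by rw [SimpleGraph.dist_comm, hy]
        have h5 : Gr.dist x z = d := by
          rw [SimpleGraph.dist_comm]
          omega
        rw [Set.mem_iUnion₂]
        refine ⟨z, by simpa using h5, ?_⟩
        exact h.symm
    have hcard : (univ.filter (fun z => Gr.dist x z = d)).card ≤ k ^ d := by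
      refine le_trans (le_of_eq ?_) ih
      rw [Set.ncard_eq_toFinset_card']
      congr 1
      ext y
      simp
    calc ({y | Gr.dist x y = d + 1} : Set V).ncard
        ≤ (⋃ z ∈ (univ.filter (fun z => Gr.dist x z = d)), Gr.neighborSet z).ncard :=
          Set.ncard_le_ncard hsub (Set.toFinite _)
      _ ≤ ∑ z ∈ (univ.filter (fun z => Gr.dist x z = d)), (Gr.neighborSet z).ncard :=
          Finset.set_ncard_biUnion_le _ _
      _ = (univ.filter (fun z => Gr.dist x z = d)).card * k := by
          rw [Finset.sum_congr rfl (fun z _ => hreg z), Finset.sum_const, smul_eq_mul]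
      _ ≤ k ^ d * k := Nat.mul_le_mul_right _ hcard
      _ = k ^ (d + 1) := (pow_succ k d).symm

theorem ball_card (hreg : ∀ v, (Gr.neighborSet v).ncard = k) (hconn : Gr.Connected) (x : V)
    (l : ℕ) : ({y | Gr.dist x y ≤ l} : Set V).ncard ≤ (k + 1) ^ l := by
  induction l with
  | zero =>
    have h := sphere_card hreg hconn x 0
    simpa using h
  | succ l ih =>
    have hsub : ({y | Gr.dist x y ≤ l + 1} : Set V) ⊆
        {y | Gr.dist x y ≤ l} ∪ {y | Gr.dist x y = l + 1} := by
      intro y hy
      rw [Set.mem_ofPred_eq] at hy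
      rw [Set.mem_union, Set.mem_ofPred_eq, Set.mem_ofPred_eq]
      omega
    have h1 := sphere_card hreg hconn x (l + 1)
    have h2 : k ^ l ≤ (k + 1) ^ l := Nat.pow_le_pow_left (Nat.le_succ k) l
    calc ({y | Gr.dist x y ≤ l + 1} : Set V).ncard
        ≤ ({y | Gr.dist x y ≤ l} ∪ {y | Gr.dist x y = l + 1} : Set V).ncard :=
          Set.ncard_le_ncard hsub (Set.toFinite _)
      _ ≤ ({y | Gr.dist x y ≤ l} : Set V).ncard + ({y | Gr.dist x y = l + 1} : Set V).ncard :=
          Set.ncard_union_le _ _
      _ ≤ (k + 1) ^ l + k ^ (l + 1) := Nat.add_le_add ih h1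
      _ = (k + 1) ^ l + k ^ l * k := by rw [pow_succ]
      _ ≤ (k + 1) ^ l + (k + 1) ^ l * k := Nat.add_le_add_left (Nat.mul_le_mul_right _ h2) _
      _ = (k + 1) ^ (l + 1) := by ring

end Pool.Agent.H3NG
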