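import Pool.Agent.H3NG.GrowthA
import Pool.Agent.H3NG.Walk

/-!
# Module GrowthB : linear growth of the walk up to half the girth

For `i < l` and `(Q ^ i) x v > 0`: `r = dist x v ≤ i < l` (`srw_dist`), `2 r + 2 ≤ 2 l < egirth`, so by `two_neighbors` at most one neighbour
`y` of `v` has `dist x y ≤ r`; it has `dist x y ≥ r - 1` and the other `k - 1` neighbours have `dist x y ≥ r + 1`:
`∑ y, Q v y dist x y ≥ r + (k - 2) / k ≥ r + 1/3`.  So `E d(X_0, X_{i+1}) ≥ E d(X_0, X_i) + 1/3`.
-/

set_option autoImplicit false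

open Finset

namespace Pool.Agent.H3NG

variable {V : Type} [Fintype V] [DecidableEq V] [Nonempty V] {k : ℕ} {Gr : SimpleGraph V}

omit [Nonempty V] in
theorem GrowthB_pow {P : Matrix V V ℝ} (hP : SStoch P) (i : ℕ) :
    (∀ x y, 0 ≤ (P ^ i) x y) ∧ ∀ x, ∑ y, (P ^ i) x y = 1 := by
  induction i with
  | zero =>
    constructor
    · intro x y
      rw [pow_zero, Matrix.one_apply]
      split_ifs <;> norm_num
    · intro x
      rw [pow_zero]
      simp [Matrix.one_apply]
  | succ i ih =>
    constructor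
    · intro x y
      rw [pow_succ, Matrix.mul_apply]
      exact Finset.sum_nonneg fun z _ => mul_nonneg (ih.1 x z) (hP.nonneg z y)
    · intro x
      have h : ∀ y, (P ^ (i + 1)) x y = ∑ z, (P ^ i) x z * P z y := by
        intro y; rw [pow_succ, Matrix.mul_apply]
      simp only [h]
      rw [Finset.sum_comm]
      have h2 : ∀ z, ∑ y, (P ^ i) x z * P z y = (P ^ i) x z := by
        intro z; rw [← Finset.mul_sum, hP.sum_one, mul_one]
      simp only [h2]
      exact ih.2 x

omit [Nonempty V] in
/-- one step of the walk, away from short cycles -/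
theorem GrowthB_step (hk : 3 ≤ k) (hreg : ∀ v, (Gr.neighborSet v).ncard = k)
    (hconn : Gr.Connected) {l : ℕ} (hg : ((2 * l : ℕ) : ℕ∞) < Gr.egirth) {x v : V}
    (hr : Gr.dist x v < l) :
    (Gr.dist x v : ℝ) + 1 / 3 ≤ ∑ y, srw k Gr v y * (Gr.dist x y : ℝ) := by
  classical
  have hk0 : (0 : ℝ) < k := by
    have : 0 < k := by omega
    exact_mod_cast this
  have hk3 : (3 : ℝ) ≤ k := by exact_mod_cast hk
  let N : Finset V := univ.filter (fun y => Gr.Adj v y)
  have hNc : N.card = k := by
    rw [← hreg v, Set.ncard_eq_toFinset_card']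
    congr 1
    ext y
    simp [N]
  let B : Finset V := N.filter (fun y => Gr.dist x y ≤ Gr.dist x v)
  have hB : B.card ≤ 1 := by
    rw [Finset.card_le_one]
    intro y hy y' hy'
    by_contra hne
    have h1 := Finset.mem_filter.1 hy
    have h2 := Finset.mem_filter.1 hy'
    have h3 := two_neighbors hconn (Finset.mem_filter.1 h1.1).2 (Finset.mem_filter.1 h2.1).2 hne
      h1.2 h2.2
    have h4 := lt_of_lt_of_le hg h3
    rw [Nat.cast_lt] at h4
    omega
  have hpt : ∀ y ∈ N, (Gr.dist x v : ℝ) + 1 - 2 * (if y ∈ B then 1 else 0) ≤ Gr.dist x y := by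
    intro y hy
    have hadj : Gr.Adj v y := (Finset.mem_filter.1 hy).2
    have hd1 : Gr.dist v y = 1 := SimpleGraph.dist_eq_one_iff_adj.2 hadj
    split_ifs with hyB
    · have h1 := hconn.dist_triangle (u := x) (v := y) (w := v)
      rw [SimpleGraph.dist_comm (u := y) (v := v), hd1] at h1
      have h2 : (Gr.dist x v : ℝ) ≤ Gr.dist x y + 1 := by exact_mod_cast h1
      linarith
    · have h1 : ¬ Gr.dist x y ≤ Gr.dist x v := fun h => hyB (Finset.mem_filter.2 ⟨hy, h⟩)
      have h2 : Gr.dist x v + 1 ≤ Gr.dist x y := by omega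
      have h3 : (Gr.dist x v : ℝ) + 1 ≤ Gr.dist x y := by exact_mod_cast h2
      linarith
  have hsum : ∑ y, srw k Gr v y * (Gr.dist x y : ℝ) = (∑ y ∈ N, (Gr.dist x y : ℝ)) / k := by
    rw [Finset.sum_div, Finset.sum_filter]
    refine Finset.sum_congr rfl fun y _ => ?_
    unfold srw
    by_cases h : Gr.Adj v y
    · rw [ind_true h, if_pos h]; ring
    · rw [ind_false h, if_neg h]; ring
  rw [hsum, le_div_iff₀ hk0]
  have h1 := Finset.sum_le_sum hpt
  rw [Finset.sum_sub_distrib, Finset.sum_const, hNc, nsmul_eq_mul, ← Finset.mul_sum] at h1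
  have h2 : ∑ y ∈ N, (if y ∈ B then (1 : ℝ) else 0) = B.card := by
    rw [← Finset.sum_filter, Finset.sum_const, nsmul_eq_mul, mul_one]
    congr 2
    ext y
    simp only [Finset.mem_filter]
    constructor
    · exact fun h => h.2
    · exact fun h => ⟨(Finset.mem_filter.1 h).1, h⟩
  rw [h2] at h1
  have h3 : (B.card : ℝ) ≤ 1 := by exact_mod_cast hB
  have h4 : (0 : ℝ) ≤ Gr.dist x v := Nat.cast_nonneg _
  nlinarith

theorem growth (hk : 3 ≤ k) (hreg : ∀ v, (Gr.neighborSet v).ncard = k) (hconn : Gr.Connected)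
    {l : ℕ} (hg : ((2 * l : ℕ) : ℕ∞) < Gr.egirth) :
    (l : ℝ) / 3 ≤ EM ((srw k Gr) ^ l) (fun x y => (Gr.dist x y : ℝ)) := by
  have hQ : SStoch (srw k Gr) := srw_stoch (by omega) hreg
  have hcard : (0 : ℝ) < Fintype.card V := by exact_mod_cast Fintype.card_pos
  have key : ∀ i, i ≤ l → (i : ℝ) / 3 ≤ EM ((srw k Gr) ^ i) (fun x y => (Gr.dist x y : ℝ)) := by
    intro i
    induction i with
    | zero =>
      intro _
      unfold EM
      simp [Matrix.one_apply]
    | succ i ih =>
      intro hi
      have ih' := ih (by omega)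
      refine le_trans ?_ (le_trans (add_le_add_left ih' (1 / 3)) ?_)
      · push_cast; linarith
      · unfold EM
        have hx : ∀ x, (∑ v, ((srw k Gr) ^ i) x v * (Gr.dist x v : ℝ)) + 1 / 3 ≤
            ∑ y, ((srw k Gr) ^ (i + 1)) x y * (Gr.dist x y : ℝ) := by
          intro x
          have e1 : ∑ y, ((srw k Gr) ^ (i + 1)) x y * (Gr.dist x y : ℝ) =
              ∑ v, ((srw k Gr) ^ i) x v * ∑ y, srw k Gr v y * (Gr.dist x y : ℝ) := by
            have h : ∀ y, ((srw k Gr) ^ (i + 1)) x y = ∑ z, ((srw k Gr) ^ i) x z * srw k Gr z y := by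
              intro y; rw [pow_succ, Matrix.mul_apply]
            simp only [h, Finset.sum_mul, Finset.mul_sum]
            rw [Finset.sum_comm]
            refine Finset.sum_congr rfl fun v _ => Finset.sum_congr rfl fun y _ => ?_
            ring
          rw [e1]
          have e2 : (1 : ℝ) / 3 = ∑ v, ((srw k Gr) ^ i) x v * (1 / 3) := by
            rw [← Finset.sum_mul, (GrowthB_pow hQ i).2 x, one_mul]
          rw [e2, ← Finset.sum_add_distrib]
          refine Finset.sum_le_sum fun v _ => ?_
          rw [← mul_add]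
          rcases (lt_or_eq_of_le ((GrowthB_pow hQ i).1 x v)) with hpos | hzero
          · refine mul_le_mul_of_nonneg_left ?_ hpos.le
            refine GrowthB_step hk hreg hconn hg ?_
            have := srw_dist hconn hpos
            omega
          · rw [← hzero, zero_mul, zero_mul]
        have hsum := Finset.sum_le_sum fun x (_ : x ∈ (univ : Finset V)) => hx x
        rw [Finset.sum_add_distrib, Finset.sum_const, Finset.card_univ, nsmul_eq_mul] at hsum
        have h5 := mul_le_mul_of_nonneg_left hsum (inv_nonneg.2 hcard.le)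
        rw [mul_add, ← mul_assoc ((Fintype.card V : ℝ)⁻¹) (Fintype.card V : ℝ),
          inv_mul_cancel₀ hcard.ne', one_mul] at h5
        linarith
  exact key l le_rfl

end Pool.Agent.H3NG
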