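import Pool.Agent.H3NG.Defs

/-!
# Module LazyA : existence of the periodic lazy process

Let `π t g = max (u t - lam/2) (min (u t + lam/2) g)`.  For `c : ℝ` let `gs c 0 = c`, `gs c (n+1) = π (n+1) (gs c n)`.
`Φ c = gs c T` is continuous and maps `[u 0 - lam/2, u 0 + lam/2]` into itself: fixed point by the intermediate value theorem
(`exists_mem_Icc_isFixedPt_of_mapsTo` or `intermediate_value_Icc`).  Put `g t = gs c t.val` (then `g (t+1) = π (t+1) (g t)`
also around the circle) and `w t = 2 (u t - g t)`.  If `g (t+1) > g t` then `g (t+1) = u (t+1) - lam/2`, so `w (t+1) = lam`.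
-/

set_option autoImplicit false

open Finset

namespace Pool.Agent.H3NG

variable {T : ℕ} [NeZero T]

/-- projection on the band -/
private noncomputable def pj (lam : ℝ) (u : ZMod T → ℝ) (t : ZMod T) (g : ℝ) : ℝ :=
  max (u t - lam / 2) (min (u t + lam / 2) g)

/-- iterated projection -/
private noncomputable def gs (lam : ℝ) (u : ZMod T → ℝ) (c : ℝ) : ℕ → ℝ
  | 0 => c
  | n + 1 => pj lam u ((n + 1 : ℕ) : ZMod T) (gs lam u c n)

private theorem gs_cont (lam : ℝ) (u : ZMod T → ℝ) (n : ℕ) :
    Continuous (fun c => gs lam u c n) := by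
  induction n with
  | zero => exact continuous_id
  | succ n ih =>
    simp only [gs, pj]
    exact continuous_const.max (continuous_const.min ih)

private theorem pj_mem {lam : ℝ} (hl : 0 ≤ lam) (u : ZMod T → ℝ) (t : ZMod T) (g : ℝ) :
    u t - lam / 2 ≤ pj lam u t g ∧ pj lam u t g ≤ u t + lam / 2 := by
  unfold pj
  refine ⟨le_max_left _ _, max_le (by linarith) (min_le_left _ _)⟩

theorem exists_lazy {lam : ℝ} (hl : 0 ≤ lam) (u : ZMod T → ℝ) : ∃ w, Lazy lam u w := by
  have hT : 0 < T := Nat.pos_of_ne_zero (NeZero.ne T)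
  obtain ⟨T', hT'⟩ : ∃ T', T = T' + 1 := ⟨T - 1, by omega⟩
  have hT0 : ((T : ℕ) : ZMod T) = 0 := ZMod.natCast_self T
  have hmem : ∀ c, u 0 - lam / 2 ≤ gs lam u c T ∧ gs lam u c T ≤ u 0 + lam / 2 := by
    intro c
    have h1 : ∀ n, n = T → u 0 - lam / 2 ≤ gs lam u c n ∧ gs lam u c n ≤ u 0 + lam / 2 := by
      intro n hn
      obtain ⟨m, rfl⟩ : ∃ m, n = m + 1 := ⟨n - 1, by omega⟩
      have h2 := pj_mem hl u ((m + 1 : ℕ) : ZMod T) (gs lam u c m)
      have h3 : ((m + 1 : ℕ) : ZMod T) = 0 := by rw [hn, hT0]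
      have h4 : gs lam u c (m + 1) = pj lam u ((m + 1 : ℕ) : ZMod T) (gs lam u c m) := rfl
      rw [h4]
      rw [h3] at h2 ⊢
      exact h2
    exact h1 T rfl
  obtain ⟨c, -, hc⟩ := exists_mem_Icc_isFixedPt (f := fun c => gs lam u c T)
    (a := u 0 - lam / 2) (b := u 0 + lam / 2) (gs_cont lam u T).continuousOn (by linarith)
    (hmem _).1 (hmem _).2
  have hc' : gs lam u c T = c := hc
  set g : ZMod T → ℝ := fun t => gs lam u c t.val with hg
  have hstep : ∀ t, g (t + 1) = pj lam u (t + 1) (g t) := by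
    intro t
    have h1 : ((t.val + 1 : ℕ) : ZMod T) = t + 1 := by
      push_cast
      rw [ZMod.natCast_zmod_val]
    have h2 : gs lam u c (t.val + 1) = pj lam u (t + 1) (g t) := by
      have : gs lam u c (t.val + 1) = pj lam u ((t.val + 1 : ℕ) : ZMod T) (gs lam u c t.val) := rfl
      rw [this, h1]
    rw [← h2]
    have hlt := ZMod.val_lt t
    by_cases h3 : t.val + 1 < T
    · have h4 : (t + 1).val = t.val + 1 := by
        rw [← h1, ZMod.val_natCast, Nat.mod_eq_of_lt h3]
      rw [hg]
      simp only [h4]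
    · have h5 : t.val + 1 = T := by omega
      have h6 : t + 1 = 0 := by rw [← h1, h5, hT0]
      rw [h5, hc', hg]
      simp only [h6, ZMod.val_zero]
      rfl
  have hband : ∀ t, u t - lam / 2 ≤ g t ∧ g t ≤ u t + lam / 2 := by
    intro t
    have h1 := hstep (t - 1)
    rw [sub_add_cancel] at h1
    rw [h1]
    exact pj_mem hl u t _
  have hgw : ∀ t, u t - 2 * (u t - g t) / 2 = g t := fun t => by ring
  refine ⟨fun t => 2 * (u t - g t), ⟨fun t => ?_, fun t ht => ?_, fun t ht => ?_⟩⟩
  · have := hband t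
    rw [abs_le]
    constructor <;> linarith [this.1, this.2]
  · simp only [hgw] at ht
    have h1 := hstep t
    unfold pj at h1
    have h2 : min (u (t + 1) + lam / 2) (g t) ≤ g t := min_le_right _ _
    have h3 : g (t + 1) = u (t + 1) - lam / 2 := by
      rcases le_total (u (t + 1) - lam / 2) (min (u (t + 1) + lam / 2) (g t)) with h4 | h4
      · rw [max_eq_right h4] at h1
        linarith
      · rw [max_eq_left h4] at h1
        exact h1
    rw [h3]
    ring
  · simp only [hgw] at ht
    have h1 := hstep t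
    unfold pj at h1
    have h3 : g (t + 1) = u (t + 1) + lam / 2 := by
      rcases le_total (u (t + 1) + lam / 2) (g t) with h4 | h4
      · rw [min_eq_left h4, max_eq_right (by linarith)] at h1
        exact h1
      · rw [min_eq_right h4] at h1
        have := le_max_right (u (t + 1) - lam / 2) (g t)
        linarith
    rw [h3]
    ring

theorem lazy_neg {lam : ℝ} {u w : ZMod T → ℝ} (h : Lazy lam u w) :
    Lazy lam (-u) (fun t => - w t) := by
  refine ⟨fun t => ?_, fun t ht => ?_, fun t ht => ?_⟩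
  · rw [abs_neg]
    exact h.bd t
  · simp only [Pi.neg_apply] at ht ⊢
    have := h.dnw t (by linarith)
    linarith
  · simp only [Pi.neg_apply] at ht ⊢
    have := h.upw t (by linarith)
    linarith

theorem lazy_zero {lam : ℝ} (hl : 0 ≤ lam) : Lazy lam (0 : ZMod T → ℝ) (fun _ => 0) := by
  refine ⟨fun t => ?_, fun t ht => ?_, fun t ht => ?_⟩
  · rw [abs_zero]
    exact hl
  · simp at ht
  · simp at ht

end Pool.Agent.H3NG
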