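import Pool.Agent.H3NG.CircA
import Pool.Agent.H3NG.LazyA

/-!
# Module LazyB : states of the lazy process

Marked times: `θ ≤ |w t|`.  `st θ w t` = sign of `w` at the first marked time `≥ t` (so if `t` is marked, `st θ w t = sign (w t)`;
if `t` is not marked, `st θ w t = st θ w (t+1)`).  So `t ∈ ch (st θ w)` implies `θ ≤ |w t| = st θ w t * w t`.

Let `g = u - w/2`, `L = ∑ t, |g (t+1) - g t|`.  By `G_eq_sum` for a phase `s` (or `s = 0`):
`G lam u s = ∑ t, s (t+1) (g (t+1) - g t) + ∑ t ∈ ch s, (s t * w t - lam)`   (*)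
(sum by parts `(1/2) ∑ t, s (t+1) (w (t+1) - w t) = ∑ t ∈ ch s, s t * w t`).
(1) `G lam u s ≤ L - ∑ t ∈ ch s, (lam - s t * w t)` for every phase; in particular `TV lam u ≤ L`.
(2) for `0 < θ ≤ lam` and `σ = st θ w`: if `g (t+1) > g t` then `w (t+1) = lam`, so `t+1` is marked and `σ (t+1) = 1`; same for `<`;
    so the first sum in (*) is `L`, and the second (with `h` in place of `lam`) is at least `(θ - h) * card (ch σ)`:
    `TV h u ≥ G h u σ ≥ L + (θ - h) card (ch σ)`.  (If there are no marked times then `σ = 0`, `g` is constant, `L = 0`.)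
`tick_le` is (2) and `TV lam u ≤ L`.  `bt_le`: (1), `L ≤ TV lam u` ((2) with `θ = h = lam`), and for `t ∈ ch s` with
`st ((1-κ) lam) w t ≠ s t` we have `lam - s t * w t ≥ κ lam`; all other terms are nonnegative.
-/

set_option autoImplicit false

open Finset

namespace Pool.Agent.H3NG

variable {T : ℕ} [NeZero T]

theorem st_neg {θ : ℝ} (w : ZMod T → ℝ) (t : ZMod T) :
    st θ (fun t => - w t) t = - st θ w t := by
  unfold st mk
  simp only [abs_neg]
  split_ifs with h
  · rw [Left.sign_neg]
  · rfl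

private theorem lazyB_mk_mem {θ : ℝ} {w : ZMod T → ℝ} (h : ∃ t', θ ≤ |w t'|) (t : ZMod T) :
    θ ≤ |w (t + (mk θ w t : ℕ))| := by
  obtain ⟨t', ht'⟩ := h
  have hne : {k : ℕ | θ ≤ |w (t + k)|}.Nonempty := by
    refine ⟨(t' - t).val, ?_⟩
    show θ ≤ |w (t + (((t' - t).val : ℕ) : ZMod T))|
    rw [ZMod.natCast_zmod_val, add_sub_cancel]
    exact ht'
  exact Nat.sInf_mem hne

private theorem lazyB_st_pos {θ : ℝ} {w : ZMod T → ℝ} (h : ∃ t', θ ≤ |w t'|) (t : ZMod T) :
    st θ w t = SignType.sign (w (t + (mk θ w t : ℕ))) := by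
  unfold st
  rw [if_pos h]

private theorem lazyB_marked {θ : ℝ} {w : ZMod T → ℝ} {t : ZMod T} (h : θ ≤ |w t|) :
    st θ w t = SignType.sign (w t) := by
  have h0 : mk θ w t = 0 := by
    have : mk θ w t ≤ 0 := Nat.sInf_le (by
      show θ ≤ |w (t + ((0 : ℕ) : ZMod T))|
      rw [Nat.cast_zero, add_zero]
      exact h)
    omega
  rw [lazyB_st_pos ⟨t, h⟩, h0, Nat.cast_zero, add_zero]

private theorem lazyB_unmarked {θ : ℝ} {w : ZMod T → ℝ} {t : ZMod T} (h : ¬ θ ≤ |w t|) :
    st θ w t = st θ w (t + 1) := by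
  by_cases hex : ∃ t', θ ≤ |w t'|
  · have h1 := lazyB_mk_mem hex t
    have h2 := lazyB_mk_mem hex (t + 1)
    have hpos : mk θ w t ≠ 0 := by
      intro h0
      rw [h0, Nat.cast_zero, add_zero] at h1
      exact h h1
    have e : mk θ w t = mk θ w (t + 1) + 1 := by
      apply le_antisymm
      · apply Nat.sInf_le
        show θ ≤ |w (t + ((mk θ w (t + 1) + 1 : ℕ) : ZMod T))|
        have e1 : t + ((mk θ w (t + 1) + 1 : ℕ) : ZMod T) =
            t + 1 + ((mk θ w (t + 1) : ℕ) : ZMod T) := by push_cast; ring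
        rw [e1]
        exact h2
      · have h3 : mk θ w (t + 1) ≤ mk θ w t - 1 := by
          apply Nat.sInf_le
          show θ ≤ |w (t + 1 + ((mk θ w t - 1 : ℕ) : ZMod T))|
          have e1 : t + 1 + ((mk θ w t - 1 : ℕ) : ZMod T) = t + ((mk θ w t : ℕ) : ZMod T) := by
            rw [Nat.cast_sub (Nat.one_le_iff_ne_zero.2 hpos)]; push_cast; ring
          rw [e1]
          exact h1
        omega
    rw [lazyB_st_pos hex, lazyB_st_pos hex, e]
    congr 2
    push_cast
    ring
  · unfold st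
    rw [if_neg hex, if_neg hex]

private theorem lazyB_ch {θ : ℝ} {w : ZMod T → ℝ} {t : ZMod T} (h : t ∈ ch (st θ w)) :
    θ ≤ |w t| := by
  by_contra hcon
  unfold ch at h
  exact (mem_filter.1 h).2 (lazyB_unmarked hcon)

theorem st_zero_or {θ : ℝ} (hθ : 0 < θ) (w : ZMod T → ℝ) :
    (∀ t, st θ w t = 0) ∨ (∀ t, st θ w t ≠ 0) := by
  by_cases hex : ∃ t', θ ≤ |w t'|
  · right
    intro t
    rw [lazyB_st_pos hex, ne_eq, sign_eq_zero_iff]
    have h1 := lazyB_mk_mem hex t
    intro h0
    rw [h0, abs_zero] at h1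
    linarith
  · left
    intro t
    unfold st
    rw [if_neg hex]

/-- total variation of `g` -/
private noncomputable def lazyB_L (u w : ZMod T → ℝ) : ℝ :=
  ∑ t, |(u (t + 1) - w (t + 1) / 2) - (u t - w t / 2)|

private theorem lazyB_star (lam : ℝ) (u w : ZMod T → ℝ) (s : ZMod T → SignType)
    (hs : Ph s ∨ ∀ t, s t = 0) :
    G lam u s = ∑ t, (s (t + 1) : ℝ) * ((u (t + 1) - w (t + 1) / 2) - (u t - w t / 2)) +
      ∑ t ∈ ch s, ((s t : ℝ) * w t - lam) := by
  have h1 : G lam u s = G (0 + lam) ((fun t => u t - w t / 2) + (fun t => w t / 2)) s := by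
    congr 1
    · ring
    · funext t
      simp only [Pi.add_apply]
      ring
  rw [h1, G_add, G_eq_sum 0 _ s hs]
  have h2 : G lam (fun t => w t / 2) s = ∑ t ∈ ch s, ((s t : ℝ) * w t - lam) := by
    unfold G
    refine Finset.sum_congr rfl (fun t _ => ?_)
    ring
  rw [h2]
  ring

private theorem lazyB_abs (a : SignType) (x : ℝ) : (a : ℝ) * x ≤ |x| := by
  rcases a with _ | _ | _
  · show ((0 : SignType) : ℝ) * x ≤ |x|
    simp
  · show ((-1 : SignType) : ℝ) * x ≤ |x|
    simp only [SignType.coe_neg, SignType.coe_one, neg_mul, one_mul]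
    exact neg_le_abs x
  · show ((1 : SignType) : ℝ) * x ≤ |x|
    simp only [SignType.coe_one, one_mul]
    exact le_abs_self x

private theorem lazyB_one {lam : ℝ} {u w : ZMod T → ℝ} {s : ZMod T → SignType} (hs : Ph s) :
    G lam u s ≤ lazyB_L u w - ∑ t ∈ ch s, (lam - (s t : ℝ) * w t) := by
  rw [lazyB_star lam u w s (Or.inl hs)]
  have h1 : ∑ t, (s (t + 1) : ℝ) * ((u (t + 1) - w (t + 1) / 2) - (u t - w t / 2)) ≤
      lazyB_L u w := Finset.sum_le_sum (fun t _ => lazyB_abs _ _)
  have h2 : ∑ t ∈ ch s, ((s t : ℝ) * w t - lam) = - ∑ t ∈ ch s, (lam - (s t : ℝ) * w t) := by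
    rw [← Finset.sum_neg_distrib]
    exact Finset.sum_congr rfl (fun t _ => by ring)
  linarith

private theorem lazyB_TV_le {lam : ℝ} {u w : ZMod T → ℝ} (h : Lazy lam u w) :
    TV lam u ≤ lazyB_L u w := by
  apply TV_le
  intro s hs
  have h1 := lazyB_one (lam := lam) (u := u) (w := w) hs
  have h2 : 0 ≤ ∑ t ∈ ch s, (lam - (s t : ℝ) * w t) := by
    refine Finset.sum_nonneg (fun t _ => ?_)
    have h3 := lazyB_abs (s t) (w t)
    have h4 := h.bd t
    linarith
  linarith

private theorem lazyB_two {lam θ h : ℝ} (hθ : 0 < θ) (hθl : θ ≤ lam) {u w : ZMod T → ℝ}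
    (hw : Lazy lam u w) :
    lazyB_L u w + (θ - h) * (ch (st θ w)).card ≤ TV h u := by
  have hlam : 0 < lam := lt_of_lt_of_le hθ hθl
  have habs : |lam| = lam := abs_of_pos hlam
  rcases st_zero_or hθ w with h0 | hne
  · -- no marked times
    have hch : ch (st θ w) = ∅ := by
      unfold ch
      rw [Finset.filter_eq_empty_iff]
      intro t _
      rw [h0 t, h0 (t + 1)]
      simp
    have hnm : ∀ t, ¬ θ ≤ |w t| := by
      intro t ht
      have h1 := lazyB_marked ht
      rw [h0 t] at h1
      have h2 := sign_eq_zero_iff.1 h1.symm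
      rw [h2, abs_zero] at ht
      linarith
    have hL : lazyB_L u w = 0 := by
      unfold lazyB_L
      refine Finset.sum_eq_zero (fun t _ => ?_)
      have h1 : ¬ (u t - w t / 2 < u (t + 1) - w (t + 1) / 2) := by
        intro hlt
        have h2 := hw.upw t hlt
        apply hnm (t + 1)
        rw [h2, habs]
        exact hθl
      have h3 : ¬ (u (t + 1) - w (t + 1) / 2 < u t - w t / 2) := by
        intro hlt
        have h2 := hw.dnw t hlt
        apply hnm (t + 1)
        rw [h2, abs_neg, habs]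
        exact hθl
      have h4 : u (t + 1) - w (t + 1) / 2 = u t - w t / 2 :=
        le_antisymm (not_lt.1 h1) (not_lt.1 h3)
      rw [h4, sub_self, abs_zero]
    rw [hch, hL]
    simp only [Finset.card_empty, Nat.cast_zero, mul_zero, add_zero]
    exact TV_nonneg h u
  · have h1 := G_le_TV h u (s := st θ w) hne
    rw [lazyB_star h u w (st θ w) (Or.inl hne)] at h1
    have h2 : ∑ t, (st θ w (t + 1) : ℝ) * ((u (t + 1) - w (t + 1) / 2) - (u t - w t / 2)) =
        lazyB_L u w := by
      unfold lazyB_L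
      refine Finset.sum_congr rfl (fun t _ => ?_)
      rcases lt_trichotomy (u t - w t / 2) (u (t + 1) - w (t + 1) / 2) with hlt | heq | hgt
      · have h3 := hw.upw t hlt
        have h4 : θ ≤ |w (t + 1)| := by rw [h3, habs]; exact hθl
        rw [lazyB_marked h4, h3, sign_pos hlam, SignType.coe_one, one_mul, ← h3,
          abs_of_pos (sub_pos.2 hlt)]
      · rw [heq, sub_self, abs_zero, mul_zero]
      · have h3 := hw.dnw t hgt
        have h4 : θ ≤ |w (t + 1)| := by rw [h3, abs_neg, habs]; exact hθl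
        have h5 : w (t + 1) < 0 := by rw [h3]; linarith
        rw [lazyB_marked h4, sign_neg h5, abs_of_neg (sub_neg.2 hgt)]
        simp only [SignType.coe_neg, SignType.coe_one, neg_mul, one_mul]
    have h3 : (θ - h) * ((ch (st θ w)).card : ℝ) ≤
        ∑ t ∈ ch (st θ w), ((st θ w t : ℝ) * w t - h) := by
      have h4 : (θ - h) * ((ch (st θ w)).card : ℝ) = ∑ _t ∈ ch (st θ w), (θ - h) := by
        rw [Finset.sum_const, nsmul_eq_mul]; ring
      rw [h4]
      refine Finset.sum_le_sum (fun t ht => ?_)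
      have h5 := lazyB_ch ht
      rw [lazyB_marked h5]
      have h6 : ((SignType.sign (w t) : SignType) : ℝ) * w t = |w t| := by
        rcases lt_trichotomy (w t) 0 with hlt | heq | hgt
        · rw [sign_neg hlt, abs_of_neg hlt]
          simp
        · rw [heq]; simp
        · rw [sign_pos hgt, abs_of_pos hgt]
          simp
      rw [h6]
      linarith
    linarith

theorem bt_le {lam κ : ℝ} (hl : 0 < lam) (hκ : 0 ≤ κ) (hκ1 : κ < 1) {u w : ZMod T → ℝ}
    (h : Lazy lam u w) {s : ZMod T → SignType} (hs : Ph s) :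
    κ * lam * bt (st ((1 - κ) * lam) w) s ≤ TV lam u - G lam u s := by
  have hθ : 0 < (1 - κ) * lam := mul_pos (by linarith) hl
  have h1 := lazyB_two (h := lam) hl le_rfl h
  rw [sub_self, zero_mul, add_zero] at h1
  have h2 := lazyB_one (lam := lam) (u := u) (w := w) hs
  have h3 : κ * lam * bt (st ((1 - κ) * lam) w) s ≤ ∑ t ∈ ch s, (lam - (s t : ℝ) * w t) := by
    unfold bt
    have h4 : κ * lam * (((ch s).filter (fun t => st ((1 - κ) * lam) w t ≠ s t)).card : ℝ) =
        ∑ _t ∈ (ch s).filter (fun t => st ((1 - κ) * lam) w t ≠ s t), κ * lam := by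
      rw [Finset.sum_const, nsmul_eq_mul]; ring
    rw [h4]
    have h5 : ∑ _t ∈ (ch s).filter (fun t => st ((1 - κ) * lam) w t ≠ s t), κ * lam ≤
        ∑ t ∈ (ch s).filter (fun t => st ((1 - κ) * lam) w t ≠ s t),
          (lam - (s t : ℝ) * w t) := by
      refine Finset.sum_le_sum (fun t ht => ?_)
      have h6 := (mem_filter.1 ht).2
      by_contra hcon
      push Not at hcon
      have h7 : (1 - κ) * lam < (s t : ℝ) * w t := by linarith
      apply h6
      have h8 : (1 - κ) * lam ≤ |w t| := h7.le.trans (lazyB_abs _ _)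
      rw [lazyB_marked h8]
      have h9 := hs t
      rcases hst : s t with _ | _ | _
      · exact absurd hst h9
      · rw [hst] at h7
        have : ((SignType.neg : SignType) : ℝ) = -1 := by
          show ((-1 : SignType) : ℝ) = -1
          simp
        rw [this] at h7
        exact sign_neg (by linarith)
      · rw [hst] at h7
        have : ((SignType.pos : SignType) : ℝ) = 1 := by
          show ((1 : SignType) : ℝ) = 1
          simp
        rw [this] at h7
        exact sign_pos (by linarith)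
    refine h5.trans (Finset.sum_le_sum_of_subset_of_nonneg (Finset.filter_subset _ _) ?_)
    intro t _ _
    have h6 := lazyB_abs (s t) (w t)
    have h7 := h.bd t
    linarith
  linarith

theorem tick_le {lam θ h : ℝ} (hθ : 0 < θ) (hθl : θ ≤ lam) {u w : ZMod T → ℝ} (hw : Lazy lam u w) :
    (θ - h) * (ch (st θ w)).card ≤ TV h u - TV lam u := by
  have h1 := lazyB_two (h := h) hθ hθl hw
  have h2 := lazyB_TV_le hw
  linarith

end Pool.Agent.H3NG
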