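import Pool.Agent.H3NG.SelB1
import Pool.Agent.H3NG.Defect

/-!
# Module SelB : from a good level to the signals

Write `Th = EM P (TV lam)`, `Dr = Th - EM P (TV ((1+δ) lam))`, `R = Dr / (δ lam)`, `κ = e δ`, `b = 8a`.
Choose `w x y` antisymmetric (`w y x = - w x y`, `w x x = 0`; take any linear order on `V`, `exists_lazy`, `lazy_neg`, `lazy_zero`) with
`Lazy lam (g y - g x) (w x y)`; `σ x y = st ((1-κ) lam) (w x y)`.  `s_m x y` = an optimal phase of `g y - g x` at level `m lam`
(`exists_opt`), `m = 2, 4, b`.  With `D_m = m Th - EM (P^m) (TV (m lam))`: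
* `EM_block` (`b = (b/m) m`, and `m = m * 1`): `0 ≤ D_m ≤ (m/b) D_b ≤ e^2 m Dr`.
* `hr` for every `m`: `δ m lam EP(card (ch s_m)) ≥ EM(P^m)(TV (m lam)) - EM(P^m)(TV ((1+δ) m lam)) ≥ (m Th - D_m) - m EM P (TV ((1+δ) lam))
  = m Dr - D_m ≥ m (1 - e^2) Dr`, so `EP (card (ch s_m)) ≥ (1 - e^2) R`.
* `ht`: `tick_le` with `h = (1-δ) lam`, `θ = (1-κ) lam`: `(δ - κ) lam EP(card (ch σ)) ≤ EM P (TV ((1-δ) lam)) - Th ≤ (1+e) Dr`, so
  `EP (card (ch σ)) ≤ (1+e)/(1-e) R ≤ (1 + 9e) R`.
* `∑ bt`: `path_bt`: `κ lam EP (∑ j bt_j) ≤ D_m ≤ e^2 m Dr`, so `EP (∑ bt_j) ≤ e m R`.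
* `h2, h4, hb`: `aa = mis + bt`, `mis_bound`: `EP (∑ j aa_j) ≤ m EP(card (ch σ)) - m EP(card (ch s_m)) + 5 EP (∑ bt_j)
  ≤ m R ((1+e)/(1-e) - (1 - e^2) + 5 e) ≤ 9 e m R`.
* `hns`: `ch_ns` and `h4` of the statement: `δ b lam EP (ind ns * card) ≤ e b Dr`, so `≤ e R`.
-/

set_option autoImplicit false

open Finset

namespace Pool.Agent.H3NG

variable {T : ℕ} [NeZero T] {V : Type} [Fintype V] [DecidableEq V] [Nonempty V]

private theorem selB_level {P : Matrix V V ℝ} (hP : SStoch P) (g : V → ZMod T → ℝ) {e δ lam : ℝ}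
    (he : 0 < e) (he1 : e ≤ 1 / 100) (hδ : 0 < δ) (hδ1 : δ ≤ 1 / 2) (hl : 0 < lam) {b : ℕ}
    (hb : 1 ≤ b) {Th T1 R : ℝ} (hTh : Th = EM P (fun x y => TV lam (g y - g x)))
    (hT1 : T1 = EM P (fun x y => TV ((1 + δ) * lam) (g y - g x))) (hR : Th - T1 = R * (δ * lam))
    (hRpos : 0 < R)
    (h2 : (b : ℝ) * Th - EM (P ^ b) (fun x y => TV ((b : ℝ) * lam) (g y - g x)) ≤
      e ^ 2 * b * (Th - T1))
    {w : V → V → ZMod T → ℝ} (hw : ∀ x y, Lazy lam (g y - g x) (w x y))
    (hsig : Sig (fun x y => st ((1 - e * δ) * lam) (w x y)))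
    (ht : EM P (fun x y => ((ch (st ((1 - e * δ) * lam) (w x y))).card : ℝ)) ≤
      (1 + e) / (1 - e) * R)
    (m q : ℕ) (hqm : q * m = b) :
    ∃ s : V → V → ZMod T → SignType, (∀ x y, Ph (s x y)) ∧
      (∀ x y, G ((m : ℝ) * lam) (g y - g x) (s x y) = TV ((m : ℝ) * lam) (g y - g x)) ∧
      EP P m (apath (fun x y => st ((1 - e * δ) * lam) (w x y)) s m) ≤ m * (9 * e) * R ∧
      (1 - 9 * e) * R ≤ EP P m (fun z => ((ch (s (z 0) (z m))).card : ℝ)) := by
  have hq1 : 1 ≤ q := by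
    rcases Nat.eq_zero_or_pos q with h | h
    · subst h; simp at hqm; omega
    · exact h
  have hm1 : 1 ≤ m := by
    rcases Nat.eq_zero_or_pos m with h | h
    · subst h; simp at hqm; omega
    · exact h
  have hqpos : (0 : ℝ) < q := by exact_mod_cast hq1
  have hmpos : (0 : ℝ) < m := by exact_mod_cast hm1
  choose s hs hopt using fun x y => exists_opt ((m : ℝ) * lam) (g y - g x)
  refine ⟨s, hs, hopt, ?_⟩
  set Em : ℝ := EM (P ^ m) (fun x y => TV ((m : ℝ) * lam) (g y - g x)) with hEm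
  have hbr : (b : ℝ) = q * m := by rw [← hqm]; push_cast; ring
  -- the defect at scale m
  have hD : (m : ℝ) * Th - Em ≤ e ^ 2 * m * (Th - T1) := by
    have h3 := EM_block hP g lam q m
    rw [hqm] at h3
    rw [← hEm] at h3
    have h4 : (q : ℝ) * ((m : ℝ) * Th - Em) ≤ q * (e ^ 2 * m * (Th - T1)) := by
      rw [hbr] at h2 h3
      nlinarith [h2, h3]
    exact le_of_mul_le_mul_left h4 hqpos
  have hE1 : EM (P ^ m) (fun x y => TV ((1 + δ) * ((m : ℝ) * lam)) (g y - g x)) ≤ m * T1 := by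
    have h3 := EM_block hP g ((1 + δ) * lam) m 1
    rw [mul_one, pow_one] at h3
    have e1 : ((m : ℝ) * ((1 + δ) * lam)) = (1 + δ) * ((m : ℝ) * lam) := by ring
    rw [e1] at h3
    simp only [Nat.cast_one, one_mul] at h3
    rw [hT1]
    exact h3
  have hlow := ch_lower hP g (lam := lam) (δ := δ) m hs hopt
  rw [← hEm] at hlow
  set C : ℝ := EP P m (fun z => ((ch (s (z 0) (z m))).card : ℝ)) with hC
  have hCl : (1 - e ^ 2) * R ≤ C := by
    have h5 : (m * (δ * lam)) * ((1 - e ^ 2) * R) ≤ (m * (δ * lam)) * C := by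
      rw [hR] at hD
      nlinarith [hlow, hE1, hD, hR]
    exact le_of_mul_le_mul_left h5 (by positivity)
  have hbt := path_bt hP g hl (κ := e * δ) (by positivity) (by nlinarith) hw m hs hopt
  set B : ℝ := EP P m (fun z => ∑ j ∈ range m,
        (bt (st ((1 - e * δ) * lam) (w (z j) (z (j + 1)))) (s (z 0) (z m)) : ℝ)) with hB
  rw [← hEm, ← hTh] at hbt
  have hBu : B ≤ e * m * R := by
    have h5 : (e * δ * lam) * B ≤ (e * δ * lam) * (e * m * R) := by
      rw [hR] at hD
      nlinarith [hbt, hD]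
    exact le_of_mul_le_mul_left h5 (by positivity)
  constructor
  · have hpt : EP P m (apath (fun x y => st ((1 - e * δ) * lam) (w x y)) s m) ≤
        EP P m (fun z => ((∑ j ∈ range m,
          ((ch (st ((1 - e * δ) * lam) (w (z j) (z (j + 1))))).card : ℝ)) + 5 * (∑ j ∈ range m,
        (bt (st ((1 - e * δ) * lam) (w (z j) (z (j + 1)))) (s (z 0) (z m)) : ℝ))) -
          m * ((ch (s (z 0) (z m))).card : ℝ)) := by
      refine EP_mono_supp hP m ?_
      intro z _
      unfold apath aa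
      have e1 : (m : ℝ) * ((ch (s (z 0) (z m))).card : ℝ) =
          ∑ j ∈ range m, ((ch (s (z 0) (z m))).card : ℝ) := by
        simp
      rw [e1, Finset.mul_sum, ← Finset.sum_add_distrib, ← Finset.sum_sub_distrib]
      refine Finset.sum_le_sum fun j _ => ?_
      have h6 := mis_bound (hsig.zero_or (z j) (z (j + 1))) (hs (z 0) (z m))
      linarith
    have hlin : EP P m (fun z => ((∑ j ∈ range m,
          ((ch (st ((1 - e * δ) * lam) (w (z j) (z (j + 1))))).card : ℝ)) + 5 * (∑ j ∈ range m,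
        (bt (st ((1 - e * δ) * lam) (w (z j) (z (j + 1)))) (s (z 0) (z m)) : ℝ))) -
          m * ((ch (s (z 0) (z m))).card : ℝ)) =
        (m * EM P (fun x y => ((ch (st ((1 - e * δ) * lam) (w x y))).card : ℝ)) + 5 * B) - m * C := by
      rw [EP_sub P m (fun z => (∑ j ∈ range m,
          ((ch (st ((1 - e * δ) * lam) (w (z j) (z (j + 1))))).card : ℝ)) + 5 * (∑ j ∈ range m,
        (bt (st ((1 - e * δ) * lam) (w (z j) (z (j + 1)))) (s (z 0) (z m)) : ℝ)))
        (fun z => m * ((ch (s (z 0) (z m))).card : ℝ))]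
      rw [EP_add P m (fun z => ∑ j ∈ range m,
          ((ch (st ((1 - e * δ) * lam) (w (z j) (z (j + 1))))).card : ℝ)) (fun z =>
          5 * (∑ j ∈ range m,
        (bt (st ((1 - e * δ) * lam) (w (z j) (z (j + 1)))) (s (z 0) (z m)) : ℝ)))]
      rw [EP_const_mul P m 5, EP_const_mul P m (m : ℝ), ← hB, ← hC]
      rw [EP_sum P m (range m) (fun j z =>
          ((ch (st ((1 - e * δ) * lam) (w (z j) (z (j + 1))))).card : ℝ))]
      have h7 : ∀ j ∈ range m, EP P m (fun z =>
          ((ch (st ((1 - e * δ) * lam) (w (z j) (z (j + 1))))).card : ℝ)) =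
          EM P (fun x y => ((ch (st ((1 - e * δ) * lam) (w x y))).card : ℝ)) := by
        intro j hj
        exact EP_step hP (Finset.mem_range.mp hj)
          (fun x y => ((ch (st ((1 - e * δ) * lam) (w x y))).card : ℝ))
      rw [Finset.sum_congr rfl h7]
      simp
    rw [hlin] at hpt
    refine hpt.trans ?_
    have h8 : (1 + e) / (1 - e) ≤ 1 + 3 * e := by
      rw [div_le_iff₀ (by linarith)]
      nlinarith
    have h9 : EM P (fun x y => ((ch (st ((1 - e * δ) * lam) (w x y))).card : ℝ)) ≤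
        (1 + 3 * e) * R := ht.trans (mul_le_mul_of_nonneg_right h8 hRpos.le)
    have h10 : (m : ℝ) * EM P (fun x y => ((ch (st ((1 - e * δ) * lam) (w x y))).card : ℝ)) ≤
        m * ((1 + 3 * e) * R) := mul_le_mul_of_nonneg_left h9 hmpos.le
    have h11 : (m : ℝ) * ((1 - e ^ 2) * R) ≤ m * C := mul_le_mul_of_nonneg_left hCl hmpos.le
    have h12 : e ^ 2 ≤ e := by nlinarith
    have h13 : (m : ℝ) * R * e ^ 2 ≤ m * R * e := mul_le_mul_of_nonneg_left h12 (by positivity)
    nlinarith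
  · have h12 : e ^ 2 ≤ 9 * e := by nlinarith
    have h13 : (1 - 9 * e) * R ≤ (1 - e ^ 2) * R :=
      mul_le_mul_of_nonneg_right (by linarith) hRpos.le
    exact h13.trans hCl

theorem core_of_level {P : Matrix V V ℝ} (hP : SStoch P) {a : ℕ} (ha : 1 ≤ a)
    (ns : (ℕ → V) → Prop) (g : V → ZMod T → ℝ) {e δ lam : ℝ} (he : 0 < e) (he1 : e ≤ 1 / 100)
    (hδ : 0 < δ) (hδ1 : δ ≤ 1 / 2) (hl : 0 < lam)
    (h1 : 0 < EM P (fun x y => TV lam (g y - g x)) - EM P (fun x y => TV ((1 + δ) * lam) (g y - g x)))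
    (h2 : (8 * a : ℕ) * EM P (fun x y => TV lam (g y - g x)) -
        EM (P ^ (8 * a)) (fun x y => TV ((8 * a : ℕ) * lam) (g y - g x)) ≤
      e ^ 2 * (8 * a : ℕ) * (EM P (fun x y => TV lam (g y - g x)) -
        EM P (fun x y => TV ((1 + δ) * lam) (g y - g x))))
    (h3 : EM P (fun x y => TV ((1 - δ) * lam) (g y - g x)) - EM P (fun x y => TV lam (g y - g x)) ≤
      (1 + e) * (EM P (fun x y => TV lam (g y - g x)) -
        EM P (fun x y => TV ((1 + δ) * lam) (g y - g x))))
    (h4 : EP P (8 * a) (fun z => ind (ns z) *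
        (TV ((1 - δ) * ((8 * a : ℕ) * lam)) (g (z (8 * a)) - g (z 0)) -
          TV ((8 * a : ℕ) * lam) (g (z (8 * a)) - g (z 0)))) ≤
      e * (8 * a : ℕ) * (EM P (fun x y => TV lam (g y - g x)) -
        EM P (fun x y => TV ((1 + δ) * lam) (g y - g x)))) :
    ∃ (R : ℝ) (σ s2 s4 sb : V → V → ZMod T → SignType), Core P a ns (9 * e) R σ s2 s4 sb := by
  classical
  set Th : ℝ := EM P (fun x y => TV lam (g y - g x)) with hTh
  set T1 : ℝ := EM P (fun x y => TV ((1 + δ) * lam) (g y - g x)) with hT1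
  set R : ℝ := (Th - T1) / (δ * lam) with hRdef
  have hdl : 0 < δ * lam := by positivity
  have hR : Th - T1 = R * (δ * lam) := by
    rw [hRdef]; field_simp
  have hRpos : 0 < R := div_pos h1 hdl
  -- the lazy processes, antisymmetric
  choose w0 hw0 using fun x y => exists_lazy hl.le (g y - g x)
  set enc := Fintype.equivFin V with henc
  let w : V → V → ZMod T → ℝ := fun x y =>
    if enc x < enc y then w0 x y else if enc y < enc x then (fun t => - w0 y x t) else (fun _ => 0)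
  have hw : ∀ x y, Lazy lam (g y - g x) (w x y) := by
    intro x y
    show Lazy lam (g y - g x) (if enc x < enc y then w0 x y else if enc y < enc x then
      (fun t => - w0 y x t) else (fun _ => 0))
    split_ifs with h3 h4
    · exact hw0 x y
    · have h5 := lazy_neg (hw0 y x)
      rw [neg_sub] at h5
      exact h5
    · have h5 : enc x = enc y := le_antisymm (not_lt.mp h4) (not_lt.mp h3)
      have h6 : x = y := enc.injective h5
      subst h6
      rw [sub_self]
      exact lazy_zero hl.le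
  have hwanti : ∀ x y, w y x = fun t => - w x y t := by
    intro x y
    show (if enc y < enc x then w0 y x else if enc x < enc y then
      (fun t => - w0 x y t) else (fun _ => 0)) = fun t => - (if enc x < enc y then w0 x y else
        if enc y < enc x then (fun t => - w0 y x t) else (fun _ => 0)) t
    rcases lt_trichotomy (enc x) (enc y) with h3 | h3 | h3
    · rw [if_neg h3.not_gt, if_pos h3, if_pos h3]
    · rw [if_neg h3.not_gt, if_neg h3.not_lt, if_neg h3.not_lt, if_neg h3.not_gt]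
      funext t
      simp
    · rw [if_pos h3, if_neg h3.not_gt, if_pos h3]
      funext t
      simp
  have heδ : e * δ < 1 := by nlinarith
  have hθ : 0 < (1 - e * δ) * lam := mul_pos (by linarith) hl
  have hsig : Sig (fun x y => st ((1 - e * δ) * lam) (w x y)) := by
    refine ⟨?_, ?_⟩
    · intro x y t
      show st ((1 - e * δ) * lam) (w y x) t = - st ((1 - e * δ) * lam) (w x y) t
      rw [hwanti x y]
      exact st_neg (w x y) t
    · intro x y
      exact st_zero_or hθ (w x y)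
  -- number of ticks
  have ht : EM P (fun x y => ((ch (st ((1 - e * δ) * lam) (w x y))).card : ℝ)) ≤
      (1 + e) / (1 - e) * R := by
    have h5 : EM P (fun x y => ((1 - e * δ) * lam - (1 - δ) * lam) *
        ((ch (st ((1 - e * δ) * lam) (w x y))).card : ℝ) + TV lam (g y - g x)) ≤
        EM P (fun x y => TV ((1 - δ) * lam) (g y - g x)) := by
      refine EM_mono hP ?_
      intro x y _
      have h6 := tick_le (h := (1 - δ) * lam) hθ (by nlinarith [mul_pos (mul_pos he hδ) hl]) (hw x y)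
      linarith
    rw [EM_add P (fun x y => ((1 - e * δ) * lam - (1 - δ) * lam) *
        ((ch (st ((1 - e * δ) * lam) (w x y))).card : ℝ)) (fun x y => TV lam (g y - g x)),
      EM_const_mul, ← hTh] at h5
    set N : ℝ := EM P (fun x y => ((ch (st ((1 - e * δ) * lam) (w x y))).card : ℝ)) with hN
    have h6 : ((1 - e) * (δ * lam)) * N ≤ ((1 - e) * (δ * lam)) * ((1 + e) / (1 - e) * R) := by
      have h7 : ((1 - e) * (δ * lam)) * ((1 + e) / (1 - e) * R) = (1 + e) * (R * (δ * lam)) := by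
        have : (1 - e) ≠ 0 := by linarith
        field_simp
      rw [h7, ← hR]
      have h8 : ((1 - e) * (δ * lam)) * N = ((1 - e * δ) * lam - (1 - δ) * lam) * N := by ring
      rw [h8]
      linarith [h3, h5]
    exact le_of_mul_le_mul_left h6 (mul_pos (by linarith) hdl)
  have hb : 1 ≤ 8 * a := by omega
  obtain ⟨s2, hs2, _, ha2, _⟩ := selB_level hP g he he1 hδ hδ1 hl hb hTh hT1 hR hRpos h2 hw hsig ht
    2 (4 * a) (by ring)
  obtain ⟨s4, hs4, _, ha4, _⟩ := selB_level hP g he he1 hδ hδ1 hl hb hTh hT1 hR hRpos h2 hw hsig ht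
    4 (2 * a) (by ring)
  obtain ⟨sb, hsb, hoptb, hab, hrb⟩ := selB_level hP g he he1 hδ hδ1 hl hb hTh hT1 hR hRpos h2 hw
    hsig ht (8 * a) 1 (by ring)
  refine ⟨R, (fun x y => st ((1 - e * δ) * lam) (w x y)), s2, s4, sb, ?_⟩
  refine ⟨hsig, hs2, hs4, hsb, hRpos, ?_, ?_, hab, hrb, ?_, ?_⟩
  · exact_mod_cast ha2
  · exact_mod_cast ha4
  · have h8 : (1 + e) / (1 - e) ≤ 1 + 9 * e := by
      rw [div_le_iff₀ (by linarith)]
      nlinarith
    have h9 := EP_step hP (m := 1) (j := 0) (by omega)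
      (fun x y => ((ch (st ((1 - e * δ) * lam) (w x y))).card : ℝ))
    show EP P 1 (fun z => ((ch (st ((1 - e * δ) * lam) (w (z 0) (z (0 + 1))))).card : ℝ)) ≤
      (1 + 9 * e) * R
    rw [h9]
    exact ht.trans (mul_le_mul_of_nonneg_right h8 hRpos.le)
  · have h5 := ch_ns hP g (lam := lam) (δ := δ) (8 * a) hsb hoptb ns
    have h6 := h5.trans h4
    set N : ℝ := EP P (8 * a) (fun z => ind (ns z) * ((ch (sb (z 0) (z (8 * a)))).card : ℝ)) with hN
    have hbpos : (0 : ℝ) < ((8 * a : ℕ) : ℝ) := by exact_mod_cast hb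
    have h7 : (((8 * a : ℕ) : ℝ) * (δ * lam)) * N ≤ (((8 * a : ℕ) : ℝ) * (δ * lam)) * (e * R) := by
      rw [hR] at h6
      linarith
    have h8 : N ≤ e * R := le_of_mul_le_mul_left h7 (by positivity)
    have h9 : e * R ≤ 9 * e * R := by
      have := mul_pos he hRpos
      linarith
    exact h8.trans h9

end Pool.Agent.H3NG
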