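import Pool.Agent.H3NG.SelA
import Pool.Agent.H3NG.SelB
import Pool.Agent.H3NG.CoreBd

/-!
# Module MainIneq : the main inequality (assembled)
-/

set_option autoImplicit false

open Finset

namespace Pool.Agent.H3NG

variable {X : Type} [NormedAddCommGroup X] [NormedSpace ℝ X]
  {co : ∀ n : ℕ, X →ₗ[ℝ] (ZMod (n + 1) → ℝ)}

theorem main_inequality (hco : Model X co) {V : Type} [Fintype V] [DecidableEq V] [Nonempty V]
    {P : Matrix V V ℝ} (hP : SStoch P) (f : V → X) {a : ℕ} (ha : 1 ≤ a) {Lam w K : ℝ}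
    (hLam : 0 ≤ Lam) (hf : ∀ x y, 0 < P x y → ‖f x - f y‖ ≤ Lam * Sn P f 1) (pc : V → V)
    (hK : 0 < K) (hpc : ∀ i, (({x | pc x = i} : Set V).ncard : ℝ) ≤ K)
    (hns : Lam ^ 2 * ((8 * a : ℕ) * cut P pc) ≤ cMI)
    (hw : 0 < w) (hwP : ∀ x y, 0 < P x y → w ≤ P x y)
    (hS : 0 < Sn P f 1) (hSb : (1 - cMI) * ((8 * a : ℕ) * Sn P f 1) ≤ Sn P f (8 * a)) :
    (4 : ℝ) ^ a ≤ 9 * (1 + Real.log (2 * K / w)) := by
  have he : (0 : ℝ) < 1 / 10 ^ 18 / 9 := by positivity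
  have hns' : Lam ^ 2 * EP P (8 * a) (fun z => ind (∃ j ≤ 8 * a, pc (z j) ≠ pc (z 0))) ≤ cMI :=
    le_trans (mul_le_mul_of_nonneg_left (ns_prob hP pc (8 * a)) (sq_nonneg _)) hns
  obtain ⟨n, lam, g, hl, h1, h2, h3, h4⟩ := exists_level hco hP ha
    (fun z => ∃ j ≤ 8 * a, pc (z j) ≠ pc (z 0)) f he (by norm_num) rfl rfl hLam hf hns' hS hSb
  obtain ⟨R, σ, s2, s4, sb, hc⟩ := core_of_level hP ha _ g he (by norm_num)
    (by positivity) (by norm_num) hl h1 h2 h3 h4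
  have hc' : Core P a (fun z => ∃ j ≤ 8 * a, pc (z j) ≠ pc (z 0)) (1 / 10 ^ 18) R σ s2 s4 sb := by
    have : (9 : ℝ) * (1 / 10 ^ 18 / 9) = 1 / 10 ^ 18 := by norm_num
    rw [this] at hc
    exact hc
  exact core_bound hP ha pc hc' hw hwP hK hpc

end Pool.Agent.H3NG
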