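import Mathlib

/-!
# Module Num : the numerical inequalities of the recursion

Take `w = 3 + ⌊c √j / 8⌋` (or similar).  Then `j / w ≥ 6 √j / c` for large `j` and `(1-c)^(j/w) ≤ exp (- c (j/w))`, which beats `D exp(√j)`.
The second line: with `l = 2 ^ (49 j^2)`, `log (l+1) / l ≤ 2 / √l`, so the bracket is at most `C exp (-3.5 j)` and
`2^j exp(2 √j) exp(-3.5 j) → 0`.  The third line: the left-hand side is at most `C 2^(49 j^2)`, the right-hand side is `2^(2^(w-2))` and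
`2^(w-2) ≥ 2^(c √j / 8) ` grows faster than every polynomial in `j`.
-/

set_option autoImplicit false

namespace Pool.Agent.H3NG

/-- the first inequality -/
private lemma num1 {c D x : ℝ} {j w : ℕ} (hc : 0 < c) (hc1 : c < 1) (hD : 1 ≤ D)
    (hx : x ^ 2 = j) (hxD : D ≤ x) (hw0 : 0 < w) (hw : (w : ℝ) ≤ c * x / 6) :
    (1 - c) ^ (j / w) * D < Real.exp (-x) := by
  have hx0 : 0 < x := by linarith
  have hwr : (0 : ℝ) < w := by exact_mod_cast hw0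
  have h1 : (j : ℝ) / w < ((j / w : ℕ) : ℝ) + 1 := by
    rw [div_lt_iff₀ hwr]
    have := Nat.lt_div_mul_add (a := j) hw0
    have h2 : (j : ℝ) < ((j / w : ℕ) : ℝ) * w + w := by exact_mod_cast this
    linarith
  have h2 : 6 * x / c ≤ (j : ℝ) / w := by
    rw [div_le_div_iff₀ hc hwr, ← hx]
    nlinarith
  have h3 : 6 * x ≤ c * ((j / w : ℕ) : ℝ) + c := by
    have : 6 * x / c < ((j / w : ℕ) : ℝ) + 1 := h2.trans_lt h1
    rw [div_lt_iff₀ hc] at this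
    linarith
  have h4 : (1 - c) ^ (j / w) ≤ Real.exp (-(c * ((j / w : ℕ) : ℝ))) := by
    have h5 : 1 - c ≤ Real.exp (-c) := by
      have := Real.add_one_le_exp (-c)
      linarith
    calc (1 - c) ^ (j / w) ≤ Real.exp (-c) ^ (j / w) := pow_le_pow_left₀ (by linarith) h5 _
      _ = _ := by
        rw [← Real.exp_nat_mul]
        congr 1
        ring
  have h5 : Real.exp (-(c * ((j / w : ℕ) : ℝ))) ≤ Real.exp (1 - 6 * x) :=
    Real.exp_le_exp.2 (by linarith)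
  have h6 : Real.exp (1 - 6 * x) * D < Real.exp (-x) := by
    have h7 : Real.exp (1 - 6 * x) = Real.exp (-x) * (Real.exp 1 * Real.exp (-(5 * x))) := by
      rw [← Real.exp_add, ← Real.exp_add]
      congr 1
      ring
    have h8 : Real.exp 1 * D < Real.exp (5 * x) := by
      have h9 := Real.add_one_le_exp (5 * x)
      have h10 := Real.exp_one_lt_d9
      nlinarith
    have h9 : Real.exp (-(5 * x)) * Real.exp (5 * x) = 1 := by
      rw [← Real.exp_add]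
      simp
    rw [h7]
    have h10 : Real.exp 1 * Real.exp (-(5 * x)) * D < 1 := by
      calc Real.exp 1 * Real.exp (-(5 * x)) * D = Real.exp (-(5 * x)) * (Real.exp 1 * D) := by ring
        _ < Real.exp (-(5 * x)) * Real.exp (5 * x) := by gcongr
        _ = 1 := h9
    calc Real.exp (-x) * (Real.exp 1 * Real.exp (-(5 * x))) * D =
        Real.exp (-x) * (Real.exp 1 * Real.exp (-(5 * x)) * D) := by ring
      _ < Real.exp (-x) * 1 := by gcongr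
      _ = _ := mul_one _
  calc (1 - c) ^ (j / w) * D ≤ Real.exp (1 - 6 * x) * D := by
        gcongr
        exact h4.trans h5
    _ < _ := h6

private lemma two_pow_ge (n : ℕ) : Real.exp (2 / 3 * n) ≤ (2 : ℝ) ^ n := by
  have h1 : Real.exp (2 / 3) ≤ 2 := by
    have h2 : (2 : ℝ) / 3 ≤ Real.log 2 := by
      have := Real.log_two_gt_d9
      linarith
    calc Real.exp (2 / 3) ≤ Real.exp (Real.log 2) := Real.exp_le_exp.2 h2
      _ = 2 := Real.exp_log (by norm_num)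
  calc Real.exp (2 / 3 * n) = Real.exp (2 / 3) ^ n := by
        rw [← Real.exp_nat_mul]
        congr 1
        ring
    _ ≤ 2 ^ n := pow_le_pow_left₀ (Real.exp_pos _).le h1 _

private lemma two_pow_le (n : ℕ) : (2 : ℝ) ^ n ≤ Real.exp (7 / 10 * n) := by
  have h1 : 2 ≤ Real.exp (7 / 10) := by
    have h2 : Real.log 2 ≤ 7 / 10 := by
      have := Real.log_two_lt_d9
      linarith
    calc (2 : ℝ) = Real.exp (Real.log 2) := (Real.exp_log (by norm_num)).symm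
      _ ≤ Real.exp (7 / 10) := Real.exp_le_exp.2 h2
  calc (2 : ℝ) ^ n ≤ Real.exp (7 / 10) ^ n := pow_le_pow_left₀ (by norm_num) h1 _
    _ = Real.exp (7 / 10 * n) := by
        rw [← Real.exp_nat_mul]
        congr 1
        ring

/-- the second inequality -/
private lemma num2 {c D x L : ℝ} {j : ℕ} (hc : 0 < c) (hD : 1 ≤ D) (hL : 0 ≤ L) (hj : 1 ≤ j)
    (hx : x ^ 2 = j) (hx1 : 1 ≤ x) (hxD : 2 * (D ^ 2 * (2 * Real.sqrt (50 + L) + 2)) / c ≤ x) :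
    D ^ 2 * Real.exp (2 * x) * 2 ^ j *
        (2 * Real.sqrt (Real.log ((2 : ℝ) ^ (49 * j ^ 2) + 1) / 2 ^ (49 * j ^ 2) +
          L * Real.exp (-(7 * j))) + 2 / 2 ^ (49 * j ^ 2)) ≤ c := by
  have hjr : (1 : ℝ) ≤ j := by exact_mod_cast hj
  have hxj : x ≤ j := by rw [← hx]; nlinarith
  have hP1 : (1 : ℝ) ≤ 2 ^ (49 * j ^ 2) := one_le_pow₀ (by norm_num)
  have hP0 : (0 : ℝ) < 2 ^ (49 * j ^ 2) := by positivity
  -- the large power
  have hinv : 1 / (2 : ℝ) ^ (49 * j ^ 2) ≤ Real.exp (-(32 * j ^ 2)) := by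
    rw [div_le_iff₀ hP0]
    have h1 := two_pow_ge (49 * j ^ 2)
    have h2 : Real.exp (-(32 * (j : ℝ) ^ 2)) * Real.exp (32 * (j : ℝ) ^ 2) = 1 := by
      rw [← Real.exp_add]
      simp
    have h3 : Real.exp (32 * (j : ℝ) ^ 2) ≤ Real.exp (2 / 3 * ((49 * j ^ 2 : ℕ) : ℝ)) := by
      apply Real.exp_le_exp.2
      push_cast
      nlinarith
    calc (1 : ℝ) = Real.exp (-(32 * (j : ℝ) ^ 2)) * Real.exp (32 * (j : ℝ) ^ 2) := h2.symm
      _ ≤ _ := by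
        gcongr
        exact h3.trans h1
  have hlog : Real.log ((2 : ℝ) ^ (49 * j ^ 2) + 1) ≤ 50 * (j : ℝ) ^ 2 := by
    have h1 : (2 : ℝ) ^ (49 * j ^ 2) + 1 ≤ 2 ^ (49 * j ^ 2 + 1) := by
      rw [pow_succ (2 : ℝ) (49 * j ^ 2)]
      linarith
    have h2 : Real.log ((2 : ℝ) ^ (49 * j ^ 2) + 1) ≤ Real.log (2 ^ (49 * j ^ 2 + 1)) :=
      Real.log_le_log (by positivity) h1
    rw [Real.log_pow] at h2
    have h3 := Real.log_two_lt_d9
    have h4 := Real.log_two_gt_d9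
    refine h2.trans ?_
    push_cast
    have : (1 : ℝ) ≤ (j : ℝ) ^ 2 := one_le_pow₀ hjr
    nlinarith
  have hj2 : (j : ℝ) ^ 2 ≤ Real.exp ((j : ℝ) ^ 2) := by
    have := Real.add_one_le_exp ((j : ℝ) ^ 2)
    linarith
  have hA : Real.log ((2 : ℝ) ^ (49 * j ^ 2) + 1) / 2 ^ (49 * j ^ 2) ≤
      50 * Real.exp (-(7 * j)) := by
    calc Real.log ((2 : ℝ) ^ (49 * j ^ 2) + 1) / 2 ^ (49 * j ^ 2) =
        Real.log ((2 : ℝ) ^ (49 * j ^ 2) + 1) * (1 / 2 ^ (49 * j ^ 2)) := by ring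
      _ ≤ (50 * Real.exp ((j : ℝ) ^ 2)) * Real.exp (-(32 * j ^ 2)) := by
        gcongr
        exact hlog.trans (by gcongr)
      _ = 50 * Real.exp (-(31 * (j : ℝ) ^ 2)) := by
        rw [mul_assoc, ← Real.exp_add]
        congr 2
        ring
      _ ≤ 50 * Real.exp (-(7 * j)) := by
        have : Real.exp (-(31 * (j : ℝ) ^ 2)) ≤ Real.exp (-(7 * j)) :=
          Real.exp_le_exp.2 (by nlinarith)
        linarith
  have hB : 2 / (2 : ℝ) ^ (49 * j ^ 2) ≤ 2 * Real.exp (-(7 / 2 * j)) := by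
    calc 2 / (2 : ℝ) ^ (49 * j ^ 2) = 2 * (1 / 2 ^ (49 * j ^ 2)) := by ring
      _ ≤ 2 * Real.exp (-(32 * j ^ 2)) := by gcongr
      _ ≤ _ := by
        have : Real.exp (-(32 * (j : ℝ) ^ 2)) ≤ Real.exp (-(7 / 2 * j)) :=
          Real.exp_le_exp.2 (by nlinarith)
        linarith
  have hsq : Real.sqrt (Real.log ((2 : ℝ) ^ (49 * j ^ 2) + 1) / 2 ^ (49 * j ^ 2) +
      L * Real.exp (-(7 * j))) ≤ Real.sqrt (50 + L) * Real.exp (-(7 / 2 * j)) := by
    have h1 : Real.exp (-(7 * (j : ℝ))) = Real.exp (-(7 / 2 * j)) ^ 2 := by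
      rw [← Real.exp_nat_mul]
      congr 1
      push_cast
      ring
    calc Real.sqrt (Real.log ((2 : ℝ) ^ (49 * j ^ 2) + 1) / 2 ^ (49 * j ^ 2) +
        L * Real.exp (-(7 * j))) ≤ Real.sqrt ((50 + L) * Real.exp (-(7 * j))) := by
          apply Real.sqrt_le_sqrt
          rw [add_mul]
          gcongr
      _ = Real.sqrt (50 + L) * Real.exp (-(7 / 2 * j)) := by
          rw [Real.sqrt_mul (by linarith), h1, Real.sqrt_sq (Real.exp_pos _).le]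
  have hpow := two_pow_le j
  have hC0 : 0 ≤ 2 * Real.sqrt (50 + L) + 2 := by positivity
  have hexp : Real.exp (-(4 / 5 * (j : ℝ))) ≤ 2 / x := by
    rw [le_div_iff₀ (by linarith)]
    have h1 : x / 2 ≤ Real.exp (4 / 5 * (j : ℝ)) := by
      have := Real.add_one_le_exp (4 / 5 * (j : ℝ))
      linarith
    have h2 : Real.exp (-(4 / 5 * (j : ℝ))) * Real.exp (4 / 5 * (j : ℝ)) = 1 := by
      rw [← Real.exp_add]
      simp
    calc Real.exp (-(4 / 5 * (j : ℝ))) * x = 2 * (Real.exp (-(4 / 5 * (j : ℝ))) * (x / 2)) := by ring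
      _ ≤ 2 * (Real.exp (-(4 / 5 * (j : ℝ))) * Real.exp (4 / 5 * (j : ℝ))) := by gcongr
      _ = 2 := by rw [h2]; ring
  calc D ^ 2 * Real.exp (2 * x) * 2 ^ j *
        (2 * Real.sqrt (Real.log ((2 : ℝ) ^ (49 * j ^ 2) + 1) / 2 ^ (49 * j ^ 2) +
          L * Real.exp (-(7 * j))) + 2 / 2 ^ (49 * j ^ 2)) ≤
      D ^ 2 * Real.exp (2 * j) * Real.exp (7 / 10 * j) *
        (2 * (Real.sqrt (50 + L) * Real.exp (-(7 / 2 * j))) + 2 * Real.exp (-(7 / 2 * j))) := by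
        gcongr
    _ = D ^ 2 * (2 * Real.sqrt (50 + L) + 2) *
        (Real.exp (2 * j) * Real.exp (7 / 10 * j) * Real.exp (-(7 / 2 * j))) := by ring
    _ = D ^ 2 * (2 * Real.sqrt (50 + L) + 2) * Real.exp (-(4 / 5 * (j : ℝ))) := by
        rw [← Real.exp_add, ← Real.exp_add]
        congr 2
        ring
    _ ≤ D ^ 2 * (2 * Real.sqrt (50 + L) + 2) * (2 / x) := by gcongr
    _ ≤ c := by
        rw [mul_div_assoc', div_le_iff₀ (by linarith)]
        rw [div_le_iff₀ hc] at hxD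
        linarith

/-- the third inequality -/
private lemma num3 {c x : ℝ} {j w k m : ℕ} (hc : 0 < c) (hj : 1 ≤ j) (hk : 3 ≤ k)
    (hm : 9 * (2 + 2 * (k : ℝ)) ≤ 2 ^ m) (hx : x ^ 2 = j) (hx1 : 1 ≤ x)
    (hxD : 120 * 16 ^ 5 * (50 + m) / c ^ 5 ≤ x) (hw : c * x / 8 ≤ ((w - 3 : ℕ) : ℝ) + 1) :
    9 * (1 + (Real.log 2 + 2 ^ (49 * j ^ 2) * Real.log (k + 1) + 2 ^ j * Real.log k)) <
        (4 : ℝ) ^ (2 ^ (w - 3)) := by
  have hkr : (3 : ℝ) ≤ k := by exact_mod_cast hk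
  have hjr : (1 : ℝ) ≤ j := by exact_mod_cast hj
  have hP1 : (1 : ℝ) ≤ 2 ^ (49 * j ^ 2) := one_le_pow₀ (by norm_num)
  have h1 : Real.log 2 ≤ 1 := by
    have := Real.log_two_lt_d9
    linarith
  have h2 : Real.log (k + 1) ≤ k := by
    have := Real.log_le_sub_one_of_pos (show (0 : ℝ) < k + 1 by linarith)
    linarith
  have h3 : Real.log k ≤ k := by
    have := Real.log_le_sub_one_of_pos (show (0 : ℝ) < k by linarith)
    linarith
  have h4 : (2 : ℝ) ^ j ≤ 2 ^ (49 * j ^ 2) := pow_le_pow_right₀ (by norm_num) (by nlinarith)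
  have h5 : 9 * (1 + (Real.log 2 + 2 ^ (49 * j ^ 2) * Real.log (k + 1) + 2 ^ j * Real.log k)) ≤
      2 ^ (49 * j ^ 2 + m) := by
    calc 9 * (1 + (Real.log 2 + 2 ^ (49 * j ^ 2) * Real.log (k + 1) + 2 ^ j * Real.log k)) ≤
        9 * ((2 : ℝ) ^ (49 * j ^ 2) + ((2 : ℝ) ^ (49 * j ^ 2) + (2 : ℝ) ^ (49 * j ^ 2) * (k : ℝ) +
          (2 : ℝ) ^ (49 * j ^ 2) * (k : ℝ))) := by
          have : 0 ≤ Real.log k := Real.log_nonneg (by linarith)
          gcongr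
          exact h1.trans hP1
      _ = (2 : ℝ) ^ (49 * j ^ 2) * (9 * (2 + 2 * (k : ℝ))) := by ring
      _ ≤ (2 : ℝ) ^ (49 * j ^ 2) * 2 ^ m := by gcongr
      _ = _ := by rw [pow_add]
  have h6 : (4 : ℝ) ^ (2 ^ (w - 3)) = 2 ^ (2 * 2 ^ (w - 3)) := by
    rw [pow_mul]
    norm_num
  rw [h6]
  refine h5.trans_lt (pow_lt_pow_right₀ (by norm_num) ?_)
  -- exponents
  have h7 : ((49 * j ^ 2 + m : ℕ) : ℝ) < ((2 * 2 ^ (w - 3) : ℕ) : ℝ) := by
    push_cast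
    have h8 : Real.exp (c * x / 16) ≤ 2 * 2 ^ (w - 3) := by
      have h9 := two_pow_ge (w - 3 + 1)
      rw [pow_succ] at h9
      have h10 : Real.exp (c * x / 16) ≤ Real.exp (2 / 3 * ((w - 3 + 1 : ℕ) : ℝ)) := by
        apply Real.exp_le_exp.2
        push_cast
        have : 0 ≤ ((w - 3 : ℕ) : ℝ) := by positivity
        linarith
      linarith
    have h9 : (c * x / 16) ^ 5 / 120 ≤ Real.exp (c * x / 16) := by
      have := Real.pow_div_factorial_le_exp (c * x / 16) (by positivity) 5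
      have e : ((Nat.factorial 5 : ℕ) : ℝ) = 120 := by norm_num [Nat.factorial]
      rwa [e] at this
    rw [div_le_iff₀ (by positivity)] at hxD
    have h10 : (50 + (m : ℝ)) * x ^ 4 ≤ (c * x / 16) ^ 5 / 120 := by
      have e1 : (c * x / 16) ^ 5 / 120 = (x * c ^ 5) * x ^ 4 / (120 * 16 ^ 5) := by ring
      rw [e1, le_div_iff₀ (by positivity)]
      calc (50 + (m : ℝ)) * x ^ 4 * (120 * 16 ^ 5) = (120 * 16 ^ 5 * (50 + m)) * x ^ 4 := by ring
        _ ≤ (x * c ^ 5) * x ^ 4 := by gcongr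
    have h11 : (1 : ℝ) ≤ x ^ 4 := one_le_pow₀ hx1
    have h12 : (j : ℝ) ^ 2 = x ^ 4 := by rw [← hx]; ring
    rw [h12]
    have hm0 : (0 : ℝ) ≤ m := by positivity
    nlinarith
  exact_mod_cast h7

theorem numerics {c D : ℝ} (hc : 0 < c) (hc1 : c < 1) (hD : 1 ≤ D) {k : ℕ} (hk : 3 ≤ k) :
    ∃ j0 : ℕ, 2 ≤ j0 ∧ ∀ j : ℕ, j0 ≤ j → ∃ w : ℕ, 3 ≤ w ∧ w ≤ j ∧
      (1 - c) ^ (j / w) * D < Real.exp (-Real.sqrt j) ∧
      D ^ 2 * Real.exp (2 * Real.sqrt j) * 2 ^ j *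
        (2 * Real.sqrt (Real.log ((2 : ℝ) ^ (49 * j ^ 2) + 1) / 2 ^ (49 * j ^ 2) +
          Real.log k * Real.exp (-(7 * j))) + 2 / 2 ^ (49 * j ^ 2)) ≤ c ∧
      9 * (1 + (Real.log 2 + 2 ^ (49 * j ^ 2) * Real.log (k + 1) + 2 ^ j * Real.log k)) <
        (4 : ℝ) ^ (2 ^ (w - 3)) := by
  have hkr : (3 : ℝ) ≤ k := by exact_mod_cast hk
  have hL : 0 ≤ Real.log k := Real.log_nonneg (by linarith)
  obtain ⟨m, hm⟩ : ∃ m : ℕ, 9 * (2 + 2 * (k : ℝ)) ≤ 2 ^ m := by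
    obtain ⟨m, hm⟩ := pow_unbounded_of_one_lt (9 * (2 + 2 * (k : ℝ))) (by norm_num : (1 : ℝ) < 2)
    exact ⟨m, hm.le⟩
  obtain ⟨X, hX1, hX2, hX3, hX4, hX5⟩ : ∃ X : ℝ, 1 ≤ X ∧ D ≤ X ∧ 72 / c ≤ X ∧
      2 * (D ^ 2 * (2 * Real.sqrt (50 + Real.log k) + 2)) / c ≤ X ∧
      120 * 16 ^ 5 * (50 + m) / c ^ 5 ≤ X := by
    refine ⟨1 + D + 72 / c + 2 * (D ^ 2 * (2 * Real.sqrt (50 + Real.log k) + 2)) / c +
      120 * 16 ^ 5 * (50 + m) / c ^ 5, ?_, ?_, ?_, ?_, ?_⟩ <;>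
    · have a1 : 0 ≤ 72 / c := by positivity
      have a2 : 0 ≤ 2 * (D ^ 2 * (2 * Real.sqrt (50 + Real.log k) + 2)) / c := by positivity
      have a3 : 0 ≤ 120 * 16 ^ 5 * (50 + (m : ℝ)) / c ^ 5 := by positivity
      linarith
  refine ⟨⌈X ^ 2⌉₊ + 2, by omega, fun j hj => ?_⟩
  have hjX : X ^ 2 ≤ j := (Nat.le_ceil _).trans (by
    have : ⌈X ^ 2⌉₊ ≤ j := by omega
    exact_mod_cast this)
  have hj1 : 1 ≤ j := by omega
  have hjr : (1 : ℝ) ≤ j := by exact_mod_cast hj1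
  set x := Real.sqrt j with hxd
  have hxX : X ≤ x := by
    rw [hxd]
    exact Real.le_sqrt_of_sq_le hjX
  have hx : x ^ 2 = j := Real.sq_sqrt (by linarith)
  have hx1 : 1 ≤ x := hX1.trans hxX
  have hxj : x ≤ j := by rw [← hx]; nlinarith
  have hcx : 0 ≤ c * x / 8 := by positivity
  have h72 : 72 ≤ c * x := by
    have := hX3.trans hxX
    rw [div_le_iff₀ hc] at this
    linarith
  have hfl := Nat.floor_le hcx
  have hw : ((3 + ⌊c * x / 8⌋₊ : ℕ) : ℝ) ≤ c * x / 6 := by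
    push_cast
    linarith
  refine ⟨3 + ⌊c * x / 8⌋₊, by omega, ?_, num1 hc hc1 hD hx (hX2.trans hxX) (by omega) hw,
    num2 hc hD hL hj1 hx hx1 (hX4.trans hxX), num3 hc hj1 hk hm hx hx1 (hX5.trans hxX) ?_⟩
  · have : ((3 + ⌊c * x / 8⌋₊ : ℕ) : ℝ) ≤ (j : ℝ) := by
      refine hw.trans (le_trans ?_ hxj)
      nlinarith
    exact_mod_cast this
  · rw [Nat.add_sub_cancel_left]
    exact (Nat.lt_floor_add_one _).le

end Pool.Agent.H3NG
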