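import Pool.Agent.H3NG.Round
import Pool.Agent.H3NG.EntB
import Pool.Agent.H3NG.Walk

/-!
# Module Part : the partition

* `entropy_bound`: `gibbs` for `p = (Q ^ l) x ·` and `q y = if dist x y ≤ l then k^(-dist x y) / (l+1) else 0`; `∑ q ≤ 1` by `sphere_card`;
  `- log q = log (l+1) + dist * log k`; average over `x`.
* `exists_partition`: `N = l * k^l`, `n x v = N * nu x v` is a natural number (`srw_int` for `i = 1..l`, times `k^(l-i)`), `∑ v, n x v = N`.
  `rounding`, `l1_bound`, `entropy_bound` (monotonicity of the square root).  `0 < n x (pc x)` gives `(Q^i) x (pc x) > 0` for some `i ≤ l`, so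
  `dist x (pc x) ≤ l` and the piece of `v` is contained in the ball of radius `l` around `v` (`ball_card`).
-/

set_option autoImplicit false

open Finset

namespace Pool.Agent.H3NG

variable {V : Type} [Fintype V] [DecidableEq V] [Nonempty V] {k : ℕ} {Gr : SimpleGraph V}

private theorem sum_q_le (hk : 1 ≤ k) (hreg : ∀ v, (Gr.neighborSet v).ncard = k)
    (hconn : Gr.Connected) (l : ℕ) (x : V) :
    ∑ v, (if Gr.dist x v ≤ l then ((k : ℝ) ^ (Gr.dist x v))⁻¹ / ((l : ℝ) + 1) else 0) ≤ 1 := by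
  have hkpos : (0 : ℝ) < k := by exact_mod_cast hk
  have hl1 : (0 : ℝ) < (l : ℝ) + 1 := by positivity
  have e1 : ∀ v, (if Gr.dist x v ≤ l then ((k : ℝ) ^ (Gr.dist x v))⁻¹ / ((l : ℝ) + 1) else 0)
      = ∑ d ∈ range (l + 1), if Gr.dist x v = d then ((k : ℝ) ^ d)⁻¹ / ((l : ℝ) + 1) else 0 := by
    intro v
    rw [Finset.sum_ite_eq]
    by_cases h : Gr.dist x v ≤ l
    · rw [if_pos h, if_pos (Finset.mem_range.2 (by omega))]
    · rw [if_neg h, if_neg (by rw [Finset.mem_range]; omega)]
  rw [Finset.sum_congr rfl (fun v _ => e1 v), Finset.sum_comm]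
  have e2 : ∀ d ∈ range (l + 1),
      ∑ v, (if Gr.dist x v = d then ((k : ℝ) ^ d)⁻¹ / ((l : ℝ) + 1) else 0) ≤ 1 / ((l : ℝ) + 1) := by
    intro d _
    rw [← Finset.sum_filter, Finset.sum_const, nsmul_eq_mul]
    have hc : ((univ.filter (fun v => Gr.dist x v = d)).card : ℝ) ≤ (k : ℝ) ^ d := by
      have h1 := sphere_card hreg hconn x d
      have h2 : ({y | Gr.dist x y = d} : Set V).ncard
          = (univ.filter (fun v => Gr.dist x v = d)).card := by
        rw [← Set.ncard_coe_finset]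
        congr 1
        ext y
        simp
      rw [h2] at h1
      exact_mod_cast h1
    have hpw : (0 : ℝ) < (k : ℝ) ^ d := by positivity
    rw [← mul_div_assoc]
    refine div_le_div_of_nonneg_right ?_ hl1.le
    calc ((univ.filter (fun v => Gr.dist x v = d)).card : ℝ) * ((k : ℝ) ^ d)⁻¹
        ≤ (k : ℝ) ^ d * ((k : ℝ) ^ d)⁻¹ :=
          mul_le_mul_of_nonneg_right hc (inv_nonneg.2 hpw.le)
      _ = 1 := mul_inv_cancel₀ hpw.ne'
  refine (Finset.sum_le_sum e2).trans ?_
  rw [Finset.sum_const, Finset.card_range, nsmul_eq_mul]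
  push_cast
  rw [mul_one_div_cancel hl1.ne']

theorem entropy_bound (hk : 1 ≤ k) (hreg : ∀ v, (Gr.neighborSet v).ncard = k)
    (hconn : Gr.Connected) (l : ℕ) :
    Hn (srw k Gr) l ≤ Real.log (l + 1) +
      Real.log k * EM ((srw k Gr) ^ l) (fun x y => (Gr.dist x y : ℝ)) := by
  have hkpos : (0 : ℝ) < k := by exact_mod_cast hk
  have hl1 : (0 : ℝ) < (l : ℝ) + 1 := by positivity
  have hS := SStoch_pow (srw_stoch (Gr := Gr) hk hreg) l
  have hx : ∀ x : V, ∑ y, Real.negMulLog (((srw k Gr) ^ l) x y) ≤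
      Real.log (l + 1) + Real.log k * ∑ y, ((srw k Gr) ^ l) x y * (Gr.dist x y : ℝ) := by
    intro x
    have hg := gibbs (fun v => ((srw k Gr) ^ l) x v)
      (fun v => if Gr.dist x v ≤ l then ((k : ℝ) ^ (Gr.dist x v))⁻¹ / ((l : ℝ) + 1) else 0)
      (fun v => hS.nonneg x v)
      (fun v => by
        show 0 ≤ (if Gr.dist x v ≤ l then ((k : ℝ) ^ (Gr.dist x v))⁻¹ / ((l : ℝ) + 1) else 0)
        split_ifs
        · positivity
        · exact le_refl 0)
      (hS.sum_one x) (sum_q_le hk hreg hconn l x)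
      (fun v hv => by
        have := srw_dist hconn hv
        show 0 < (if Gr.dist x v ≤ l then ((k : ℝ) ^ (Gr.dist x v))⁻¹ / ((l : ℝ) + 1) else 0)
        rw [if_pos this]
        positivity)
    refine hg.trans (le_of_eq ?_)
    have e : ∀ v, ((srw k Gr) ^ l) x v *
        (-Real.log (if Gr.dist x v ≤ l then ((k : ℝ) ^ (Gr.dist x v))⁻¹ / ((l : ℝ) + 1) else 0))
        = ((srw k Gr) ^ l) x v * Real.log (l + 1) +
          Real.log k * (((srw k Gr) ^ l) x v * (Gr.dist x v : ℝ)) := by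
      intro v
      rcases (hS.nonneg x v).eq_or_lt with h0 | h0
      · rw [← h0]; ring
      · rw [if_pos (srw_dist hconn h0), Real.log_div (by positivity) hl1.ne', Real.log_inv,
          Real.log_pow]
        ring
    rw [Finset.sum_congr rfl (fun v _ => e v), Finset.sum_add_distrib, ← Finset.sum_mul,
      hS.sum_one x, one_mul, Finset.mul_sum]
  have hcard : (0 : ℝ) < (Fintype.card V : ℝ) := by exact_mod_cast Fintype.card_pos
  unfold Hn EM
  calc (Fintype.card V : ℝ)⁻¹ * ∑ x, ∑ y, Real.negMulLog (((srw k Gr) ^ l) x y)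
      ≤ (Fintype.card V : ℝ)⁻¹ * ∑ x : V, (Real.log (l + 1) +
          Real.log k * ∑ y, ((srw k Gr) ^ l) x y * (Gr.dist x y : ℝ)) := by
        refine mul_le_mul_of_nonneg_left (Finset.sum_le_sum (fun x _ => hx x)) ?_
        positivity
    _ = _ := by
        rw [Finset.sum_add_distrib, Finset.sum_const, Finset.card_univ, nsmul_eq_mul,
          ← Finset.mul_sum]
        field_simp

theorem exists_partition (hk : 1 ≤ k) (hreg : ∀ v, (Gr.neighborSet v).ncard = k)
    (hconn : Gr.Connected) {l : ℕ} (hl : 1 ≤ l) :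
    ∃ pc : V → V, (∀ i, (({x | pc x = i} : Set V).ncard : ℝ) ≤ ((k : ℝ) + 1) ^ l) ∧
      cut (srw k Gr) pc ≤ 2 * Real.sqrt ((Real.log (l + 1) +
        Real.log k * EM ((srw k Gr) ^ l) (fun x y => (Gr.dist x y : ℝ))) / l) + 2 / l := by
  have hkpos : (0 : ℝ) < k := by exact_mod_cast hk
  have hlpos : (0 : ℝ) < l := by exact_mod_cast hl
  have hQ := srw_stoch (Gr := Gr) hk hreg
  choose m hm using fun i => srw_int hk Gr i
  let n : V → V → ℕ := fun x v => ∑ i ∈ Icc 1 l, k ^ (l - i) * m i x v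
  have hnR : ∀ x v, (n x v : ℝ) = (k : ℝ) ^ l * ∑ i ∈ Icc 1 l, ((srw k Gr) ^ i) x v := by
    intro x v
    show ((∑ i ∈ Icc 1 l, k ^ (l - i) * m i x v : ℕ) : ℝ) = _
    push_cast
    rw [Finset.mul_sum]
    refine Finset.sum_congr rfl (fun i hi => ?_)
    rw [Finset.mem_Icc] at hi
    rw [hm i x v]
    have : (k : ℝ) ^ l = (k : ℝ) ^ (l - i) * (k : ℝ) ^ i := by
      rw [← pow_add]
      congr 1
      omega
    rw [this]
    ring
  have hNnat : 0 < l * k ^ l := Nat.mul_pos (by omega) (Nat.pow_pos (by omega))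
  have hsum : ∀ x, ∑ v, n x v = l * k ^ l := by
    intro x
    have : ((∑ v, n x v : ℕ) : ℝ) = ((l * k ^ l : ℕ) : ℝ) := by
      push_cast
      rw [Finset.sum_congr rfl (fun v _ => hnR x v), ← Finset.mul_sum, Finset.sum_comm]
      have : ∀ i ∈ Icc 1 l, ∑ v, ((srw k Gr) ^ i) x v = 1 := fun i _ =>
        (SStoch_pow hQ i).sum_one x
      rw [Finset.sum_congr rfl this, Finset.sum_const, Nat.card_Icc, nsmul_eq_mul]
      have : l + 1 - 1 = l := by omega
      rw [this]
      ring
    exact_mod_cast this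
  obtain ⟨pc, hpc, hcut⟩ := rounding (l * k ^ l) hNnat n hsum (srw k Gr) hQ.nonneg
  refine ⟨pc, ?_, ?_⟩
  · intro i
    have hsub : ({x | pc x = i} : Set V) ⊆ {y | Gr.dist i y ≤ l} := by
      intro x hx
      have hx' : pc x = i := hx
      have h1 := hpc x
      rw [hx'] at h1
      have h2 : ∃ j ∈ Icc 1 l, 0 < k ^ (l - j) * m j x i := by
        by_contra hcon
        push Not at hcon
        have : n x i = 0 := Finset.sum_eq_zero (fun j hj => by
          have := hcon j hj
          omega)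
        omega
      obtain ⟨j, hj, hj'⟩ := h2
      have h3 : 0 < m j x i := Nat.pos_of_mul_pos_left hj' 
      have h4 : (0 : ℝ) < ((srw k Gr) ^ j) x i * (k : ℝ) ^ j := by
        rw [← hm j x i]
        exact_mod_cast h3
      have h5 : (0 : ℝ) < ((srw k Gr) ^ j) x i :=
        pos_of_mul_pos_left h4 (by positivity)
      have h6 := srw_dist hconn h5
      rw [Finset.mem_Icc] at hj
      show Gr.dist i x ≤ l
      rw [SimpleGraph.dist_comm]
      omega
    have h1 : ({x | pc x = i} : Set V).ncard ≤ ({y | Gr.dist i y ≤ l} : Set V).ncard :=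
      Set.ncard_le_ncard hsub (Set.toFinite _)
    have h2 := h1.trans (ball_card hreg hconn i l)
    exact_mod_cast h2
  · have hnu : ∀ x y, (∑ v, |(n x v : ℝ) - n y v|) / ((l * k ^ l : ℕ) : ℝ)
        = ∑ v, |nu (srw k Gr) l x v - nu (srw k Gr) l y v| := by
      intro x y
      rw [Finset.sum_div]
      refine Finset.sum_congr rfl (fun v _ => ?_)
      have hNp : (0 : ℝ) < ((l * k ^ l : ℕ) : ℝ) := by exact_mod_cast hNnat
      have e : |(n x v : ℝ) - n y v| / ((l * k ^ l : ℕ) : ℝ)
          = |((n x v : ℝ) - n y v) / ((l * k ^ l : ℕ) : ℝ)| := by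
        rw [abs_div, abs_of_pos hNp]
      rw [e]
      congr 1
      rw [hnR, hnR]
      unfold nu
      push_cast
      field_simp
    have h1 : cut (srw k Gr) pc ≤
        EM (srw k Gr) (fun x y => ∑ v, |nu (srw k Gr) l x v - nu (srw k Gr) l y v|) := by
      unfold cut EM
      refine mul_le_mul_of_nonneg_left ?_ (by positivity)
      refine hcut.trans (le_of_eq ?_)
      refine Finset.sum_congr rfl (fun x _ => Finset.sum_congr rfl (fun y _ => ?_))
      rw [hnu]
    refine h1.trans ((l1_bound hQ hl).trans ?_)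
    have h2 := entropy_bound hk hreg hconn l
    have h3 : Real.sqrt (Hn (srw k Gr) l / l) ≤ Real.sqrt ((Real.log (l + 1) +
        Real.log k * EM ((srw k Gr) ^ l) (fun x y => (Gr.dist x y : ℝ))) / l) :=
      Real.sqrt_le_sqrt (div_le_div_of_nonneg_right h2 hlpos.le)
    linarith

end Pool.Agent.H3NG
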