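import Pool.Agent.H3NG.PathA

/-!
# Module RecA : mean square displacement

* `Sn_double`: `EM_pow_add` with `‖f x - f y‖^2 ≤ 2 ‖f x - f z‖^2 + 2 ‖f z - f y‖^2`.
* `Sn_pow`: `pow_mul`.
* `EM_le_Sn`: Jensen / Cauchy-Schwarz for the probability `(card V)⁻¹ (Q ^ m) x y`.
-/

set_option autoImplicit false

open Finset

namespace Pool.Agent.H3NG

variable {X : Type} [NormedAddCommGroup X] {V : Type} [Fintype V] [DecidableEq V] [Nonempty V]

theorem Sn_double {Q : Matrix V V ℝ} (hQ : SStoch Q) (f : V → X) (m : ℕ) :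
    Sn Q f (2 * m) ≤ 2 * Sn Q f m := by
  unfold Sn
  have h1 : EM (Q ^ (m + m)) (fun x y => ‖f x - f y‖ ^ 2)
      ≤ EM (Q ^ m) (fun x y => 2 * ‖f x - f y‖ ^ 2) + EM (Q ^ m) (fun x y => 2 * ‖f x - f y‖ ^ 2) := by
    refine EM_pow_add hQ m m ?_
    intro x z y
    have h2 : ‖f x - f y‖ ≤ ‖f x - f z‖ + ‖f z - f y‖ := by
      have : f x - f y = (f x - f z) + (f z - f y) := by abel
      rw [this]
      exact norm_add_le _ _
    have h3 := norm_nonneg (f x - f y)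
    have h4 : ‖f x - f y‖ ^ 2 ≤ (‖f x - f z‖ + ‖f z - f y‖) ^ 2 := by
      exact pow_le_pow_left₀ h3 h2 2
    nlinarith [sq_nonneg (‖f x - f z‖ - ‖f z - f y‖)]
  rw [EM_const_mul] at h1
  have h5 : EM (Q ^ (2 * m)) (fun x y => ‖f x - f y‖ ^ 2)
      ≤ 2 ^ 2 * EM (Q ^ m) (fun x y => ‖f x - f y‖ ^ 2) := by
    rw [two_mul]
    linarith
  calc Real.sqrt (EM (Q ^ (2 * m)) (fun x y => ‖f x - f y‖ ^ 2))
      ≤ Real.sqrt (2 ^ 2 * EM (Q ^ m) (fun x y => ‖f x - f y‖ ^ 2)) := Real.sqrt_le_sqrt h5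
    _ = 2 * Real.sqrt (EM (Q ^ m) (fun x y => ‖f x - f y‖ ^ 2)) := by
        rw [Real.sqrt_mul (by norm_num), Real.sqrt_sq (by norm_num)]

theorem Sn_pow (Q : Matrix V V ℝ) (f : V → X) (n m : ℕ) : Sn (Q ^ n) f m = Sn Q f (n * m) := by
  unfold Sn
  rw [pow_mul]

private theorem EM_cst {P : Matrix V V ℝ} (hP : SStoch P) (c : ℝ) :
    EM P (fun _ _ => c) = c := by
  unfold EM
  have h1 : ∀ x : V, ∑ y, P x y * c = c := by
    intro x
    rw [← Finset.sum_mul, hP.sum_one, one_mul]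
  simp only [h1, Finset.sum_const, Finset.card_univ, nsmul_eq_mul]
  have h : (Fintype.card V : ℝ) ≠ 0 := by
    exact_mod_cast Fintype.card_ne_zero
  field_simp

theorem EM_le_Sn {Q : Matrix V V ℝ} (hQ : SStoch Q) (f : V → X) (m : ℕ) (d : V → V → ℝ)
    (hd : ∀ x y, d x y ≤ ‖f x - f y‖) : EM (Q ^ m) d ≤ Sn Q f m := by
  have hm := SStoch_pow hQ m
  have h1 : EM (Q ^ m) d ≤ EM (Q ^ m) (fun x y => ‖f x - f y‖) :=
    EM_mono hm (fun x y _ => hd x y)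
  refine h1.trans ?_
  unfold Sn
  apply Real.le_sqrt_of_sq_le
  set A := EM (Q ^ m) (fun x y => ‖f x - f y‖) with hA
  have h2 : EM (Q ^ m) (fun _ _ => (0 : ℝ)) ≤ EM (Q ^ m) (fun x y => (‖f x - f y‖ - A) ^ 2) :=
    EM_mono hm (fun x y _ => sq_nonneg _)
  rw [EM_cst hm] at h2
  have h3 : EM (Q ^ m) (fun x y => (‖f x - f y‖ - A) ^ 2)
      = EM (Q ^ m) (fun x y => ‖f x - f y‖ ^ 2) + ((-2 * A) * A + A ^ 2) := by
    have e1 : (fun x y : V => (‖f x - f y‖ - A) ^ 2)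
        = (fun x y => ‖f x - f y‖ ^ 2 + ((-2 * A) * ‖f x - f y‖ + A ^ 2)) := by
      funext x y; ring
    rw [e1, EM_add (Q ^ m) (fun x y => ‖f x - f y‖ ^ 2) (fun x y => (-2 * A) * ‖f x - f y‖ + A ^ 2),
      EM_add (Q ^ m) (fun x y => (-2 * A) * ‖f x - f y‖) (fun _ _ => A ^ 2),
      EM_const_mul, EM_cst hm, ← hA]
  rw [h3] at h2
  nlinarith

theorem Sn_le {Q : Matrix V V ℝ} (hQ : SStoch Q) (f : V → X) (m : ℕ) {B : ℝ} (hB : 0 ≤ B)
    (h : ∀ x y, 0 < (Q ^ m) x y → ‖f x - f y‖ ≤ B) : Sn Q f m ≤ B := by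
  have hm := SStoch_pow hQ m
  unfold Sn
  rw [Real.sqrt_le_left hB]
  have h1 : EM (Q ^ m) (fun x y => ‖f x - f y‖ ^ 2) ≤ EM (Q ^ m) (fun _ _ => B ^ 2) := by
    refine EM_mono hm ?_
    intro x y hxy
    exact pow_le_pow_left₀ (norm_nonneg _) (h x y hxy) 2
  rwa [EM_cst hm] at h1

end Pool.Agent.H3NG
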