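import Pool.Agent.H3NG.MainIneq
import Pool.Agent.H3NG.Part
import Pool.Agent.H3NG.Num
import Pool.Agent.H3NG.RecA

/-!
# Module RecB : one step of the recursion

`Q = srw k Gr`, `t i = Sn Q f (2^i) / 2^i` (nonincreasing by `Sn_double`; `t 0 ≤ D` by `Sn_le`).  `numerics` with `c = cMI`.  Given `j ≥ j0`, let `w` be as in
`numerics`.  If `t (j' + w) < (1 - c) t j'` for all `j'` with `j' + w ≤ j` then `t j ≤ t (w (j/w)) ≤ (1-c)^(j/w) D < exp(-√j)`, a contradiction; so there is `j'` with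
`j' + w ≤ j` and `t (j'+w) ≥ (1 - c) t j'`.  Suppose the conclusion fails: `t (49 j^2) < exp (-7 j)`.  `l = 2^(49 j^2)`, `pc` from
`exists_partition`; `EM (Q^l) dist ≤ Sn Q f l < l exp(-7j)` (`EM_le_Sn`).  Apply `main_inequality` to `P = Q ^ (2^j')`, `a = 2^(w-3)` (so `8 a = 2^w`),
`Lam = D 2^j' / Sn Q f (2^j') ≤ D exp √j`, `K = (k+1)^l`, `w = 1/k^(2^j')` (`srw_low`), `cut P pc ≤ 2^j' cut Q pc` (`cut_pow_le`), so
`Lam^2 2^w cut P ≤ D^2 exp(2√j) 2^j cut Q ≤ c`.  The conclusion `4^a ≤ 9 (1 + log 2 + l log (k+1) + 2^j' log k)` contradicts `numerics`.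
`Real.sqrt (49 j^2) = 7 j`.
-/

set_option autoImplicit false

open Finset

namespace Pool.Agent.H3NG

variable {X : Type} [NormedAddCommGroup X] [NormedSpace ℝ X]
  {co : ∀ n : ℕ, X →ₗ[ℝ] (ZMod (n + 1) → ℝ)}

private theorem RecB_cMI_pos : 0 < cMI := by unfold cMI; positivity

private theorem RecB_cMI_lt_one : cMI < 1 := by unfold cMI; norm_num

/-- pigeonhole over the scales -/
private theorem RecB_scale (t : ℕ → ℝ) (ht : ∀ i, t (i + 1) ≤ t i) {c D e : ℝ}
    (hc1 : c < 1) (h0 : t 0 ≤ D) {w j : ℕ} (hj : (1 - c) ^ (j / w) * D < e)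
    (hje : e ≤ t j) : ∃ j', j' + w ≤ j ∧ (1 - c) * t j' ≤ t (j' + w) := by
  by_contra hcon
  push_neg at hcon
  have hanti : Antitone t := antitone_nat_of_succ_le ht
  have hind : ∀ m : ℕ, m * w ≤ j → t (m * w) ≤ (1 - c) ^ m * D := by
    intro m
    induction m with
    | zero => intro _; simpa using h0
    | succ m ih =>
      intro hm
      have e1 : (m + 1) * w = m * w + w := by ring
      rw [e1] at hm ⊢
      have h1 := hcon (m * w) hm
      have h2 := ih (by omega)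
      calc t (m * w + w) ≤ (1 - c) * t (m * w) := h1.le
        _ ≤ (1 - c) * ((1 - c) ^ m * D) := by
            apply mul_le_mul_of_nonneg_left h2 (by linarith)
        _ = (1 - c) ^ (m + 1) * D := by ring
  have h3 := hind (j / w) (Nat.div_mul_le_self j w)
  have h4 := hanti (Nat.div_mul_le_self j w)
  linarith

theorem rec_step (hco : Model X co) {D : ℝ} (hD : 1 ≤ D) {k : ℕ} (hk : 3 ≤ k) :
    ∃ j0 : ℕ, 2 ≤ j0 ∧ ∀ (N : ℕ) (Gr : SimpleGraph (Fin N)), Gr.Connected →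
      (∀ v, (Gr.neighborSet v).ncard = k) → ∀ f : Fin N → X,
      (∀ u v, (Gr.dist u v : ℝ) ≤ ‖f u - f v‖ ∧ ‖f u - f v‖ ≤ D * (Gr.dist u v : ℝ)) →
      ∀ j : ℕ, j0 ≤ j → Real.exp (-Real.sqrt j) ≤ Sn (srw k Gr) f (2 ^ j) / 2 ^ j →
        Real.exp (-Real.sqrt (49 * j ^ 2 : ℕ)) ≤
          Sn (srw k Gr) f (2 ^ (49 * j ^ 2)) / 2 ^ (49 * j ^ 2) := by
  obtain ⟨j0, hj0, hnum⟩ := numerics RecB_cMI_pos RecB_cMI_lt_one hD hk
  refine ⟨j0, hj0, ?_⟩
  intro N Gr hconn hreg f hf j hj hstart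
  obtain ⟨w, hw3, hwj, hn1, hn2, hn3⟩ := hnum j hj
  haveI : Nonempty (Fin N) := hconn.nonempty
  have hk1 : 1 ≤ k := by omega
  set Q := srw k Gr with hQdef
  have hQ : SStoch Q := srw_stoch hk1 hreg
  set t : ℕ → ℝ := fun i => Sn Q f (2 ^ i) / 2 ^ i with ht
  have hD0 : 0 < D := by linarith
  -- monotonicity
  have hmono : ∀ i, t (i + 1) ≤ t i := by
    intro i
    have h1 := Sn_double hQ f (2 ^ i)
    have e1 : 2 ^ (i + 1) = 2 * 2 ^ i := by ring
    simp only [ht, e1]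
    have e2 : ((2 : ℝ) ^ (i + 1)) = 2 * 2 ^ i := by ring
    rw [e2, div_le_div_iff₀ (by positivity) (by positivity)]
    nlinarith [h1, pow_pos (two_pos : (0 : ℝ) < 2) i]
  have ht0 : t 0 ≤ D := by
    simp only [ht, pow_zero, div_one]
    apply Sn_le hQ f 1 hD0.le
    intro x y hxy
    have h1 := srw_dist (k := k) hconn (n := 1) hxy
    have h2 := (hf x y).2
    have h3 : ((Gr.dist x y : ℕ) : ℝ) ≤ 1 := by exact_mod_cast h1
    calc ‖f x - f y‖ ≤ D * (Gr.dist x y : ℝ) := h2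
      _ ≤ D * 1 := by gcongr
      _ = D := mul_one D
  have hanti : Antitone t := antitone_nat_of_succ_le hmono
  obtain ⟨j', hj'w, hj't⟩ := RecB_scale t hmono RecB_cMI_lt_one ht0 hn1 hstart
  have hj'j : j' ≤ j := by omega
  have htj' : Real.exp (-Real.sqrt j) ≤ t j' := hstart.trans (hanti hj'j)
  have htj'0 : 0 < t j' := lt_of_lt_of_le (Real.exp_pos _) htj'
  have hS0 : 0 < Sn Q f (2 ^ j') := by
    have h1 : t j' = Sn Q f (2 ^ j') / 2 ^ j' := rfl
    rw [h1] at htj'0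
    by_contra hcon
    push_neg at hcon
    have h2 : Sn Q f (2 ^ j') / 2 ^ j' ≤ 0 := div_nonpos_of_nonpos_of_nonneg hcon (by positivity)
    linarith
  have hSt : Sn Q f (2 ^ j') = t j' * 2 ^ j' := by
    simp only [ht]
    field_simp
  by_contra hcon
  push_neg at hcon
  have hsq : Real.sqrt ((49 * j ^ 2 : ℕ) : ℝ) = 7 * j := by
    have : ((49 * j ^ 2 : ℕ) : ℝ) = (7 * (j : ℝ)) ^ 2 := by push_cast; ring
    rw [this, Real.sqrt_sq (by positivity)]
  rw [hsq] at hcon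
  set l : ℕ := 2 ^ (49 * j ^ 2) with hl
  have hlR : (l : ℝ) = (2 : ℝ) ^ (49 * j ^ 2) := by rw [hl]; push_cast; rfl
  have hl1 : 1 ≤ l := Nat.one_le_two_pow
  have hl0 : (0 : ℝ) < l := by exact_mod_cast hl1
  obtain ⟨pc, hpc, hcut⟩ := exists_partition hk1 hreg hconn hl1
  -- the bound for the cut
  have hEM : EM (Q ^ l) (fun x y => (Gr.dist x y : ℝ)) ≤ l * Real.exp (-(7 * j)) := by
    have h1 := EM_le_Sn hQ f l (fun x y => (Gr.dist x y : ℝ)) (fun x y => (hf x y).1)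
    have h2 : Sn Q f l < Real.exp (-(7 * j)) * l := by
      rw [← hlR] at hcon
      rwa [div_lt_iff₀ hl0] at hcon
    linarith
  have hlogk : 0 ≤ Real.log k := Real.log_natCast_nonneg k
  have hcutQ : cut Q pc ≤ 2 * Real.sqrt (Real.log ((2 : ℝ) ^ (49 * j ^ 2) + 1) / 2 ^ (49 * j ^ 2) +
      Real.log k * Real.exp (-(7 * j))) + 2 / 2 ^ (49 * j ^ 2) := by
    refine hcut.trans ?_
    rw [← hlR]
    gcongr
    rw [add_div]
    gcongr
    rw [div_le_iff₀ hl0]
    calc Real.log k * EM (srw k Gr ^ l) (fun x y => (Gr.dist x y : ℝ))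
        ≤ Real.log k * (l * Real.exp (-(7 * j))) := mul_le_mul_of_nonneg_left hEM hlogk
      _ = Real.log k * Real.exp (-(7 * j)) * l := by ring
  have hcutQ0 : 0 ≤ cut Q pc := by
    unfold cut EM
    apply mul_nonneg (by positivity)
    apply Finset.sum_nonneg; intro x _
    apply Finset.sum_nonneg; intro y _
    exact mul_nonneg (hQ.nonneg x y) (ind_nonneg _)
  -- the chain `P`
  set P := Q ^ (2 ^ j') with hPdef
  have hP : SStoch P := SStoch_pow hQ _
  have hP1 : Sn P f 1 = Sn Q f (2 ^ j') := by rw [hPdef, Sn_pow, mul_one]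
  have h8a : 8 * 2 ^ (w - 3) = 2 ^ w := by
    have : w = (w - 3) + 3 := by omega
    conv_rhs => rw [this, pow_add]
    ring
  have hP8 : Sn P f (8 * 2 ^ (w - 3)) = t (j' + w) * (2 : ℝ) ^ (j' + w) := by
    rw [hPdef, Sn_pow, h8a, ← pow_add]
    simp only [ht]
    field_simp
  set Lam : ℝ := D / t j' with hLam
  have hLam0 : 0 ≤ Lam := by positivity
  have hLamle : Lam ≤ D * Real.exp (Real.sqrt j) := by
    rw [hLam, div_le_iff₀ htj'0]
    have h1 : 1 ≤ Real.exp (Real.sqrt j) * t j' := by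
      calc (1 : ℝ) = Real.exp (Real.sqrt j) * Real.exp (-Real.sqrt j) := by
            rw [← Real.exp_add]; simp
        _ ≤ Real.exp (Real.sqrt j) * t j' := by gcongr
    nlinarith
  have h8aR : ((8 * 2 ^ (w - 3) : ℕ) : ℝ) = 2 ^ w := by rw [h8a]; push_cast; rfl
  have hres := main_inequality hco hP f (a := 2 ^ (w - 3)) Nat.one_le_two_pow (Lam := Lam)
    (w := 1 / (k : ℝ) ^ (2 ^ j')) (K := ((k : ℝ) + 1) ^ l) hLam0
    (by
      intro x y hxy
      have h1 := srw_dist (k := k) hconn (n := 2 ^ j') hxy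
      have h2 := (hf x y).2
      have h3 : ((Gr.dist x y : ℕ) : ℝ) ≤ 2 ^ j' := by exact_mod_cast h1
      rw [hP1, hSt, hLam]
      calc ‖f x - f y‖ ≤ D * (Gr.dist x y : ℝ) := h2
        _ ≤ D * 2 ^ j' := by gcongr
        _ = D / t j' * (t j' * 2 ^ j') := by field_simp)
    pc (by positivity) hpc
    (by
      rw [h8aR]
      have h1 : cut P pc ≤ 2 ^ j' * cut Q pc := by
        have := cut_pow_le hQ pc (2 ^ j')
        push_cast at this
        exact this
      have h2 : (2 : ℝ) ^ w * 2 ^ j' ≤ 2 ^ j := by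
        rw [← pow_add]
        exact pow_le_pow_right₀ (by norm_num) (by omega)
      have h3 : Lam ^ 2 ≤ D ^ 2 * Real.exp (2 * Real.sqrt j) := by
        calc Lam ^ 2 ≤ (D * Real.exp (Real.sqrt j)) ^ 2 := pow_le_pow_left₀ hLam0 hLamle 2
          _ = D ^ 2 * Real.exp (2 * Real.sqrt j) := by
            rw [mul_pow, ← Real.exp_nat_mul]; push_cast; rfl
      refine le_trans ?_ hn2
      calc Lam ^ 2 * (2 ^ w * cut P pc) ≤ Lam ^ 2 * (2 ^ w * (2 ^ j' * cut Q pc)) := by gcongr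
        _ = Lam ^ 2 * ((2 ^ w * 2 ^ j') * cut Q pc) := by ring
        _ ≤ (D ^ 2 * Real.exp (2 * Real.sqrt j)) * (2 ^ j * cut Q pc) := by gcongr
        _ = D ^ 2 * Real.exp (2 * Real.sqrt j) * 2 ^ j * cut Q pc := by ring
        _ ≤ _ := by gcongr)
    (by positivity)
    (by
      intro x y hxy
      exact srw_low hk1 hxy)
    (by rw [hP1]; exact hS0)
    (by
      rw [h8aR, hP8, hP1, hSt]
      calc (1 - cMI) * (2 ^ w * (t j' * 2 ^ j')) = ((1 - cMI) * t j') * 2 ^ (j' + w) := by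
            rw [pow_add]; ring
        _ ≤ t (j' + w) * 2 ^ (j' + w) := by gcongr)
  have hlog : Real.log (2 * ((k : ℝ) + 1) ^ l / (1 / (k : ℝ) ^ (2 ^ j'))) =
      Real.log 2 + 2 ^ (49 * j ^ 2) * Real.log (k + 1) + 2 ^ j' * Real.log k := by
    have hk0 : (0 : ℝ) < k := by exact_mod_cast (by omega : 0 < k)
    rw [div_div_eq_mul_div, div_one, Real.log_mul (by positivity) (by positivity),
      Real.log_mul (by norm_num) (by positivity), Real.log_pow, Real.log_pow, hlR]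
    push_cast
    ring
  rw [hlog] at hres
  have h2j : (2 : ℝ) ^ j' * Real.log k ≤ 2 ^ j * Real.log k := by
    apply mul_le_mul_of_nonneg_right _ hlogk
    exact pow_le_pow_right₀ (by norm_num) hj'j
  linarith

end Pool.Agent.H3NG
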