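import Pool.Agent.H3NG.RecB
import Pool.Agent.H3NG.GrowthB

/-!
# Module RecC : no embedding

`g = 2 * 2^j0`.  Start: `Sn Q f (2^j0) ≥ EM (Q^(2^j0)) dist ≥ 2^j0 / 3` (`growth`, `EM_le_Sn`) and `1/3 ≥ exp(-√j0)` as `j0 ≥ 2`.
Iterate `rec_step`: there are arbitrarily large `j` with `exp(-√j) ≤ Sn Q f (2^j) / 2^j`; but `Sn` is bounded (`Sn_le`, finitely many pairs).
-/

set_option autoImplicit false

open Finset

namespace Pool.Agent.H3NG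

variable {X : Type} [NormedAddCommGroup X] [NormedSpace ℝ X]
  {co : ∀ n : ℕ, X →ₗ[ℝ] (ZMod (n + 1) → ℝ)}

omit [NormedSpace ℝ X] in
theorem RecC_unbounded {k : ℕ} {N : ℕ} {Gr : SimpleGraph (Fin N)} {f : Fin N → X} {j0 : ℕ}
    (hj0 : 2 ≤ j0)
    (h0 : Real.exp (-Real.sqrt j0) ≤ Sn (srw k Gr) f (2 ^ j0) / 2 ^ j0)
    (hstep : ∀ j : ℕ, j0 ≤ j → Real.exp (-Real.sqrt j) ≤ Sn (srw k Gr) f (2 ^ j) / 2 ^ j →
        Real.exp (-Real.sqrt (49 * j ^ 2 : ℕ)) ≤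
          Sn (srw k Gr) f (2 ^ (49 * j ^ 2)) / 2 ^ (49 * j ^ 2)) (n : ℕ) :
    ∃ j : ℕ, n ≤ j ∧ j0 ≤ j ∧ Real.exp (-Real.sqrt j) ≤ Sn (srw k Gr) f (2 ^ j) / 2 ^ j := by
  induction n with
  | zero => exact ⟨j0, Nat.zero_le _, le_rfl, h0⟩
  | succ n ih =>
    obtain ⟨j, h1, h2, h3⟩ := ih
    refine ⟨49 * j ^ 2, ?_, ?_, hstep j h2 h3⟩
    · have : j < 49 * j ^ 2 := by nlinarith
      omega
    · nlinarith

theorem no_embedding (hco : Model X co) {D : ℝ} (hD : 1 ≤ D) {k : ℕ} (hk : 3 ≤ k) :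
    ∃ g : ℕ, ∀ (N : ℕ) (Gr : SimpleGraph (Fin N)), Gr.Connected →
      (∀ v, (Gr.neighborSet v).ncard = k) → (g : ℕ∞) < Gr.egirth →
      ¬ ∃ f : Fin N → X, ∀ u v, (Gr.dist u v : ℝ) ≤ ‖f u - f v‖ ∧
        ‖f u - f v‖ ≤ D * (Gr.dist u v : ℝ) := by
  obtain ⟨j0, hj0, hrec⟩ := rec_step hco hD hk
  refine ⟨2 * 2 ^ j0, ?_⟩
  rintro N Gr hconn hreg hg ⟨f, hf⟩
  have hstep := hrec N Gr hconn hreg f hf
  have : Nonempty (Fin N) := hconn.nonempty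
  have hQ : SStoch (srw k Gr) := srw_stoch (by omega) hreg
  have h1 : ((2 ^ j0 : ℕ) : ℝ) / 3 ≤ EM ((srw k Gr) ^ (2 ^ j0)) (fun x y => (Gr.dist x y : ℝ)) :=
    growth hk hreg hconn hg
  have h2 : EM ((srw k Gr) ^ (2 ^ j0)) (fun x y => (Gr.dist x y : ℝ)) ≤
      Sn (srw k Gr) f (2 ^ j0) := EM_le_Sn hQ f _ _ (fun x y => (hf x y).1)
  have h0 : Real.exp (-Real.sqrt j0) ≤ Sn (srw k Gr) f (2 ^ j0) / 2 ^ j0 := by
    have h3 : (1 : ℝ) / 3 ≤ Sn (srw k Gr) f (2 ^ j0) / 2 ^ j0 := by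
      rw [le_div_iff₀ (by positivity)]
      have := h1.trans h2
      push_cast at this
      linarith
    refine le_trans ?_ h3
    rw [Real.exp_neg, inv_le_comm₀ (Real.exp_pos _) (by norm_num)]
    have hs : (14 : ℝ) / 10 ≤ Real.sqrt j0 := by
      apply Real.le_sqrt_of_sq_le
      have : (2 : ℝ) ≤ j0 := by exact_mod_cast hj0
      nlinarith
    have := Real.quadratic_le_exp_of_nonneg (Real.sqrt_nonneg (j0 : ℝ))
    nlinarith
  -- the bound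
  obtain ⟨B, hB0, hB⟩ : ∃ B : ℝ, 0 ≤ B ∧ ∀ x y, ‖f x - f y‖ ≤ B := by
    refine ⟨∑ x, ∑ y, ‖f x - f y‖, ?_, ?_⟩
    · exact Finset.sum_nonneg fun x _ => Finset.sum_nonneg fun y _ => norm_nonneg _
    · intro x y
      refine le_trans ?_ (Finset.single_le_sum (f := fun x => ∑ y, ‖f x - f y‖)
        (fun x _ => Finset.sum_nonneg fun y _ => norm_nonneg _) (Finset.mem_univ x))
      exact Finset.single_le_sum (f := fun y => ‖f x - f y‖) (fun y _ => norm_nonneg _)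
        (Finset.mem_univ y)
  obtain ⟨n, hn⟩ := pow_unbounded_of_one_lt B (show (1 : ℝ) < 3 / 2 by norm_num)
  obtain ⟨j, hj1, hj2, hj3⟩ := RecC_unbounded hj0 h0 hstep (max n 16)
  have hjn : n ≤ j := le_trans (le_max_left _ _) hj1
  have hj16 : 16 ≤ j := le_trans (le_max_right _ _) hj1
  have h4 : Sn (srw k Gr) f (2 ^ j) ≤ B := Sn_le hQ f _ hB0 (fun x y _ => hB x y)
  have h5 : (3 / 2 : ℝ) ^ n ≤ (3 / 2 : ℝ) ^ j := pow_le_pow_right₀ (by norm_num) hjn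
  have h6 : (3 / 4 : ℝ) ^ j ≤ Real.exp (-Real.sqrt j) := by
    have h7 : Real.sqrt j ≤ j / 4 := by
      rw [Real.sqrt_le_left (by positivity)]
      have : (16 : ℝ) ≤ j := by exact_mod_cast hj16
      nlinarith
    have h8 : (3 / 4 : ℝ) ≤ Real.exp (-(1 / 4)) := by
      have := Real.add_one_le_exp (-(1 / 4) : ℝ)
      linarith
    calc (3 / 4 : ℝ) ^ j ≤ (Real.exp (-(1 / 4))) ^ j := pow_le_pow_left₀ (by norm_num) h8 j
      _ = Real.exp (-(j / 4)) := by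
        rw [← Real.exp_nat_mul]; congr 1; ring
      _ ≤ Real.exp (-Real.sqrt j) := Real.exp_le_exp.2 (by linarith)
  have h9 := h6.trans hj3
  rw [le_div_iff₀ (by positivity), ← mul_pow] at h9
  have h10 : (3 / 4 * 2 : ℝ) = 3 / 2 := by norm_num
  rw [h10] at h9
  linarith

end Pool.Agent.H3NG
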