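import Pool.Agent.H3NG.PathA

/-!
# Module Round : rounding a kernel to a partition (deterministic version of the Kleinberg-Tardos rounding)

Strong induction on `U`: for every `U : Finset V` there is `pc : V → V` with `0 < n x (pc x)` for `x ∈ U` and
`∑ x ∈ U, ∑ y ∈ U, Q x y * ind (pc x ≠ pc y) ≤ ∑ x ∈ U, ∑ y ∈ U, Q x y * d x y`.
-/

set_option autoImplicit false

open Finset

namespace Pool.Agent.H3NG

theorem ind_sum_eq_card (N : ℕ) (p : ℕ → Prop) [DecidablePred p] :
    ∑ i ∈ range N, ind (p i) = (((range N).filter p).card : ℝ) := by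
  rw [card_filter, Nat.cast_sum]
  refine sum_congr rfl (fun i _ => ?_)
  by_cases h : p i
  · rw [ind_true h, if_pos h, Nat.cast_one]
  · rw [ind_false h, if_neg h, Nat.cast_zero]

theorem ind_count_ne {N a b : ℕ} (ha : a ≤ N) (hb : b ≤ N) :
    ∑ i ∈ range N, ind (¬ (i < a ↔ i < b)) = |(a : ℝ) - b| := by
  classical
  rw [ind_sum_eq_card]
  rcases le_total a b with h | h
  · have hf : (range N).filter (fun i => ¬ (i < a ↔ i < b)) = Ico a b := by
      ext i
      simp only [mem_filter, mem_range, mem_Ico]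
      omega
    rw [hf, Nat.card_Ico, Nat.cast_sub h, abs_sub_comm, abs_of_nonneg]
    exact sub_nonneg.2 (by exact_mod_cast h)
  · have hf : (range N).filter (fun i => ¬ (i < a ↔ i < b)) = Ico b a := by
      ext i
      simp only [mem_filter, mem_range, mem_Ico]
      omega
    rw [hf, Nat.card_Ico, Nat.cast_sub h, abs_of_nonneg]
    exact sub_nonneg.2 (by exact_mod_cast h)

theorem ind_count_or {N a b : ℕ} (ha : a ≤ N) :
    (a : ℝ) ≤ ∑ i ∈ range N, ind (i < a ∨ i < b) := by
  classical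
  rw [ind_sum_eq_card]
  have hf : range a ⊆ (range N).filter (fun i => i < a ∨ i < b) := by
    intro i hi
    simp only [mem_filter, mem_range] at hi ⊢
    omega
  have := card_le_card hf
  rw [card_range] at this
  exact_mod_cast this

variable {V : Type} [Fintype V]

theorem rounding_aux (N : ℕ) (hN : 0 < N) (n : V → V → ℕ) (hn : ∀ x, ∑ v, n x v = N)
    (Q : Matrix V V ℝ) (hQ : ∀ x y, 0 ≤ Q x y) (U : Finset V) :
    ∃ pc : V → V, (∀ x ∈ U, 0 < n x (pc x)) ∧
      ∑ x ∈ U, ∑ y ∈ U, Q x y * ind (pc x ≠ pc y) ≤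
        ∑ x ∈ U, ∑ y ∈ U, Q x y * ((∑ v, |(n x v : ℝ) - n y v|) / N) := by
  classical
  have hNR : (0 : ℝ) < N := by exact_mod_cast hN
  have hle : ∀ x v, n x v ≤ N := fun x v => by
    rw [← hn x]
    exact single_le_sum (f := fun v => n x v) (fun _ _ => Nat.zero_le _) (mem_univ v)
  set d : V → V → ℝ := fun x y => (∑ v, |(n x v : ℝ) - n y v|) / N with hd
  have hd0 : ∀ x y, 0 ≤ d x y := fun x y =>
    div_nonneg (sum_nonneg (fun _ _ => abs_nonneg _)) hNR.le
  induction U using Finset.strongInduction with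
  | _ U ih =>
  rcases U.eq_empty_or_nonempty with rfl | ⟨x₀, hx₀⟩
  · exact ⟨fun x => x, by simp, by simp⟩
  -- cut and charge
  set S : V → ℕ → ℝ := fun v i => ∑ x ∈ U, ∑ y ∈ U, Q x y * ind (¬ (i < n x v ↔ i < n y v)) with hS
  set C : V → ℕ → ℝ := fun v i => ∑ x ∈ U, ∑ y ∈ U, Q x y * d x y * ind (i < n x v ∨ i < n y v) with hC
  have hSsum : ∑ v, ∑ i ∈ range N, S v i = ∑ x ∈ U, ∑ y ∈ U, Q x y * (N * d x y) := by
    have h1 : ∀ v, ∑ i ∈ range N, S v i = ∑ x ∈ U, ∑ y ∈ U, Q x y * |(n x v : ℝ) - n y v| := by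
      intro v
      simp only [hS]
      rw [sum_comm]
      refine sum_congr rfl (fun x _ => ?_)
      rw [sum_comm]
      refine sum_congr rfl (fun y _ => ?_)
      rw [← mul_sum, ind_count_ne (hle x v) (hle y v)]
    rw [sum_congr rfl (fun v _ => h1 v), sum_comm]
    refine sum_congr rfl (fun x _ => ?_)
    rw [sum_comm]
    refine sum_congr rfl (fun y _ => ?_)
    rw [← mul_sum]
    congr 1
    simp only [hd]
    field_simp
  have hCsum : ∑ x ∈ U, ∑ y ∈ U, Q x y * (N * d x y) ≤ ∑ v, ∑ i ∈ range N, C v i := by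
    have h1 : ∑ v, ∑ i ∈ range N, C v i =
        ∑ x ∈ U, ∑ y ∈ U, ∑ v, ∑ i ∈ range N, Q x y * d x y * ind (i < n x v ∨ i < n y v) := by
      simp only [hC]
      rw [sum_congr rfl (fun v _ => by rw [sum_comm]), sum_comm]
      refine sum_congr rfl (fun x _ => ?_)
      rw [sum_congr rfl (fun v _ => by rw [sum_comm]), sum_comm]
    rw [h1]
    refine sum_le_sum (fun x _ => sum_le_sum (fun y _ => ?_))
    have h2 : ∑ v, ∑ i ∈ range N, Q x y * d x y * ind (i < n x v ∨ i < n y v) =
        Q x y * d x y * ∑ v, ∑ i ∈ range N, ind (i < n x v ∨ i < n y v) := by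
      rw [mul_sum]
      refine sum_congr rfl (fun v _ => ?_)
      rw [mul_sum]
    rw [h2]
    have h3 : (N : ℝ) ≤ ∑ v, ∑ i ∈ range N, ind (i < n x v ∨ i < n y v) := by
      have h4 : (N : ℝ) = ∑ v, (n x v : ℝ) := by
        rw [← hn x, Nat.cast_sum]
      calc (N : ℝ) = ∑ v, (n x v : ℝ) := h4
        _ ≤ _ := sum_le_sum (fun v _ => ind_count_or (hle x v))
    have h5 : Q x y * (N * d x y) = Q x y * d x y * N := by ring
    rw [h5]
    exact mul_le_mul_of_nonneg_left h3 (mul_nonneg (hQ x y) (hd0 x y))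
  -- a good threshold set
  obtain ⟨v, i, hne, hSC⟩ : ∃ v : V, ∃ i : ℕ, (∃ x ∈ U, i < n x v) ∧ S v i ≤ C v i := by
    by_contra hcon
    push Not at hcon
    have hempty : ∀ v i, (¬ ∃ x ∈ U, i < n x v) → S v i = 0 ∧ C v i = 0 := by
      intro v i h
      push Not at h
      constructor
      · simp only [hS]
        refine sum_eq_zero (fun x hx => sum_eq_zero (fun y hy => ?_))
        rw [ind_false, mul_zero]
        have h1 := h x hx
        have h2 := h y hy
        omega
      · simp only [hC]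
        refine sum_eq_zero (fun x hx => sum_eq_zero (fun y hy => ?_))
        rw [ind_false, mul_zero]
        have h1 := h x hx
        have h2 := h y hy
        omega
    have hleS : ∀ v i, C v i ≤ S v i := by
      intro v i
      by_cases h : ∃ x ∈ U, i < n x v
      · exact (hcon v i h).le
      · rw [(hempty v i h).1, (hempty v i h).2]
    obtain ⟨v₀, hv₀⟩ : ∃ v, 0 < n x₀ v := by
      by_contra h
      push Not at h
      have := hn x₀
      rw [sum_eq_zero (fun v _ => Nat.le_zero.1 (h v))] at this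
      omega
    have hlt : ∑ v, ∑ i ∈ range N, C v i < ∑ v, ∑ i ∈ range N, S v i := by
      refine sum_lt_sum (fun v _ => sum_le_sum (fun i _ => hleS v i)) ⟨v₀, mem_univ _, ?_⟩
      exact sum_lt_sum (fun i _ => hleS v₀ i) ⟨0, mem_range.2 hN, hcon v₀ 0 ⟨x₀, hx₀, hv₀⟩⟩
    rw [hSsum] at hlt
    exact absurd hCsum (not_le.2 hlt)
  set A : Finset V := U.filter (fun x => i < n x v) with hA
  have hAU : U \ A ⊂ U := by
    obtain ⟨x, hx, hxi⟩ := hne
    refine ⟨sdiff_subset, fun h => ?_⟩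
    have := h hx
    rw [mem_sdiff] at this
    exact this.2 (mem_filter.2 ⟨hx, hxi⟩)
  obtain ⟨pc, hpc, hle'⟩ := ih (U \ A) hAU
  refine ⟨fun x => if i < n x v then v else pc x, ?_, ?_⟩
  · intro x hx
    by_cases h : i < n x v
    · simp only [h, if_true]; omega
    · simp only [h, if_false]
      exact hpc x (mem_sdiff.2 ⟨hx, fun h' => h (mem_filter.1 h').2⟩)
  · have hsd : ∀ f : V → V → ℝ, ∑ x ∈ U \ A, ∑ y ∈ U \ A, f x y =
        ∑ x ∈ U, ∑ y ∈ U, f x y * ind (¬ i < n x v ∧ ¬ i < n y v) := by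
      intro f
      have hUA : U \ A = U.filter (fun x => ¬ i < n x v) := by
        ext x
        simp only [hA, mem_sdiff, mem_filter]
        tauto
      rw [hUA, sum_filter]
      refine sum_congr rfl (fun x _ => ?_)
      by_cases hx : i < n x v
      · rw [if_neg (not_not.2 hx)]
        refine (sum_eq_zero (fun y _ => ?_)).symm
        rw [ind_false (fun h => h.1 hx), mul_zero]
      · rw [if_pos hx, sum_filter]
        refine sum_congr rfl (fun y _ => ?_)
        by_cases hy : i < n y v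
        · rw [if_neg (not_not.2 hy), ind_false (fun h => h.2 hy), mul_zero]
        · rw [if_pos hy, ind_true ⟨hx, hy⟩, mul_one]
    rw [hsd, hsd] at hle'
    have hL : ∑ x ∈ U, ∑ y ∈ U, Q x y * ind ((if i < n x v then v else pc x) ≠ (if i < n y v then v else pc y)) ≤
        (∑ x ∈ U, ∑ y ∈ U, Q x y * ind (pc x ≠ pc y) * ind (¬ i < n x v ∧ ¬ i < n y v)) + S v i := by
      simp only [hS]
      rw [← sum_add_distrib]
      refine sum_le_sum (fun x _ => ?_)
      rw [← sum_add_distrib]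
      refine sum_le_sum (fun y _ => ?_)
      by_cases hx : i < n x v <;> by_cases hy : i < n y v
      · simp only [hx, hy, if_true]
        rw [ind_false (p := v ≠ v) (fun h => h rfl), mul_zero]
        exact add_nonneg (mul_nonneg (mul_nonneg (hQ x y) (ind_nonneg _)) (ind_nonneg _))
          (mul_nonneg (hQ x y) (ind_nonneg _))
      · rw [ind_true (p := ¬ (i < n x v ↔ i < n y v)) (fun h => hy (h.1 hx)), mul_one]
        have h1 : Q x y * ind ((if i < n x v then v else pc x) ≠ (if i < n y v then v else pc y)) ≤ Q x y := by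
          calc _ ≤ Q x y * 1 := mul_le_mul_of_nonneg_left (ind_le_one _) (hQ x y)
            _ = Q x y := mul_one _
        have h2 : 0 ≤ Q x y * ind (pc x ≠ pc y) * ind (¬ i < n x v ∧ ¬ i < n y v) :=
          mul_nonneg (mul_nonneg (hQ x y) (ind_nonneg _)) (ind_nonneg _)
        linarith
      · rw [ind_true (p := ¬ (i < n x v ↔ i < n y v)) (fun h => hx (h.2 hy)), mul_one]
        have h1 : Q x y * ind ((if i < n x v then v else pc x) ≠ (if i < n y v then v else pc y)) ≤ Q x y := by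
          calc _ ≤ Q x y * 1 := mul_le_mul_of_nonneg_left (ind_le_one _) (hQ x y)
            _ = Q x y := mul_one _
        have h2 : 0 ≤ Q x y * ind (pc x ≠ pc y) * ind (¬ i < n x v ∧ ¬ i < n y v) :=
          mul_nonneg (mul_nonneg (hQ x y) (ind_nonneg _)) (ind_nonneg _)
        linarith
      · simp only [hx, hy, if_false]
        rw [ind_true (p := ¬ False ∧ ¬ False) ⟨not_false, not_false⟩, mul_one]
        exact le_add_of_nonneg_right (mul_nonneg (hQ x y) (ind_nonneg _))
    have hR : ∑ x ∈ U, ∑ y ∈ U, Q x y * d x y =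
        (∑ x ∈ U, ∑ y ∈ U, Q x y * d x y * ind (¬ i < n x v ∧ ¬ i < n y v)) + C v i := by
      simp only [hC]
      rw [← sum_add_distrib]
      refine sum_congr rfl (fun x _ => ?_)
      rw [← sum_add_distrib]
      refine sum_congr rfl (fun y _ => ?_)
      by_cases h : i < n x v ∨ i < n y v
      · rw [ind_true h, ind_false (p := ¬ i < n x v ∧ ¬ i < n y v) (fun h' => by tauto)]
        ring
      · rw [ind_false h, ind_true (p := ¬ i < n x v ∧ ¬ i < n y v) (by tauto)]
        ring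
    have hle'' : ∑ x ∈ U, ∑ y ∈ U, Q x y * ind (pc x ≠ pc y) * ind (¬ i < n x v ∧ ¬ i < n y v) ≤
        ∑ x ∈ U, ∑ y ∈ U, Q x y * d x y * ind (¬ i < n x v ∧ ¬ i < n y v) := hle'
    calc _ ≤ (∑ x ∈ U, ∑ y ∈ U, Q x y * ind (pc x ≠ pc y) * ind (¬ i < n x v ∧ ¬ i < n y v)) + S v i := hL
      _ ≤ (∑ x ∈ U, ∑ y ∈ U, Q x y * d x y * ind (¬ i < n x v ∧ ¬ i < n y v)) + C v i := add_le_add hle'' hSC
      _ = _ := hR.symm

theorem rounding (N : ℕ) (hN : 0 < N) (n : V → V → ℕ) (hn : ∀ x, ∑ v, n x v = N)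
    (Q : Matrix V V ℝ) (hQ : ∀ x y, 0 ≤ Q x y) :
    ∃ pc : V → V, (∀ x, 0 < n x (pc x)) ∧
      ∑ x, ∑ y, Q x y * ind (pc x ≠ pc y) ≤
        ∑ x, ∑ y, Q x y * ((∑ v, |(n x v : ℝ) - n y v|) / N) := by
  obtain ⟨pc, h1, h2⟩ := rounding_aux N hN n hn Q hQ univ
  exact ⟨pc, fun x => h1 x (mem_univ x), h2⟩

end Pool.Agent.H3NG
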