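import Pool.Agent.H3NG.CircA
import Pool.Agent.H3NG.PathA

/-!
# Module Sub : subadditivity along the chain

`EM_block` by induction on `q` with `EM_pow_add` and `TV_add_le`
(`((q+1) m) lam = (q m) lam + m lam`, `g y - g x = (g z - g x) + (g y - g z)`).
-/

set_option autoImplicit false

open Finset

namespace Pool.Agent.H3NG

variable {T : ℕ} [NeZero T] {V : Type} [Fintype V] [DecidableEq V]

theorem EM_block {P : Matrix V V ℝ} (hP : SStoch P) (g : V → ZMod T → ℝ) (lam : ℝ) (q m : ℕ) :
    EM (P ^ (q * m)) (fun x y => TV ((q * m : ℕ) * lam) (g y - g x)) ≤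
      q * EM (P ^ m) (fun x y => TV ((m : ℝ) * lam) (g y - g x)) := by
  induction q with
  | zero =>
    have h0 : TV ((0 : ℝ)) (0 : ZMod T → ℝ) = 0 := by
      apply le_antisymm _ (TV_nonneg _ _)
      apply TV_le
      intro s _
      unfold G
      simp
    have h1 : EM (P ^ (0 * m)) (fun x y => TV (((0 * m : ℕ) : ℝ) * lam) (g y - g x)) = 0 := by
      unfold EM
      have h2 : ∑ x, ∑ y, (P ^ (0 * m)) x y * TV (((0 * m : ℕ) : ℝ) * lam) (g y - g x) = 0 := by
        refine sum_eq_zero fun x _ => sum_eq_zero fun y _ => ?_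
        rw [zero_mul, pow_zero, Nat.cast_zero, zero_mul]
        by_cases hxy : x = y
        · rw [hxy, sub_self, h0, mul_zero]
        · rw [Matrix.one_apply_ne hxy, zero_mul]
      rw [h2]
      simp
    rw [h1]
    simp
  | succ q ih =>
    have h1 : (q + 1) * m = q * m + m := by ring
    have h2 := EM_pow_add hP (q * m) m
      (φ := fun x y => TV ((((q + 1) * m : ℕ) : ℝ) * lam) (g y - g x))
      (ψ := fun x y => TV (((q * m : ℕ) : ℝ) * lam) (g y - g x))
      (χ := fun x y => TV ((m : ℝ) * lam) (g y - g x)) (by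
        intro x z y
        have h3 := TV_add_le (((q * m : ℕ) : ℝ) * lam) ((m : ℝ) * lam) (g z - g x) (g y - g z)
        have h4 : ((q * m : ℕ) : ℝ) * lam + (m : ℝ) * lam = (((q + 1) * m : ℕ) : ℝ) * lam := by
          push_cast
          ring
        have h5 : g z - g x + (g y - g z) = g y - g x := by abel
        rw [h4, h5] at h3
        exact h3)
    rw [← h1] at h2
    refine h2.trans ?_
    push_cast at ih ⊢
    linarith

end Pool.Agent.H3NG
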