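import Pool.Agent.H3NG.SelA1
import Pool.Agent.H3NG.Sub

/-!
# Module SelA : choice of the level

`b = 8a`, `M = EM P (‖f x - f y‖^2) = (Sn P f 1)^2 > 0`, `g n x = co n (f x)`.  For `n, lam` put `Th lam = EM P (TV lam (g y - g x))`,
`Dr = Th lam - Th ((1+δ) lam)`, `Dl = Th ((1-δ) lam) - Th lam`, `Db = b Th lam - EM (P^b) (TV (b lam))`,
`Aa = EP P b (ind ns * (TV ((1-δ) (b lam)) - TV (b lam)))`.  Pointwise (`lam > 0`): `Db ≥ 0` (`EM_block` with `m = 1`), `Dl - Dr ≥ 0` (`TV_convex`),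
`Aa ≥ 0` (`TV_anti`).  Integrated over `lam` and summed over `n` (`comb_hasSum`):
`Dr : (1 - 1/(1+δ)) M = δ/(1+δ) M`;  `Db : b M - b⁻¹ Sn(b)^2 ≤ b M (1 - (1-c)^2) ≤ 2 c b M`;
`Dl - Dr : (1/(1-δ) + 1/(1+δ) - 2) M = 2δ^2/(1-δ^2) M`;
`Aa : b⁻¹ (1/(1-δ) - 1) EP (ind ns ‖f (z b) - f (z 0)‖^2) ≤ b⁻¹ δ/(1-δ) (b Lam)^2 M EP (ind ns) ≤ δ/(1-δ) b c M`
(triangle inequality along the path, `EP_mono_supp`).  If for all `n` and `lam > 0`
`Dr ≤ Db/(e^2 b) + (Dl - Dr)/e + Aa/(e b)` then integrating gives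
`δ/(1+δ) ≤ 2c/e^2 + 2δ^2/((1-δ^2) e) + δ c/((1-δ) e) = δ/8 + δ/(8 (1-δ^2)) + tiny < δ/(1+δ)`, a contradiction.  At a pair `(n, lam)` with `>` all four
inequalities follow, because the three terms on the right are nonnegative.
-/

set_option autoImplicit false

open Finset

namespace Pool.Agent.H3NG

variable {V : Type} [Fintype V] [DecidableEq V] [Nonempty V]
  {X : Type} [NormedAddCommGroup X] [NormedSpace ℝ X] {co : ∀ n : ℕ, X →ₗ[ℝ] (ZMod (n + 1) → ℝ)}

omit [DecidableEq V] [Nonempty V] in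
/-- integration over the level and summation over the components preserve positivity -/
private theorem comb_pos (hco : Model X co) (f : V → X) {ι : Type} (s : Finset ι) (α : ι → ℝ)
    (c : ι → V → V → ℝ) (r : ι → ℝ) (hr : ∀ i, 0 < r i)
    (h : ∀ (n : ℕ) (lam : ℝ), 0 < lam → 0 ≤ ∑ i ∈ s, α i *
      ∑ x, ∑ y, c i x y * TV (r i * lam) (co n (f y) - co n (f x))) :
    0 ≤ ∑ i ∈ s, α i * ((r i)⁻¹ * ∑ x, ∑ y, c i x y * ‖f x - f y‖ ^ 2) := by
  have hs : HasSum (fun n => ∑ i ∈ s, α i * ∫ lam in Set.Ioi (0 : ℝ),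
        ∑ x, ∑ y, c i x y * TV (r i * lam) (co n (f y) - co n (f x)))
      (∑ i ∈ s, α i * ((r i)⁻¹ * ∑ x, ∑ y, c i x y * ‖f x - f y‖ ^ 2)) :=
    hasSum_sum fun i _ => (comb_hasSum hco f (c i) (hr i)).mul_left (α i)
  refine hs.nonneg fun n => ?_
  have h1 : ∑ i ∈ s, α i * ∫ lam in Set.Ioi (0 : ℝ),
        ∑ x, ∑ y, c i x y * TV (r i * lam) (co n (f y) - co n (f x)) =
      ∫ lam in Set.Ioi (0 : ℝ), ∑ i ∈ s, α i *
        ∑ x, ∑ y, c i x y * TV (r i * lam) (co n (f y) - co n (f x)) := by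
    rw [MeasureTheory.integral_finsetSum]
    · refine Finset.sum_congr rfl fun i _ => ?_
      rw [MeasureTheory.integral_const_mul]
    · intro i _
      exact (comb_integrable (fun n x => co n (f x)) n (c i) (hr i)).const_mul (α i)
  rw [h1]
  exact MeasureTheory.setIntegral_nonneg measurableSet_Ioi fun lam hlam => h n lam hlam

omit [DecidableEq V] [Nonempty V] in
private theorem EM_eq_comb (Q : Matrix V V ℝ) (H : V → V → ℝ) :
    EM Q H = ∑ x, ∑ y, ((Fintype.card V : ℝ)⁻¹ * Q x y) * H x y := by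
  unfold EM
  simp only [Finset.mul_sum, mul_assoc]

omit [DecidableEq V] [Nonempty V] in
private theorem EM_nonneg' {Q : Matrix V V ℝ} (hQ : SStoch Q) {H : V → V → ℝ}
    (hH : ∀ x y, 0 ≤ H x y) : 0 ≤ EM Q H := by
  unfold EM
  refine mul_nonneg (by positivity) ?_
  exact Finset.sum_nonneg fun x _ => Finset.sum_nonneg fun y _ => mul_nonneg (hQ.nonneg x y) (hH x y)

omit [Nonempty V] [NormedSpace ℝ X] in
private theorem Sn_sq {P : Matrix V V ℝ} (hP : SStoch P) (f : V → X) (m : ℕ) :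
    Sn P f m ^ 2 = EM (P ^ m) (fun x y => ‖f x - f y‖ ^ 2) := by
  unfold Sn
  exact Real.sq_sqrt (EM_nonneg' (SStoch_pow hP m) fun x y => by positivity)

/-- final arithmetic -/
private theorem level_arith {e δ c b M Mb N : ℝ} (he : 0 < e) (he1 : e ≤ 1 / 100)
    (hδ : δ = e / 16) (hc : c = e ^ 3 / 256) (hb : 0 < b) (hM : 0 < M)
    (hMb : (1 - c) ^ 2 * b ^ 2 * M ≤ Mb) (hN : N ≤ b ^ 2 * c * M)
    (h : 0 ≤ (1 / (e ^ 2 * b)) * (b * M - b⁻¹ * Mb) +
      (1 / e) * ((1 - δ)⁻¹ * M - 2 * M + (1 + δ)⁻¹ * M) +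
      (1 / (e * b)) * (((1 - δ) * b)⁻¹ * N - b⁻¹ * N) - (M - (1 + δ)⁻¹ * M)) : False := by
  have hδ0 : 0 < δ := by rw [hδ]; positivity
  have hδ1 : δ ≤ 1 / 1600 := by rw [hδ]; linarith
  have he' : e = 16 * δ := by rw [hδ]; ring
  have hc0 : 0 < c := by rw [hc]; positivity
  have hd1 : 0 < 1 - δ := by linarith
  have hd2 : 0 < 1 + δ := by linarith
  -- first term
  have t1 : (1 / (e ^ 2 * b)) * (b * M - b⁻¹ * Mb) ≤ δ / 8 * M := by
    have h1 : b * M - b⁻¹ * Mb ≤ 2 * c * b * M := by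
      have h2 : b⁻¹ * ((1 - c) ^ 2 * b ^ 2 * M) ≤ b⁻¹ * Mb :=
        mul_le_mul_of_nonneg_left hMb (by positivity)
      have h3 : b⁻¹ * ((1 - c) ^ 2 * b ^ 2 * M) = (1 - c) ^ 2 * b * M := by
        field_simp
      have h4 : b * M - (1 - c) ^ 2 * b * M ≤ 2 * c * b * M := by
        have : 0 ≤ c ^ 2 * b * M := by positivity
        nlinarith
      linarith
    have h5 : (1 / (e ^ 2 * b)) * (b * M - b⁻¹ * Mb) ≤ (1 / (e ^ 2 * b)) * (2 * c * b * M) :=
      mul_le_mul_of_nonneg_left h1 (by positivity)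
    refine h5.trans (le_of_eq ?_)
    rw [hc, hδ]
    field_simp
    ring
  -- second term
  have t2 : (1 / e) * ((1 - δ)⁻¹ * M - 2 * M + (1 + δ)⁻¹ * M) ≤ δ / 7 * M := by
    have h1 : (1 / e) * ((1 - δ)⁻¹ * M - 2 * M + (1 + δ)⁻¹ * M) =
        δ / (8 * ((1 - δ) * (1 + δ))) * M := by
      rw [he']
      field_simp
      ring
    rw [h1]
    refine mul_le_mul_of_nonneg_right ?_ hM.le
    refine div_le_div_of_nonneg_left hδ0.le (by norm_num) ?_
    nlinarith
  -- third term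
  have t3 : (1 / (e * b)) * (((1 - δ) * b)⁻¹ * N - b⁻¹ * N) ≤ δ / 7 * M := by
    have h1 : (1 / (e * b)) * (((1 - δ) * b)⁻¹ * N - b⁻¹ * N) =
        (δ / (e * b ^ 2 * (1 - δ))) * N := by
      field_simp
      ring
    rw [h1]
    have h2 : (δ / (e * b ^ 2 * (1 - δ))) * N ≤ (δ / (e * b ^ 2 * (1 - δ))) * (b ^ 2 * c * M) :=
      mul_le_mul_of_nonneg_left hN (by positivity)
    refine h2.trans ?_
    have h3 : (δ / (e * b ^ 2 * (1 - δ))) * (b ^ 2 * c * M) = (δ * (e ^ 2 / 256) / (1 - δ)) * M := by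
      rw [hc]
      field_simp
    rw [h3]
    refine mul_le_mul_of_nonneg_right ?_ hM.le
    rw [div_le_div_iff₀ hd1 (by norm_num)]
    have h4 : e ^ 2 / 256 * 7 ≤ 1 - δ := by nlinarith
    nlinarith
  have t4 : δ / 2 * M ≤ M - (1 + δ)⁻¹ * M := by
    have h1 : M - (1 + δ)⁻¹ * M = δ / (1 + δ) * M := by
      field_simp
      ring
    rw [h1]
    refine mul_le_mul_of_nonneg_right ?_ hM.le
    exact div_le_div_of_nonneg_left hδ0.le hd2 (by linarith)
  have : 0 < δ * M := by positivity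
  nlinarith

theorem exists_level (hco : Model X co) {P : Matrix V V ℝ} (hP : SStoch P) {a : ℕ} (ha : 1 ≤ a)
    (ns : (ℕ → V) → Prop) (f : V → X) {e δ c Lam : ℝ} (he : 0 < e) (he1 : e ≤ 1 / 100)
    (hδ : δ = e / 16) (hc : c = e ^ 3 / 256) (hLam : 0 ≤ Lam)
    (hf : ∀ x y, 0 < P x y → ‖f x - f y‖ ≤ Lam * Sn P f 1)
    (hns : Lam ^ 2 * EP P (8 * a) (fun z => ind (ns z)) ≤ c)
    (hS : 0 < Sn P f 1) (hSb : (1 - c) * ((8 * a : ℕ) * Sn P f 1) ≤ Sn P f (8 * a)) :
    ∃ (n : ℕ) (lam : ℝ) (g : V → ZMod (n + 1) → ℝ), 0 < lam ∧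
    0 < EM P (fun x y => TV lam (g y - g x)) - EM P (fun x y => TV ((1 + δ) * lam) (g y - g x)) ∧
    (8 * a : ℕ) * EM P (fun x y => TV lam (g y - g x)) -
        EM (P ^ (8 * a)) (fun x y => TV ((8 * a : ℕ) * lam) (g y - g x)) ≤
      e ^ 2 * (8 * a : ℕ) * (EM P (fun x y => TV lam (g y - g x)) -
        EM P (fun x y => TV ((1 + δ) * lam) (g y - g x))) ∧
    EM P (fun x y => TV ((1 - δ) * lam) (g y - g x)) - EM P (fun x y => TV lam (g y - g x)) ≤
      (1 + e) * (EM P (fun x y => TV lam (g y - g x)) -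
        EM P (fun x y => TV ((1 + δ) * lam) (g y - g x))) ∧
    EP P (8 * a) (fun z => ind (ns z) *
        (TV ((1 - δ) * ((8 * a : ℕ) * lam)) (g (z (8 * a)) - g (z 0)) -
          TV ((8 * a : ℕ) * lam) (g (z (8 * a)) - g (z 0)))) ≤
      e * (8 * a : ℕ) * (EM P (fun x y => TV lam (g y - g x)) -
        EM P (fun x y => TV ((1 + δ) * lam) (g y - g x))) := by
  classical
  have ha8 : 0 < 8 * a := by omega
  set b : ℝ := ((8 * a : ℕ) : ℝ) with hb
  have hb0 : 0 < b := by rw [hb]; exact_mod_cast ha8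
  have hδ0 : 0 < δ := by rw [hδ]; positivity
  have hδ1 : δ ≤ 1 / 1600 := by rw [hδ]; linarith
  have hc0 : 0 < c := by rw [hc]; positivity
  have hc1 : c ≤ 1 := by
    rw [hc]
    have : e ^ 3 ≤ 1 ^ 3 := pow_le_pow_left₀ he.le (by linarith) 3
    linarith
  by_contra hno
  obtain ⟨cn, hcn0, hcn⟩ := EP_coeff hP (8 * a) ns
  -- pointwise inequality
  have key : ∀ (n : ℕ) (lam : ℝ), 0 < lam →
      EM P (fun x y => TV lam (co n (f y) - co n (f x))) -
        EM P (fun x y => TV ((1 + δ) * lam) (co n (f y) - co n (f x))) ≤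
      (1 / (e ^ 2 * b)) * (b * EM P (fun x y => TV lam (co n (f y) - co n (f x))) -
        EM (P ^ (8 * a)) (fun x y => TV (b * lam) (co n (f y) - co n (f x)))) +
      (1 / e) * (EM P (fun x y => TV ((1 - δ) * lam) (co n (f y) - co n (f x))) -
        2 * EM P (fun x y => TV lam (co n (f y) - co n (f x))) +
        EM P (fun x y => TV ((1 + δ) * lam) (co n (f y) - co n (f x)))) +
      (1 / (e * b)) * EP P (8 * a) (fun z => ind (ns z) *
        (TV ((1 - δ) * (b * lam)) (co n (f (z (8 * a))) - co n (f (z 0))) -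
          TV (b * lam) (co n (f (z (8 * a))) - co n (f (z 0))))) := by
    intro n lam hlam
    set g : V → ZMod (n + 1) → ℝ := fun x => co n (f x) with hg
    have hDb : 0 ≤ b * EM P (fun x y => TV lam (g y - g x)) -
        EM (P ^ (8 * a)) (fun x y => TV (b * lam) (g y - g x)) := by
      have h := EM_block hP g lam (8 * a) 1
      simp only [mul_one, pow_one, Nat.cast_one, one_mul] at h
      linarith
    have hDd : 0 ≤ EM P (fun x y => TV ((1 - δ) * lam) (g y - g x)) -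
        2 * EM P (fun x y => TV lam (g y - g x)) +
        EM P (fun x y => TV ((1 + δ) * lam) (g y - g x)) := by
      have h1 : EM P (fun x y => 2 * TV lam (g y - g x)) ≤
          EM P (fun x y => TV ((1 - δ) * lam) (g y - g x) + TV ((1 + δ) * lam) (g y - g x)) := by
        refine EM_mono hP fun x y _ => ?_
        have h2 := TV_convex ((1 - δ) * lam) ((1 + δ) * lam) (g y - g x)
        rw [show ((1 - δ) * lam + (1 + δ) * lam) / 2 = lam by ring] at h2
        exact h2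
      rw [EM_const_mul, EM_add] at h1
      linarith
    have hAa : 0 ≤ EP P (8 * a) (fun z => ind (ns z) *
        (TV ((1 - δ) * (b * lam)) (g (z (8 * a)) - g (z 0)) -
          TV (b * lam) (g (z (8 * a)) - g (z 0)))) := by
      refine EP_nonneg hP _ fun z => mul_nonneg (ind_nonneg _) (sub_nonneg.mpr ?_)
      have hbl : 0 < b * lam := by positivity
      exact TV_anti _ (by nlinarith)
    by_contra hlt
    push Not at hlt
    apply hno
    set Dr := EM P (fun x y => TV lam (g y - g x)) -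
        EM P (fun x y => TV ((1 + δ) * lam) (g y - g x)) with hDr
    set Db := b * EM P (fun x y => TV lam (g y - g x)) -
        EM (P ^ (8 * a)) (fun x y => TV (b * lam) (g y - g x)) with hDb'
    set Dd := EM P (fun x y => TV ((1 - δ) * lam) (g y - g x)) -
        2 * EM P (fun x y => TV lam (g y - g x)) +
        EM P (fun x y => TV ((1 + δ) * lam) (g y - g x)) with hDd'
    set Aa := EP P (8 * a) (fun z => ind (ns z) *
        (TV ((1 - δ) * (b * lam)) (g (z (8 * a)) - g (z 0)) -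
          TV (b * lam) (g (z (8 * a)) - g (z 0)))) with hAa'
    have p1 : 0 ≤ (1 / (e ^ 2 * b)) * Db := by positivity
    have p2 : 0 ≤ (1 / e) * Dd := by positivity
    have p3 : 0 ≤ (1 / (e * b)) * Aa := by positivity
    refine ⟨n, lam, g, hlam, by linarith, ?_, ?_, ?_⟩
    · have h1 : (1 / (e ^ 2 * b)) * Db ≤ Dr := by linarith
      rw [one_div, inv_mul_le_iff₀ (by positivity)] at h1
      exact h1
    · have h1 : (1 / e) * Dd ≤ Dr := by linarith
      rw [one_div, inv_mul_le_iff₀ (by positivity)] at h1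
      have h2 : EM P (fun x y => TV ((1 - δ) * lam) (g y - g x)) -
          EM P (fun x y => TV lam (g y - g x)) = Dd + Dr := by
        rw [hDd', hDr]; ring
      rw [h2]
      linarith
    · have h1 : (1 / (e * b)) * Aa ≤ Dr := by linarith
      rw [one_div, inv_mul_le_iff₀ (by positivity)] at h1
      exact h1
  -- integrate
  have hM1 : EM P (fun x y => ‖f x - f y‖ ^ 2) = Sn P f 1 ^ 2 := by
    rw [Sn_sq hP f 1, pow_one]
  have hMb : EM (P ^ (8 * a)) (fun x y => ‖f x - f y‖ ^ 2) = Sn P f (8 * a) ^ 2 :=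
    (Sn_sq hP f (8 * a)).symm
  have hN : ∑ x, ∑ y, cn x y * ‖f x - f y‖ ^ 2 ≤ b ^ 2 * c * Sn P f 1 ^ 2 := by
    rw [← hcn (fun x y => ‖f x - f y‖ ^ 2)]
    have h1 : EP P (8 * a) (fun z => ind (ns z) * ‖f (z 0) - f (z (8 * a))‖ ^ 2) ≤
        EP P (8 * a) (fun z => (b * (Lam * Sn P f 1)) ^ 2 * ind (ns z)) := by
      refine EP_mono_supp hP _ fun z hz => ?_
      have h2 : ‖f (z 0) - f (z (8 * a))‖ ≤ b * (Lam * Sn P f 1) := by
        have h3 := dist_le_range_sum_dist (fun i => f (z i)) (8 * a)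
        rw [dist_eq_norm] at h3
        refine h3.trans ?_
        calc ∑ i ∈ range (8 * a), dist (f (z i)) (f (z (i + 1)))
            ≤ ∑ _i ∈ range (8 * a), Lam * Sn P f 1 := by
              refine Finset.sum_le_sum fun i hi => ?_
              rw [dist_eq_norm]
              exact hf _ _ (hz i (Finset.mem_range.mp hi))
          _ = b * (Lam * Sn P f 1) := by
              rw [Finset.sum_const, Finset.card_range, nsmul_eq_mul]
      rw [mul_comm]
      exact mul_le_mul_of_nonneg_right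
        (pow_le_pow_left₀ (norm_nonneg _) h2 2) (ind_nonneg _)
    refine h1.trans ?_
    rw [EP_const_mul]
    calc (b * (Lam * Sn P f 1)) ^ 2 * EP P (8 * a) (fun z => ind (ns z))
        = b ^ 2 * Sn P f 1 ^ 2 * (Lam ^ 2 * EP P (8 * a) (fun z => ind (ns z))) := by ring
      _ ≤ b ^ 2 * Sn P f 1 ^ 2 * c := mul_le_mul_of_nonneg_left hns (by positivity)
      _ = b ^ 2 * c * Sn P f 1 ^ 2 := by ring
  have hSb2 : (1 - c) ^ 2 * b ^ 2 * Sn P f 1 ^ 2 ≤ Sn P f (8 * a) ^ 2 := by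
    have h1 : 0 ≤ (1 - c) * (b * Sn P f 1) := by
      have : 0 ≤ 1 - c := by linarith
      positivity
    have h2 := pow_le_pow_left₀ h1 hSb 2
    calc (1 - c) ^ 2 * b ^ 2 * Sn P f 1 ^ 2 = ((1 - c) * (b * Sn P f 1)) ^ 2 := by ring
      _ ≤ _ := h2
  have hpos := comb_pos hco f (Finset.univ : Finset (Fin 6))
    ![1 / e ^ 2 - 2 / e - 1, -(1 / (e ^ 2 * b)), 1 / e, 1 / e + 1, 1 / (e * b), -(1 / (e * b))]
    ![fun x y => (Fintype.card V : ℝ)⁻¹ * P x y,
      fun x y => (Fintype.card V : ℝ)⁻¹ * (P ^ (8 * a)) x y,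
      fun x y => (Fintype.card V : ℝ)⁻¹ * P x y,
      fun x y => (Fintype.card V : ℝ)⁻¹ * P x y, cn, cn]
    ![1, b, 1 - δ, 1 + δ, (1 - δ) * b, b] ?_ ?_
  · simp only [Fin.sum_univ_six, Matrix.cons_val] at hpos
    rw [← EM_eq_comb, ← EM_eq_comb, hM1, hMb] at hpos
    refine level_arith he he1 hδ hc hb0 (pow_pos hS 2) hSb2 hN ?_
    refine hpos.trans (le_of_eq ?_)
    field_simp
    ring
  · intro i
    have hd : 0 < 1 - δ := by linarith
    fin_cases i <;> simp <;> first | positivity | linarith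
  · intro n lam hlam
    simp only [Fin.sum_univ_six, Matrix.cons_val, one_mul]
    rw [← EM_eq_comb, ← EM_eq_comb, ← EM_eq_comb, ← EM_eq_comb]
    have h1 := key n lam hlam
    have h2 := hcn (fun x y => TV ((1 - δ) * (b * lam)) (co n (f y) - co n (f x)) -
          TV (b * lam) (co n (f y) - co n (f x)))
    rw [h2] at h1
    simp only [mul_sub, Finset.sum_sub_distrib] at h1
    rw [← sub_nonneg] at h1
    refine h1.trans (le_of_eq ?_)
    simp only [mul_assoc]
    field_simp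
    ring

end Pool.Agent.H3NG
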