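import Pool.Agent.H3NG.CircB
import Pool.Agent.H3NG.PathA

/-!
# Module SelA1 : integrals over the level, summed over the components

`EM Q` and `EP P m` are finite linear combinations, so they commute with the integral over `lam` (`TV_integrable`) and with `HasSum`.
`TV_integral_scale`, `Model X co` (`HasSum (fun n => en (co n F)) (‖F‖ ^ 2)`), `co n (f y) - co n (f x) = co n (f y - f x)`.
For `EP`: induction on `m`, or first show that `EP P m (fun z => ind (ns z) * H (z 0) (z m)) = ∑ x y, c x y * H x y` for some `c`.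
-/

set_option autoImplicit false

open Finset

namespace Pool.Agent.H3NG

variable {V : Type} [Fintype V] {X : Type} [NormedAddCommGroup X] [NormedSpace ℝ X]
  {co : ∀ n : ℕ, X →ₗ[ℝ] (ZMod (n + 1) → ℝ)}

/-- `Ex P m x F` uses only the paths that start at `x` -/
theorem SelA1_Ex_congr (P : Matrix V V ℝ) (m : ℕ) (x : V) {F F' : (ℕ → V) → ℝ}
    (h : ∀ z : ℕ → V, z 0 = x → F z = F' z) : Ex P m x F = Ex P m x F' := by
  cases m with
  | zero => exact h _ rfl
  | succ m =>
    unfold Ex
    refine Finset.sum_congr rfl fun y _ => ?_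
    congr 1
    congr 1
    funext z
    exact h _ rfl

/-- coefficients of the end point -/
theorem SelA1_Ex_coeff {P : Matrix V V ℝ} (hP : SStoch P) (m : ℕ) :
    ∀ (x : V) (ns : (ℕ → V) → Prop), ∃ c : V → ℝ, (∀ y, 0 ≤ c y) ∧ ∀ h : V → ℝ,
      Ex P m x (fun z => ind (ns z) * h (z m)) = ∑ y, c y * h y := by
  classical
  induction m with
  | zero =>
    intro x ns
    refine ⟨fun y => if y = x then ind (ns fun _ => x) else 0, fun y => ?_, fun h => ?_⟩
    · beta_reduce
      split_ifs
      · exact ind_nonneg _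
      · exact le_rfl
    · simp only [Ex, ite_mul, zero_mul]
      rw [Finset.sum_ite_eq' univ x, if_pos (Finset.mem_univ x)]
  | succ m ih =>
    intro x ns
    choose c hc0 hc using fun w : V => ih w (fun z => ns (cns x z))
    refine ⟨fun y => ∑ w, P x w * c w y, fun y => ?_, fun h => ?_⟩
    · exact Finset.sum_nonneg fun w _ => mul_nonneg (hP.nonneg x w) (hc0 w y)
    · have e1 : Ex P (m + 1) x (fun z => ind (ns z) * h (z (m + 1))) =
          ∑ w, P x w * Ex P m w (fun z => ind (ns (cns x z)) * h (z m)) := rfl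
      rw [e1]
      simp only [hc, Finset.mul_sum, Finset.sum_mul]
      rw [Finset.sum_comm]
      refine Finset.sum_congr rfl fun y _ => Finset.sum_congr rfl fun w _ => ?_
      ring

/-- `EP` with an event is a nonnegative combination of the pairs of end points -/
theorem EP_coeff {P : Matrix V V ℝ} (hP : SStoch P) (m : ℕ) (ns : (ℕ → V) → Prop) :
    ∃ c : V → V → ℝ, (∀ x y, 0 ≤ c x y) ∧ ∀ H : V → V → ℝ,
      EP P m (fun z => ind (ns z) * H (z 0) (z m)) = ∑ x, ∑ y, c x y * H x y := by
  choose c hc0 hc using fun x : V => SelA1_Ex_coeff hP m x ns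
  refine ⟨fun x y => (Fintype.card V : ℝ)⁻¹ * c x y, fun x y => ?_, fun H => ?_⟩
  · exact mul_nonneg (inv_nonneg.2 (Nat.cast_nonneg _)) (hc0 x y)
  · unfold EP
    rw [Finset.mul_sum]
    refine Finset.sum_congr rfl fun x _ => ?_
    rw [SelA1_Ex_congr P m x (F' := fun z => ind (ns z) * H x (z m)) (fun z hz => by rw [hz]),
      hc x (H x), Finset.mul_sum]
    refine Finset.sum_congr rfl fun y _ => ?_
    ring

theorem comb_integrable (g : ∀ n : ℕ, V → ZMod (n + 1) → ℝ) (n : ℕ) (c : V → V → ℝ) {r : ℝ} (hr : 0 < r) :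
    MeasureTheory.IntegrableOn (fun lam => ∑ x, ∑ y, c x y * TV (r * lam) (g n y - g n x))
      (Set.Ioi 0) := by
  unfold MeasureTheory.IntegrableOn
  refine MeasureTheory.integrable_finsetSum _ fun x _ => ?_
  refine MeasureTheory.integrable_finsetSum _ fun y _ => ?_
  exact (TV_integrable hr (g n y - g n x)).const_mul (c x y)

theorem comb_hasSum (hco : Model X co) (f : V → X) (c : V → V → ℝ) {r : ℝ} (hr : 0 < r) :
    HasSum (fun n => ∫ lam in Set.Ioi (0 : ℝ),
        ∑ x, ∑ y, c x y * TV (r * lam) (co n (f y) - co n (f x)))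
      (r⁻¹ * ∑ x, ∑ y, c x y * ‖f x - f y‖ ^ 2) := by
  have h1 : ∀ n, ∫ lam in Set.Ioi (0 : ℝ),
      ∑ x, ∑ y, c x y * TV (r * lam) (co n (f y) - co n (f x)) =
      ∑ x, ∑ y, c x y * (r⁻¹ * en (co n (f y - f x))) := by
    intro n
    have hint : ∀ x y, MeasureTheory.Integrable
        (fun lam => c x y * TV (r * lam) (co n (f y) - co n (f x)))
        (MeasureTheory.volume.restrict (Set.Ioi (0 : ℝ))) := fun x y =>
      (TV_integrable hr (co n (f y) - co n (f x))).const_mul (c x y)
    rw [MeasureTheory.integral_finsetSum _ fun x _ =>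
      MeasureTheory.integrable_finsetSum _ fun y _ => hint x y]
    refine Finset.sum_congr rfl fun x _ => ?_
    rw [MeasureTheory.integral_finsetSum _ fun y _ => hint x y]
    refine Finset.sum_congr rfl fun y _ => ?_
    rw [MeasureTheory.integral_const_mul, TV_integral_scale hr, map_sub]
  have h2 : r⁻¹ * ∑ x, ∑ y, c x y * ‖f x - f y‖ ^ 2 =
      ∑ x, ∑ y, c x y * (r⁻¹ * ‖f y - f x‖ ^ 2) := by
    rw [Finset.mul_sum]
    refine Finset.sum_congr rfl fun x _ => ?_
    rw [Finset.mul_sum]
    refine Finset.sum_congr rfl fun y _ => ?_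
    rw [norm_sub_rev]
    ring
  simp only [h1]
  rw [h2]
  refine hasSum_sum fun x _ => hasSum_sum fun y _ => ?_
  exact ((hco (f y - f x)).mul_left r⁻¹).mul_left (c x y)

end Pool.Agent.H3NG
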