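import Pool.Agent.H3NG.LazyB
import Pool.Agent.H3NG.Sub

/-!
# Module SelB1 : inequalities for the optimal phases of the paths of length `m`

`s x y` is an optimal phase of `g y - g x` at the level `m * lam`.
* `path_bt`: `∑ j, G lam (g (z (j+1)) - g (z j)) (s (z 0) (z m)) = G (m lam) (g (z m) - g (z 0)) (s ..) = TV (m lam) ..`
  (`G_sum_blocks`), and `bt_le` for each block; expectation by `EP_step` and `EP_ends`.
* `ch_lower`: `TV ((1+δ) (m lam)) F ≥ G ((1+δ) (m lam)) F s = TV (m lam) F - δ m lam card (ch s)` (`G_level`).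
* `ch_ns`: `TV ((1-δ) (m lam)) F ≥ G ((1-δ) (m lam)) F s = TV (m lam) F + δ m lam card (ch s)`.
-/

set_option autoImplicit false

open Finset

namespace Pool.Agent.H3NG

variable {T : ℕ} [NeZero T] {V : Type} [Fintype V] [DecidableEq V]

theorem path_bt {P : Matrix V V ℝ} (hP : SStoch P) (g : V → ZMod T → ℝ) {lam κ : ℝ} (hl : 0 < lam)
    (hκ : 0 ≤ κ) (hκ1 : κ < 1) {w : V → V → ZMod T → ℝ} (hw : ∀ x y, Lazy lam (g y - g x) (w x y))
    (m : ℕ) {s : V → V → ZMod T → SignType} (hs : ∀ x y, Ph (s x y))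
    (hopt : ∀ x y, G ((m : ℝ) * lam) (g y - g x) (s x y) = TV ((m : ℝ) * lam) (g y - g x)) :
    κ * lam * EP P m (fun z => ∑ j ∈ range m,
        (bt (st ((1 - κ) * lam) (w (z j) (z (j + 1)))) (s (z 0) (z m)) : ℝ)) ≤
      m * EM P (fun x y => TV lam (g y - g x)) -
        EM (P ^ m) (fun x y => TV ((m : ℝ) * lam) (g y - g x)) := by
  have hpt : ∀ z : ℕ → V, κ * lam * ∑ j ∈ range m,
        (bt (st ((1 - κ) * lam) (w (z j) (z (j + 1)))) (s (z 0) (z m)) : ℝ) ≤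
      ∑ j ∈ range m, TV lam (g (z (j + 1)) - g (z j)) -
        TV ((m : ℝ) * lam) (g (z m) - g (z 0)) := by
    intro z
    rw [← hopt (z 0) (z m), G_sum_blocks m lam (fun j => g (z j)) (s (z 0) (z m)),
      ← Finset.sum_sub_distrib, Finset.mul_sum]
    exact Finset.sum_le_sum fun j _ => bt_le hl hκ hκ1 (hw (z j) (z (j + 1))) (hs _ _)
  rw [← EP_const_mul]
  refine (EP_mono_supp hP m fun z _ => hpt z).trans (le_of_eq ?_)
  rw [EP_sub, EP_sum, EP_ends m (fun x y => TV ((m : ℝ) * lam) (g y - g x))]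
  congr 1
  rw [Finset.sum_congr rfl fun j hj => EP_step hP (Finset.mem_range.1 hj)
    (fun x y => TV lam (g y - g x)), Finset.sum_const, Finset.card_range, nsmul_eq_mul]

theorem ch_lower {P : Matrix V V ℝ} (hP : SStoch P) (g : V → ZMod T → ℝ) {lam δ : ℝ}
    (m : ℕ) {s : V → V → ZMod T → SignType} (hs : ∀ x y, Ph (s x y))
    (hopt : ∀ x y, G ((m : ℝ) * lam) (g y - g x) (s x y) = TV ((m : ℝ) * lam) (g y - g x)) :
    EM (P ^ m) (fun x y => TV ((m : ℝ) * lam) (g y - g x)) -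
        EM (P ^ m) (fun x y => TV ((1 + δ) * ((m : ℝ) * lam)) (g y - g x)) ≤
      δ * (m * lam) * EP P m (fun z => ((ch (s (z 0) (z m))).card : ℝ)) := by
  rw [← EP_ends m (fun x y => TV ((m : ℝ) * lam) (g y - g x)),
    ← EP_ends m (fun x y => TV ((1 + δ) * ((m : ℝ) * lam)) (g y - g x)), ← EP_sub,
    ← EP_const_mul]
  refine EP_mono_supp hP m fun z _ => ?_
  have h1 := G_le_TV ((1 + δ) * ((m : ℝ) * lam)) (g (z m) - g (z 0)) (hs (z 0) (z m))
  have h2 := G_level ((m : ℝ) * lam) ((1 + δ) * ((m : ℝ) * lam)) (g (z m) - g (z 0))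
    (s (z 0) (z m))
  rw [hopt] at h2
  nlinarith

theorem ch_ns {P : Matrix V V ℝ} (hP : SStoch P) (g : V → ZMod T → ℝ) {lam δ : ℝ}
    (m : ℕ) {s : V → V → ZMod T → SignType} (hs : ∀ x y, Ph (s x y))
    (hopt : ∀ x y, G ((m : ℝ) * lam) (g y - g x) (s x y) = TV ((m : ℝ) * lam) (g y - g x))
    (ns : (ℕ → V) → Prop) :
    δ * (m * lam) * EP P m (fun z => ind (ns z) * ((ch (s (z 0) (z m))).card : ℝ)) ≤
      EP P m (fun z => ind (ns z) * (TV ((1 - δ) * ((m : ℝ) * lam)) (g (z m) - g (z 0)) -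
        TV ((m : ℝ) * lam) (g (z m) - g (z 0)))) := by
  rw [← EP_const_mul]
  refine EP_mono_supp hP m fun z _ => ?_
  have h1 := G_le_TV ((1 - δ) * ((m : ℝ) * lam)) (g (z m) - g (z 0)) (hs (z 0) (z m))
  have h2 := G_level ((1 - δ) * ((m : ℝ) * lam)) ((m : ℝ) * lam) (g (z m) - g (z 0))
    (s (z 0) (z m))
  rw [hopt] at h2
  have h3 : δ * (m * lam) * ((ch (s (z 0) (z m))).card : ℝ) ≤
      TV ((1 - δ) * ((m : ℝ) * lam)) (g (z m) - g (z 0)) -
        TV ((m : ℝ) * lam) (g (z m) - g (z 0)) := by nlinarith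
  have h4 := mul_le_mul_of_nonneg_left h3 (ind_nonneg (ns z))
  linarith

end Pool.Agent.H3NG
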