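import Pool.Agent.H3NG.Defs

/-!
# H3NG/TVB: basic facts about the penalised variation on a circle
-/

set_option autoImplicit false

open Finset

namespace Pool.Agent.H3NG.Sp

section
variable {T : ℕ} [NeZero T]

omit [NeZero T] in
lemma ph_one : Ph (fun _ : ZMod T => (1 : SignType)) := by
  intro t
  exact one_ne_zero

instance instNonemptyPh : Nonempty {s : ZMod T → SignType // Ph s} :=
  ⟨⟨fun _ => 1, ph_one⟩⟩

instance instFinitePh : Finite {s : ZMod T → SignType // Ph s} := by
  have : Finite (ZMod T → SignType) := inferInstance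
  exact Subtype.finite

lemma bddAbove_G (lam : ℝ) (u : ZMod T → ℝ) :
    BddAbove (Set.range (fun s : {s : ZMod T → SignType // Ph s} => G lam u s.1)) :=
  (Set.finite_range _).bddAbove

lemma G_le_TV (lam : ℝ) (u : ZMod T → ℝ) (s : ZMod T → SignType) (hs : Ph s) :
    G lam u s ≤ TV lam u :=
  le_ciSup (bddAbove_G lam u) ⟨s, hs⟩

lemma exists_TV (lam : ℝ) (u : ZMod T → ℝ) : ∃ s, Ph s ∧ G lam u s = TV lam u := by
  obtain ⟨⟨s, hs⟩, h⟩ := exists_eq_ciSup_of_finite
    (f := fun s : {s : ZMod T → SignType // Ph s} => G lam u s.1)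
  exact ⟨s, hs, h⟩

lemma TV_le {lam : ℝ} {u : ZMod T → ℝ} {c : ℝ} (h : ∀ s, Ph s → G lam u s ≤ c) :
    TV lam u ≤ c := ciSup_le (fun s => h s.1 s.2)

lemma G_add (a b : ℝ) (u v : ZMod T → ℝ) (s : ZMod T → SignType) :
    G (a + b) (u + v) s = G a u s + G b v s := by
  unfold G
  rw [← sum_add_distrib]
  apply sum_congr rfl
  intro t _
  simp only [Pi.add_apply]; ring

lemma TV_add_le (a b : ℝ) (u v : ZMod T → ℝ) : TV (a + b) (u + v) ≤ TV a u + TV b v := by
  apply TV_le
  intro s hs
  rw [G_add]
  exact add_le_add (G_le_TV _ _ _ hs) (G_le_TV _ _ _ hs)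

lemma ch_const (c : SignType) : ch (fun _ : ZMod T => c) = ∅ := by
  simp [ch]

lemma G_const (lam : ℝ) (u : ZMod T → ℝ) (c : SignType) : G lam u (fun _ => c) = 0 := by
  unfold G; rw [ch_const]; simp

lemma TV_nonneg (lam : ℝ) (u : ZMod T → ℝ) : 0 ≤ TV lam u := by
  rw [← G_const lam u 1]
  exact G_le_TV _ _ _ ph_one

lemma G_eq (lam : ℝ) (u : ZMod T → ℝ) (s : ZMod T → SignType) :
    G lam u s = ∑ t ∈ ch s, 2 * (s t : ℝ) * u t - lam * (ch s).card := by
  unfold G
  rw [sum_sub_distrib, sum_const, nsmul_eq_mul]; ring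

lemma TV_anti (u : ZMod T → ℝ) {a b : ℝ} (h : a ≤ b) : TV b u ≤ TV a u := by
  apply TV_le
  intro s hs
  refine le_trans ?_ (G_le_TV a u s hs)
  rw [G_eq, G_eq]
  have : a * ((ch s).card : ℝ) ≤ b * (ch s).card := mul_le_mul_of_nonneg_right h (Nat.cast_nonneg _)
  linarith

lemma TV_le_add (u : ZMod T → ℝ) (a b : ℝ) : TV a u ≤ TV b u + T * |a - b| := by
  apply TV_le
  intro s hs
  have h1 := G_le_TV b u s hs
  rw [G_eq] at h1 ⊢
  have hc : ((ch s).card : ℝ) ≤ T := by
    have := card_le_univ (ch s)
    rw [ZMod.card] at this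
    exact_mod_cast this
  have h2 : (b - a) * ((ch s).card : ℝ) ≤ T * |a - b| := by
    calc (b - a) * ((ch s).card : ℝ) ≤ |a - b| * (ch s).card := by
          apply mul_le_mul_of_nonneg_right _ (Nat.cast_nonneg _)
          rw [abs_sub_comm]; exact le_abs_self _
      _ ≤ |a - b| * T := by gcongr
      _ = _ := mul_comm _ _
  linarith

lemma continuous_TV (u : ZMod T → ℝ) : Continuous (fun lam => TV lam u) := by
  have : LipschitzWith T (fun lam => TV lam u) := by
    apply LipschitzWith.of_le_add_mul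
    intro a b
    have := TV_le_add u a b
    rw [Real.dist_eq]
    simpa using this
  exact this.continuous

lemma G_smul (c lam : ℝ) (u : ZMod T → ℝ) (s : ZMod T → SignType) :
    G (c * lam) (c • u) s = c * G lam u s := by
  unfold G
  rw [mul_sum]
  apply sum_congr rfl
  intro t _
  simp only [Pi.smul_apply, smul_eq_mul]; ring

lemma TV_smul {c : ℝ} (hc : 0 ≤ c) (lam : ℝ) (u : ZMod T → ℝ) :
    TV (c * lam) (c • u) = c * TV lam u := by
  apply le_antisymm
  · apply TV_le
    intro s hs
    rw [G_smul]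
    exact mul_le_mul_of_nonneg_left (G_le_TV _ _ _ hs) hc
  · obtain ⟨s, hs, h⟩ := exists_TV lam u
    rw [← h, ← G_smul]
    exact G_le_TV _ _ _ hs

lemma ch_neg (s : ZMod T → SignType) : ch (fun t => - s t) = ch s := by
  unfold ch
  ext t
  simp

omit [NeZero T] in
lemma Ph_neg {s : ZMod T → SignType} (hs : Ph s) : Ph (fun t => - s t) := by
  intro t h
  apply hs t
  have h' : - s t = 0 := h
  revert h'
  generalize s t = x
  cases x <;> decide

lemma G_neg (lam : ℝ) (u : ZMod T → ℝ) (s : ZMod T → SignType) :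
    G lam (-u) (fun t => - s t) = G lam u s := by
  unfold G
  rw [ch_neg]
  apply sum_congr rfl
  intro t _
  have : ((-s t : SignType) : ℝ) = - (s t : ℝ) := by
    generalize s t = x
    cases x <;> simp
  rw [this]
  simp only [Pi.neg_apply]; ring

lemma TV_neg (lam : ℝ) (u : ZMod T → ℝ) : TV lam (-u) = TV lam u := by
  have key : ∀ v : ZMod T → ℝ, TV lam v ≤ TV lam (-v) := by
    intro v
    apply TV_le
    intro s hs
    rw [← G_neg]
    exact G_le_TV _ _ _ (Ph_neg hs)
  apply le_antisymm
  · have := key (-u); rwa [neg_neg] at this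
  · exact key u

/-- for a phase, the value before a change is minus the value after it -/
lemma ch_flip {s : ZMod T → SignType} (hs : Ph s) {t : ZMod T} (ht : t ∈ ch s) :
    s (t + 1) = - s t := by
  have h1 := hs t
  have h2 := hs (t + 1)
  simp only [ch, mem_filter, mem_univ, true_and] at ht
  revert h1 h2 ht
  generalize s t = x
  generalize s (t + 1) = y
  cases x <;> cases y <;> decide

lemma sum_shift {M : Type} [AddCommMonoid M] (h : ZMod T → M) : ∑ t, h (t + 1) = ∑ t, h t :=
  Fintype.sum_equiv (Equiv.addRight (1 : ZMod T)) _ _ (fun _ => rfl)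

/-- summation by parts -/
lemma sum_ch (u : ZMod T → ℝ) {s : ZMod T → SignType} (hs : Ph s) :
    ∑ t ∈ ch s, 2 * (s t : ℝ) * u t = ∑ t, (s (t + 1) : ℝ) * (u (t + 1) - u t) := by
  have h1 : ∑ t ∈ ch s, 2 * (s t : ℝ) * u t = ∑ t, ((s t : ℝ) - s (t + 1)) * u t := by
    unfold ch
    rw [sum_filter]
    apply sum_congr rfl
    intro t _
    by_cases h : s t ≠ s (t + 1)
    · rw [if_pos h]
      have := ch_flip hs (t := t) (by simp [ch, h])
      rw [this]
      have h3 : ((-s t : SignType) : ℝ) = - (s t : ℝ) := by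
        generalize s t = x
        cases x <;> simp
      rw [h3]; ring
    · rw [if_neg h]
      push Not at h
      rw [h]; ring
  rw [h1]
  have h2 : ∑ t, (s (t + 1) : ℝ) * (u (t + 1) - u t)
      = ∑ t, (s (t + 1) : ℝ) * u (t + 1) - ∑ t, (s (t + 1) : ℝ) * u t := by
    rw [← sum_sub_distrib]
    apply sum_congr rfl; intro t _; ring
  rw [h2, sum_shift (fun t => (s t : ℝ) * u t), ← sum_sub_distrib]
  apply sum_congr rfl; intro t _; ring

lemma G_parts (lam : ℝ) (u : ZMod T → ℝ) {s : ZMod T → SignType} (hs : Ph s) :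
    G lam u s = ∑ t, (s (t + 1) : ℝ) * (u (t + 1) - u t) - lam * (ch s).card := by
  rw [G_eq, sum_ch u hs]

lemma two_le_card_ch {s : ZMod T → SignType} (hs : Ph s) (h : ch s ≠ ∅) : 2 ≤ (ch s).card := by
  by_contra hlt
  have hpos : 0 < (ch s).card := card_pos.2 (nonempty_iff_ne_empty.2 h)
  have h1 : (ch s).card = 1 := by omega
  rw [card_eq_one] at h1
  obtain ⟨a, ha⟩ := h1
  have h2 := sum_ch (fun _ => (1 : ℝ)) hs
  rw [ha] at h2
  simp only [sum_singleton, mul_one, sub_self, mul_zero, sum_const_zero] at h2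
  have h3 := hs a
  revert h2 h3
  generalize s a = x
  cases x <;> norm_num

lemma ch_empty_const {s : ZMod T → SignType} (h : ch s = ∅) : ∀ t, s t = s 0 := by
  have h1 : ∀ t, s (t + 1) = s t := by
    intro t
    by_contra hne
    have : t ∈ ch s := by
      simp only [ch, mem_filter, mem_univ, true_and]; exact fun h => hne h.symm
    rw [h] at this
    simp at this
  have h2 : ∀ n : ℕ, s (n : ZMod T) = s 0 := by
    intro n
    induction n with
    | zero => simp
    | succ n ih => push_cast; rw [h1, ih]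
  intro t
  have := h2 t.val
  rwa [ZMod.natCast_zmod_val] at this

/-- adding a constant changes nothing -/
lemma G_add_const (lam : ℝ) (u : ZMod T → ℝ) (c : ℝ) {s : ZMod T → SignType} (hs : Ph s) :
    G lam (fun t => u t + c) s = G lam u s := by
  rw [G_parts _ _ hs, G_parts _ _ hs]
  congr 1
  apply sum_congr rfl
  intro t _; ring

lemma TV_eq_zero {lam : ℝ} (u : ZMod T → ℝ) (h : ∀ t, 2 * |u t| ≤ lam) : TV lam u = 0 := by
  apply le_antisymm _ (TV_nonneg _ _)
  apply TV_le
  intro s hs
  unfold G
  apply sum_nonpos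
  intro t _
  have h1 : 2 * (s t : ℝ) * u t ≤ 2 * |u t| := by
    have : |(s t : ℝ)| ≤ 1 := by
      generalize s t = x
      cases x <;> simp
    calc 2 * (s t : ℝ) * u t ≤ |2 * (s t : ℝ) * u t| := le_abs_self _
      _ = 2 * |(s t : ℝ)| * |u t| := by rw [abs_mul, abs_mul, abs_two]
      _ ≤ 2 * 1 * |u t| := by gcongr
      _ = _ := by ring
  linarith [h t]

/-- twice the sup norm, a level at which the penalised variation vanishes -/
noncomputable def bdl (u : ZMod T → ℝ) : ℝ := 2 * ∑ t, |u t|

lemma bdl_nonneg (u : ZMod T → ℝ) : 0 ≤ bdl u := by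
  unfold bdl; have := sum_nonneg (s := univ) (f := fun t => |u t|) (fun t _ => abs_nonneg _)
  linarith

lemma TV_eq_zero' {lam : ℝ} (u : ZMod T → ℝ) (h : bdl u ≤ lam) : TV lam u = 0 := by
  apply TV_eq_zero
  intro t
  refine le_trans ?_ h
  unfold bdl
  have : |u t| ≤ ∑ t, |u t| :=
    single_le_sum (f := fun t => |u t|) (fun t _ => abs_nonneg _) (mem_univ t)
  linarith

open MeasureTheory in
lemma integrableOn_TV (u : ZMod T → ℝ) : IntegrableOn (fun lam => TV lam u) (Set.Ioi 0) := by
  have h1 : IntegrableOn (fun lam => TV lam u) (Set.Ioc 0 (bdl u)) :=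
    ((continuous_TV u).integrableOn_Icc).mono_set Set.Ioc_subset_Icc_self
  have h2 : IntegrableOn (fun lam => TV lam u) (Set.Ioi (bdl u)) := by
    rw [integrableOn_congr_fun (g := fun _ => (0 : ℝ)) _ measurableSet_Ioi]
    · exact integrableOn_zero
    · intro x hx
      exact TV_eq_zero' u (le_of_lt hx)
  rw [← Set.Ioc_union_Ioi_eq_Ioi (bdl_nonneg u)]
  exact h1.union h2

open MeasureTheory in
lemma integrableOn_TV_scale (u : ZMod T → ℝ) {c : ℝ} (hc : 0 < c) :
    IntegrableOn (fun lam => TV (c * lam) u) (Set.Ioi 0) := by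
  have := (integrableOn_Ioi_comp_mul_left_iff (fun lam => TV lam u) 0 hc).2
  rw [mul_zero] at this
  exact this (integrableOn_TV u)

open MeasureTheory in
lemma integral_TV_scale (u : ZMod T → ℝ) {c : ℝ} (hc : 0 < c) :
    ∫ lam in Set.Ioi (0 : ℝ), TV (c * lam) u = c⁻¹ * en u := by
  have := integral_comp_mul_left_Ioi (fun lam => TV lam u) 0 hc
  rw [mul_zero, smul_eq_mul] at this
  rw [this, en]

lemma en_nonneg (u : ZMod T → ℝ) : 0 ≤ en u :=
  MeasureTheory.setIntegral_nonneg measurableSet_Ioi (fun _ _ => TV_nonneg _ _)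

lemma en_zero : en (0 : ZMod T → ℝ) = 0 := by
  unfold en
  apply MeasureTheory.setIntegral_eq_zero_of_forall_eq_zero
  intro x hx
  apply TV_eq_zero
  intro t
  simp only [Pi.zero_apply, abs_zero, mul_zero]
  exact le_of_lt hx

lemma en_neg (u : ZMod T → ℝ) : en (-u) = en u := by
  unfold en; simp_rw [TV_neg]

lemma en_smul_pos {c : ℝ} (hc : 0 < c) (u : ZMod T → ℝ) : en (c • u) = c ^ 2 * en u := by
  have h1 : ∀ lam, TV lam (c • u) = c * TV (c⁻¹ * lam) u := by
    intro lam
    rw [← TV_smul hc.le, mul_inv_cancel_left₀ hc.ne']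
  unfold en
  simp_rw [h1]
  rw [MeasureTheory.integral_const_mul, integral_TV_scale u (inv_pos.2 hc), inv_inv, en]
  ring

lemma en_smul (c : ℝ) (u : ZMod T → ℝ) : en (c • u) = c ^ 2 * en u := by
  rcases lt_trichotomy c 0 with h | h | h
  · have : c • u = -((-c) • u) := by rw [neg_smul, neg_neg]
    rw [this, en_neg, en_smul_pos (by linarith)]; ring
  · rw [h, zero_smul, en_zero]; ring
  · exact en_smul_pos h u

open MeasureTheory in
lemma en_add_le (u v : ZMod T → ℝ) {α : ℝ} (h0 : 0 < α) (h1 : α < 1) :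
    en (u + v) ≤ α⁻¹ * en u + (1 - α)⁻¹ * en v := by
  have hb : 0 < 1 - α := by linarith
  rw [← integral_TV_scale u h0, ← integral_TV_scale v hb,
    ← integral_add (integrableOn_TV_scale u h0) (integrableOn_TV_scale v hb)]
  unfold en
  apply setIntegral_mono_on (integrableOn_TV _)
    ((integrableOn_TV_scale u h0).add (integrableOn_TV_scale v hb)) measurableSet_Ioi
  intro lam _
  have := TV_add_le (α * lam) ((1 - α) * lam) u v
  have e : α * lam + (1 - α) * lam = lam := by ring
  rwa [e] at this

/-- the triangle inequality -/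
lemma sqrt_en_add_le (u v : ZMod T → ℝ) :
    Real.sqrt (en (u + v)) ≤ Real.sqrt (en u) + Real.sqrt (en v) := by
  set a := Real.sqrt (en u) with ha
  set b := Real.sqrt (en v) with hb
  have ha0 : 0 ≤ a := Real.sqrt_nonneg _
  have hb0 : 0 ≤ b := Real.sqrt_nonneg _
  have hua : en u = a ^ 2 := (Real.sq_sqrt (en_nonneg u)).symm
  have hvb : en v = b ^ 2 := (Real.sq_sqrt (en_nonneg v)).symm
  -- perturb to avoid zero denominators
  have key : ∀ ε : ℝ, 0 < ε → en (u + v) ≤ (a + b + 2 * ε) ^ 2 := by
    intro ε hε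
    have hs : 0 < a + b + 2 * ε := by linarith
    set α := (a + ε) / (a + b + 2 * ε) with hα
    have hα0 : 0 < α := by positivity
    have h1α : 1 - α = (b + ε) / (a + b + 2 * ε) := by rw [hα]; field_simp; ring
    have hα1 : α < 1 := by
      have : 0 < 1 - α := by rw [h1α]; positivity
      linarith
    refine (en_add_le u v hα0 hα1).trans ?_
    rw [h1α, hα, inv_div, inv_div, hua, hvb]
    have e1 : (a + b + 2 * ε) / (a + ε) * a ^ 2 ≤ (a + b + 2 * ε) * (a + ε) := by
      rw [div_mul_eq_mul_div, div_le_iff₀ (by positivity)]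
      have : a ^ 2 ≤ (a + ε) * (a + ε) := by nlinarith
      calc (a + b + 2 * ε) * a ^ 2 ≤ (a + b + 2 * ε) * ((a + ε) * (a + ε)) := by gcongr
        _ = _ := by ring
    have e2 : (a + b + 2 * ε) / (b + ε) * b ^ 2 ≤ (a + b + 2 * ε) * (b + ε) := by
      rw [div_mul_eq_mul_div, div_le_iff₀ (by positivity)]
      have : b ^ 2 ≤ (b + ε) * (b + ε) := by nlinarith
      calc (a + b + 2 * ε) * b ^ 2 ≤ (a + b + 2 * ε) * ((b + ε) * (b + ε)) := by gcongr
        _ = _ := by ring
    nlinarith
  rw [Real.sqrt_le_left (by positivity)]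
  have hlim : Filter.Tendsto (fun ε : ℝ => (a + b + 2 * ε) ^ 2) (nhdsWithin 0 (Set.Ioi 0))
      (nhds ((a + b + 2 * 0) ^ 2)) := by
    apply Filter.Tendsto.mono_left _ nhdsWithin_le_nhds
    apply Continuous.tendsto
    fun_prop
  rw [mul_zero, add_zero] at hlim
  apply ge_of_tendsto hlim
  filter_upwards [self_mem_nhdsWithin] with ε hε
  exact key ε hε

/-- the phase which is `1` on the arc `[y, x)` (shifted) and `-1` elsewhere -/
noncomputable def arcPh (x y : ZMod T) (t : ZMod T) : SignType :=
  if (t - (y + 1)).val < (x - y).val then 1 else -1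

omit [NeZero T] in
lemma arcPh_ph (x y : ZMod T) : Ph (arcPh x y) := by
  intro t
  unfold arcPh
  split_ifs <;> decide

lemma arcPh_ch (x y : ZMod T) : ch (arcPh x y) ⊆ {x, y} := by
  intro t ht
  simp only [ch, mem_filter, mem_univ, true_and] at ht
  simp only [mem_insert, mem_singleton]
  by_contra hcon
  push Not at hcon
  obtain ⟨hx, hy⟩ := hcon
  apply ht
  unfold arcPh
  -- the two conditions are equivalent
  have hval : (t + 1 - (y + 1)).val = (t - (y + 1)).val + 1 := by
    have hne : t - (y + 1) ≠ -1 := by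
      intro h
      apply hy
      have : t = y := by linear_combination h
      exact this
    have e : t + 1 - (y + 1) = (t - (y + 1)) + 1 := by ring
    rw [e]
    have hT1 : 1 < T := by
      by_contra hT
      have hT0 : 0 < T := Nat.pos_of_ne_zero (NeZero.ne T)
      have hT' : T = 1 := by omega
      subst hT'
      exact hx (Subsingleton.elim _ _)
    have : Fact (1 < T) := ⟨hT1⟩
    rw [ZMod.val_add_of_lt]
    · rw [ZMod.val_one]
    · rw [ZMod.val_one]
      have hlt := ZMod.val_lt (t - (y + 1))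
      by_contra hge
      have heq : (t - (y + 1)).val = T - 1 := by omega
      apply hne
      have h5 : ((t - (y + 1)).val : ZMod T) = t - (y + 1) := ZMod.natCast_zmod_val _
      rw [← h5, heq, Nat.cast_sub (by omega)]
      simp
  have hd : (t - (y + 1)).val + 1 ≠ (x - y).val := by
    intro h
    apply hx
    rw [← hval] at h
    have := ZMod.val_injective T h
    have h6 : t = x := by linear_combination this
    exact h6
  rw [hval]
  have : ((t - (y + 1)).val < (x - y).val) ↔ ((t - (y + 1)).val + 1 < (x - y).val) := by omega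
  simp only [this]

/-- lower bound for the penalised variation by a difference of two values -/
lemma le_TV (lam : ℝ) (hl : 0 ≤ lam) (u : ZMod T → ℝ) (x y : ZMod T) :
    2 * (u x - u y) - 2 * lam ≤ TV lam u := by
  by_cases hxy : x = y
  · subst hxy
    have := TV_nonneg lam u
    linarith
  refine le_trans ?_ (G_le_TV lam u (arcPh x y) (arcPh_ph x y))
  rw [G_eq]
  have hx : arcPh x y x = 1 := by
    unfold arcPh
    have h1 : x - y ≠ 0 := sub_ne_zero.2 hxy
    have h2 : (x - y).val ≠ 0 := by rwa [Ne, ZMod.val_eq_zero]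
    have h3 : (x - (y + 1)).val + 1 = (x - y).val := by
      have e : x - (y + 1) = (x - y) - 1 := by ring
      rw [e]
      have hT1 : 1 < T := by
        by_contra hT
        have hT0 : 0 < T := Nat.pos_of_ne_zero (NeZero.ne T)
        have hT' : T = 1 := by omega
        subst hT'
        exact hxy (Subsingleton.elim _ _)
      have : Fact (1 < T) := ⟨hT1⟩
      rw [ZMod.val_sub]
      · rw [ZMod.val_one]; omega
      · rw [ZMod.val_one]; omega
    rw [if_pos (by omega)]
  have hy : arcPh x y y = -1 := by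
    unfold arcPh
    have h3 : (y - (y + 1)).val = T - 1 := by
      have e : y - (y + 1) = -1 := by ring
      rw [e]
      have hT0 : 0 < T := Nat.pos_of_ne_zero (NeZero.ne T)
      obtain ⟨m, rfl⟩ : ∃ m, T = m + 1 := ⟨T - 1, by omega⟩
      rw [ZMod.val_neg_one]; rfl
    have h4 := ZMod.val_lt (x - y)
    rw [if_neg (by omega)]
  have hch : ch (arcPh x y) = {x, y} := by
    apply Subset.antisymm (arcPh_ch x y)
    have hne : ch (arcPh x y) ≠ ∅ := by
      intro h
      have h1 := ch_empty_const h x
      have h2 := ch_empty_const h y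
      rw [hx] at h1; rw [hy] at h2
      rw [← h2] at h1
      revert h1; decide
    have h2 := two_le_card_ch (arcPh_ph x y) hne
    have h3 : ({x, y} : Finset (ZMod T)).card ≤ 2 := card_le_two
    exact (eq_of_subset_of_card_le (arcPh_ch x y) (by omega)).symm.subset
  rw [hch, sum_pair hxy, card_pair hxy, hx, hy]
  push_cast
  simp
  linarith

open MeasureTheory in
/-- differences of values are bounded by the norm -/
lemma sq_le_en (u : ZMod T → ℝ) (x y : ZMod T) : (u x - u y) ^ 2 ≤ en u := by
  have key : ∀ x y : ZMod T, 0 ≤ u x - u y → (u x - u y) ^ 2 ≤ en u := by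
    intro x y h
    set D := u x - u y with hD
    have h1 : ∫ lam in Set.Ioc (0 : ℝ) D, (2 * D - 2 * lam) ≤ ∫ lam in Set.Ioc (0 : ℝ) D, TV lam u := by
      apply setIntegral_mono_on
      · apply (Continuous.integrableOn_Icc (by fun_prop)).mono_set Set.Ioc_subset_Icc_self
      · exact ((continuous_TV u).integrableOn_Icc).mono_set Set.Ioc_subset_Icc_self
      · exact measurableSet_Ioc
      · intro lam hlam
        exact le_TV lam hlam.1.le u x y
    have h2 : ∫ lam in Set.Ioc (0 : ℝ) D, TV lam u ≤ en u := by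
      apply setIntegral_mono_set (integrableOn_TV u)
      · exact Filter.Eventually.of_forall (fun _ => TV_nonneg _ _)
      · exact Filter.Eventually.of_forall (fun _ hx => hx.1)
    have h3 : ∫ lam in Set.Ioc (0 : ℝ) D, (2 * D - 2 * lam) = D ^ 2 := by
      rw [← intervalIntegral.integral_of_le h]
      rw [intervalIntegral.integral_sub (by simp) (by
        apply Continuous.intervalIntegrable; fun_prop)]
      rw [intervalIntegral.integral_const, intervalIntegral.integral_const_mul, integral_id]
      simp; ring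
    linarith
  rcases le_total 0 (u x - u y) with h | h
  · exact key x y h
  · have := key y x (by linarith)
    nlinarith

end

end Pool.Agent.H3NG.Sp
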