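import Pool.Agent.H3NG.Defect

/-!
# Module Transfer

* `transfer`: number of segments of `s` meeting the union `U` of the segments of `s'` with start in `D`
  (`U` = everything if `ch s' = ∅`; then `D = ∅`, `nm ≤ card (ch s) ≤ card (ch σ) + mis σ s`, `mis σ s' = card (ch σ)`).
  Otherwise let the segment `I = [τ, τ + k)` of `s` meet the segment `I' = [τ', τ' + k')`, `τ' ∈ D`.  Then one of
  (a) `τ' ∈ I` (at most `card D` such `τ`, as `τ = root (ch s) τ'`);
  (b) `nxt (ch s') τ' ∈ I` (at most `card D`);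
  (c) `I ⊆ I'` and `I` contains no tick of `σ` (at most `mis σ s` such `τ`);
  (d) `I ⊆ I'` and `I` contains a tick of `σ`; that tick lies in `U`, so there are at most
      `∑ τ' ∈ D, cnt σ s' τ' ≤ card D + mis σ s'` such `τ`.
  [If `τ + i = τ' + i'` with `i < k, i' < k'`: if `i' ≤ i` then `τ' = τ + (i - i')`: case (a).
   If `i < i'` then `τ = τ' + j`, `j = i' - i < k'`; if `j + k ≤ k'` then `I ⊆ I'`, else `τ' + k' = τ + (k' - j)` is in `I`.]
* `nm_NAp_le`: `s4' = s4 z₁ z₂`, `s2' = s2 y₂ x'`.  `D4` = non-aligned starts of `s4'`, `card D4 ≤ apath σ s4 4 _`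
  (`nonaligned_card`); `D2 = {τ ∈ ch s2' : its segment meets NAp}`, `card D2 = nm s2' NAp ≤ 3 card D4 + mis (σ x y₂) s2' +
  mis (σ x y₂) s4'` (`transfer` with the common block `(x, y₂)`; `mis_neg` for the orientation), then `transfer` again
  with the common block `(x, x')`: `nm s NAp ≤ 3 card D2 + mis (σ x x') s + mis (σ x x') s2'`.
  Total `≤ 9 a4 + 3 a4 + 3 a2 + mis (σ x x') s`.
-/

set_option autoImplicit false

open Finset

namespace Pool.Agent.H3NG

variable {T : ℕ} [NeZero T]

theorem nm_mono (s : ZMod T → SignType) {U U' : ZMod T → Prop} (h : ∀ t, U t → U' t) :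
    nm s U ≤ nm s U' := by
  classical
  unfold nm
  refine Finset.card_le_card ?_
  intro τ hτ
  rw [mem_filter] at hτ ⊢
  obtain ⟨h1, t, h2, h3⟩ := hτ
  exact ⟨h1, t, h2, h t h3⟩

private theorem nm_le (s : ZMod T → SignType) (U : ZMod T → Prop) (F : Finset (ZMod T))
    (h : ∀ τ ∈ ch s, (∃ t, root (ch s) t = τ ∧ U t) → τ ∈ F) : nm s U ≤ F.card := by
  classical
  unfold nm
  refine Finset.card_le_card ?_
  intro τ hτ
  rw [mem_filter] at hτ
  exact h τ hτ.1 hτ.2

private theorem tr_zero_card (σ s : ZMod T → SignType) (h : (ch s).Nonempty) :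
    ((ch s).filter (fun τ => cnt σ s τ = 0)).card ≤ mis σ s := by
  classical
  unfold mis
  rw [if_neg h.ne_empty, Finset.card_filter]
  refine Finset.sum_le_sum fun τ _ => ?_
  split_ifs with h0
  · rw [h0]; decide
  · exact Nat.zero_le _

private theorem tr_tick_card (σ s' : ZMod T → SignType) (h : (ch s').Nonempty) (D : Finset (ZMod T))
    (hD : D ⊆ ch s') :
    ((ch σ).filter (fun t => root (ch s') t ∈ D)).card ≤ D.card + mis σ s' := by
  classical
  have h1 : ((ch σ).filter (fun t => root (ch s') t ∈ D)).card = ∑ τ ∈ D, cnt σ s' τ := by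
    rw [Finset.card_eq_sum_card_fiberwise (t := D) (f := root (ch s'))
      (fun t ht => mem_coe.2 (mem_filter.1 ht).2)]
    refine Finset.sum_congr rfl fun τ hτ => ?_
    unfold cnt
    congr 1
    ext t
    simp only [mem_filter]
    constructor
    · rintro ⟨⟨a, -⟩, c⟩
      exact ⟨a, c⟩
    · rintro ⟨a, c⟩
      exact ⟨⟨a, by rw [c]; exact hτ⟩, c⟩
  rw [h1]
  have h2 : ∑ τ ∈ D, cnt σ s' τ ≤ ∑ τ ∈ D, (1 + Int.natAbs ((cnt σ s' τ : ℤ) - 1)) :=
    Finset.sum_le_sum fun τ _ => by omega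
  refine h2.trans ?_
  rw [Finset.sum_add_distrib, Finset.sum_const, smul_eq_mul, mul_one]
  refine Nat.add_le_add_left ?_ _
  unfold mis
  rw [if_neg h.ne_empty]
  exact Finset.sum_le_sum_of_subset hD

theorem transfer (σ s s' : ZMod T → SignType) (D : Finset (ZMod T)) (hD : D ⊆ ch s') :
    nm s (fun t => ch s' = ∅ ∨ root (ch s') t ∈ D) ≤ 3 * D.card + mis σ s + mis σ s' := by
  classical
  rcases (ch s).eq_empty_or_nonempty with hA | hA
  · have h0 := nm_le s (fun t => ch s' = ∅ ∨ root (ch s') t ∈ D) ∅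
      (fun τ hτ _ => by rw [hA] at hτ; exact hτ)
    rw [Finset.card_empty] at h0
    omega
  rcases (ch s').eq_empty_or_nonempty with hA' | hA'
  · have h1 : nm s (fun t => ch s' = ∅ ∨ root (ch s') t ∈ D) ≤ (ch s).card :=
      nm_le s _ _ (fun τ hτ _ => hτ)
    have h2 : mis σ s' = (ch σ).card := by
      unfold mis
      rw [if_pos hA']
    have h3 : (ch s).card ≤ mis σ s + (ch σ).card := by
      rw [← sum_cnt σ hA]
      unfold mis
      rw [if_neg hA.ne_empty, ← Finset.sum_add_distrib, Finset.card_eq_sum_ones]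
      exact Finset.sum_le_sum fun τ _ => by omega
    omega
  · have hsub : ∀ τ ∈ ch s, (∃ t, root (ch s) t = τ ∧ (ch s' = ∅ ∨ root (ch s') t ∈ D)) →
        τ ∈ ((D.image (root (ch s)) ∪ D.image (fun τ' => root (ch s) (nxt (ch s') τ'))) ∪
          (ch s).filter (fun τ => cnt σ s τ = 0)) ∪
          ((ch σ).filter (fun t => root (ch s') t ∈ D)).image (root (ch s)) := by
      rintro τ hτA ⟨t, ht, htD⟩
      have htD' : root (ch s') t ∈ D := by
        rcases htD with h | h
        · exact absurd h hA'.ne_empty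
        · exact h
      obtain ⟨i, hi, hti⟩ := exists_root_add hA t
      obtain ⟨i', hi', hti'⟩ := exists_root_add hA' t
      rw [ht] at hi hti
      set τ' := root (ch s') t with hτ'
      have hτ'A : τ' ∈ ch s' := hD htD'
      simp only [mem_union]
      by_cases hii : i' ≤ i
      · left; left; left
        rw [mem_image]
        refine ⟨τ', htD', ?_⟩
        have h1 : τ' = τ + ((i - i' : ℕ) : ZMod T) := by
          rw [Nat.cast_sub hii]
          linear_combination hti - hti'
        rw [h1]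
        exact root_add hτA (by omega)
      · have hii' : i < i' := not_le.1 hii
        have h1 : τ = τ' + ((i' - i : ℕ) : ZMod T) := by
          rw [Nat.cast_sub hii'.le]
          linear_combination hti' - hti
        by_cases hjk : (i' - i) + up (ch s) τ ≤ up (ch s') τ'
        · by_cases h0 : cnt σ s τ = 0
          · left; right
            exact mem_filter.2 ⟨hτA, h0⟩
          · right
            rw [mem_image]
            have h0' : 0 < cnt σ s τ := Nat.pos_of_ne_zero h0
            unfold cnt at h0'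
            obtain ⟨t1, ht1⟩ := Finset.card_pos.1 h0'
            rw [mem_filter] at ht1
            refine ⟨t1, ?_, ht1.2⟩
            rw [mem_filter]
            refine ⟨ht1.1, ?_⟩
            obtain ⟨l, hl, htl⟩ := exists_root_add hA t1
            rw [ht1.2] at hl htl
            have h2 : t1 = τ' + ((i' - i + l : ℕ) : ZMod T) := by
              rw [htl, Nat.cast_add, ← add_assoc, ← h1]
            rw [h2, root_add hτ'A (by omega)]
            exact htD'
        · left; left; right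
          rw [mem_image]
          refine ⟨τ', htD', ?_⟩
          have h2 : nxt (ch s') τ' = τ + ((up (ch s') τ' - (i' - i) : ℕ) : ZMod T) := by
            have h3 : i' - i ≤ up (ch s') τ' := by omega
            rw [Nat.cast_sub h3, h1]
            unfold nxt
            ring
          show root (ch s) (nxt (ch s') τ') = τ
          rw [h2]
          exact root_add hτA (by omega)
    have h1 := nm_le s (fun t => ch s' = ∅ ∨ root (ch s') t ∈ D) _ hsub
    refine h1.trans ?_
    refine (Finset.card_union_le _ _).trans ?_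
    have e1 := Finset.card_union_le (D.image (root (ch s)) ∪
      D.image (fun τ' => root (ch s) (nxt (ch s') τ'))) ((ch s).filter (fun τ => cnt σ s τ = 0))
    have e2 := Finset.card_union_le (D.image (root (ch s)))
      (D.image (fun τ' => root (ch s) (nxt (ch s') τ')))
    have e3 : (D.image (root (ch s))).card ≤ D.card := Finset.card_image_le
    have e4 : (D.image (fun τ' => root (ch s) (nxt (ch s') τ'))).card ≤ D.card :=
      Finset.card_image_le
    have e5 : (((ch σ).filter (fun t => root (ch s') t ∈ D)).image (root (ch s))).card ≤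
        ((ch σ).filter (fun t => root (ch s') t ∈ D)).card := Finset.card_image_le
    have e6 := tr_zero_card σ s hA
    have e7 := tr_tick_card σ s' hA' D hD
    omega

variable {V : Type} [Fintype V]

theorem nm_NAp_le {σ s2 s4 : V → V → ZMod T → SignType} (hσ : Sig σ)
    (h2 : ∀ x y, Ph (s2 x y)) (h4 : ∀ x y, Ph (s4 x y)) (s : ZMod T → SignType)
    (x x' y₁ z₁ y₂ z₂ : V) :
    (nm s (NAp σ s4 4 (p5 z₁ y₁ x y₂ z₂)) : ℝ) ≤
      12 * apath σ s4 4 (p5 z₁ y₁ x y₂ z₂) + 3 * apath σ s2 2 (p3 y₂ x x') + mis (σ x x') s := by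
  classical
  set z : ℕ → V := p5 z₁ y₁ x y₂ z₂ with hz
  have hs4 : s4 (z 0) (z 4) = s4 z₁ z₂ := rfl
  -- non-aligned starts of the path of length four
  set D4 : Finset (ZMod T) := (ch (s4 z₁ z₂)).filter
    (fun τ => ∃ j < 4, ¬ al (σ (z j) (z (j + 1))) (s4 z₁ z₂) τ) with hD4
  have hD4s : D4 ⊆ ch (s4 z₁ z₂) := Finset.filter_subset _ _
  have hD4c : (D4.card : ℝ) ≤ apath σ s4 4 z := by
    have h := nonaligned_card 4 (fun j => σ (z j) (z (j + 1))) (s4 z₁ z₂) D4 hD4s
      (fun τ hτ => (mem_filter.1 hτ).2)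
    exact h
  have hNA : ∀ t, NAp σ s4 4 z t → (ch (s4 z₁ z₂) = ∅ ∨ root (ch (s4 z₁ z₂)) t ∈ D4) := by
    intro t ht
    rcases (ch (s4 z₁ z₂)).eq_empty_or_nonempty with he | he
    · exact Or.inl he
    · right
      rcases ht with h | h
      · exact absurd h he.ne_empty
      · rw [hD4, mem_filter]
        exact ⟨root_mem he t, h⟩
  set D2 : Finset (ZMod T) := (ch (s2 y₂ x')).filter
    (fun τ => ∃ t, root (ch (s2 y₂ x')) t = τ ∧ NAp σ s4 4 z t) with hD2
  have hD2s : D2 ⊆ ch (s2 y₂ x') := Finset.filter_subset _ _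
  have hD2c : D2.card ≤ 3 * D4.card + mis (σ x y₂) (s2 y₂ x') + mis (σ x y₂) (s4 z₁ z₂) := by
    have e1 : D2.card = nm (s2 y₂ x') (NAp σ s4 4 z) := by
      unfold nm
      rw [hD2]
    rw [e1]
    exact (nm_mono _ hNA).trans (transfer (σ x y₂) (s2 y₂ x') (s4 z₁ z₂) D4 hD4s)
  have hN2 : ∀ t, NAp σ s4 4 z t → (ch (s2 y₂ x') = ∅ ∨ root (ch (s2 y₂ x')) t ∈ D2) := by
    intro t ht
    rcases (ch (s2 y₂ x')).eq_empty_or_nonempty with he | he
    · exact Or.inl he
    · right
      rw [hD2, mem_filter]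
      exact ⟨root_mem he t, t, rfl, ht⟩
  have hmain : nm s (NAp σ s4 4 z) ≤ 3 * D2.card + mis (σ x x') s + mis (σ x x') (s2 y₂ x') :=
    (nm_mono _ hN2).trans (transfer (σ x x') s (s2 y₂ x') D2 hD2s)
  have hmis : mis (σ x y₂) (s2 y₂ x') = mis (σ y₂ x) (s2 y₂ x') := by
    have : σ x y₂ = fun t => - σ y₂ x t := by
      funext t
      exact hσ.anti y₂ x t
    rw [this, mis_neg]
  have ha4 : (mis (σ x y₂) (s4 z₁ z₂) : ℝ) ≤ apath σ s4 4 z := by
    have h : aa (σ (z 2) (z (2 + 1))) (s4 (z 0) (z 4)) ≤ apath σ s4 4 z := by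
      unfold apath
      refine Finset.single_le_sum (f := fun j => aa (σ (z j) (z (j + 1))) (s4 (z 0) (z 4)))
        (fun j _ => ?_) (mem_range.2 (by norm_num : (2 : ℕ) < 4))
      unfold aa
      positivity
    refine le_trans ?_ h
    show (mis (σ x y₂) (s4 z₁ z₂) : ℝ) ≤ (mis (σ x y₂) (s4 z₁ z₂) : ℝ) + bt (σ x y₂) (s4 z₁ z₂)
    have : (0 : ℝ) ≤ (bt (σ x y₂) (s4 z₁ z₂) : ℝ) := by positivity
    linarith
  have ha2 : (mis (σ y₂ x) (s2 y₂ x') : ℝ) + mis (σ x x') (s2 y₂ x') ≤
      apath σ s2 2 (p3 y₂ x x') := by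
    unfold apath
    rw [Finset.sum_range_succ, Finset.sum_range_one]
    show (mis (σ y₂ x) (s2 y₂ x') : ℝ) + mis (σ x x') (s2 y₂ x') ≤
      ((mis (σ y₂ x) (s2 y₂ x') : ℝ) + bt (σ y₂ x) (s2 y₂ x')) +
      ((mis (σ x x') (s2 y₂ x') : ℝ) + bt (σ x x') (s2 y₂ x'))
    have e1 : (0 : ℝ) ≤ (bt (σ y₂ x) (s2 y₂ x') : ℝ) := by positivity
    have e2 : (0 : ℝ) ≤ (bt (σ x x') (s2 y₂ x') : ℝ) := by positivity
    linarith
  have hD2c' : (D2.card : ℝ) ≤ 3 * D4.card + mis (σ x y₂) (s2 y₂ x') + mis (σ x y₂) (s4 z₁ z₂) := by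
    exact_mod_cast hD2c
  have hmain' : (nm s (NAp σ s4 4 z) : ℝ) ≤
      3 * D2.card + mis (σ x x') s + mis (σ x x') (s2 y₂ x') := by
    exact_mod_cast hmain
  rw [hmis] at hD2c'
  have e3 : (0 : ℝ) ≤ (mis (σ x x') (s2 y₂ x') : ℝ) := by positivity
  linarith

end Pool.Agent.H3NG
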